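import Pool.Agent.LFS.St

/-!
# Many factors: a homogeneous basis of the tangent fields (helper77)
-/

set_option autoImplicit false

noncomputable section

namespace Pool.Agent.LFS

open scoped Polynomial
open MvPolynomial Pool.Agent.Helper28.Nij Pool.Agent.LFD

namespace Basx

variable {ι : Type} [Fintype ι] [DecidableEq ι]

/-- The tangent matrices. -/
def Tn (h : MvPolynomial ι ℝ) : Submodule ℝ (Matrix ι ι ℝ) where
  carrier := {A | h ∣ der A h}
  add_mem' := by
    intro a b ha hb
    change h ∣ der (a + b) h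
    rw [der_add]
    exact dvd_add ha hb
  zero_mem' := by
    change h ∣ der (0 : Matrix ι ι ℝ) h
    have : der (0 : Matrix ι ι ℝ) h = 0 := by
      simp [der, fld]
    rw [this]
    exact dvd_zero _
  smul_mem' := by
    intro c a ha
    change h ∣ der (c • a) h
    rw [der_smul]
    exact dvd_mul_of_dvd_right ha _

theorem mem_Tn (h : MvPolynomial ι ℝ) (A : Matrix ι ι ℝ) : A ∈ Tn h ↔ h ∣ der A h := Iff.rfl

/-- The same weight. -/
def sw (h : MvPolynomial ι ℝ) (a b : ι × ι) : Prop := ∀ d ∈ Tor h, d a.1 - d a.2 = d b.1 - d b.2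

theorem sw_refl (h : MvPolynomial ι ℝ) (a : ι × ι) : sw h a a := fun _ _ => rfl

theorem sw_symm {h : MvPolynomial ι ℝ} {a b : ι × ι} (k : sw h a b) : sw h b a :=
  fun d hd => (k d hd).symm

theorem sw_trans {h : MvPolynomial ι ℝ} {a b c : ι × ι} (k : sw h a b) (l : sw h b c) : sw h a c :=
  fun d hd => (k d hd).trans (l d hd)

open scoped Classical in
/-- The part of `A` of the weight of `a`. -/
def ct (h : MvPolynomial ι ℝ) (a : ι × ι) (A : Matrix ι ι ℝ) : Matrix ι ι ℝ :=
  Matrix.of fun i j => if sw h (i, j) a then A i j else 0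

theorem ad_apply (d : ι → ℝ) (A : Matrix ι ι ℝ) (i j : ι) :
    (Matrix.diagonal d * A - A * Matrix.diagonal d) i j = (d i - d j) * A i j := by
  rw [Matrix.sub_apply, Matrix.diagonal_mul, Matrix.mul_diagonal]
  ring

theorem ad_mem {h : MvPolynomial ι ℝ} (d : ι → ℝ) (hd : d ∈ Tor h) (A : Matrix ι ι ℝ)
    (hA : A ∈ Tn h) : Matrix.diagonal d * A - A * Matrix.diagonal d ∈ Tn h :=
  all_Com.2 ι h A (Matrix.diagonal d) hA hd

theorem mult (h : MvPolynomial ι ℝ) (a : ι × ι) (P : Finset (ι × ι)) :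
    (∀ b ∈ P, ¬ sw h b a) → ∃ m : ι → ι → ℝ, (∀ i j, sw h (i, j) a → m i j = 1) ∧
      (∀ b ∈ P, m b.1 b.2 = 0) ∧ ∀ A ∈ Tn h, (Matrix.of fun i j => m i j * A i j) ∈ Tn h := by
  induction P using Finset.induction_on with
  | empty =>
    intro _
    refine ⟨fun _ _ => 1, fun _ _ _ => rfl, fun b hb => absurd hb (Finset.notMem_empty b), ?_⟩
    intro A hA
    have e : (Matrix.of fun i j => (1 : ℝ) * A i j) = A := by
      ext i j
      rw [Matrix.of_apply, one_mul]
    rw [e]
    exact hA
  | insert b P _ ih =>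
    intro hb
    obtain ⟨m, h1, h2, h3⟩ := ih fun c hc => hb c (Finset.mem_insert_of_mem hc)
    have hb' := hb b (Finset.mem_insert_self b P)
    unfold sw at hb'
    push Not at hb'
    obtain ⟨d, hd, hne⟩ := hb'
    have hne' : (d a.1 - d a.2) - (d b.1 - d b.2) ≠ 0 := fun h0 => hne (by linarith)
    refine ⟨fun i j => ((d a.1 - d a.2) - (d b.1 - d b.2))⁻¹ *
      ((d i - d j) - (d b.1 - d b.2)) * m i j, ?_, ?_, ?_⟩
    · intro i j hij
      have e := hij d hd
      simp only at e
      beta_reduce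
      rw [h1 i j hij, e, mul_one, inv_mul_cancel₀ hne']
    · intro c hc
      beta_reduce
      rcases Finset.mem_insert.1 hc with rfl | hc
      · rw [sub_self, mul_zero, zero_mul]
      · rw [h2 c hc, mul_zero]
    · intro A hA
      have h4 := h3 A hA
      have h5 := ad_mem d hd _ h4
      have h6 := (Tn h).smul_mem (((d a.1 - d a.2) - (d b.1 - d b.2))⁻¹)
        ((Tn h).sub_mem h5 ((Tn h).smul_mem (d b.1 - d b.2) h4))
      have e : (Matrix.of fun i j => ((d a.1 - d a.2) - (d b.1 - d b.2))⁻¹ *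
          ((d i - d j) - (d b.1 - d b.2)) * m i j * A i j) =
          ((d a.1 - d a.2) - (d b.1 - d b.2))⁻¹ •
          ((Matrix.diagonal d * (Matrix.of fun i j => m i j * A i j) -
            (Matrix.of fun i j => m i j * A i j) * Matrix.diagonal d) -
            (d b.1 - d b.2) • (Matrix.of fun i j => m i j * A i j)) := by
        ext i j
        rw [Matrix.smul_apply, Matrix.sub_apply, Matrix.smul_apply, ad_apply, Matrix.of_apply,
          Matrix.of_apply, smul_eq_mul, smul_eq_mul]
        ring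
      rw [e]
      exact h6

theorem ct_mem (h : MvPolynomial ι ℝ) (a : ι × ι) (A : Matrix ι ι ℝ) (hA : A ∈ Tn h) :
    ct h a A ∈ Tn h := by
  classical
  obtain ⟨m, h1, h2, h3⟩ := mult h a (Finset.univ.filter fun b => ¬ sw h b a)
    (fun b hb => (Finset.mem_filter.1 hb).2)
  have h4 := h3 A hA
  have e : (Matrix.of fun i j => m i j * A i j) = ct h a A := by
    ext i j
    unfold ct
    rw [Matrix.of_apply, Matrix.of_apply]
    by_cases hij : sw h (i, j) a
    · rw [if_pos hij, h1 i j hij, one_mul]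
    · rw [if_neg hij, h2 (i, j) (Finset.mem_filter.2 ⟨Finset.mem_univ _, hij⟩), zero_mul]
  rw [← e]
  exact h4

theorem sum_ct (h : MvPolynomial ι ℝ) (A : Matrix ι ι ℝ) (V : Submodule ℝ (Matrix ι ι ℝ))
    (hV : ∀ a, ct h a A ∈ V) : A ∈ V := by
  classical
  have e : A = ∑ a : ι × ι, (((Finset.univ.filter fun b => sw h b a).card : ℝ))⁻¹ • ct h a A := by
    ext i j
    rw [Matrix.sum_apply]
    have e1 : ∀ a : ι × ι, ((((Finset.univ.filter fun b => sw h b a).card : ℝ))⁻¹ • ct h a A) i j =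
        if sw h (i, j) a then ((((Finset.univ.filter fun b => sw h b (i, j)).card : ℝ))⁻¹ * A i j)
        else 0 := by
      intro a
      rw [Matrix.smul_apply, smul_eq_mul]
      unfold ct
      rw [Matrix.of_apply]
      by_cases ha : sw h (i, j) a
      · rw [if_pos ha, if_pos ha]
        congr 3
        refine congrArg Finset.card (Finset.filter_congr fun b _ => ?_)
        exact ⟨fun k => sw_trans k (sw_symm ha), fun k => sw_trans k ha⟩
      · rw [if_neg ha, if_neg ha, mul_zero]
    rw [Finset.sum_congr rfl fun a _ => e1 a, ← Finset.sum_filter, Finset.sum_const, nsmul_eq_mul,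
      ← mul_assoc]
    have e2 : (Finset.univ.filter fun a => sw h (i, j) a) =
        (Finset.univ.filter fun b => sw h b (i, j)) := by
      refine Finset.filter_congr fun b _ => ?_
      exact ⟨fun k => sw_symm k, fun k => sw_symm k⟩
    rw [e2, mul_inv_cancel₀, one_mul]
    have hne : (Finset.univ.filter fun b => sw h b (i, j)).Nonempty :=
      ⟨(i, j), Finset.mem_filter.2 ⟨Finset.mem_univ _, sw_refl h _⟩⟩
    exact_mod_cast (Finset.card_pos.2 hne).ne'
  rw [e]
  exact V.sum_mem fun a _ => V.smul_mem _ (hV a)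

/-- A matrix of nonzero weight is nilpotent. -/
theorem nil (d : ι → ℝ) (A : Matrix ι ι ℝ) (α : ℝ) (hα : α ≠ 0)
    (h : Matrix.diagonal d * A - A * Matrix.diagonal d = α • A) : Ig A := by
  have h1 : ∀ n : ℕ, Matrix.diagonal d * A ^ n - A ^ n * Matrix.diagonal d =
      ((n : ℝ) * α) • A ^ n := by
    intro n
    induction n with
    | zero => simp
    | succ n ih =>
      have e : Matrix.diagonal d * A ^ (n + 1) - A ^ (n + 1) * Matrix.diagonal d =
          (Matrix.diagonal d * A ^ n - A ^ n * Matrix.diagonal d) * A +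
          A ^ n * (Matrix.diagonal d * A - A * Matrix.diagonal d) := by
        rw [pow_succ]
        noncomm_ring
      rw [e, ih, h, Matrix.smul_mul, Matrix.mul_smul, ← pow_succ, ← add_smul]
      congr 1
      push_cast
      ring
  obtain ⟨n, hn⟩ := exists_nat_gt (∑ i, ∑ j, |(d i - d j) / α|)
  have hA : A ^ n = 0 := by
    ext i j
    have h2 := congrFun (congrFun (h1 n) i) j
    rw [ad_apply, Matrix.smul_apply, smul_eq_mul] at h2
    have h3 : ((d i - d j) - (n : ℝ) * α) * (A ^ n) i j = 0 := by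
      rw [sub_mul, h2, sub_self]
    rcases mul_eq_zero.1 h3 with h4 | h4
    · exfalso
      have h5 : (d i - d j) / α = n := by
        rw [div_eq_iff hα]
        linarith
      have h6 : |(d i - d j) / α| ≤ ∑ i, ∑ j, |(d i - d j) / α| := by
        refine le_trans (Finset.single_le_sum (f := fun j => |(d i - d j) / α|)
          (fun _ _ => abs_nonneg _) (Finset.mem_univ j)) ?_
        exact Finset.single_le_sum (f := fun i => ∑ j, |(d i - d j) / α|)
          (fun _ _ => Finset.sum_nonneg fun _ _ => abs_nonneg _) (Finset.mem_univ i)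
      rw [h5, abs_of_nonneg (Nat.cast_nonneg n)] at h6
      linarith
    · rw [h4, Matrix.zero_apply]
  intro z v hv hz
  have h7 : ∀ k : ℕ, ((A.map (algebraMap ℝ ℂ)) ^ k).mulVec v = z ^ k • v := by
    intro k
    induction k with
    | zero => rw [pow_zero, pow_zero, Matrix.one_mulVec, one_smul]
    | succ k ih =>
      rw [pow_succ, ← Matrix.mulVec_mulVec, hz, Matrix.mulVec_smul, ih, smul_smul, pow_succ, mul_comm]
  have h8 : (A.map (algebraMap ℝ ℂ)) ^ n = 0 := by
    have e := map_pow (algebraMap ℝ ℂ).mapMatrix A n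
    rw [hA, map_zero] at e
    exact e.symm
  have h9 := h7 n
  rw [h8, Matrix.zero_mulVec] at h9
  have h10 : z ^ n = 0 := by
    rcases smul_eq_zero.1 h9.symm with h11 | h11
    · exact h11
    · exact absurd h11 hv
  have h11 : z = 0 := by
    by_contra hz0
    exact pow_ne_zero n hz0 h10
  rw [h11]
  rfl

/-- The good matrices. -/
def Gd (h : MvPolynomial ι ℝ) : Set (Matrix ι ι ℝ) :=
  {Y | h ∣ der Y h ∧ (∀ d ∈ Tor h, ∃ c : ℝ, Matrix.diagonal d * Y - Y * Matrix.diagonal d = c • Y) ∧
    ((∃ d, Y = Matrix.diagonal d) ∨ Ig Y)}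

theorem zero_Gd (h : MvPolynomial ι ℝ) : (0 : Matrix ι ι ℝ) ∈ Gd h :=
  ⟨(Tn h).zero_mem, fun d _ => ⟨0, by simp⟩, Or.inl ⟨0, by simp⟩⟩

theorem span_Gd (hHyp : St_Hyp) (h : MvPolynomial ι ℝ) (hM : Mx h) (A : Matrix ι ι ℝ)
    (hA : A ∈ Tn h) : A ∈ Submodule.span ℝ (Gd h) := by
  refine sum_ct h A _ fun a => ?_
  have hB := ct_mem h a A hA
  have hw : ∀ d ∈ Tor h, Matrix.diagonal d * ct h a A - ct h a A * Matrix.diagonal d =
      (d a.1 - d a.2) • ct h a A := by
    intro d hd
    ext i j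
    rw [ad_apply, Matrix.smul_apply, smul_eq_mul]
    unfold ct
    rw [Matrix.of_apply]
    split_ifs with hij
    · rw [hij d hd]
    · rw [mul_zero, mul_zero]
  generalize ct h a A = B at hB hw
  by_cases h0 : ∀ d ∈ Tor h, d a.1 - d a.2 = 0
  · have hcomm : ∀ d ∈ Tor h, Matrix.diagonal d * B = B * Matrix.diagonal d := by
      intro d hd
      have := hw d hd
      rw [h0 d hd, zero_smul] at this
      exact sub_eq_zero.1 this
    obtain ⟨p, hp1, hp2, hp3⟩ := hHyp ι B
    obtain ⟨μ, hμ⟩ := Semx.quot B h hB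
    have hC : Polynomial.aeval B p ∈ Tn h := by
      rw [mem_Tn, hp3 h μ hμ]
      exact dvd_mul_left h _
    have hCc : ∀ d ∈ Tor h, Polynomial.aeval B p * Matrix.diagonal d =
        Matrix.diagonal d * Polynomial.aeval B p := by
      intro d hd
      have h1 : Commute (Matrix.diagonal d) B := hcomm d hd
      have h2 : Commute (Matrix.diagonal d) (Polynomial.aeval B p) := by
        rw [Polynomial.aeval_eq_sum_range]
        exact Commute.sum_right _ _ _ fun i _ => (h1.pow_right i).smul_right _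
      exact h2.symm
    obtain ⟨d', hd'⟩ := hM _ hC hp1 hCc
    have e : B = Polynomial.aeval B p + (B - Polynomial.aeval B p) := by
      rw [add_sub_cancel]
    rw [e]
    refine Submodule.add_mem _ (Submodule.subset_span ⟨hC, fun d hd => ⟨0, ?_⟩, Or.inl ⟨d', hd'⟩⟩)
      (Submodule.subset_span ⟨(Tn h).sub_mem hB hC, fun d hd => ⟨0, ?_⟩, Or.inr hp2⟩)
    · rw [zero_smul, hCc d hd, sub_self]
    · rw [zero_smul, mul_sub, sub_mul, hcomm d hd, hCc d hd, sub_self]
  · push Not at h0
    obtain ⟨d, hd, hne⟩ := h0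
    exact Submodule.subset_span ⟨hB, fun d hd => ⟨_, hw d hd⟩, Or.inr (nil d B _ hne (hw d hd))⟩

theorem choose_Y (S : Set (Matrix ι ι ℝ)) (h0 : (0 : Matrix ι ι ℝ) ∈ S)
    (A : ι → Matrix ι ι ℝ) (hS : S ⊆ Submodule.span ℝ (Set.range A))
    (hA : ∀ k, A k ∈ Submodule.span ℝ S) :
    ∃ Y : ι → Matrix ι ι ℝ, (∀ k, Y k ∈ S) ∧ ∀ k, A k ∈ Submodule.span ℝ (Set.range Y) := by
  classical
  obtain ⟨b, hb, hbs, hbl⟩ := exists_linearIndependent ℝ S
  have hbf : Finite b := hbl.finite
  have hbt : Fintype b := Fintype.ofFinite b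
  have h1 : Module.finrank ℝ (Submodule.span ℝ b) = Fintype.card b := by
    rw [finrank_span_set_eq_card hbl, Set.toFinset_card]
  have h2 : Submodule.span ℝ b ≤ Submodule.span ℝ (Set.range A) := by
    rw [hbs, Submodule.span_le]
    exact hS
  have h3 : Fintype.card b ≤ Fintype.card ι := by
    rw [← h1]
    exact (Submodule.finrank_mono h2).trans (finrank_range_le_card A)
  obtain ⟨e⟩ := Function.Embedding.nonempty_of_card_le h3
  refine ⟨Function.extend e (fun x => x.1) 0, ?_, ?_⟩
  · intro k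
    by_cases hk : ∃ x, e x = k
    · obtain ⟨x, rfl⟩ := hk
      rw [e.injective.extend_apply]
      exact hb x.2
    · rw [Function.extend_apply' _ _ _ hk]
      exact h0
  · intro k
    have h4 := hA k
    rw [← hbs] at h4
    refine Submodule.span_mono ?_ h4
    intro x hx
    exact ⟨e ⟨x, hx⟩, e.injective.extend_apply _ _ _⟩

omit [DecidableEq ι] in
theorem fld_sum (g : ι → ℝ) (A : ι → Matrix ι ι ℝ) (i : ι) :
    fld (∑ k, g k • A k) i = ∑ k, C (g k) * fld (A k) i := by
  have h1 : ∀ k, C (g k) * fld (A k) i = ∑ j, C (g k * A k i j) * X j := by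
    intro k
    rw [fld, Finset.mul_sum]
    refine Finset.sum_congr rfl fun j _ => ?_
    rw [C_mul, mul_assoc]
  rw [Finset.sum_congr rfl fun k _ => h1 k, Finset.sum_comm, fld]
  refine Finset.sum_congr rfl fun j _ => ?_
  rw [← Finset.sum_mul, ← map_sum, Matrix.sum_apply]
  rfl

end Basx

open Basx in
theorem thm_Bas (hHyp : St_Hyp) : St_Bas := by
  classical
  intro ι _ _ h hLF hM
  obtain ⟨hsq, A, hA, c, hc, hdet⟩ := hLF
  have hcom := (all_Com.1 ι h hsq A c hA hc hdet).2
  have hh0 : h ≠ 0 := hsq.ne_zero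
  obtain ⟨Y, hY, hYs⟩ := choose_Y (Gd h) (zero_Gd h) A (by
    intro Z hZ
    obtain ⟨g, hg⟩ := hcom Z hZ.1
    rw [SetLike.mem_coe, hg]
    exact Submodule.sum_mem _ fun k _ => Submodule.smul_mem _ _ (Submodule.subset_span ⟨k, rfl⟩))
    (fun k => span_Gd hHyp h hM (A k) (hA k))
  have hg : ∀ k, ∃ g : ι → ℝ, ∑ j, g j • Y j = A k := fun k =>
    (Submodule.mem_span_range_iff_exists_fun ℝ).1 (hYs k)
  choose g hg using hg
  have hdet2 : (Matrix.of fun k i => fld (A k) i).det =
      C ((Matrix.of g).det) * (Matrix.of fun k i => fld (Y k) i).det := by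
    have e : (Matrix.of fun k i => fld (A k) i) =
        (Matrix.of g).map C * (Matrix.of fun k i => fld (Y k) i) := by
      ext1 k i
      rw [Matrix.of_apply, ← hg k, fld_sum, Matrix.mul_apply]
      rfl
    rw [e, Matrix.det_mul]
    congr 1
    exact (RingHom.map_det C (Matrix.of g)).symm
  rw [hdet] at hdet2
  have hgd : (Matrix.of g).det ≠ 0 := by
    intro h0
    rw [h0, C_0, zero_mul] at hdet2
    rcases mul_eq_zero.1 hdet2 with h1 | h1
    · exact hc (C_injective ι ℝ (by rw [h1, C_0]))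
    · exact hh0 h1
  refine ⟨Y, fun k => (hY k).1, ⟨((Matrix.of g).det)⁻¹ * c, mul_ne_zero (inv_ne_zero hgd) hc, ?_⟩,
    fun k => (hY k).2.1, fun k => (hY k).2.2⟩
  rw [C_mul, mul_assoc, hdet2, ← mul_assoc, ← C_mul, inv_mul_cancel₀ hgd, C_1, one_mul]

end Pool.Agent.LFS
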