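import Pool.Agent.LFS.St

/-!
# Module Chr: at least as many independent diagonal tangent fields as irreducible factors
-/

set_option autoImplicit false

noncomputable section

namespace Pool.Agent.LFS

open scoped Polynomial
open MvPolynomial Pool.Agent.Helper28.Nij Pool.Agent.LFD

namespace Chrx

variable {ι : Type} [Fintype ι]

/-- a prime divisor of `h` is an eigenvector of the tangent fields -/
theorem eig (h g f : MvPolynomial ι ℝ) (hs : Squarefree h) (hf : Prime f) (hh : h = f * g)
    (A : Matrix ι ι ℝ) (hA : h ∣ der A h) : ∃ μ : ℝ, der A f = C μ * f := by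
  apply Semx.quot
  have h1 : f ∣ der A h := (Dvd.intro g hh.symm).trans hA
  rw [← Comx.D_apply, hh, Derivation.leibniz, smul_eq_mul, smul_eq_mul, Comx.D_apply,
    Comx.D_apply] at h1
  have h2 : f ∣ g * der A f := (dvd_add_right (dvd_mul_right f _)).1 h1
  rcases hf.dvd_or_dvd h2 with h3 | h3
  · exfalso
    apply hf.not_isUnit
    apply hs f
    rw [hh]
    exact mul_dvd_mul_left f h3
  · exact h3

theorem com_eig (A B : Matrix ι ι ℝ) (f : MvPolynomial ι ℝ) (a b : ℝ) (hA : der A f = C a * f)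
    (hB : der B f = C b * f) : der (B * A - A * B) f = 0 := by
  rw [← Comx.D_apply, ← Comx.comm, Derivation.commutator_apply]
  rw [← Comx.D_apply] at hA hB
  rw [hA, hB, C_mul', C_mul', Derivation.map_smul, Derivation.map_smul, hA, hB, C_mul', C_mul',
    smul_comm, sub_self]

variable [DecidableEq ι]

theorem step (h : MvPolynomial ι ℝ) {m : ℕ} (f : Fin m → MvPolynomial ι ℝ)
    (hT : ∀ d ∈ Tor h, ∀ i, ∃ ν : ℝ, der (Matrix.diagonal d) (f i) = C ν * f i)
    (A : Matrix ι ι ℝ) (μ : Fin m → ℝ) (hA : h ∣ der A h)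
    (hμ : ∀ i, der A (f i) = C (μ i) * f i) (s : Finset (ι × ι)) :
    ∃ B : Matrix ι ι ℝ, h ∣ der B h ∧ (∀ i, der B (f i) = C (μ i) * f i) ∧
      ∀ x ∈ s, (∃ d ∈ Tor h, d x.1 ≠ d x.2) → B x.1 x.2 = 0 := by
  induction s using Finset.induction_on with
  | empty => exact ⟨A, hA, hμ, by simp⟩
  | insert x s hx ih =>
    obtain ⟨B, hB, hBμ, hBs⟩ := ih
    by_cases hd : ∃ d ∈ Tor h, d x.1 ≠ d x.2
    · obtain ⟨d, hdT, hne⟩ := hd
      have hδ0 : d x.1 - d x.2 ≠ 0 := sub_ne_zero.2 hne
      refine ⟨B + (-(1 / (d x.1 - d x.2))) • (Matrix.diagonal d * B - B * Matrix.diagonal d),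
        ?_, ?_, ?_⟩
      · rw [der_add, der_smul]
        exact dvd_add hB
          (dvd_mul_of_dvd_right (all_Com.2 ι h B (Matrix.diagonal d) hB hdT) _)
      · intro i
        obtain ⟨ν, hν⟩ := hT d hdT i
        rw [der_add, der_smul, com_eig B (Matrix.diagonal d) (f i) (μ i) ν (hBμ i) hν,
          mul_zero, add_zero]
        exact hBμ i
      · intro y hy hy'
        have hent : (B + (-(1 / (d x.1 - d x.2))) •
            (Matrix.diagonal d * B - B * Matrix.diagonal d)) y.1 y.2 =
            B y.1 y.2 * (1 - (d y.1 - d y.2) / (d x.1 - d x.2)) := by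
          rw [Matrix.add_apply, Matrix.smul_apply, Matrix.sub_apply, Matrix.diagonal_mul,
            Matrix.mul_diagonal, smul_eq_mul]
          ring
        rw [hent]
        rcases Finset.mem_insert.1 hy with hyx | hys
        · rw [hyx, div_self hδ0, sub_self, mul_zero]
        · rw [hBs y hys hy', zero_mul]
    · refine ⟨B, hB, hBμ, ?_⟩
      intro y hy hy'
      rcases Finset.mem_insert.1 hy with hyx | hys
      · rw [hyx] at hy'
        exact absurd hy' hd
      · exact hBs y hys hy'

theorem comm_aeval (A B : Matrix ι ι ℝ) (hc : B * A = A * B) (p : ℝ[X]) :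
    Polynomial.aeval B p * A = A * Polynomial.aeval B p := by
  induction p using Polynomial.induction_on' with
  | add p q hp hq => rw [map_add, add_mul, mul_add, hp, hq]
  | monomial n a =>
    rw [Polynomial.aeval_monomial]
    have h1 : Commute B A := hc
    have h3 : Commute (algebraMap ℝ (Matrix ι ι ℝ) a) A := Algebra.commutes a A
    exact h3.mul_left (h1.pow_left n)

/-- every tangent field has the same eigenvalues on the factors as a diagonal one -/
theorem toTor (hHyp : St_Hyp) (h : MvPolynomial ι ℝ) (hM : Mx h) {m : ℕ}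
    (f : Fin m → MvPolynomial ι ℝ)
    (hT : ∀ d ∈ Tor h, ∀ i, ∃ ν : ℝ, der (Matrix.diagonal d) (f i) = C ν * f i)
    (A : Matrix ι ι ℝ) (μ : Fin m → ℝ) (hA : h ∣ der A h)
    (hμ : ∀ i, der A (f i) = C (μ i) * f i) :
    ∃ d ∈ Tor h, ∀ i, der (Matrix.diagonal d) (f i) = C (μ i) * f i := by
  obtain ⟨B, hB, hBμ, hBs⟩ := step h f hT A μ hA hμ Finset.univ
  have hcom : ∀ d ∈ Tor h, B * Matrix.diagonal d = Matrix.diagonal d * B := by
    intro d hd
    ext a b
    rw [Matrix.mul_diagonal, Matrix.diagonal_mul]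
    by_cases hab : d a = d b
    · rw [hab, mul_comm]
    · rw [hBs (a, b) (Finset.mem_univ _) ⟨d, hd, hab⟩, zero_mul, mul_zero]
  obtain ⟨p, hDz, _, hp⟩ := hHyp ι B
  obtain ⟨κ, hκ⟩ := Semx.quot B h hB
  have hA1 : h ∣ der (Polynomial.aeval B p) h := by
    rw [hp h κ hκ]
    exact dvd_mul_left _ _
  obtain ⟨d, hd⟩ := hM _ hA1 hDz (fun d hd => comm_aeval _ _ (hcom d hd) p)
  refine ⟨d, ?_, ?_⟩
  · change h ∣ der (Matrix.diagonal d) h
    rw [← hd]
    exact hA1
  · intro i
    rw [← hd]
    exact hp _ _ (hBμ i)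

/-- independence of the eigenvalue functionals on the tangent fields -/
theorem indep (h : MvPolynomial ι ℝ) (hs : Squarefree h) (A : ι → Matrix ι ι ℝ) (c : ℝ)
    (hc : c ≠ 0) (hdet : (Matrix.of fun k i => fld (A k) i).det = C c * h) {m : ℕ}
    (f : Fin m → MvPolynomial ι ℝ) (hf : ∀ i, Prime (f i)) (hfh : (∏ i, f i) ∣ h)
    (μ : ι → Fin m → ℝ) (hμ : ∀ k i, der (A k) (f i) = C (μ k i) * f i) (e : Fin m → ℝ)
    (he : ∀ k, ∑ i, e i * μ k i = 0) : ∀ i, e i = 0 := by
  have hh0 := hs.ne_zero
  have hdet0 : (Matrix.of fun k i => fld (A k) i).det ≠ 0 := by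
    rw [hdet]
    refine mul_ne_zero ?_ hh0
    rwa [Ne, C_eq_zero]
  have hw : (fun j => ∑ i, C (e i) * pderiv j (f i) * ∏ l ∈ Finset.univ.erase i, f l) = 0 := by
    apply Matrix.eq_zero_of_mulVec_eq_zero hdet0
    funext k
    rw [Matrix.mulVec, dotProduct]
    simp only [Matrix.of_apply, Pi.zero_apply]
    have h1 : ∀ i, ∑ j, fld (A k) j * (C (e i) * pderiv j (f i) *
        ∏ l ∈ Finset.univ.erase i, f l) = C (e i * μ k i) * ∏ l, f l := by
      intro i
      have h2 : ∑ j, fld (A k) j * (C (e i) * pderiv j (f i) *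
          ∏ l ∈ Finset.univ.erase i, f l) =
          C (e i) * der (A k) (f i) * ∏ l ∈ Finset.univ.erase i, f l := by
        rw [der, Finset.mul_sum, Finset.sum_mul]
        refine Finset.sum_congr rfl fun j _ => by ring
      rw [h2, hμ, ← Finset.mul_prod_erase Finset.univ f (Finset.mem_univ i), C_mul]
      ring
    simp only [Finset.mul_sum]
    rw [Finset.sum_comm, Finset.sum_congr rfl (fun i _ => h1 i), ← Finset.sum_mul, ← map_sum,
      he k, C_0, zero_mul]
  intro i
  by_contra hi
  obtain ⟨j, hj⟩ := Saix.exists_not_dvd (f i) (hf i)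
  have h1 := congrFun hw j
  simp only [Pi.zero_apply] at h1
  rw [← Finset.add_sum_erase Finset.univ _ (Finset.mem_univ i)] at h1
  have h2 : f i ∣ ∑ l ∈ Finset.univ.erase i, (C (e l) * pderiv j (f l) *
      ∏ l' ∈ Finset.univ.erase l, f l') := by
    refine Finset.dvd_sum fun l hl => ?_
    have h3 : i ∈ Finset.univ.erase l :=
      Finset.mem_erase.2 ⟨(Finset.ne_of_mem_erase hl).symm, Finset.mem_univ i⟩
    exact dvd_mul_of_dvd_right (Finset.dvd_prod_of_mem f h3) _
  have h3 : f i ∣ C (e i) * pderiv j (f i) * ∏ l ∈ Finset.univ.erase i, f l := by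
    refine (dvd_add_left h2).1 ?_
    rw [h1]
    exact dvd_zero _
  rcases (hf i).dvd_or_dvd h3 with h4 | h4
  · rcases (hf i).dvd_or_dvd h4 with h5 | h5
    · exact (hf i).not_isUnit (isUnit_of_dvd_unit h5 ((IsUnit.mk0 _ hi).map C))
    · exact hj h5
  · apply (hf i).not_isUnit
    apply hs (f i)
    refine dvd_trans ?_ hfh
    rw [← Finset.mul_prod_erase Finset.univ f (Finset.mem_univ i)]
    exact mul_dvd_mul_left _ h4

end Chrx

theorem thm_Chr (hHyp : St_Hyp) : St_Chr := by
  intro ι _ _ h hL hM m f hirr hfh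
  obtain ⟨hs, A, hA, c, hc, hdet⟩ := hL
  have hf : ∀ i, Prime (f i) := fun i => (hirr i).prime
  have heig : ∀ B, h ∣ der B h → ∀ i, ∃ μ : ℝ, der B (f i) = C μ * f i := by
    intro B hB i
    obtain ⟨g, hg⟩ : f i ∣ h := (Finset.dvd_prod_of_mem f (Finset.mem_univ i)).trans hfh
    exact Chrx.eig h g (f i) hs (hf i) hg B hB
  have hT : ∀ d ∈ Tor h, ∀ i, ∃ ν : ℝ, der (Matrix.diagonal d) (f i) = C ν * f i :=
    fun d hd i => heig _ hd i
  have huniq : ∀ (i : Fin m) (a b : ℝ), C a * f i = C b * f i → a = b := by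
    intro i a b hab
    exact C_injective ι ℝ (mul_right_cancel₀ (hf i).ne_zero hab)
  choose lam hlam using hT
  let L : Tor h →ₗ[ℝ] (Fin m → ℝ) :=
    { toFun := fun d => lam d.1 d.2
      map_add' := by
        intro a b
        funext i
        apply huniq i
        rw [← hlam, Pi.add_apply, C_add, add_mul, ← hlam, ← hlam, ← der_add,
          Matrix.diagonal_add]
        rfl
      map_smul' := by
        intro r a
        funext i
        apply huniq i
        rw [← hlam, RingHom.id_apply, Pi.smul_apply, smul_eq_mul, C_mul, mul_assoc, ← hlam,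
          ← der_smul, ← Matrix.diagonal_smul]
        rfl }
  have hrange : LinearMap.range L = ⊤ := by
    by_contra hne
    obtain ⟨φ, hφ0, hφ⟩ := Submodule.exists_le_ker_of_lt_top _ (lt_top_iff_ne_top.2 hne)
    choose μ hμ using fun k => heig (A k) (hA k)
    have hker : ∀ k, φ (μ k) = 0 := by
      intro k
      obtain ⟨d, hd, hdμ⟩ := Chrx.toTor hHyp h hM f (fun d hd i => ⟨_, hlam d hd i⟩) (A k) (μ k)
        (hA k) (hμ k)
      have h1 : L ⟨d, hd⟩ = μ k := by
        funext i
        apply huniq i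
        rw [← hdμ i]
        exact (hlam d hd i).symm
      rw [← h1]
      exact hφ (LinearMap.mem_range_self L _)
    have h2 := Chrx.indep h hs A c hc hdet f hf hfh μ hμ
      (fun i => φ (fun j => if i = j then 1 else 0)) (by
        intro k
        have h3 := LinearMap.pi_apply_eq_sum_univ φ (μ k)
        refine Eq.trans ?_ (h3.symm.trans (hker k))
        refine Finset.sum_congr rfl fun i _ => ?_
        rw [smul_eq_mul, mul_comm])
    apply hφ0
    ext x
    simp only [LinearMap.coe_comp, LinearMap.coe_single, Function.comp_apply,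
      LinearMap.zero_apply]
    rw [LinearMap.pi_apply_eq_sum_univ φ]
    refine Finset.sum_eq_zero fun i _ => ?_
    rw [h2 i, smul_zero]
  have h4 : Module.finrank ℝ (LinearMap.range L) ≤ Module.finrank ℝ (Tor h) :=
    LinearMap.finrank_range_le L
  rw [hrange, finrank_top, Module.finrank_fin_fun] at h4
  exact h4

end Pool.Agent.LFS
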