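import Pool.Agent.LFS.St

/-!
# LFS, module Cnt: few relations with at most four coordinates leave at least three components

The clusters are the fibres of a map `q : ι → ι`; a label `x` is good for `(q, W)` if `W` contains
some `e_a - e_b` with `a ≠ b` in the cluster of `x`. Invariant: `N + #good ≤ 3 dim W + #clusters`.
-/

set_option autoImplicit false

noncomputable section

namespace Pool.Agent.LFS

open scoped Polynomial
open MvPolynomial Pool.Agent.Helper28.Nij Pool.Agent.LFD

namespace Cntx

variable {ι : Type} [Fintype ι] [DecidableEq ι]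

open Classical in
/-- restriction to the set `A` -/
def rs (A : Set ι) : (ι → ℝ) →ₗ[ℝ] (ι → ℝ) where
  toFun w := fun a => if a ∈ A then w a else 0
  map_add' u v := by
    funext a
    by_cases h : a ∈ A <;> simp [h]
  map_smul' c v := by
    funext a
    by_cases h : a ∈ A <;> simp [h]

/-- the coordinate sum over the set `A` -/
def sm (A : Set ι) : (ι → ℝ) →ₗ[ℝ] ℝ where
  toFun w := ∑ a, rs A w a
  map_add' u v := by
    rw [map_add, ← Finset.sum_add_distrib]
    rfl
  map_smul' c v := by
    rw [map_smul, RingHom.id_apply, smul_eq_mul, Finset.mul_sum]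
    rfl

theorem rs_mem {A : Set ι} {a : ι} (h : a ∈ A) (w : ι → ℝ) : rs A w a = w a := by
  simp [rs, h]

theorem rs_not {A : Set ι} {a : ι} (h : a ∉ A) (w : ι → ℝ) : rs A w a = 0 := by
  simp [rs, h]

/-- `e_a` -/
abbrev e (a : ι) : ι → ℝ := Pi.single a 1

theorem e_self (a : ι) : e a a = 1 := Pi.single_eq_same a 1

theorem e_ne {a b : ι} (h : a ≠ b) : e b a = 0 := Pi.single_eq_of_ne h 1

theorem sm_e_mem {A : Set ι} {a : ι} (h : a ∈ A) : sm A (e a) = 1 := by
  show ∑ b, rs A (e a) b = 1
  rw [Finset.sum_eq_single a]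
  · rw [rs_mem h, e_self]
  · intro b _ hb
    by_cases hbA : b ∈ A
    · rw [rs_mem hbA, e_ne hb]
    · rw [rs_not hbA]
  · intro h1
    exact absurd (Finset.mem_univ a) h1

theorem sm_e_not {A : Set ι} {a : ι} (h : a ∉ A) : sm A (e a) = 0 := by
  show ∑ b, rs A (e a) b = 0
  refine Finset.sum_eq_zero fun b _ => ?_
  by_cases hbA : b ∈ A
  · rw [rs_mem hbA, e_ne (fun hh => h (by rw [← hh]; exact hbA))]
  · rw [rs_not hbA]

theorem rs_e_mem {A : Set ι} {a : ι} (h : a ∈ A) : rs A (e a) = e a := by
  funext b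
  by_cases hbA : b ∈ A
  · rw [rs_mem hbA]
  · rw [rs_not hbA, e_ne (fun hh => hbA (by rw [hh]; exact h))]

theorem rs_e_not {A : Set ι} {a : ι} (h : a ∉ A) : rs A (e a) = 0 := by
  funext b
  by_cases hbA : b ∈ A
  · rw [rs_mem hbA, e_ne (fun hh => h (by rw [← hh]; exact hbA))]
    rfl
  · rw [rs_not hbA]
    rfl

/-- the label `x` is good -/
def Gd (q : ι → ι) (W : Submodule ℝ (ι → ℝ)) (x : ι) : Prop :=
  ∃ a b, a ≠ b ∧ q a = x ∧ q b = x ∧ e a - e b ∈ W

/-- the invariant -/
structure Inv (R : Set (ι → ℝ)) (q : ι → ι) (W : Submodule ℝ (ι → ℝ)) : Prop where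
  le : W ≤ Submodule.span ℝ R
  res : ∀ w ∈ W, ∀ P : Set ι, rs (q ⁻¹' P) w ∈ W
  sum : ∀ w ∈ W, ∀ P : Set ι, sm (q ⁻¹' P) w = 0
  cnt : Fintype.card ι + {x | Gd q W x}.ncard ≤ 3 * Module.finrank ℝ W + (Set.range q).ncard

theorem inv_init (R : Set (ι → ℝ)) : Inv R id ⊥ := by
  refine ⟨bot_le, ?_, ?_, ?_⟩
  · intro w hw P
    rw [Submodule.mem_bot] at hw ⊢
    rw [hw, map_zero]
  · intro w hw P
    rw [Submodule.mem_bot] at hw
    rw [hw, map_zero]
  · have h1 : {x : ι | Gd id (⊥ : Submodule ℝ (ι → ℝ)) x} = ∅ := by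
      ext x
      simp only [Set.mem_setOf_eq, Set.mem_empty_iff_false, iff_false]
      rintro ⟨a, b, hab, -, -, h⟩
      rw [Submodule.mem_bot] at h
      have h2 := congrFun h a
      rw [Pi.sub_apply, e_self, e_ne hab, sub_zero, Pi.zero_apply] at h2
      exact one_ne_zero h2
    rw [h1, Set.ncard_empty, Set.range_id, Set.ncard_univ, Nat.card_eq_fintype_card, finrank_bot]
    omega

theorem card3 (a b c : ι) : ({a, b, c} : Set ι).ncard ≤ 3 := by
  have h1 := Set.ncard_insert_le a ({b, c} : Set ι)
  have h2 := Set.ncard_insert_le b ({c} : Set ι)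
  have h3 := Set.ncard_singleton c
  omega

theorem card4 (a b c d : ι) : ({a, b, c, d} : Set ι).ncard ≤ 4 := by
  have h1 := Set.ncard_insert_le a ({b, c, d} : Set ι)
  have h2 := card3 b c d
  omega

theorem step {R : Set (ι → ℝ)} {q : ι → ι} {W : Submodule ℝ (ι → ℝ)} (hI : Inv R q W)
    {g : ι → ℝ} (hg : g ∈ R) {i j i' j' : ι} (hr : g = rel i j i' j')
    (hns : ∀ x, ∃ a, g a ≠ 0 ∧ q a ≠ x) :
    ∃ q' W', Inv R q' W' ∧ (Set.range q').ncard < (Set.range q).ncard := by
  classical
  have hr' : g = e i - e j - (e i' - e j') := hr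
  have hsupp : ∀ a, g a ≠ 0 → a = i ∨ a = j ∨ a = i' ∨ a = j' := by
    intro a ha
    by_contra hcon
    push Not at hcon
    obtain ⟨h1, h2, h3, h4⟩ := hcon
    apply ha
    rw [hr', Pi.sub_apply, Pi.sub_apply, Pi.sub_apply, e_ne h1, e_ne h2, e_ne h3, e_ne h4]
    ring
  obtain ⟨X, hX⟩ : ∃ X : Set ι, X = q '' {a | g a ≠ 0} := ⟨_, rfl⟩
  obtain ⟨a0, ha0, -⟩ := hns (q i)
  have hx0 : q a0 ∈ X := by rw [hX]; exact ⟨a0, ha0, rfl⟩
  obtain ⟨x0, hx0e⟩ : ∃ x0, x0 = q a0 := ⟨_, rfl⟩
  rw [← hx0e] at hx0
  have hXr : X ⊆ Set.range q := by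
    rw [hX]
    rintro _ ⟨a, -, rfl⟩
    exact ⟨a, rfl⟩
  have hX2 : 2 ≤ X.ncard := by
    obtain ⟨a1, ha1, hne⟩ := hns x0
    have h1 : ({x0, q a1} : Set ι) ⊆ X := by
      intro y hy
      rcases hy with rfl | hy
      · exact hx0
      · rw [Set.mem_singleton_iff.1 hy, hX]; exact ⟨a1, ha1, rfl⟩
    have h2 := Set.ncard_le_ncard h1
    rwa [Set.ncard_pair (Ne.symm hne)] at h2
  have hX4s : X ⊆ {q i, q j, q i', q j'} := by
    rw [hX]
    rintro _ ⟨a, ha, rfl⟩
    rcases hsupp a ha with rfl | rfl | rfl | rfl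
    · exact Or.inl rfl
    · exact Or.inr (Or.inl rfl)
    · exact Or.inr (Or.inr (Or.inl rfl))
    · exact Or.inr (Or.inr (Or.inr rfl))
  have hgX : ∀ a, g a ≠ 0 → q a ∈ X := fun a ha => by rw [hX]; exact ⟨a, ha, rfl⟩
  -- the new labels
  obtain ⟨q', hq'⟩ : ∃ q' : ι → ι, q' = fun a => if q a ∈ X then x0 else q a := ⟨_, rfl⟩
  have hq1 : ∀ a, q a ∈ X → q' a = x0 := fun a ha => by rw [hq']; simp [ha]
  have hq2 : ∀ a, q a ∉ X → q' a = q a := fun a ha => by rw [hq']; simp [ha]
  have hq3 : ∀ a x, x ∉ X → q' a = x → q a = x := by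
    intro a x hx ha
    by_cases h : q a ∈ X
    · rw [hq1 a h] at ha
      exact absurd (by rw [← ha]; exact hx0) hx
    · rw [← hq2 a h]; exact ha
  have hq4 : ∀ a, q' a = x0 → q a ∈ X := by
    intro a ha
    by_contra h
    rw [hq2 a h] at ha
    exact h (by rw [ha]; exact hx0)
  have hq5 : ∀ a x, x ∈ X → q' a = x → x = x0 := by
    intro a x hx ha
    by_cases h : q a ∈ X
    · rw [← ha, hq1 a h]
    · rw [hq2 a h] at ha
      exact absurd (by rw [ha]; exact hx) h
  have hrange : Set.range q' = insert x0 (Set.range q \ X) := by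
    ext x
    constructor
    · rintro ⟨a, rfl⟩
      by_cases h : q a ∈ X
      · exact Or.inl (hq1 a h)
      · rw [hq2 a h]
        exact Or.inr ⟨⟨a, rfl⟩, h⟩
    · rintro (rfl | ⟨⟨a, rfl⟩, h⟩)
      · exact ⟨a0, hq1 a0 (by rw [← hx0e]; exact hx0)⟩
      · exact ⟨a, hq2 a h⟩
  have hc1 : (Set.range q').ncard = (Set.range q \ X).ncard + 1 := by
    rw [hrange, Set.ncard_insert_of_notMem (fun h => h.2 hx0)]
  have hc2 : (Set.range q \ X).ncard + X.ncard = (Set.range q).ncard :=
    Set.ncard_sdiff_add_ncard_of_subset hXr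
  -- preimages
  have hpre : ∀ P : Set ι, ∃ P' : Set ι, q' ⁻¹' P = q ⁻¹' P' := by
    intro P
    by_cases hP : x0 ∈ P
    · refine ⟨P ∪ X, ?_⟩
      ext a
      by_cases h : q a ∈ X
      · simp [hq1 a h, hP, h]
      · simp [hq2 a h, h]
    · refine ⟨P \ X, ?_⟩
      ext a
      by_cases h : q a ∈ X
      · simp [hq1 a h, hP, h]
      · simp [hq2 a h, h]
  have hrsg : ∀ P : Set ι, rs (q' ⁻¹' P) g = if x0 ∈ P then g else 0 := by
    intro P
    funext a
    by_cases hga : g a = 0
    · have h1 : rs (q' ⁻¹' P) g a = 0 := by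
        by_cases h : a ∈ q' ⁻¹' P
        · rw [rs_mem h, hga]
        · rw [rs_not h]
      rw [h1]
      split_ifs
      · exact hga.symm
      · rfl
    · have h1 : q' a = x0 := hq1 a (hgX a hga)
      by_cases hP : x0 ∈ P
      · rw [if_pos hP, rs_mem (by rw [Set.mem_preimage, h1]; exact hP)]
      · rw [if_neg hP, rs_not (by rw [Set.mem_preimage, h1]; exact hP)]
        rfl
  have hsmg0 : ∑ a, g a = 0 := by
    have h1 : ∀ a : ι, ∑ b, e a b = 1 := by
      intro a
      rw [Finset.sum_eq_single a (fun b _ hb => e_ne hb)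
        (fun h => absurd (Finset.mem_univ a) h), e_self]
    rw [hr']
    simp only [Pi.sub_apply, Finset.sum_sub_distrib]
    rw [h1, h1, h1, h1]
    ring
  have hsmg : ∀ P : Set ι, sm (q' ⁻¹' P) g = 0 := by
    intro P
    show ∑ a, rs (q' ⁻¹' P) g a = 0
    rw [hrsg]
    split_ifs
    · exact hsmg0
    · simp
  -- the new space
  obtain ⟨W', hW'⟩ : ∃ W' : Submodule ℝ (ι → ℝ), W' = W ⊔ Submodule.span ℝ {g} := ⟨_, rfl⟩
  have hWle : W ≤ W' := by rw [hW']; exact le_sup_left
  have hgW' : g ∈ W' := by
    rw [hW']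
    exact Submodule.mem_sup_right (Submodule.mem_span_singleton_self g)
  have hdec : ∀ w ∈ W', ∃ v ∈ W, ∃ c : ℝ, w = v + c • g := by
    intro w hw
    rw [hW'] at hw
    obtain ⟨v, hv, u, hu, rfl⟩ := Submodule.mem_sup.1 hw
    obtain ⟨c, rfl⟩ := Submodule.mem_span_singleton.1 hu
    exact ⟨v, hv, c, rfl⟩
  have hle' : W' ≤ Submodule.span ℝ R := by
    rw [hW', sup_le_iff]
    refine ⟨hI.le, ?_⟩
    rw [Submodule.span_singleton_le_iff_mem]
    exact Submodule.subset_span hg
  have hres' : ∀ w ∈ W', ∀ P : Set ι, rs (q' ⁻¹' P) w ∈ W' := by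
    intro w hw P
    obtain ⟨v, hv, c, rfl⟩ := hdec w hw
    rw [map_add, map_smul, hrsg]
    refine add_mem ?_ ?_
    · obtain ⟨P', hP'⟩ := hpre P
      rw [hP']
      exact hWle (hI.res v hv P')
    · split_ifs
      · exact Submodule.smul_mem _ _ hgW'
      · rw [smul_zero]; exact zero_mem _
  have hsum' : ∀ w ∈ W', ∀ P : Set ι, sm (q' ⁻¹' P) w = 0 := by
    intro w hw P
    obtain ⟨v, hv, c, rfl⟩ := hdec w hw
    obtain ⟨P', hP'⟩ := hpre P
    rw [map_add, map_smul, hsmg, smul_zero, add_zero, hP']
    exact hI.sum v hv P'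
  -- good labels
  have hG : ∀ x, x ∉ X → Gd q' W' x → Gd q W x := by
    rintro x hx ⟨a, b, hab, ha, hb, hm⟩
    have ha' := hq3 a x hx ha
    have hb' := hq3 b x hx hb
    refine ⟨a, b, hab, ha', hb', ?_⟩
    obtain ⟨v, hv, c, hvc⟩ := hdec _ hm
    have h1 : rs (q ⁻¹' {x}) g = 0 := by
      funext k
      by_cases hk : k ∈ q ⁻¹' {x}
      · rw [rs_mem hk]
        by_contra hgk
        have h2 := hgX k hgk
        rw [Set.mem_singleton_iff.1 hk] at h2
        exact hx h2
      · rw [rs_not hk]
        rfl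
    have h2 := congrArg (rs (q ⁻¹' {x})) hvc
    rw [map_sub, rs_e_mem (A := q ⁻¹' {x}) ha', rs_e_mem (A := q ⁻¹' {x}) hb', map_add, map_smul,
      h1, smul_zero, add_zero] at h2
    rw [h2]
    exact hI.res v hv {x}
  obtain ⟨G, hGd⟩ : ∃ G : Set ι, G = {x | Gd q W x} := ⟨_, rfl⟩
  obtain ⟨G', hGd'⟩ : ∃ G' : Set ι, G' = {x | Gd q' W' x} := ⟨_, rfl⟩
  have hsub1 : G' ⊆ insert x0 (G \ X) := by
    intro x hx
    rw [hGd'] at hx
    by_cases hxX : x ∈ X
    · obtain ⟨a, b, hab, ha, hb, hm⟩ := hx
      exact Or.inl (hq5 a x hxX ha)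
    · refine Or.inr ⟨?_, hxX⟩
      rw [hGd]
      exact hG x hxX hx
  have hG1 : G'.ncard ≤ (G \ X).ncard + 1 :=
    (Set.ncard_le_ncard hsub1).trans (Set.ncard_insert_le _ _)
  have hG2 : ¬ Gd q' W' x0 → G'.ncard ≤ (G \ X).ncard := by
    intro hno
    refine Set.ncard_le_ncard ?_
    intro x hx
    rcases hsub1 hx with rfl | h
    · rw [hGd'] at hx
      exact absurd hx hno
    · exact h
  have hG3 : (G ∩ X).ncard + (G \ X).ncard = G.ncard :=
    Set.ncard_inter_add_ncard_sdiff_eq_ncard G X
  have hcnt := hI.cnt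
  rw [← hGd] at hcnt
  refine ⟨q', W', ⟨hle', hres', hsum', ?_⟩, by omega⟩
  rw [← hGd']
  by_cases hgW : g ∈ W
  · -- case (a)
    have hWW : W' = W := by
      rw [hW', sup_eq_left, Submodule.span_singleton_le_iff_mem]
      exact hgW
    have hs : ∀ x, sm (q ⁻¹' {x}) g = 0 := fun x => hI.sum g hgW {x}
    have hs' : ∀ x, sm (q ⁻¹' {x}) (e i) - sm (q ⁻¹' {x}) (e j) -
        (sm (q ⁻¹' {x}) (e i') - sm (q ⁻¹' {x}) (e j')) = 0 := by
      intro x
      have := hs x
      rwa [hr', map_sub, map_sub, map_sub] at this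
    have hin : ∀ a x, q a = x → sm (q ⁻¹' {x}) (e a) = 1 := fun a x h => sm_e_mem h
    have hout : ∀ a x, q a ≠ x → sm (q ⁻¹' {x}) (e a) = 0 := fun a x h => sm_e_not h
    -- the two labels
    have key : ∃ a b c d : ι, g = (e a - e b) + (e c - e d) ∧ q a = q b ∧ q c = q d := by
      have h1 := hs' (q i)
      rw [hin i (q i) rfl] at h1
      by_cases h2 : q j = q i
      · -- then q j' = q i'
        have h3 := hs' (q i')
        rw [hin i' (q i') rfl] at h3
        by_cases h4 : q i = q i'
        · have h5 : q j' = q i' := by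
            by_contra h6
            rw [hin i _ h4, hin j _ (h2.trans h4), hout j' _ h6] at h3
            norm_num at h3
          exact ⟨i, j, j', i', by rw [hr']; abel, h2.symm, h5⟩
        · have h5 : q j' = q i' := by
            by_contra h6
            rw [hout i _ h4, hout j _ (fun h => h4 (h2.symm.trans h)), hout j' _ h6] at h3
            norm_num at h3
          exact ⟨i, j, j', i', by rw [hr']; abel, h2.symm, h5⟩
      · have h3 : q i' = q i := by
          by_contra h4
          rw [hout j _ h2, hout i' _ h4] at h1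
          by_cases h5 : q j' = q i
          · rw [hin j' _ h5] at h1
            norm_num at h1
          · rw [hout j' _ h5] at h1
            norm_num at h1
        have h4 := hs' (q j)
        rw [hin j (q j) rfl, hout i _ (fun h => h2 h.symm), hout i' _ (fun h => h2 (h.symm.trans h3))]
          at h4
        have h5 : q j' = q j := by
          by_contra h6
          rw [hout j' _ h6] at h4
          norm_num at h4
        exact ⟨i, i', j', j, by rw [hr']; abel, h3.symm, h5⟩
    obtain ⟨a, b, c, d, hgabcd, hab, hcd⟩ := key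
    -- the labels are different
    have hne : q a ≠ q c := by
      intro h
      obtain ⟨k, hk, hk'⟩ := hns (q a)
      apply hk
      have h1 : ∀ l, q l = q a → e l k = 0 := fun l hl => e_ne (fun hh => hk' (by rw [hh]; exact hl))
      rw [hgabcd, Pi.add_apply, Pi.sub_apply, Pi.sub_apply, h1 a rfl, h1 b hab.symm, h1 c h.symm,
        h1 d (hcd.symm.trans h.symm)]
      ring
    have hXab : X ⊆ {q a, q c} := by
      rw [hX]
      rintro _ ⟨k, hk, rfl⟩
      by_contra hcon
      simp only [Set.mem_insert_iff, Set.mem_singleton_iff, not_or] at hcon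
      obtain ⟨h1, h2⟩ := hcon
      apply hk
      rw [hgabcd, Pi.add_apply, Pi.sub_apply, Pi.sub_apply, e_ne (fun hh => h1 (by rw [hh])),
        e_ne (fun hh => h1 (by rw [hh]; exact hab.symm)), e_ne (fun hh => h2 (by rw [hh])),
        e_ne (fun hh => h2 (by rw [hh]; exact hcd.symm))]
      ring
    have hX2' : X.ncard ≤ 2 := by
      have h1 := Set.ncard_le_ncard hXab
      rwa [Set.ncard_pair hne] at h1
    have hab' : a ≠ b := by
      rintro rfl
      have h1 : X ⊆ {q c} := by
        rw [hX]
        rintro _ ⟨k, hk, rfl⟩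
        by_contra h2
        apply hk
        rw [hgabcd, Pi.add_apply, Pi.sub_apply, Pi.sub_apply, e_ne (b := c) (fun hh => h2 (by rw [hh]; rfl)),
          e_ne (b := d) (fun hh => h2 (by rw [hh]; exact hcd.symm))]
        ring
      have h2 := Set.ncard_le_ncard h1
      rw [Set.ncard_singleton] at h2
      omega
    have hcd' : c ≠ d := by
      rintro rfl
      have h1 : X ⊆ {q a} := by
        rw [hX]
        rintro _ ⟨k, hk, rfl⟩
        by_contra h2
        apply hk
        rw [hgabcd, Pi.add_apply, Pi.sub_apply, Pi.sub_apply, e_ne (b := a) (fun hh => h2 (by rw [hh]; rfl)),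
          e_ne (b := b) (fun hh => h2 (by rw [hh]; exact hab.symm))]
        ring
      have h2 := Set.ncard_le_ncard h1
      rw [Set.ncard_singleton] at h2
      omega
    have hXG : X ⊆ G := by
      intro x hx
      rw [hGd]
      rcases hXab hx with rfl | h
      · refine ⟨a, b, hab', rfl, hab.symm, ?_⟩
        have h1 := hI.res g hgW {q a}
        rw [hgabcd, map_add, map_sub, map_sub, rs_e_mem (A := q ⁻¹' {q a}) rfl,
          rs_e_mem (A := q ⁻¹' {q a}) hab.symm,
          rs_e_not (A := q ⁻¹' {q a}) (fun h => hne (Eq.symm h)),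
          rs_e_not (A := q ⁻¹' {q a}) (fun h => hne ((Eq.symm h).trans hcd.symm)), sub_zero,
          add_zero] at h1
        exact h1
      · rw [Set.mem_singleton_iff.1 h]
        refine ⟨c, d, hcd', rfl, hcd.symm, ?_⟩
        have h1 := hI.res g hgW {q c}
        rw [hgabcd, map_add, map_sub, map_sub, rs_e_mem (A := q ⁻¹' {q c}) (a := c) rfl,
          rs_e_mem (A := q ⁻¹' {q c}) (a := d) hcd.symm,
          rs_e_not (A := q ⁻¹' {q c}) (a := a) hne,
          rs_e_not (A := q ⁻¹' {q c}) (a := b) (fun h => hne (hab.trans h)), sub_zero,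
          zero_add] at h1
        exact h1
    have h5 : G ∩ X = X := Set.inter_eq_right.2 hXG
    rw [h5] at hG3
    rw [hWW]
    omega
  · -- case (b)
    have hfin : Module.finrank ℝ W' = Module.finrank ℝ W + 1 := by
      have h1 := Submodule.finrank_sup_add_finrank_inf_eq W (Submodule.span ℝ {g})
      have hg0 : g ≠ 0 := by
        intro h
        exact ha0 (by rw [h]; rfl)
      have h2 : W ⊓ Submodule.span ℝ {g} = ⊥ := by
        rw [Submodule.eq_bot_iff]
        rintro w ⟨hw1, hw2⟩
        obtain ⟨c, rfl⟩ := Submodule.mem_span_singleton.1 hw2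
        by_cases hc : c = 0
        · rw [hc, zero_smul]
        · exfalso
          apply hgW
          have h3 := Submodule.smul_mem W c⁻¹ hw1
          rwa [smul_smul, inv_mul_cancel₀ hc, one_smul] at h3
      rw [h2, finrank_bot, finrank_span_singleton hg0, ← hW'] at h1
      exact h1
    by_cases h3 : X.ncard ≤ 3
    · omega
    · -- the four labels are different
      have h4 : 4 ≤ X.ncard := by omega
      have hdist : ∀ a b c : ι, ¬ X ⊆ {a, b, c} := by
        intro a b c h
        have h5 := Set.ncard_le_ncard h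
        have h6 := card3 a b c
        omega
      have hij : q i ≠ q j := by
        intro h
        apply hdist (q j) (q i') (q j')
        rw [h] at hX4s
        intro x hx
        rcases hX4s hx with h | h | h | h
        · exact Or.inl h
        · exact Or.inl h
        · exact Or.inr (Or.inl h)
        · exact Or.inr (Or.inr h)
      have hii' : q i ≠ q i' := by
        intro h
        apply hdist (q j) (q i') (q j')
        rw [h] at hX4s
        intro x hx
        rcases hX4s hx with h | h | h | h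
        · exact Or.inr (Or.inl h)
        · exact Or.inl h
        · exact Or.inr (Or.inl h)
        · exact Or.inr (Or.inr h)
      have hij' : q i ≠ q j' := by
        intro h
        apply hdist (q j) (q i') (q j')
        rw [h] at hX4s
        intro x hx
        rcases hX4s hx with h | h | h | h
        · exact Or.inr (Or.inr h)
        · exact Or.inl h
        · exact Or.inr (Or.inl h)
        · exact Or.inr (Or.inr h)
      have hji' : q j ≠ q i' := by
        intro h
        apply hdist (q i) (q i') (q j')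
        rw [h] at hX4s
        intro x hx
        rcases hX4s hx with h | h | h | h
        · exact Or.inl h
        · exact Or.inr (Or.inl h)
        · exact Or.inr (Or.inl h)
        · exact Or.inr (Or.inr h)
      have hjj' : q j ≠ q j' := by
        intro h
        apply hdist (q i) (q i') (q j')
        rw [h] at hX4s
        intro x hx
        rcases hX4s hx with h | h | h | h
        · exact Or.inl h
        · exact Or.inr (Or.inr h)
        · exact Or.inr (Or.inl h)
        · exact Or.inr (Or.inr h)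
      have hi'j' : q i' ≠ q j' := by
        intro h
        apply hdist (q i) (q j) (q j')
        rw [h] at hX4s
        intro x hx
        rcases hX4s hx with h | h | h | h
        · exact Or.inl h
        · exact Or.inr (Or.inl h)
        · exact Or.inr (Or.inr h)
        · exact Or.inr (Or.inr h)
      have hX4 : X.ncard ≤ 4 := (Set.ncard_le_ncard hX4s).trans (card4 _ _ _ _)
      by_cases hno : Gd q' W' x0
      · -- some old label is good
        obtain ⟨a, b, hab, ha, hb, hm⟩ := hno
        have haX := hq4 a ha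
        have hbX := hq4 b hb
        obtain ⟨v, hv, c, hvc⟩ := hdec _ hm
        have hin : ∀ a x, q a = x → sm (q ⁻¹' {x}) (e a) = 1 := fun a x h => sm_e_mem h
        have hout : ∀ a x, q a ≠ x → sm (q ⁻¹' {x}) (e a) = 0 := fun a x h => sm_e_not h
        have hsm : ∀ x, sm (q ⁻¹' {x}) (e a) - sm (q ⁻¹' {x}) (e b) =
            c * (sm (q ⁻¹' {x}) (e i) - sm (q ⁻¹' {x}) (e j) -
              (sm (q ⁻¹' {x}) (e i') - sm (q ⁻¹' {x}) (e j'))) := by
          intro x
          have h5 := congrArg (sm (q ⁻¹' {x})) hvc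
          rw [map_sub, map_add, map_smul, hI.sum v hv {x}, zero_add, hr', map_sub, map_sub,
            map_sub, smul_eq_mul] at h5
          exact h5
        have hc0 : c = 0 := by
          by_contra hc
          have hone : ∀ x, (sm (q ⁻¹' {x}) (e i) - sm (q ⁻¹' {x}) (e j) -
              (sm (q ⁻¹' {x}) (e i') - sm (q ⁻¹' {x}) (e j'))) ≠ 0 → x = q a ∨ x = q b := by
            intro x hx
            by_contra hcon
            push Not at hcon
            have h5 := hsm x
            rw [hout a x (Ne.symm hcon.1), hout b x (Ne.symm hcon.2), sub_zero] at h5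
            exact (mul_ne_zero hc hx) h5.symm
          have h1 := hone (q i) (by
            rw [hin i _ rfl, hout j _ hij.symm, hout i' _ hii'.symm, hout j' _ hij'.symm]
            norm_num)
          have h2 := hone (q j) (by
            rw [hin j _ rfl, hout i _ hij, hout i' _ hji'.symm, hout j' _ hjj'.symm]
            norm_num)
          have h3 := hone (q i') (by
            rw [hin i' _ rfl, hout i _ hii', hout j _ hji', hout j' _ hi'j'.symm]
            norm_num)
          rcases h1 with h1 | h1 <;> rcases h2 with h2 | h2 <;> rcases h3 with h3 | h3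
          · exact hij (h1.trans h2.symm)
          · exact hij (h1.trans h2.symm)
          · exact hii' (h1.trans h3.symm)
          · exact hji' (h2.trans h3.symm)
          · exact hji' (h2.trans h3.symm)
          · exact hii' (h1.trans h3.symm)
          · exact hij (h1.trans h2.symm)
          · exact hij (h1.trans h2.symm)
        have hvab : e a - e b ∈ W := by
          rw [hvc, hc0, zero_smul, add_zero]
          exact hv
        have hqab : q b = q a := by
          by_contra h
          have h5 := hsm (q a)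
          rw [hc0, zero_mul, hin a _ rfl, hout b _ h] at h5
          norm_num at h5
        have hmem : q a ∈ G ∩ X := ⟨by rw [hGd]; exact ⟨a, b, hab, rfl, hqab, hvab⟩, haX⟩
        have h6 := Set.ncard_ne_zero_of_mem hmem
        omega
      · have h5 := hG2 hno
        omega

theorem final (R : Set (ι → ℝ)) (hR : ∀ g ∈ R, ∃ i j i' j', g = rel i j i' j') :
    ∀ (n : ℕ) (q : ι → ι) (W : Submodule ℝ (ι → ℝ)), Inv R q W → (Set.range q).ncard = n →
      ∃ q' W', Inv R q' W' ∧ ∀ g ∈ R, ∃ x, ∀ a, g a ≠ 0 → q' a = x := by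
  intro n
  induction n using Nat.strong_induction_on with
  | _ n ih =>
    intro q W hI hn
    by_cases h : ∀ g ∈ R, ∃ x, ∀ a, g a ≠ 0 → q a = x
    · exact ⟨q, W, hI, h⟩
    · push Not at h
      obtain ⟨g, hg, hns⟩ := h
      obtain ⟨i, j, i', j', hr⟩ := hR g hg
      obtain ⟨q', W', hI', hlt⟩ := step hI hg hr hns
      exact ih _ (by omega) q' W' hI' rfl

end Cntx

theorem thm_Cnt : St_Cnt := by
  intro ι _ _ R T hR hT hlt t
  classical
  obtain ⟨q, W, hI, hq⟩ := Cntx.final R hR _ id ⊥ (Cntx.inv_init R) rfl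
  -- orthogonality
  have horth : ∀ w ∈ W, ∀ d ∈ T, ∑ l, d l * w l = 0 := by
    intro w hw d hd
    have h1 := hI.le hw
    refine Submodule.span_induction (p := fun w _ => ∑ l, d l * w l = 0) ?_ ?_ ?_ ?_ h1
    · intro g hg
      exact (hT d).1 hd g hg
    · simp
    · intro x y _ _ hx hy
      simp only [Pi.add_apply, mul_add, Finset.sum_add_distrib]
      rw [hx, hy, add_zero]
    · intro c x _ hx
      have h2 : ∑ l, d l * (c • x) l = c * ∑ l, d l * x l := by
        rw [Finset.mul_sum]
        refine Finset.sum_congr rfl fun l _ => ?_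
        rw [Pi.smul_apply, smul_eq_mul]
        ring
      rw [h2, hx, mul_zero]
  have hdisj : Disjoint W T := by
    rw [Submodule.disjoint_def]
    intro x hxW hxT
    have h1 := horth x hxW x hxT
    have h2 := (Finset.sum_eq_zero_iff_of_nonneg (fun l _ => mul_self_nonneg (x l))).1 h1
    funext l
    exact mul_self_eq_zero.1 (h2 l (Finset.mem_univ l))
  have hfr := Submodule.finrank_add_finrank_le_of_disjoint hdisj
  rw [Module.finrank_pi] at hfr
  have hcnt := hI.cnt
  have h3 : 2 < (Set.range q).ncard := by omega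
  -- a label different from `q t`
  have h4 : 1 < (Set.range q \ {q t}).ncard := by
    have h5 := Set.ncard_sdiff_add_ncard_of_subset
      (Set.singleton_subset_iff.2 (Set.mem_range_self (f := q) t))
    rw [Set.ncard_singleton] at h5
    omega
  obtain ⟨y, hy, z, hz, hyz⟩ := (Set.one_lt_ncard).1 h4
  obtain ⟨⟨a, rfl⟩, hat⟩ := hy
  obtain ⟨⟨b, rfl⟩, hbt⟩ := hz
  rw [Set.mem_singleton_iff] at hat hbt
  refine ⟨Finset.univ.filter (fun l => q l = q a), ?_, ⟨a, ?_⟩, ⟨b, ?_, ?_⟩, ?_⟩
  · rw [Finset.mem_filter]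
    rintro ⟨-, h⟩
    exact hat h.symm
  · rw [Finset.mem_filter]
    exact ⟨Finset.mem_univ a, rfl⟩
  · rintro rfl
    exact hbt rfl
  · rw [Finset.mem_filter]
    rintro ⟨-, h⟩
    exact hyz h.symm
  · intro g hg
    obtain ⟨x, hx⟩ := hq g hg
    by_cases hxa : x = q a
    · right
      intro l hl
      by_contra h
      apply hl
      rw [Finset.mem_filter]
      exact ⟨Finset.mem_univ l, (hx l h).trans hxa⟩
    · left
      intro l hl
      rw [Finset.mem_filter] at hl
      by_contra h
      exact hxa ((hx l h).symm.trans hl.2)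

end Pool.Agent.LFS
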