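import Pool.Agent.LFS.Leq

/-!
# LFS, module Dir: product decompositions of the divisor give direct sums
-/

set_option autoImplicit false

noncomputable section

open scoped Polynomial
open MvPolynomial Pool.Agent.Helper28.Nij Pool.Agent.LFD

namespace Pool.Agent.LFS

namespace Dirx

/-- numbering of the variables -/
theorem idx (n : ℕ) (S : Finset (Option (Fin n))) (h0 : none ∉ S) :
    ∃ (a b : ℕ) (eS : {i // i ∈ S} ≃ Fin a) (eT : Option (Fin b) ≃ {i // i ∉ S})
      (e : Fin a ⊕ Fin b ≃ Fin n),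
      (S.Nonempty → 0 < a) ∧ ((∃ i : Fin n, some i ∉ S) → 0 < b) ∧ (eT none).val = none ∧
      (∀ i, some (e (Sum.inl i)) = (eS.symm i).val) ∧
      ∀ j, some (e (Sum.inr j)) = (eT (some j)).val := by
  classical
  obtain ⟨t₀, ht₀⟩ : ∃ t₀ : {i // i ∉ S}, t₀.val = none := ⟨⟨none, h0⟩, rfl⟩
  obtain ⟨a, ha⟩ : ∃ a : ℕ, a = Fintype.card {i // i ∈ S} := ⟨_, rfl⟩
  obtain ⟨b, hb⟩ : ∃ b : ℕ, b = Fintype.card {x : {i // i ∉ S} // x ≠ t₀} := ⟨_, rfl⟩
  let eS : {i // i ∈ S} ≃ Fin a := Fintype.equivFinOfCardEq ha.symm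
  let eU : {x : {i // i ∉ S} // x ≠ t₀} ≃ Fin b := Fintype.equivFinOfCardEq hb.symm
  let eT : Option (Fin b) ≃ {i // i ∉ S} :=
    (Equiv.optionCongr eU.symm).trans (Equiv.optionSubtypeNe t₀)
  have hT0 : eT none = t₀ := Equiv.optionSubtypeNe_none t₀
  have hTn : ∀ j, (eT (some j)).val ≠ none := by
    intro j hj
    have h1 : eT (some j) = t₀ := Subtype.ext (hj.trans ht₀.symm)
    rw [← hT0] at h1
    exact absurd (eT.injective h1) (by simp)
  have hSn : ∀ i, (eS.symm i).val ≠ none := by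
    intro i hi
    exact h0 (hi ▸ (eS.symm i).2)
  have hf : ∀ x : Fin a ⊕ Fin b, ∃ k : Fin n,
      Sum.elim (fun i => (eS.symm i).val) (fun j => (eT (some j)).val) x = some k := by
    rintro (i | j)
    · exact Option.ne_none_iff_exists'.1 (hSn i)
    · exact Option.ne_none_iff_exists'.1 (hTn j)
  choose g hg using hf
  have hgl : ∀ i, (eS.symm i).val = some (g (Sum.inl i)) := fun i => hg (Sum.inl i)
  have hgr : ∀ j, (eT (some j)).val = some (g (Sum.inr j)) := fun j => hg (Sum.inr j)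
  have hinj : Function.Injective g := by
    rintro (i | j) (i' | j') h
    · have h1 : (eS.symm i).val = (eS.symm i').val := by rw [hgl, hgl, h]
      rw [eS.symm.injective (Subtype.ext h1)]
    · exfalso
      have h1 : (eS.symm i).val = (eT (some j')).val := by rw [hgl, hgr, h]
      exact (eT (some j')).2 (h1 ▸ (eS.symm i).2)
    · exfalso
      have h1 : (eS.symm i').val = (eT (some j)).val := by rw [hgl, hgr, h]
      exact (eT (some j)).2 (h1 ▸ (eS.symm i').2)
    · have h1 : (eT (some j)).val = (eT (some j')).val := by rw [hgr, hgr, h]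
      have h2 := eT.injective (Subtype.ext h1)
      rw [Option.some_inj.1 h2]
  have hsurj : Function.Surjective g := by
    intro k
    by_cases hk : some k ∈ S
    · refine ⟨Sum.inl (eS ⟨some k, hk⟩), ?_⟩
      have h1 := hgl (eS ⟨some k, hk⟩)
      rw [Equiv.symm_apply_apply] at h1
      exact (Option.some_inj.1 h1).symm
    · rcases hc : eT.symm ⟨some k, hk⟩ with _ | j
      · exfalso
        have h1 : eT none = ⟨some k, hk⟩ := by rw [← hc, Equiv.apply_symm_apply]
        rw [hT0] at h1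
        rw [h1] at ht₀
        exact absurd ht₀ (by simp)
      · refine ⟨Sum.inr j, ?_⟩
        have h1 := hgr j
        rw [← hc, Equiv.apply_symm_apply] at h1
        exact (Option.some_inj.1 h1).symm
  refine ⟨a, b, eS, eT, Equiv.ofBijective g ⟨hinj, hsurj⟩, ?_, ?_, ?_, ?_, ?_⟩
  · rintro ⟨i, hi⟩
    rw [ha]
    exact Fintype.card_pos_iff.2 ⟨⟨i, hi⟩⟩
  · rintro ⟨i, hi⟩
    rw [hb]
    refine Fintype.card_pos_iff.2 ⟨⟨⟨some i, hi⟩, ?_⟩⟩
    intro h
    rw [← h] at ht₀
    exact absurd ht₀ (by simp)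
  · rw [hT0, ht₀]
  · intro i
    rw [hgl]
    rfl
  · intro j
    rw [hgr]
    rfl

theorem sum_ite {ι : Type} [Fintype ι] [DecidableEq ι] (k : ι) (c : ℝ) :
    ∑ s, (C (if s = k then c else 0) * X s : MvPolynomial ι ℝ) = C c * X k := by
  rw [Finset.sum_eq_single k]
  · rw [if_pos rfl]
  · intro s _ hs
    rw [if_neg hs, C_0, zero_mul]
  · intro h
    exact absurd (Finset.mem_univ k) h

/-- the linear change of the variables -/
theorem phi {n a b : ℕ} {S : Finset (Option (Fin n))}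
    (eS : {i // i ∈ S} ≃ Fin a) (eT : Option (Fin b) ≃ {i // i ∉ S})
    (e : Fin a ⊕ Fin b ≃ Fin n) (p₁ : Fin a → ℝ)
    (B₂ : Matrix (Option (Fin b)) (Option (Fin b)) ℝ) (hB : IsUnit B₂.det) :
    ∃ Φ : Matrix (Option (Fin n)) (Option (Fin n)) ℝ, IsUnit Φ.det ∧
      (∀ (r : Option (Fin n)) (h : r ∈ S), fld Φ r =
        X (some (e (Sum.inl (eS ⟨r, h⟩)))) + C (p₁ (eS ⟨r, h⟩)) * X none) ∧
      ∀ (r : Option (Fin n)) (h : r ∉ S), fld Φ r =
        rename (Option.map fun j => e (Sum.inr j)) (fld B₂ (eT.symm ⟨r, h⟩)) := by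
  classical
  obtain ⟨Φ, hΦ⟩ : ∃ Φ : Matrix (Option (Fin n)) (Option (Fin n)) ℝ, ∀ r s, Φ r s =
      if h : r ∈ S then (if s = some (e (Sum.inl (eS ⟨r, h⟩))) then 1 else 0) +
        (if s = none then p₁ (eS ⟨r, h⟩) else 0)
      else ∑ j', if s = Option.map (fun j => e (Sum.inr j)) j' then B₂ (eT.symm ⟨r, h⟩) j' else 0 :=
    ⟨Matrix.of fun r s => _, fun r s => rfl⟩
  have h1 : ∀ (r : Option (Fin n)) (h : r ∈ S), fld Φ r =
      X (some (e (Sum.inl (eS ⟨r, h⟩)))) + C (p₁ (eS ⟨r, h⟩)) * X none := by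
    intro r h
    unfold fld
    simp only [hΦ, dif_pos h, C_add, add_mul, Finset.sum_add_distrib]
    rw [sum_ite, sum_ite, C_1, one_mul]
  have h2 : ∀ (r : Option (Fin n)) (h : r ∉ S), fld Φ r =
      rename (Option.map fun j => e (Sum.inr j)) (fld B₂ (eT.symm ⟨r, h⟩)) := by
    intro r h
    unfold fld
    simp only [hΦ, dif_neg h, map_sum, Finset.sum_mul, map_mul, rename_C, rename_X]
    rw [Finset.sum_comm]
    refine Finset.sum_congr rfl fun j' _ => ?_
    rw [sum_ite]
  refine ⟨Φ, ?_, h1, h2⟩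
  rw [isUnit_iff_ne_zero]
  intro hdet
  obtain ⟨v, hv0, hv⟩ := Matrix.exists_mulVec_eq_zero_iff.2 hdet
  have hv' : ∀ r, MvPolynomial.eval v (fld Φ r) = 0 := by
    intro r
    rw [Semx.eval_fld, hv]
    rfl
  have h3 : B₂.mulVec (v ∘ Option.map fun j => e (Sum.inr j)) = 0 := by
    funext j
    have h4 := hv' (eT j).val
    rw [h2 _ (eT j).2] at h4
    rw [Subtype.coe_eta, Equiv.symm_apply_apply, eval_rename, Semx.eval_fld] at h4
    exact h4
  have h4 : v ∘ (Option.map fun j => e (Sum.inr j)) = 0 := by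
    by_contra hne
    have h5 := Matrix.exists_mulVec_eq_zero_iff.1 ⟨_, hne, h3⟩
    rw [h5] at hB
    exact not_isUnit_zero hB
  have h5 : v none = 0 := congrFun h4 none
  apply hv0
  funext s
  rcases s with _ | k
  · exact h5
  · obtain ⟨x, rfl⟩ := e.surjective k
    rcases x with i | j
    · have h6 := hv' (eS.symm i).val
      rw [h1 _ (eS.symm i).2, map_add, map_mul, eval_X, eval_X, h5, mul_zero, add_zero,
        Subtype.coe_eta, Equiv.apply_symm_apply] at h6
      exact h6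
    · exact congrFun h4 (some j)

/-- the point `x = 0`, `t = 1` -/
def ep (n : ℕ) : Option (Fin n) → ℝ := fun i => Option.elim i 1 fun _ => 0

theorem ep_single (n : ℕ) : ep n = Pi.single none 1 := by
  funext i
  unfold ep
  cases i <;> simp

theorem ep_map {n b : ℕ} (f : Fin b → Fin n) : ep n ∘ Option.map f = ep b := by
  funext i
  unfold ep
  cases i <;> simp

theorem mulVec_ep {n : ℕ} (M : Matrix (Option (Fin n)) (Option (Fin n)) ℝ)
    (i : Option (Fin n)) : M.mulVec (ep n) i = M i none := by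
  rw [ep_single, Matrix.mulVec_single_one]
  rfl

theorem lin_none (b : ℕ) :
    ∑ i, (C ((Pi.single none 1 : Option (Fin b) → ℝ) i) * X i : MvPolynomial (Option (Fin b)) ℝ) =
      X none := by
  rw [Finset.sum_eq_single none]
  · simp
  · intro s _ hs
    rw [Pi.single_eq_of_ne hs, C_0, zero_mul]
  · intro h
    exact absurd (Finset.mem_univ _) h

theorem lin_none' (b : ℕ) (p : Option (Fin b) → ℝ) :
    ∑ i, (Pi.single none 1 : Option (Fin b) → ℝ) i * p i = p none := by
  rw [Finset.sum_eq_single none]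
  · simp
  · intro s _ hs
    rw [Pi.single_eq_of_ne hs, zero_mul]
  · intro h
    exact absurd (Finset.mem_univ _) h

end Dirx

open Dirx

theorem thm_Dir (hLft : St_Lft) (hRen : St_Ren) : St_Dir := by
  intro n σ B c S h₁ h₂ hσ hB hc hBX h0 hS hT hf1 hf2 hH
  classical
  obtain ⟨a, b, eS, eT, e, ha, hb, hn, hl, hr⟩ := idx n S h0
  obtain ⟨q, hq⟩ : ∃ q, B.mulVec q = ep n :=
    ⟨B⁻¹.mulVec (ep n), by
      rw [Matrix.mulVec_mulVec, Matrix.mul_nonsing_inv _ hB, Matrix.one_mulVec]⟩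
  have hqH : MvPolynomial.eval q (sub B (X none * PP σ)) = 1 := by
    have h1 : MvPolynomial.eval (ep n) (PP σ) = 1 := Leqx.eval_e_PP σ hσ
    rw [Semx.eval_subst, hq, map_mul, eval_X, h1]
    simp [ep]
  rw [hH, map_mul, eval_rename, eval_rename] at hqH
  have hne1 : MvPolynomial.eval (q ∘ Subtype.val) h₁ ≠ 0 := left_ne_zero_of_mul_eq_one hqH
  have hne2 : MvPolynomial.eval (q ∘ Subtype.val) h₂ ≠ 0 := right_ne_zero_of_mul_eq_one hqH
  have hdvd : (X none : MvPolynomial (Option (Fin n)) ℝ) ∣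
      rename Subtype.val h₁ * rename Subtype.val h₂ := by
    rw [← hH, Facx.sub_mul, hBX]
    exact ⟨C c * sub B (PP σ), by ring⟩
  have hdvd2 : (X none : MvPolynomial (Option (Fin n)) ℝ) ∣ rename Subtype.val h₂ := by
    rcases (X_prime (R := ℝ) (i := (none : Option (Fin n)))).dvd_or_dvd hdvd with ⟨g, hg⟩ | h
    · exfalso
      have h1 := congrArg (MvPolynomial.eval (Function.update q none 0)) hg
      rw [eval_rename, map_mul, eval_X, Function.update_self, zero_mul] at h1
      have h2 : Function.update q none 0 ∘ (Subtype.val : {i // i ∈ S} → Option (Fin n)) =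
          q ∘ Subtype.val := by
        funext i
        change Function.update q none 0 i.val = q i.val
        refine Function.update_of_ne ?_ _ _
        intro h
        exact h0 (h ▸ i.2)
      rw [h2] at h1
      exact hne1 h1
    · exact h
  have hTn : eT.symm ⟨none, h0⟩ = none := by
    rw [Equiv.symm_apply_eq]
    exact (Subtype.ext hn).symm
  have hdvd3 : (X none : MvPolynomial (Option (Fin b)) ℝ) ∣ rename eT.symm h₂ := by
    obtain ⟨g, hg⟩ := hdvd2
    obtain ⟨ψ, hψ⟩ : ∃ ψ : MvPolynomial (Option (Fin n)) ℝ →ₐ[ℝ] MvPolynomial (Option (Fin b)) ℝ,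
        ψ = aeval fun r => if h : r ∉ S then X (eT.symm ⟨r, h⟩) else 0 := ⟨_, rfl⟩
    have h1 : ψ (X none) = X none := by
      rw [hψ, aeval_X, dif_pos h0, hTn]
    have h2 : ψ (rename Subtype.val h₂) = rename eT.symm h₂ := by
      rw [hψ, aeval_rename]
      have h3 : (fun r : Option (Fin n) => if h : r ∉ S then
          (X (eT.symm ⟨r, h⟩) : MvPolynomial (Option (Fin b)) ℝ) else 0) ∘ Subtype.val =
          fun t : {i // i ∉ S} => X (eT.symm t) := by
        funext t
        change (if h : t.val ∉ S then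
          (X (eT.symm ⟨t.val, h⟩) : MvPolynomial (Option (Fin b)) ℝ) else 0) = _
        rw [dif_pos t.2]
      rw [h3]
      have h4 : (aeval fun t : {i // i ∉ S} => (X (eT.symm t) : MvPolynomial (Option (Fin b)) ℝ)) =
          (rename eT.symm : MvPolynomial {i // i ∉ S} ℝ →ₐ[ℝ] MvPolynomial (Option (Fin b)) ℝ) := by
        apply MvPolynomial.algHom_ext
        intro i
        rw [aeval_X, rename_X]
      rw [h4]
    refine ⟨ψ g, ?_⟩
    rw [← h2, hg, map_mul, h1]
  obtain ⟨p₁, hp₁⟩ : ∃ p₁ : Fin a → ℝ, p₁ = fun i => q (eS.symm i).val := ⟨_, rfl⟩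
  obtain ⟨p₂, hp₂⟩ : ∃ p₂ : Option (Fin b) → ℝ, p₂ = fun j => q (eT j).val := ⟨_, rfl⟩
  have hev1 : MvPolynomial.eval p₁ (rename eS h₁) ≠ 0 := by
    rw [eval_rename]
    have h1 : p₁ ∘ eS = q ∘ Subtype.val := by
      funext i
      simp [hp₁]
    rw [h1]
    exact hne1
  have hev2 : MvPolynomial.eval p₂ (rename eT.symm h₂) ≠ 0 := by
    rw [eval_rename]
    have h1 : p₂ ∘ eT.symm = q ∘ Subtype.val := by
      funext i
      simp [hp₂]
    rw [h1]
    exact hne2
  obtain ⟨α, hα, hαe⟩ := all_MainB a (rename eS h₁) p₁ (hRen _ _ eS h₁ hf1) hev1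
  obtain ⟨B₂, β, hB₂, hcol, hlin, hsub, hβ⟩ := all_Tri b (rename eT.symm h₂)
    (hRen _ _ eT.symm h₂ hf2) (Pi.single none 1) p₂ (by rw [lin_none]; exact hdvd3) hev2
  rw [lin_none, lin_none'] at hlin
  obtain ⟨Φ, hΦ, hΦ1, hΦ2⟩ := phi eS eT e p₁ B₂ hB₂
  have k1 : sub Φ (rename Subtype.val h₁) =
      C (MvPolynomial.eval p₁ (rename eS h₁)) *
        rename (Option.map fun i => e (Sum.inl i)) (PP α) := by
    have h1 : ((rename (Option.map fun i => e (Sum.inl i)) :
        MvPolynomial (Option (Fin a)) ℝ →ₐ[ℝ] MvPolynomial (Option (Fin n)) ℝ).comp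
        ((aeval (fun i => X (some i) + C (p₁ i) * X none :
          Fin a → MvPolynomial (Option (Fin a)) ℝ)).comp (rename eS))) =
        aeval (fun i : {i // i ∈ S} => fld Φ i.val) := by
      apply MvPolynomial.algHom_ext
      intro i
      rw [AlgHom.comp_apply, AlgHom.comp_apply, rename_X, aeval_X, aeval_X, hΦ1 _ i.2, map_add,
        map_mul, rename_X, rename_C, rename_X]
      rfl
    have h2 := congrArg (fun φ => φ h₁) h1
    change rename _ (aeval _ (rename eS h₁)) = _ at h2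
    rw [hαe, map_mul, rename_C] at h2
    rw [h2]
    unfold sub
    rw [aeval_rename]
    rfl
  have k2 : sub Φ (rename Subtype.val h₂) =
      C (MvPolynomial.eval p₂ (rename eT.symm h₂)) *
        (X none * rename (Option.map fun j => e (Sum.inr j)) (PP β)) := by
    have h1 : ((rename (Option.map fun j => e (Sum.inr j)) :
        MvPolynomial (Option (Fin b)) ℝ →ₐ[ℝ] MvPolynomial (Option (Fin n)) ℝ).comp
        ((aeval (fun j => fld B₂ j)).comp (rename eT.symm))) =
        aeval (fun i : {i // i ∉ S} => fld Φ i.val) := by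
      apply MvPolynomial.algHom_ext
      intro i
      rw [AlgHom.comp_apply, AlgHom.comp_apply, rename_X, aeval_X, aeval_X, hΦ2 _ i.2]
    have h2 := congrArg (fun φ => φ h₂) h1
    change rename _ (sub B₂ (rename eT.symm h₂)) = _ at h2
    rw [hsub, map_mul, map_mul, rename_C, rename_X] at h2
    unfold sub
    rw [aeval_rename]
    refine Eq.trans ?_ h2.symm
    rfl
  have k3 : sub Φ (X none) = C (p₂ none) * X none := by
    unfold sub
    rw [aeval_X, hΦ2 none h0, hTn]
    have h1 : fld B₂ none = C (p₂ none) * X none := by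
      rw [← hlin]
      unfold sub
      rw [aeval_X]
    rw [h1, map_mul, rename_C, rename_X]
    rfl
  have k4 : Φ.mulVec (ep n) = q := by
    funext r
    rw [← Semx.eval_fld]
    by_cases hr : r ∈ S
    · rw [hΦ1 r hr, map_add, map_mul, eval_X, eval_X, eval_C, hp₁]
      simp [ep]
    · rw [hΦ2 r hr, eval_rename, ep_map, Semx.eval_fld, mulVec_ep, hcol, hp₂]
      simp
  obtain ⟨E, hE⟩ : ∃ E : Matrix (Option (Fin n)) (Option (Fin n)) ℝ, E = B * Φ := ⟨_, rfl⟩
  have k5 : E.mulVec (ep n) = ep n := by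
    rw [hE, ← Matrix.mulVec_mulVec, k4, hq]
  have k6 : ∀ i, E i none = ep n i := by
    intro i
    exact (mulVec_ep E i).symm.trans (congrFun k5 i)
  obtain ⟨τ, hτ, hPP⟩ := hLft n σ E
    (rename (Option.map fun i => e (Sum.inl i)) (PP α) *
      rename (Option.map fun j => e (Sum.inr j)) (PP β))
    (by rw [hE, Matrix.det_mul]; exact hB.mul hΦ)
    (fun i => by rw [k6]; rfl) (by rw [k6]; rfl)
    ⟨c * p₂ none, by rw [hE, ← Linx.sub_sub, hBX, Facx.sub_mul, k3, C_mul]; unfold sub; simp [mul_assoc]⟩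
    ⟨MvPolynomial.eval p₁ (rename eS h₁) * MvPolynomial.eval p₂ (rename eT.symm h₂), by
      rw [hE, ← Linx.sub_sub, hH, Facx.sub_mul, k1, k2, C_mul]; ring⟩
    (Leqx.eval_e_PP σ hσ)
    (by
      change MvPolynomial.eval (ep n) _ = 1
      rw [map_mul, eval_rename, eval_rename, ep_map, ep_map]
      have h1 : MvPolynomial.eval (ep a) (PP α) = 1 := Leqx.eval_e_PP α hα
      have h2 : MvPolynomial.eval (ep b) (PP β) = 1 := Leqx.eval_e_PP β hβ
      rw [h1, h2, mul_one])
  exact ⟨a, b, e, τ, α, β, ha hS, hb hT, hα, hβ, hτ, hPP⟩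

end Pool.Agent.LFS
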