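import Pool.Agent.LFS.St

/-!
# Module Frs: the four types are linear free divisors (helper12)
-/

set_option autoImplicit false

noncomputable section

namespace Pool.Agent.LFS

open scoped Polynomial
open MvPolynomial Pool.Agent.Helper28.Nij Pool.Agent.LFD

namespace Frsx

/-! ### squarefree -/

section sqf

variable {ι : Type}

theorem not_dvd {p : ι} {f : MvPolynomial ι ℝ} (v : ι → ℝ) (hv : v p = 0) (hf : eval v f ≠ 0) :
    ¬ (X p ∣ f) := by
  rintro ⟨g, rfl⟩
  apply hf
  rw [map_mul, eval_X, hv, zero_mul]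

theorem sqf_X {p : ι} {f : MvPolynomial ι ℝ} (hf : Squarefree f) (hp : ¬ (X p ∣ f)) :
    Squarefree (f * X p) := by
  have hX : Prime (X p : MvPolynomial ι ℝ) := MvPolynomial.X_prime
  rw [squarefree_mul_iff]
  refine ⟨?_, hf, hX.irreducible.squarefree⟩
  exact (hX.irreducible.isRelPrime_iff_not_dvd.2 hp).symm

theorem sqf_prod [DecidableEq ι] {f : MvPolynomial ι ℝ} (hf : Squarefree f) (P : Finset ι) :
    (∀ p ∈ P, ¬ (X p ∣ f)) → Squarefree (f * ∏ p ∈ P, X p) := by
  induction P using Finset.induction_on with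
  | empty => intro _; rwa [Finset.prod_empty, mul_one]
  | insert a s ha ih =>
    intro hP
    rw [Finset.prod_insert ha, mul_comm (X a), ← mul_assoc]
    apply sqf_X (ih fun p hp => hP p (Finset.mem_insert_of_mem hp))
    intro h
    have hX : Prime (X a : MvPolynomial ι ℝ) := MvPolynomial.X_prime
    rcases hX.dvd_or_dvd h with h1 | h1
    · exact hP a (Finset.mem_insert_self _ _) h1
    · obtain ⟨q, hq, h2⟩ := (hX.dvd_finset_prod_iff _).1 h1
      rw [X_dvd_X] at h2
      exact ha (h2 ▸ hq)

theorem dvd_pd {f x : MvPolynomial ι ℝ} (h : x * x ∣ f) (i : ι) : x ∣ pderiv i f := by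
  obtain ⟨g, rfl⟩ := h
  refine ⟨pderiv i x * g + pderiv i x * g + x * pderiv i g, ?_⟩
  rw [Derivation.leibniz, Derivation.leibniz]
  simp only [smul_eq_mul]
  ring

theorem unit_of {u v : ι} (huv : u ≠ v) {x : MvPolynomial ι ℝ} (h1 : x ∣ X u) (h2 : x ∣ X v) :
    IsUnit x := by
  have hX : Prime (X u : MvPolynomial ι ℝ) := MvPolynomial.X_prime
  obtain ⟨y, hy⟩ := h1
  rcases hX.irreducible.isUnit_or_isUnit hy with h | h
  · exact h
  · exfalso
    have h3 : (X u : MvPolynomial ι ℝ) ∣ X v := by
      obtain ⟨w, hw⟩ := h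
      have h4 : (X u : MvPolynomial ι ℝ) ∣ x := by
        refine ⟨(w⁻¹ : (MvPolynomial ι ℝ)ˣ), ?_⟩
        rw [hy, ← hw, mul_assoc, Units.mul_inv, mul_one]
      exact h4.trans h2
    rw [X_dvd_X] at h3
    exact huv h3

end sqf

/-! ### fields -/

section fields

variable {ι κ : Type} [Fintype ι] [Fintype κ]

theorem der_ren (φ : κ → ι) (A : Matrix ι ι ℝ) (N : Matrix κ κ ℝ)
    (h : ∀ s, fld A (φ s) = rename φ (fld N s)) (f : MvPolynomial κ ℝ) :
    der A (rename φ f) = rename φ (der N f) := by
  rw [← Comx.D_apply, ← Comx.D_apply]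
  induction f using MvPolynomial.induction_on with
  | C a => rw [rename_C, derivation_C, derivation_C, map_zero]
  | add p q hp hq => rw [map_add, map_add, map_add, hp, hq, map_add]
  | mul_X p s hp =>
    rw [map_mul, rename_X, Derivation.leibniz, Derivation.leibniz, map_add, hp]
    simp only [smul_eq_mul, map_mul, Comx.D_X, h, rename_X]

variable [DecidableEq ι] [DecidableEq κ]

/-- the fields of the product -/
def TT {m : ℕ} {R : Type} [DecidableEq R] (N : Fin m → Matrix (Fin m) (Fin m) ℝ) :
    Fin m ⊕ R → Matrix (Fin m ⊕ R) (Fin m ⊕ R) ℝ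
  | .inl k => Matrix.fromBlocks (N k) 0 0 0
  | .inr r => Matrix.fromBlocks 0 0 0 (Matrix.diagonal (Pi.single r 1))

variable {m : ℕ} {R : Type} [DecidableEq R] [Fintype R]

theorem fld_ll (N : Fin m → Matrix (Fin m) (Fin m) ℝ) (k i : Fin m) :
    fld (TT (R := R) N (.inl k)) (.inl i) = rename Sum.inl (fld (N k) i) := by
  unfold fld TT
  rw [Fintype.sum_sum_type, map_sum]
  simp [Matrix.fromBlocks]

theorem fld_lr (N : Fin m → Matrix (Fin m) (Fin m) ℝ) (k : Fin m) (r : R) :
    fld (TT (R := R) N (.inl k)) (.inr r) = 0 := by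
  unfold fld TT
  rw [Fintype.sum_sum_type]
  simp [Matrix.fromBlocks]

theorem fld_rl (N : Fin m → Matrix (Fin m) (Fin m) ℝ) (k : R) (i : Fin m) :
    fld (TT (R := R) N (.inr k)) (.inl i) = 0 := by
  unfold fld TT
  rw [Fintype.sum_sum_type]
  simp [Matrix.fromBlocks]

theorem fld_rr (N : Fin m → Matrix (Fin m) (Fin m) ℝ) (k r : R) :
    fld (TT (R := R) N (.inr k)) (.inr r) = if k = r then X (.inr r) else 0 := by
  unfold fld TT
  rw [Fintype.sum_sum_type]
  simp only [Matrix.fromBlocks, Matrix.of_apply, Sum.elim_inr, Sum.elim_inl, Matrix.zero_apply,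
    C_0, zero_mul, Finset.sum_const_zero, zero_add]
  rw [Finset.sum_eq_single r]
  · rw [Matrix.diagonal_apply_eq]
    by_cases h : k = r
    · subst h
      rw [Pi.single_eq_same, if_pos rfl, C_1, one_mul]
    · rw [Pi.single_eq_of_ne (fun h' => h h'.symm), if_neg h, C_0, zero_mul]
  · intro s _ hs
    rw [Matrix.diagonal_apply_ne _ (Ne.symm hs), C_0, zero_mul]
  · intro h
    exact absurd (Finset.mem_univ r) h

theorem det_TT (N : Fin m → Matrix (Fin m) (Fin m) ℝ) :
    (Matrix.of fun k i => fld (TT (R := R) N k) i).det =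
      rename Sum.inl (Matrix.of fun k i => fld (N k) i).det * ∏ r : R, X (.inr r) := by
  have h1 : (Matrix.of fun k i => fld (TT (R := R) N k) i) =
      Matrix.fromBlocks ((Matrix.of fun k i => fld (N k) i).map
        (rename Sum.inl : MvPolynomial (Fin m) ℝ →ₐ[ℝ] MvPolynomial (Fin m ⊕ R) ℝ)) 0 0
        (Matrix.diagonal fun r : R => X (.inr r)) := by
    refine Matrix.ext fun k i => ?_
    rcases k with k | k <;> rcases i with i | i
    · rw [Matrix.of_apply, fld_ll]; rfl
    · rw [Matrix.of_apply, fld_lr]; rfl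
    · rw [Matrix.of_apply, fld_rl]; rfl
    · rw [Matrix.of_apply, fld_rr]
      change _ = Matrix.diagonal (fun r : R => (X (.inr r) : MvPolynomial (Fin m ⊕ R) ℝ)) k i
      rw [Matrix.diagonal_apply]
      by_cases h : k = i
      · subst h; rfl
      · rw [if_neg h, if_neg h]
  rw [h1, Matrix.det_fromBlocks_zero₁₂, Matrix.det_diagonal]
  congr 1
  have h2 := AlgHom.map_det (rename Sum.inl : MvPolynomial (Fin m) ℝ →ₐ[ℝ] MvPolynomial (Fin m ⊕ R) ℝ)
    (Matrix.of fun k i => fld (N k) i)
  rw [h2]
  rfl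

theorem fld_re (e : κ ≃ ι) (A : Matrix κ κ ℝ) (s : κ) :
    fld (A.submatrix e.symm e.symm) (e s) = rename e (fld A s) := by
  unfold fld
  rw [map_sum, ← Equiv.sum_comp e]
  refine Finset.sum_congr rfl fun j _ => ?_
  rw [Matrix.submatrix_apply, Equiv.symm_apply_apply, Equiv.symm_apply_apply, map_mul, rename_C,
    rename_X]

/-- the divisor of a product of a small divisor with coordinates -/
theorem prod_lf (b : Fin m → ι) (hb : Function.Injective b)
    (N : Fin m → Matrix (Fin m) (Fin m) ℝ) (Q : MvPolynomial (Fin m) ℝ)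
    (hN : ∀ k, Q ∣ der (N k) Q) (c : ℝ) (hc : c ≠ 0)
    (hdet : (Matrix.of fun k i => fld (N k) i).det = C c * Q)
    (hsq : Squarefree (rename b Q * ∏ p ∈ Finset.univ \ Finset.univ.image b, X p)) :
    LinFree (rename b Q * ∏ p ∈ Finset.univ \ Finset.univ.image b, X p) := by
  obtain ⟨B, hB⟩ : ∃ B, B = Finset.univ \ Finset.univ.image b := ⟨_, rfl⟩
  rw [← hB] at hsq ⊢
  have hmem : ∀ p, p ∈ B ↔ p ∉ Set.range b := by
    intro p
    rw [hB]
    simp
  let e : Fin m ⊕ {p // p ∉ Set.range b} ≃ ι :=
    (Equiv.sumCongr (Equiv.ofInjective b hb) (Equiv.refl _)).trans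
      (Equiv.Set.sumCompl (Set.range b))
  have hel : ∀ s, e (.inl s) = b s := fun s => rfl
  have her : ∀ r : {p // p ∉ Set.range b}, e (.inr r) = r := fun r => rfl
  have hprod : ∏ p ∈ B, (X p : MvPolynomial ι ℝ) = ∏ r : {p // p ∉ Set.range b}, X (r : ι) :=
    Finset.prod_subtype B hmem _
  obtain ⟨A, hA⟩ : ∃ A : ι → Matrix ι ι ℝ,
      A = fun k => (TT (R := {p // p ∉ Set.range b}) N (e.symm k)).submatrix e.symm e.symm :=
    ⟨_, rfl⟩
  have hfld : ∀ k s, fld (A (e k)) (e s) =
      rename e (fld (TT (R := {p // p ∉ Set.range b}) N k) s) := by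
    intro k s
    rw [hA]
    simp only
    rw [Equiv.symm_apply_apply, fld_re]
  refine ⟨hsq, A, ?_, c, hc, ?_⟩
  · intro k
    obtain ⟨k, rfl⟩ := e.surjective k
    rcases k with k | k
    · -- a field of the small divisor
      have h1 : ∀ s, fld (A (e (.inl k))) (b s) = rename b (fld (N k) s) := by
        intro s
        rw [← hel s, hfld, fld_ll, rename_rename]
        rfl
      have h2 := der_ren b (A (e (.inl k))) (N k) h1 Q
      have h3 : der (A (e (.inl k))) (∏ p ∈ B, X p) = 0 := by
        have h4 : ∀ p ∈ B, Comx.D (A (e (.inl k))) (X p) = 0 := by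
          intro p hp
          rw [Comx.D_X]
          have h5 := hfld (.inl k) (.inr ⟨p, (hmem p).1 hp⟩)
          rw [her, fld_lr, map_zero] at h5
          exact h5
        rw [← Comx.D_apply]
        have h6 : ∀ s : Finset ι, s ⊆ B → Comx.D (A (e (.inl k))) (∏ p ∈ s, X p) = 0 := by
          intro s
          induction s using Finset.induction_on with
          | empty => intro _; rw [Finset.prod_empty]; exact Derivation.map_one_eq_zero _
          | insert a s ha ih =>
            intro hs
            rw [Finset.prod_insert ha, Derivation.leibniz,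
              ih ((Finset.subset_insert a s).trans hs), h4 a (hs (Finset.mem_insert_self a s)),
              smul_zero, smul_zero, add_zero]
        exact h6 B (Finset.Subset.refl B)
      obtain ⟨q, hq⟩ := hN k
      refine ⟨rename b q, ?_⟩
      rw [← Comx.D_apply, Derivation.leibniz, Comx.D_apply, Comx.D_apply, h3, h2, hq, smul_zero,
        zero_add, smul_eq_mul, map_mul]
      ring
    · -- a coordinate
      have h1 : ∀ s, fld (A (e (.inr k))) (b s) = rename b (fld (0 : Matrix (Fin m) (Fin m) ℝ) s) := by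
        intro s
        rw [← hel s, hfld, fld_rl, map_zero]
        simp [fld]
      have h2 := der_ren b (A (e (.inr k))) 0 h1 Q
      have h2' : der (A (e (.inr k))) (rename b Q) = 0 := by
        rw [h2]
        simp [der, fld]
      have hkB : (k : ι) ∈ B := (hmem k).2 k.2
      have h3 : der (A (e (.inr k))) (∏ p ∈ B, X p) = ∏ p ∈ B, X p := by
        have h4 : ∀ p ∈ B, Comx.D (A (e (.inr k))) (X p) = if (k : ι) = p then X p else 0 := by
          intro p hp
          rw [Comx.D_X]
          have h5 := hfld (.inr k) (.inr ⟨p, (hmem p).1 hp⟩)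
          rw [her ⟨p, (hmem p).1 hp⟩, fld_rr] at h5
          rw [h5]
          by_cases h6 : (k : ι) = p
          · rw [if_pos h6, if_pos (Subtype.ext h6), rename_X]
            rfl
          · rw [if_neg h6, if_neg (fun h7 => h6 (congrArg Subtype.val h7)), map_zero]
        rw [← Comx.D_apply]
        have h6 : ∀ s : Finset ι, s ⊆ B → Comx.D (A (e (.inr k))) (∏ p ∈ s, X p) =
            if (k : ι) ∈ s then ∏ p ∈ s, X p else 0 := by
          intro s
          induction s using Finset.induction_on with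
          | empty =>
            intro _
            rw [Finset.prod_empty, if_neg (Finset.notMem_empty _)]
            exact Derivation.map_one_eq_zero _
          | insert a s ha ih =>
            intro hs
            rw [Finset.prod_insert ha, Derivation.leibniz,
              ih ((Finset.subset_insert a s).trans hs), h4 a (hs (Finset.mem_insert_self a s)),
              smul_eq_mul, smul_eq_mul]
            by_cases h7 : (k : ι) = a
            · subst h7
              rw [if_neg ha, if_pos rfl, if_pos (Finset.mem_insert_self _ _)]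
              ring
            · rw [if_neg h7, mul_zero, add_zero]
              by_cases h8 : (k : ι) ∈ s
              · rw [if_pos h8, if_pos (Finset.mem_insert_of_mem h8)]
              · rw [if_neg h8, if_neg (by rw [Finset.mem_insert]; tauto), mul_zero]
        rw [h6 B (Finset.Subset.refl B), if_pos hkB]
      refine ⟨1, ?_⟩
      rw [← Comx.D_apply, Derivation.leibniz, Comx.D_apply, Comx.D_apply, h3, h2', smul_zero,
        add_zero, smul_eq_mul, mul_one]
  · have h1 : (Matrix.of fun k i => fld (A k) i).det =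
        ((Matrix.of fun k i => fld (A k) i).submatrix e e).det :=
      (Matrix.det_submatrix_equiv_self e _).symm
    have h2 : (Matrix.of fun k i => fld (A k) i).submatrix e e =
        (Matrix.of fun k i => fld (TT (R := {p // p ∉ Set.range b}) N k) i).map
          (rename e : MvPolynomial (Fin m ⊕ {p // p ∉ Set.range b}) ℝ →ₐ[ℝ] MvPolynomial ι ℝ) := by
      refine Matrix.ext fun k s => ?_
      rw [Matrix.submatrix_apply, Matrix.of_apply, hfld]
      rfl
    have h3 := AlgHom.map_det
      (rename e : MvPolynomial (Fin m ⊕ {p // p ∉ Set.range b}) ℝ →ₐ[ℝ] MvPolynomial ι ℝ)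
      (Matrix.of fun k i => fld (TT (R := {p // p ∉ Set.range b}) N k) i)
    have h4 : (Matrix.of fun k i => fld (A k) i).det =
        rename e (Matrix.of fun k i => fld (TT (R := {p // p ∉ Set.range b}) N k) i).det := by
      rw [h3, h1, h2]
      rfl
    rw [h4, det_TT, hdet, map_mul, rename_rename, map_prod, map_mul, rename_C, hprod, mul_assoc]
    congr 2
    refine Finset.prod_congr rfl fun r _ => ?_
    rw [rename_X, her]

end fields

/-! ### the quadratic forms -/

section quad

variable {ι : Type} [Fintype ι] [DecidableEq ι]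

theorem sqf_form {u v : ι} (huv : u ≠ v) {Q : MvPolynomial ι ℝ}
    (h : ∀ x : MvPolynomial ι ℝ, x * x ∣ Q → x ∣ X u ∧ x ∣ X v) : Squarefree Q :=
  fun x hx => unit_of huv (h x hx).1 (h x hx).2

theorem type1 : LinFree (∏ i : ι, X i : MvPolynomial ι ℝ) := by
  have h1 : (rename (Fin.elim0 : Fin 0 → ι) (1 : MvPolynomial (Fin 0) ℝ)) *
      ∏ p ∈ Finset.univ \ Finset.univ.image (Fin.elim0 : Fin 0 → ι), X p =
      (∏ i : ι, X i : MvPolynomial ι ℝ) := by
    rw [map_one, one_mul]
    congr 1
    ext p
    simp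
  rw [← h1]
  apply prod_lf (Fin.elim0 : Fin 0 → ι) (fun a => a.elim0) (fun k => k.elim0) 1 (fun k => k.elim0)
    1 one_ne_zero
  · rw [Matrix.det_isEmpty, C_1, one_mul]
  · rw [map_one]
    apply sqf_prod squarefree_one
    intro p _
    exact not_dvd 0 rfl (by rw [map_one]; exact one_ne_zero)

theorem img2 (i j : ι) : Finset.univ.image (![i, j] : Fin 2 → ι) = {i, j} := by
  ext p
  simp [Fin.exists_fin_two, eq_comm]

theorem img3 (i j l : ι) : Finset.univ.image (![i, j, l] : Fin 3 → ι) = {i, j, l} := by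
  ext p
  simp [Fin.exists_fin_succ, eq_comm]

theorem img4 (i j k l : ι) : Finset.univ.image (![i, j, k, l] : Fin 4 → ι) = {i, j, k, l} := by
  ext p
  simp [Fin.exists_fin_succ, eq_comm]

theorem type2 {i j : ι} (hij : i ≠ j) (a b d : ℝ) (hd : b ^ 2 < 4 * a * d) :
    LinFree ((C a * X i ^ 2 + C b * X i * X j + C d * X j ^ 2 : MvPolynomial ι ℝ) *
      ∏ k ∈ Finset.univ \ {i, j}, X k) := by
  have ha : a ≠ 0 := by
    rintro rfl
    nlinarith [sq_nonneg b]
  have hD : 4 * a * d - b ^ 2 ≠ 0 := by linarith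
  have h1 : rename (![i, j] : Fin 2 → ι) (C a * X 0 ^ 2 + C b * X 0 * X 1 + C d * X 1 ^ 2) =
      (C a * X i ^ 2 + C b * X i * X j + C d * X j ^ 2 : MvPolynomial ι ℝ) := by
    simp
  have hinj : Function.Injective (![i, j] : Fin 2 → ι) := by
    intro s t hst
    fin_cases s <;> fin_cases t <;> simp_all
  have hsq : Squarefree ((C a * X i ^ 2 + C b * X i * X j + C d * X j ^ 2 : MvPolynomial ι ℝ) *
      ∏ k ∈ Finset.univ \ {i, j}, X k) := by
    apply sqf_prod
    · apply sqf_form hij
      intro x hx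
      have e1 := dvd_pd hx i
      have e2 := dvd_pd hx j
      have f1 : pderiv i (C a * X i ^ 2 + C b * X i * X j + C d * X j ^ 2 : MvPolynomial ι ℝ) =
          C (2 * a) * X i + C b * X j := by
        simp only [map_add, Derivation.leibniz, Derivation.leibniz_pow, pderiv_C, pderiv_X_self,
          pderiv_X_of_ne hij.symm, smul_eq_mul, nsmul_eq_mul, C_mul, map_ofNat]
        push_cast
        ring
      have f2 : pderiv j (C a * X i ^ 2 + C b * X i * X j + C d * X j ^ 2 : MvPolynomial ι ℝ) =
          C b * X i + C (2 * d) * X j := by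
        simp only [map_add, Derivation.leibniz, Derivation.leibniz_pow, pderiv_C, pderiv_X_self,
          pderiv_X_of_ne hij, smul_eq_mul, nsmul_eq_mul, C_mul, map_ofNat]
        push_cast
        ring
      rw [f1] at e1
      rw [f2] at e2
      constructor
      · have h3 : x ∣ C (4 * a * d - b ^ 2)⁻¹ * (C (2 * d) * (C (2 * a) * X i + C b * X j) -
            C b * (C b * X i + C (2 * d) * X j)) :=
          dvd_mul_of_dvd_right (dvd_sub (dvd_mul_of_dvd_right e1 _) (dvd_mul_of_dvd_right e2 _)) _
        have h4 : C (4 * a * d - b ^ 2)⁻¹ * (C (2 * d) * (C (2 * a) * X i + C b * X j) -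
            C b * (C b * X i + C (2 * d) * X j)) = (X i : MvPolynomial ι ℝ) := by
          have h5 : C (4 * a * d - b ^ 2)⁻¹ * (C (2 * d) * (C (2 * a) * X i + C b * X j) -
            C b * (C b * X i + C (2 * d) * X j)) =
              (C ((4 * a * d - b ^ 2)⁻¹ * (4 * a * d - b ^ 2)) * X i : MvPolynomial ι ℝ) := by
            simp only [C_mul, C_sub, C_pow, map_ofNat]
            ring
          rw [h5, inv_mul_cancel₀ hD, C_1, one_mul]
        rwa [h4] at h3
      · have h3 : x ∣ C (4 * a * d - b ^ 2)⁻¹ * (C (2 * a) * (C b * X i + C (2 * d) * X j) -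
            C b * (C (2 * a) * X i + C b * X j)) :=
          dvd_mul_of_dvd_right (dvd_sub (dvd_mul_of_dvd_right e2 _) (dvd_mul_of_dvd_right e1 _)) _
        have h4 : C (4 * a * d - b ^ 2)⁻¹ * (C (2 * a) * (C b * X i + C (2 * d) * X j) -
            C b * (C (2 * a) * X i + C b * X j)) = (X j : MvPolynomial ι ℝ) := by
          have h5 : C (4 * a * d - b ^ 2)⁻¹ * (C (2 * a) * (C b * X i + C (2 * d) * X j) -
            C b * (C (2 * a) * X i + C b * X j)) =
              (C ((4 * a * d - b ^ 2)⁻¹ * (4 * a * d - b ^ 2)) * X j : MvPolynomial ι ℝ) := by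
            simp only [C_mul, C_sub, C_pow, map_ofNat]
            ring
          rw [h5, inv_mul_cancel₀ hD, C_1, one_mul]
        rwa [h4] at h3
    · intro p hp
      rw [Finset.mem_sdiff, Finset.mem_insert, Finset.mem_singleton, not_or] at hp
      refine not_dvd (Pi.single i 1) (Pi.single_eq_of_ne hp.2.1 _) ?_
      simp [Pi.single_eq_of_ne hij.symm, ha]
  have h2 := prod_lf (![i, j] : Fin 2 → ι) hinj ![1, !![-b / 2, -d; a, b / 2]]
    (C a * X 0 ^ 2 + C b * X 0 * X 1 + C d * X 1 ^ 2) (by
      intro k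
      fin_cases k
      · refine ⟨2, ?_⟩
        simp only [der, fld, Fin.sum_univ_two]
        simp
        ring
      · refine ⟨0, ?_⟩
        simp only [der, fld, Fin.sum_univ_two]
        have hb : (C (-b / 2) : MvPolynomial (Fin 2) ℝ) = - C (b / 2) := by
          rw [← C_neg]; congr 1; ring
        have hb2 : (C b : MvPolynomial (Fin 2) ℝ) = C (b / 2) + C (b / 2) := by
          rw [← C_add]; congr 1; ring
        simp [hb, hb2]
        ring) 1 one_ne_zero (by
      rw [Matrix.det_fin_two]
      simp only [fld, Fin.sum_univ_two, Matrix.of_apply]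
      have hb : (C (-b / 2) : MvPolynomial (Fin 2) ℝ) = - C (b / 2) := by
        rw [← C_neg]; congr 1; ring
      have hb2 : (C b : MvPolynomial (Fin 2) ℝ) = C (b / 2) + C (b / 2) := by
        rw [← C_add]; congr 1; ring
      simp [hb, hb2]
      ring) (by
      rw [h1, img2]
      exact hsq)
  rw [h1, img2] at h2
  exact h2

theorem type3 {i j l : ι} (hij : i ≠ j) (hil : i ≠ l) (hjl : j ≠ l) (a : ℝ) (ha : a ≠ 0) :
    LinFree ((X i * X l - C a * X j ^ 2) * X l * ∏ k ∈ Finset.univ \ {i, j, l}, X k :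
      MvPolynomial ι ℝ) := by
  have h1 : rename (![i, j, l] : Fin 3 → ι) ((X 0 * X 2 - C a * X 1 ^ 2) * X 2) =
      ((X i * X l - C a * X j ^ 2) * X l : MvPolynomial ι ℝ) := by
    simp
  have hinj : Function.Injective (![i, j, l] : Fin 3 → ι) := by
    intro s t hst
    fin_cases s <;> fin_cases t <;> simp_all
  have hsq : Squarefree ((X i * X l - C a * X j ^ 2) * X l * ∏ k ∈ Finset.univ \ {i, j, l}, X k :
      MvPolynomial ι ℝ) := by
    apply sqf_prod
    · apply sqf_X
      · apply sqf_form hil
        intro x hx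
        have e1 := dvd_pd hx i
        have e2 := dvd_pd hx l
        have f1 : pderiv i (X i * X l - C a * X j ^ 2 : MvPolynomial ι ℝ) = X l := by
          simp [pderiv_X_of_ne hij.symm, pderiv_X_of_ne hil.symm]
        have f2 : pderiv l (X i * X l - C a * X j ^ 2 : MvPolynomial ι ℝ) = X i := by
          simp [pderiv_X_of_ne hil, pderiv_X_of_ne hjl]
        rw [f1] at e1
        rw [f2] at e2
        exact ⟨e2, e1⟩
      · refine not_dvd (Pi.single j 1) (Pi.single_eq_of_ne hjl.symm _) ?_
        simp [Pi.single_eq_of_ne hij, ha]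
    · intro p hp
      simp only [Finset.mem_sdiff, Finset.mem_insert, Finset.mem_singleton, not_or] at hp
      refine not_dvd (Pi.single i 1 + Pi.single l 1) ?_ ?_
      · rw [Pi.add_apply, Pi.single_eq_of_ne hp.2.1, Pi.single_eq_of_ne hp.2.2.2, add_zero]
      · simp [Pi.single_eq_of_ne hij.symm, Pi.single_eq_of_ne hjl, Pi.single_eq_of_ne hil,
          Pi.single_eq_of_ne hil.symm]
  have h2 := prod_lf (![i, j, l] : Fin 3 → ι) hinj
    ![1, Matrix.diagonal ![1, 0, -1], !![0, a + a, 0; 0, 0, 1; 0, 0, 0]]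
    ((X 0 * X 2 - C a * X 1 ^ 2) * X 2) (by
      intro k
      fin_cases k
      · refine ⟨3, ?_⟩
        simp only [der, fld, Fin.sum_univ_three]
        simp
        ring
      · refine ⟨-1, ?_⟩
        simp only [der, fld, Fin.sum_univ_three]
        simp
        ring
      · refine ⟨0, ?_⟩
        simp only [der, fld, Fin.sum_univ_three]
        simp
        ring) 2 two_ne_zero (by
      rw [Matrix.det_fin_three]
      simp only [fld, Fin.sum_univ_three, Matrix.of_apply]
      have h22 : (C 2 : MvPolynomial (Fin 3) ℝ) = 2 := map_ofNat C 2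
      simp [h22]
      ring) (by
      rw [h1, img3]
      exact hsq)
  rw [h1, img3] at h2
  exact h2

theorem type4 {i j k l : ι} (hij : i ≠ j) (hik : i ≠ k) (hil : i ≠ l) (hjk : j ≠ k) (hjl : j ≠ l)
    (hkl : k ≠ l) (a : ℝ) (ha : a ≠ 0) :
    LinFree ((X i * X l - C a * X j * X k) * X l * X j * ∏ p ∈ Finset.univ \ {i, j, k, l}, X p :
      MvPolynomial ι ℝ) := by
  have h1 : rename (![i, j, k, l] : Fin 4 → ι) ((X 0 * X 3 - C a * X 1 * X 2) * X 3 * X 1) =
      ((X i * X l - C a * X j * X k) * X l * X j : MvPolynomial ι ℝ) := by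
    simp
  have hinj : Function.Injective (![i, j, k, l] : Fin 4 → ι) := by
    intro s t hst
    fin_cases s <;> fin_cases t <;> simp_all
  have hsq : Squarefree ((X i * X l - C a * X j * X k) * X l * X j *
      ∏ p ∈ Finset.univ \ {i, j, k, l}, X p : MvPolynomial ι ℝ) := by
    apply sqf_prod
    · apply sqf_X
      · apply sqf_X
        · apply sqf_form hil
          intro x hx
          have e1 := dvd_pd hx i
          have e2 := dvd_pd hx l
          have f1 : pderiv i (X i * X l - C a * X j * X k : MvPolynomial ι ℝ) = X l := by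
            simp [pderiv_X_of_ne hij.symm, pderiv_X_of_ne hil.symm, pderiv_X_of_ne hik.symm]
          have f2 : pderiv l (X i * X l - C a * X j * X k : MvPolynomial ι ℝ) = X i := by
            simp [pderiv_X_of_ne hil, pderiv_X_of_ne hjl, pderiv_X_of_ne hkl]
          rw [f1] at e1
          rw [f2] at e2
          exact ⟨e2, e1⟩
        · refine not_dvd (Pi.single j 1 + Pi.single k 1) ?_ ?_
          · rw [Pi.add_apply, Pi.single_eq_of_ne hjl.symm, Pi.single_eq_of_ne hkl.symm, add_zero]
          · simp [Pi.single_eq_of_ne hij, Pi.single_eq_of_ne hik, Pi.single_eq_of_ne hjk,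
              Pi.single_eq_of_ne hjk.symm, ha]
      · refine not_dvd (Pi.single i 1 + Pi.single l 1) ?_ ?_
        · rw [Pi.add_apply, Pi.single_eq_of_ne hij.symm, Pi.single_eq_of_ne hjl, add_zero]
        · simp [Pi.single_eq_of_ne hil, Pi.single_eq_of_ne hil.symm, Pi.single_eq_of_ne hij.symm,
            Pi.single_eq_of_ne hjl]
    · intro p hp
      simp only [Finset.mem_sdiff, Finset.mem_insert, Finset.mem_singleton, not_or] at hp
      refine not_dvd (Pi.single i 1 + Pi.single l 1 + Pi.single j 1) ?_ ?_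
      · rw [Pi.add_apply, Pi.add_apply, Pi.single_eq_of_ne hp.2.1, Pi.single_eq_of_ne hp.2.2.2.2,
          Pi.single_eq_of_ne hp.2.2.1, add_zero, add_zero]
      · simp [Pi.single_eq_of_ne hil, Pi.single_eq_of_ne hil.symm, Pi.single_eq_of_ne hij.symm,
          Pi.single_eq_of_ne hij, Pi.single_eq_of_ne hjl, Pi.single_eq_of_ne hjl.symm,
          Pi.single_eq_of_ne hik.symm, Pi.single_eq_of_ne hjk.symm, Pi.single_eq_of_ne hkl]
  have h2 := prod_lf (![i, j, k, l] : Fin 4 → ι) hinj
    ![Matrix.diagonal ![1, 1, 0, 0], Matrix.diagonal ![0, 0, 1, 1], Matrix.diagonal ![1, 0, 1, 0],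
      !![0, a, 0, 0; 0, 0, 0, 0; 0, 0, 0, 1; 0, 0, 0, 0]]
    ((X 0 * X 3 - C a * X 1 * X 2) * X 3 * X 1) (by
      intro k
      fin_cases k
      · refine ⟨2, ?_⟩
        simp only [der, fld, Fin.sum_univ_four]
        simp
        ring
      · refine ⟨2, ?_⟩
        simp only [der, fld, Fin.sum_univ_four]
        simp
        ring
      · refine ⟨1, ?_⟩
        simp only [der, fld, Fin.sum_univ_four]
        simp
        ring
      · refine ⟨0, ?_⟩
        simp only [der, fld, Fin.sum_univ_four]
        simp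
        ring) (-1) (by norm_num) (by
      rw [Matrix.det_succ_row_zero]
      simp only [Fin.sum_univ_four, Matrix.det_fin_three, Matrix.submatrix_apply, Matrix.of_apply,
        fld]
      simp [Fin.succAbove]
      ring) (by
      rw [h1, img4]
      exact hsq)
  rw [h1, img4] at h2
  exact h2

end quad

end Frsx

open Frsx

theorem thm_Frs : St_Frs := by
  rintro ι _ _ h ⟨c, hc, h1 | ⟨i, j, a, b, d, hij, hd, h1⟩ | ⟨i, j, l, a, hij, hil, hjl, ha, h1⟩ |
    ⟨i, j, k, l, a, hij, hik, hil, hjk, hjl, hkl, ha, h1⟩⟩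
  · rw [h1, (thm_Lin).2 ι _ c hc]
    exact type1
  · rw [h1, mul_assoc, (thm_Lin).2 ι _ c hc]
    exact type2 hij a b d hd
  · have h2 : h = C c * ((X i * X l - C a * X j ^ 2) * X l *
        ∏ k ∈ Finset.univ \ {i, j, l}, X k) := by
      rw [h1]; ring
    rw [h2, (thm_Lin).2 ι _ c hc]
    exact type3 hij hil hjl a ha
  · have h2 : h = C c * ((X i * X l - C a * X j * X k) * X l * X j *
        ∏ p ∈ Finset.univ \ {i, j, k, l}, X p) := by
      rw [h1]; ring
    rw [h2, (thm_Lin).2 ι _ c hc]
    exact type4 hij hik hil hjk hjl hkl a ha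

end Pool.Agent.LFS
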