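import Pool.Agent.LFS.St

/-!
# Module Hyp: the hyperbolic part has the same real eigenvectors in the polynomial ring (helper18)
-/

set_option autoImplicit false

noncomputable section

open scoped Polynomial
open MvPolynomial Pool.Agent.Helper28.Nij Pool.Agent.LFD

namespace Pool.Agent.LFS

namespace Hypx

variable {ι : Type} [Fintype ι] [DecidableEq ι]

omit [DecidableEq ι] in
theorem der_add_right (A : Matrix ι ι ℝ) (f g : MvPolynomial ι ℝ) :
    der A (f + g) = der A f + der A g := by
  simp only [der, map_add, mul_add, Finset.sum_add_distrib]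

omit [DecidableEq ι] in
theorem der_zero_right (A : Matrix ι ι ℝ) : der A (0 : MvPolynomial ι ℝ) = 0 := by
  simp only [der, map_zero, mul_zero, Finset.sum_const_zero]

omit [DecidableEq ι] in
/-- a field which commutes with the diagonal one preserves the weights -/
theorem hom (d : ι → ℝ) (M : Matrix ι ι ℝ) (hM : ∀ i j, M i j ≠ 0 → d i = d j) (b : ℝ)
    (φ : MvPolynomial ι ℝ) (hφ : IsWeightedHomogeneous d φ b) :
    IsWeightedHomogeneous d (der M φ) b := by
  unfold der
  refine IsWeightedHomogeneous.sum _ _ _ fun i _ => ?_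
  have h1 : IsWeightedHomogeneous d (fld M i) (d i) := by
    unfold fld
    refine IsWeightedHomogeneous.sum _ _ _ fun j _ => ?_
    by_cases h : M i j = 0
    · rw [h, C_0, zero_mul]
      exact isWeightedHomogeneous_zero _ _ _
    · rw [hM i j h]
      exact (isWeightedHomogeneous_X ℝ d j).C_mul (M i j)
  have h2 : IsWeightedHomogeneous d (pderiv i φ) (b - d i) :=
    hφ.pderiv (by ring)
  have h3 := h1.mul h2
  rwa [add_sub_cancel] at h3

omit [DecidableEq ι] in
theorem comp_der (d : ι → ℝ) (M : Matrix ι ι ℝ) (hM : ∀ i j, M i j ≠ 0 → d i = d j) (b : ℝ)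
    (g : MvPolynomial ι ℝ) :
    weightedHomogeneousComponent d b (der M g) = der M (weightedHomogeneousComponent d b g) := by
  induction g using MvPolynomial.induction_on' with
  | monomial u a =>
    have h1 : IsWeightedHomogeneous d (monomial u a : MvPolynomial ι ℝ) (Finsupp.weight d u) :=
      isWeightedHomogeneous_monomial d u a rfl
    have h2 := hom d M hM _ _ h1
    by_cases h : Finsupp.weight d u = b
    · subst h
      rw [h1.weightedHomogeneousComponent_same, h2.weightedHomogeneousComponent_same]
    · rw [h1.weightedHomogeneousComponent_ne _ (Ne.symm h),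
        h2.weightedHomogeneousComponent_ne _ (Ne.symm h), der_zero_right]
  | add p q hp hq => rw [der_add_right, map_add, map_add, hp, hq, der_add_right]

theorem der_diag (d : ι → ℝ) (b : ℝ) (φ : MvPolynomial ι ℝ) (hφ : IsWeightedHomogeneous d φ b) :
    der (Matrix.diagonal d) φ = C b * φ := by
  have hmon : ∀ (u : ι →₀ ℕ) (a : ℝ), der (Matrix.diagonal d) (monomial u a) =
      C (Finsupp.weight d u) * monomial u a := by
    intro u a
    unfold der
    have h1 : ∀ i, fld (Matrix.diagonal d) i * pderiv i (monomial u a) =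
        C ((u i : ℝ) * d i) * monomial u a := by
      intro i
      have h2 : fld (Matrix.diagonal d) i = C (d i) * X i := by
        unfold fld
        rw [Finset.sum_eq_single i]
        · rw [Matrix.diagonal_apply_eq]
        · intro j _ hj
          rw [Matrix.diagonal_apply_ne _ hj.symm, C_0, zero_mul]
        · intro h
          exact absurd (Finset.mem_univ i) h
      rw [h2, mul_assoc, X_mul_pderiv_monomial, C_mul, mul_comm (C (u i : ℝ)), mul_assoc]
      congr 1
      rw [nsmul_eq_mul]
      simp
    rw [Finset.sum_congr rfl fun i _ => h1 i, ← Finset.sum_mul, ← map_sum]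
    congr 2
    rw [Finsupp.weight_apply, Finsupp.sum_fintype _ _ (fun i => by simp)]
    refine Finset.sum_congr rfl fun i _ => ?_
    rw [nsmul_eq_mul]
  refine MvPolynomial.ext _ _ fun m => ?_
  have hsum : der (Matrix.diagonal d) φ =
      ∑ u ∈ φ.support, C (Finsupp.weight d u) * monomial u (coeff u φ) := by
    conv_lhs => rw [φ.as_sum]
    have h3 : ∀ s : Finset (ι →₀ ℕ), der (Matrix.diagonal d)
        (∑ u ∈ s, monomial u (coeff u φ)) =
        ∑ u ∈ s, C (Finsupp.weight d u) * monomial u (coeff u φ) := by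
      intro s
      induction s using Finset.induction_on with
      | empty => rw [Finset.sum_empty, Finset.sum_empty, der_zero_right]
      | insert u s hu ih =>
        rw [Finset.sum_insert hu, Finset.sum_insert hu, der_add_right, hmon, ih]
    exact h3 _
  have hsum2 : C b * φ = ∑ u ∈ φ.support, C (Finsupp.weight d u) * monomial u (coeff u φ) := by
    conv_lhs => rw [φ.as_sum]
    rw [Finset.mul_sum]
    refine Finset.sum_congr rfl fun u hu => ?_
    rw [hφ (mem_support_iff.1 hu)]
  rw [hsum, hsum2]

theorem der_sub_left (A B : Matrix ι ι ℝ) (f : MvPolynomial ι ℝ) :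
    der (A - B) f = der A f - der B f := by
  have h := der_add (A - B) B f
  rw [sub_add_cancel] at h
  rw [h, add_sub_cancel_right]

omit [Fintype ι] [DecidableEq ι] in
theorem coeff_comp (d : ι → ℝ) (b : ℝ) (g : MvPolynomial ι ℝ) (m : ι →₀ ℕ)
    (h : Finsupp.weight d m = b) : coeff m (weightedHomogeneousComponent d b g) = coeff m g := by
  classical
  rw [coeff_weightedHomogeneousComponent, if_pos h]

end Hypx

theorem thm_Hyp (hCut : St_Cut) (hZer : St_Zer) : St_Hyp := by
  intro ι _ _ A
  obtain ⟨p, hD, hI⟩ := hCut ι A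
  refine ⟨p, hD, hI, ?_⟩
  intro f μ hf
  set A' : Matrix ι ι ℝ := Polynomial.aeval A p with hA'
  obtain ⟨B, d, hB, hBd⟩ := hD
  have hcomm : A * A' = A' * A := by
    have h1 : Polynomial.aeval A (Polynomial.X * p) = Polynomial.aeval A (p * Polynomial.X) := by
      rw [mul_comm]
    rw [map_mul, map_mul, Polynomial.aeval_X] at h1
    exact h1
  -- the new coordinates
  set M : Matrix ι ι ℝ := B⁻¹ * A * B with hM
  set g : MvPolynomial ι ℝ := sub B f with hg
  have hinv : B⁻¹ * B = 1 := Matrix.nonsing_inv_mul B hB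
  have hinv' : B * B⁻¹ = 1 := Matrix.mul_nonsing_inv B hB
  have hdiag : B⁻¹ * A' * B = Matrix.diagonal d := by
    rw [Matrix.mul_assoc, hBd, ← Matrix.mul_assoc, hinv, Matrix.one_mul]
  have hMd : M * Matrix.diagonal d = Matrix.diagonal d * M := by
    rw [← hdiag, hM]
    have e1 : B⁻¹ * A * B * (B⁻¹ * A' * B) = B⁻¹ * (A * A') * B := by
      calc B⁻¹ * A * B * (B⁻¹ * A' * B) = B⁻¹ * A * (B * B⁻¹) * A' * B := by
            simp only [Matrix.mul_assoc]
        _ = B⁻¹ * (A * A') * B := by rw [hinv', Matrix.mul_one]; simp only [Matrix.mul_assoc]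
    have e2 : B⁻¹ * A' * B * (B⁻¹ * A * B) = B⁻¹ * (A' * A) * B := by
      calc B⁻¹ * A' * B * (B⁻¹ * A * B) = B⁻¹ * A' * (B * B⁻¹) * A * B := by
            simp only [Matrix.mul_assoc]
        _ = B⁻¹ * (A' * A) * B := by rw [hinv', Matrix.mul_one]; simp only [Matrix.mul_assoc]
    rw [e1, e2, hcomm]
  have hMij : ∀ i j, M i j ≠ 0 → d i = d j := by
    intro i j hij
    have h1 := congrFun (congrFun hMd i) j
    rw [Matrix.mul_diagonal, Matrix.diagonal_mul, mul_comm] at h1
    exact (mul_right_cancel₀ hij h1).symm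
  have hE : der M g = C μ * g := by
    rw [hM, hg, Linx.der_sub A B hB f, hf]
    unfold sub
    rw [map_mul, ← algebraMap_eq, AlgHom.commutes]
  -- the components
  have hcomp : ∀ b : ℝ, weightedHomogeneousComponent d b g ≠ 0 → μ - b = 0 := by
    intro b hb
    set gb := weightedHomogeneousComponent d b g with hgb
    have h1 : der M gb = C μ * gb := by
      rw [hgb, ← Hypx.comp_der d M hMij, hE, weightedHomogeneousComponent_C_mul]
    have h2 : der (Matrix.diagonal d) gb = C b * gb :=
      Hypx.der_diag d b gb (weightedHomogeneousComponent_isWeightedHomogeneous _ _)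
    have h3 : der (M - Matrix.diagonal d) gb = C (μ - b) * gb := by
      rw [Hypx.der_sub_left, h1, h2, C_sub, sub_mul]
    -- back to the old coordinates
    have hBi : IsUnit (B⁻¹).det := by
      rw [Matrix.det_nonsing_inv]
      exact hB.ringInverse
    have h4 := Linx.der_sub (M - Matrix.diagonal d) B⁻¹ hBi gb
    have h5 : (B⁻¹)⁻¹ * (M - Matrix.diagonal d) * B⁻¹ = A - A' := by
      rw [Matrix.nonsing_inv_nonsing_inv B hB, ← hdiag, hM, ← Matrix.sub_mul, ← Matrix.mul_sub]
      calc B * (B⁻¹ * (A - A') * B) * B⁻¹ = (B * B⁻¹) * (A - A') * (B * B⁻¹) := by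
            simp only [Matrix.mul_assoc]
        _ = A - A' := by rw [hinv', Matrix.one_mul, Matrix.mul_one]
    rw [h5, h3] at h4
    have h6 : sub B⁻¹ (C (μ - b) * gb) = C (μ - b) * sub B⁻¹ gb := by
      unfold sub
      rw [map_mul, ← algebraMap_eq, AlgHom.commutes]
    rw [h6] at h4
    refine hZer ι (A - A') hI (sub B⁻¹ gb) (μ - b) ?_ h4
    intro h7
    apply hb
    have h8 : sub B (sub B⁻¹ gb) = gb := by
      rw [Linx.sub_sub, hinv, Linx.sub_one]
    rw [← h8, h7]
    unfold sub
    exact map_zero _
  have hfin : der (Matrix.diagonal d) g = C μ * g := by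
    refine MvPolynomial.ext _ _ fun m => ?_
    have e1 : coeff m (der (Matrix.diagonal d) g) =
        coeff m (der (Matrix.diagonal d) (weightedHomogeneousComponent d (Finsupp.weight d m) g)) := by
      rw [← Hypx.comp_der d (Matrix.diagonal d) _ _ g, Hypx.coeff_comp d _ _ m rfl]
      intro i j hij
      by_contra hne
      exact hij (Matrix.diagonal_apply_ne _ fun h => hne (by rw [h]))
    rw [e1, Hypx.der_diag d _ _ (weightedHomogeneousComponent_isWeightedHomogeneous _ _),
      coeff_C_mul, coeff_C_mul, Hypx.coeff_comp d _ _ m rfl]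
    by_cases h : coeff m g = 0
    · rw [h, mul_zero, mul_zero]
    · have h2 := hcomp (Finsupp.weight d m) (by
        intro h3
        apply h
        rw [← Hypx.coeff_comp d _ g m rfl, h3, coeff_zero])
      rw [sub_eq_zero.1 h2]
  -- back
  have h9 : sub B (der A' f) = C μ * g := by
    rw [← Linx.der_sub A' B hB f, hdiag]
    exact hfin
  have h10 : sub B⁻¹ (sub B (der A' f)) = der A' f := by
    rw [Linx.sub_sub, hinv', Linx.sub_one]
  have h11 : sub B⁻¹ g = f := by
    rw [hg, Linx.sub_sub, hinv', Linx.sub_one]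
  rw [← h10, h9]
  unfold sub at h11 ⊢
  rw [map_mul, ← algebraMap_eq, AlgHom.commutes, h11]

end Pool.Agent.LFS
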