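import Pool.Agent.LFS.Leq

/-!
# Many factors: from divisors back to collections (helper9)
-/

set_option autoImplicit false

noncomputable section

namespace Pool.Agent.LFS

open scoped Polynomial
open MvPolynomial Pool.Agent.Helper28.Nij Pool.Agent.LFD

theorem thm_Lft : St_Lft := by
  rintro n σ E F hE h1 h2 ⟨c, hc⟩ ⟨c', hc'⟩ hσ hF
  have hfld : fld E none = C c * X none := by
    rw [← hc]
    unfold sub
    rw [aeval_X]
  have hrow : ∀ j : Fin n, E none (some j) = 0 := by
    intro j
    have h3 := Injx.eval_fld E none (some j)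
    rw [hfld, map_mul, eval_C, eval_X] at h3
    rw [← h3]
    simp
  have hb := Injx.eq_blk E h1 hrow h2
  set A : Matrix (Fin n) (Fin n) ℝ := Matrix.of fun i j => E (some i) (some j) with hA
  have hdA : IsUnit A.det := by
    rw [← Injx.blk_det, ← hb]
    exact hE
  have h4 : sub E (X none) = X none := by
    rw [hb, Injx.sub_none]
  have h5 : sub E (PP σ) = PP fun k => sub A (σ k) := by
    rw [hb, Injx.sub_PP]
  refine ⟨fun k => sub A (σ k), ⟨A, hdA, fun i => rfl⟩, ?_⟩
  have h6 : PP (fun k => sub A (σ k)) = C c' * F := by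
    rw [Facx.sub_mul, h4, h5] at hc'
    have h7 : (X none : MvPolynomial (Option (Fin n)) ℝ) * PP (fun k => sub A (σ k)) =
        X none * (C c' * F) := by
      rw [hc']; ring
    exact mul_left_cancel₀ (X_ne_zero _) h7
  have h7 : E.mulVec (fun i => Option.elim i 1 fun _ => 0) = fun i => Option.elim i 1 fun _ => 0 := by
    have h8 : (fun i : Option (Fin n) => Option.elim i (1 : ℝ) fun _ => 0) = Pi.single none 1 := by
      funext i
      cases i <;> simp
    rw [h8, Matrix.mulVec_single_one]
    funext i
    cases i with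
    | none => rw [Pi.single_eq_same]; exact h2
    | some i => rw [Pi.single_eq_of_ne (by simp)]; exact h1 i
  have h8 : MvPolynomial.eval (fun i => Option.elim i 1 fun _ => 0) (PP fun k => sub A (σ k)) = 1 := by
    rw [← h5, Semx.eval_subst, h7, hσ]
  rw [h6, map_mul, eval_C, hF, mul_one] at h8
  rw [h6, h8, C_1, one_mul]

end Pool.Agent.LFS
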