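import Pool.Agent.LFS.Fac

/-!
# Many factors: linear equivalence (helper9)
-/

set_option autoImplicit false

noncomputable section

namespace Pool.Agent.LFS

open scoped Polynomial
open MvPolynomial Pool.Agent.Helper28.Nij Pool.Agent.LFD

namespace Leqx

variable {n : ℕ}

theorem def_sub (σ τ : Fin n → MvPolynomial (Fin n) ℝ) :
    LinEquiv σ τ ↔ ∃ A : Matrix (Fin n) (Fin n) ℝ, IsUnit A.det ∧ ∀ i, sub A (σ i) = τ i :=
  Iff.rfl

theorem refl (σ : Fin n → MvPolynomial (Fin n) ℝ) : LinEquiv σ σ := by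
  rw [def_sub]
  exact ⟨1, by rw [Matrix.det_one]; exact isUnit_one, fun i => Linx.sub_one _⟩

theorem symm {σ τ : Fin n → MvPolynomial (Fin n) ℝ} (h : LinEquiv σ τ) : LinEquiv τ σ := by
  rw [def_sub] at h ⊢
  obtain ⟨A, hA, h⟩ := h
  refine ⟨A⁻¹, ?_, fun i => ?_⟩
  · rw [Matrix.det_nonsing_inv]
    exact hA.ringInverse
  · rw [← h i, Linx.sub_sub, Matrix.mul_nonsing_inv A hA, Linx.sub_one]

theorem trans {σ τ ρ : Fin n → MvPolynomial (Fin n) ℝ} (h1 : LinEquiv σ τ) (h2 : LinEquiv τ ρ) :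
    LinEquiv σ ρ := by
  rw [def_sub] at h1 h2 ⊢
  obtain ⟨A, hA, h1⟩ := h1
  obtain ⟨B, hB, h2⟩ := h2
  refine ⟨A * B, ?_, fun i => ?_⟩
  · rw [Matrix.det_mul]
    exact hA.mul hB
  · rw [← Linx.sub_sub, h1, h2]

/-- `LinEquiv` in terms of `PP`. -/
theorem PP_iff (σ τ : Fin n → MvPolynomial (Fin n) ℝ) :
    LinEquiv σ τ ↔ ∃ A : Matrix (Fin n) (Fin n) ℝ, IsUnit A.det ∧ sub (Injx.blk A) (PP σ) = PP τ := by
  rw [def_sub]
  constructor
  · rintro ⟨A, hA, h⟩
    refine ⟨A, hA, ?_⟩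
    rw [Injx.sub_PP]
    congr 1
    funext k
    exact h k
  · rintro ⟨A, hA, h⟩
    rw [Injx.sub_PP] at h
    exact ⟨A, hA, fun k => Injx.PP_inj _ _ h k⟩

theorem admissible {σ τ : Fin n → MvPolynomial (Fin n) ℝ} (h : LinEquiv σ τ) (hσ : Admissible σ) :
    Admissible τ := by
  rw [all_MainA] at hσ ⊢
  obtain ⟨B, hB, -, -, h1⟩ := (thm_Inj n σ τ).1 h
  rw [← h1]
  exact thm_Lin.1 _ _ B hB hσ

/-- The number of irreducible factors. -/
def nfp {ι : Type} (f : MvPolynomial ι ℝ) : ℕ :=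
  Multiset.card (UniqueFactorizationMonoid.factors f)

theorem nf_eq (σ : Fin n → MvPolynomial (Fin n) ℝ) : nf σ = nfp (PP σ) := rfl

theorem nfp_mul {ι : Type} (f g : MvPolynomial ι ℝ) (hf : f ≠ 0) (hg : g ≠ 0) :
    nfp (f * g) = nfp f + nfp g := by
  unfold nfp
  rw [← Multiset.card_add]
  exact Multiset.card_eq_card_of_rel (UniqueFactorizationMonoid.factors_mul hf hg)

/-- A multiplicative map which preserves irreducible elements preserves the number of factors. -/
theorem nfp_map {ι κ : Type} (φ : MvPolynomial ι ℝ →+* MvPolynomial κ ℝ)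
    (hφ : ∀ f, Irreducible f → Irreducible (φ f)) (f : MvPolynomial ι ℝ) (hf : f ≠ 0)
    (hf' : φ f ≠ 0) : nfp (φ f) = nfp f := by
  unfold nfp
  have h1 : Multiset.Rel Associated (UniqueFactorizationMonoid.factors (φ f))
      ((UniqueFactorizationMonoid.factors f).map φ) := by
    refine UniqueFactorizationMonoid.factors_unique
      (fun x hx => UniqueFactorizationMonoid.irreducible_of_factor x hx) ?_ ?_
    · intro x hx
      obtain ⟨y, hy, rfl⟩ := Multiset.mem_map.1 hx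
      exact hφ y (UniqueFactorizationMonoid.irreducible_of_factor y hy)
    · rw [Multiset.prod_hom]
      exact (UniqueFactorizationMonoid.factors_prod hf').trans
        ((UniqueFactorizationMonoid.factors_prod hf).symm.map φ)
  rw [Multiset.card_eq_card_of_rel h1, Multiset.card_map]

theorem PP_ne (σ : Fin n → MvPolynomial (Fin n) ℝ) : PP σ ≠ 0 := by
  intro h
  have h1 := Sqfx.phi_PP σ
  rw [h, map_zero] at h1
  exact (Sqfx.Q_monic σ).ne_zero h1.symm

theorem nfp_sub {ι : Type} [Fintype ι] [DecidableEq ι] (B : Matrix ι ι ℝ) (hB : IsUnit B.det)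
    (f : MvPolynomial ι ℝ) (hf : f ≠ 0) : nfp (sub B f) = nfp f := by
  have h := nfp_map (Facx.subE B hB : MvPolynomial ι ℝ →+* MvPolynomial ι ℝ)
    (fun g hg => Facx.irr_sub B hB g hg) f hf
    ((map_ne_zero_iff _ (Facx.subE B hB).injective).2 hf)
  exact h

theorem nfp_rename {ι κ : Type} (e : ι → κ) (he : Function.Injective e) (f : MvPolynomial ι ℝ)
    (hf : f ≠ 0) : nfp (rename e f) = nfp f := by
  have h1 : ∀ g : MvPolynomial ι ℝ, Irreducible g → Irreducible (rename e g) := by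
    intro g hg
    rw [irreducible_iff_prime] at hg ⊢
    have h2 : rename e g = rename (Subtype.val : Set.range e → κ)
        (rename (Equiv.ofInjective e he) g) := by
      rw [rename_rename]
      rfl
    rw [h2, prime_rename_iff]
    exact (MulEquiv.prime_iff (renameEquiv ℝ (Equiv.ofInjective e he))).2 hg
  exact nfp_map (rename e : MvPolynomial ι ℝ →ₐ[ℝ] MvPolynomial κ ℝ).toRingHom h1 f hf
    (fun h => hf ((map_eq_zero_iff _ (rename_injective e he)).1 h))

theorem nf_linEquiv {σ τ : Fin n → MvPolynomial (Fin n) ℝ} (h : LinEquiv σ τ) : nf τ = nf σ := by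
  obtain ⟨A, hA, h⟩ := (PP_iff σ τ).1 h
  rw [nf_eq, nf_eq, ← h]
  exact nfp_sub _ (by rw [Injx.blk_det]; exact hA) _ (PP_ne σ)

theorem eval_e_PP (σ : Fin n → MvPolynomial (Fin n) ℝ) (hσ : Admissible σ) :
    MvPolynomial.eval (fun i => Option.elim i 1 fun _ => 0) (PP σ) = 1 := by
  have h1 := Injx.eval_PP σ (fun _ => 0) 1
  rw [h1, one_pow]
  have h2 : ∀ k : Fin n, MvPolynomial.eval (fun _ => (0 : ℝ)) (σ k) = 0 := by
    intro k
    have h3 := hσ.homog k
    have h4 : MvPolynomial.eval (fun _ => (0 : ℝ)) (σ k) = MvPolynomial.coeff 0 (σ k) := by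
      have := MvPolynomial.eval_zero (R := ℝ) (σ := Fin n)
      rw [show (fun _ => (0 : ℝ)) = (0 : Fin n → ℝ) from rfl, this]
      rfl
    rw [h4]
    exact h3.coeff_eq_zero (by simp)
  rw [Finset.sum_eq_zero fun k _ => by rw [h2, zero_mul], add_zero]

end Leqx

end Pool.Agent.LFS
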