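import Pool.Agent.LFS.St
import Pool.Agent.LFS.Leq

/-!
# Admissible collections with many irreducible factors (MP_835236_al): the normal forms are admissible
-/

set_option autoImplicit false

noncomputable section

namespace Pool.Agent.LFS

open scoped Polynomial
open MvPolynomial Pool.Agent.Helper28.Nij Pool.Agent.LFD

namespace Nfax

variable {n : ℕ}

/-! ### Two linear substitutions -/

/-- the shift in the direction of the base point -/
def s1 (a : Option (Fin n) → ℝ) :
    MvPolynomial (Option (Fin n)) ℝ →ₐ[ℝ] MvPolynomial (Option (Fin n)) ℝ :=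
  aeval fun i => X i + C (a i) * X none

theorem s1_X (a : Option (Fin n) → ℝ) (i : Option (Fin n)) :
    s1 a (X i) = X i + C (a i) * X none := aeval_X _ _

theorem lf1 (a : Option (Fin n) → ℝ) (ha : a none = 0) (H : MvPolynomial (Option (Fin n)) ℝ)
    (hH : LinFree H) : LinFree (s1 a H) := by
  let B : Matrix (Option (Fin n)) (Option (Fin n)) ℝ :=
    1 + Matrix.replicateCol Unit a *
      Matrix.replicateRow Unit (Pi.single none 1 : Option (Fin n) → ℝ)
  have hB : B.det = 1 := by
    show (1 + Matrix.replicateCol Unit a *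
      Matrix.replicateRow Unit (Pi.single none 1 : Option (Fin n) → ℝ)).det = 1
    rw [Matrix.det_one_add_replicateCol_mul_replicateRow]
    simp [ha]
  have h := thm_Lin.1 _ H B (by rw [hB]; exact isUnit_one) hH
  have e1 : (fun i => fld B i) = fun i => X i + C (a i) * X none := by
    funext i
    simp [fld, B, Matrix.add_apply, Matrix.one_apply, Matrix.mul_apply, Pi.single_apply, add_mul,
      Finset.sum_add_distrib]
  have e2 : sub B H = s1 a H := by
    unfold sub s1
    rw [e1]
  rwa [e2] at h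

/-- a transvection -/
def s2 (i j : Option (Fin n)) (c : ℝ) :
    MvPolynomial (Option (Fin n)) ℝ →ₐ[ℝ] MvPolynomial (Option (Fin n)) ℝ :=
  aeval fun k => X k + if k = i then C c * X j else 0

theorem s2_X (i j : Option (Fin n)) (c : ℝ) (k : Option (Fin n)) :
    s2 i j c (X k) = X k + if k = i then C c * X j else 0 := aeval_X _ _

theorem lf2 (i j : Option (Fin n)) (c : ℝ) (hij : i ≠ j) (H : MvPolynomial (Option (Fin n)) ℝ)
    (hH : LinFree H) : LinFree (s2 i j c H) := by
  have hB : (Matrix.transvection i j c).det = 1 := Matrix.det_transvection_of_ne i j hij c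
  have h := thm_Lin.1 _ H (Matrix.transvection i j c) (by rw [hB]; exact isUnit_one) hH
  have e1 : (fun k => fld (Matrix.transvection i j c) k) =
      fun k => X k + if k = i then C c * X j else 0 := by
    funext k
    have e3 : ∀ l, (C (Matrix.transvection i j c k l) * X l : MvPolynomial (Option (Fin n)) ℝ) =
        (if l = k then X l else 0) + if l = j then (if k = i then C c * X l else 0) else 0 := by
      intro l
      rw [Matrix.transvection, Matrix.add_apply, Matrix.one_apply, Matrix.single_apply]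
      by_cases h1 : l = k
      · by_cases h2 : l = j
        · by_cases h3 : k = i
          · rw [if_pos h1.symm, if_pos ⟨h3.symm, h2.symm⟩, if_pos h1, if_pos h2, if_pos h3, C_add,
              C_1]
            ring
          · rw [if_pos h1.symm, if_neg (fun h => h3 h.1.symm), if_pos h1, if_pos h2, if_neg h3,
              C_add, C_1, C_0]
            ring
        · rw [if_pos h1.symm, if_neg (fun h => h2 h.2.symm), if_pos h1, if_neg h2, C_add,
            C_1, C_0]
          ring
      · by_cases h2 : l = j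
        · by_cases h3 : k = i
          · rw [if_neg (fun h => h1 h.symm), if_pos ⟨h3.symm, h2.symm⟩, if_neg h1, if_pos h2,
              if_pos h3, C_add, C_0]
            ring
          · rw [if_neg (fun h => h1 h.symm), if_neg (fun h => h3 h.1.symm), if_neg h1, if_pos h2,
              if_neg h3, C_add, C_0]
            ring
        · rw [if_neg (fun h => h1 h.symm), if_neg (fun h => h2 h.2.symm), if_neg h1, if_neg h2,
            C_add, C_0]
          ring
    show ∑ l, C (Matrix.transvection i j c k l) * X l = _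
    rw [Finset.sum_congr rfl fun l _ => e3 l, Finset.sum_add_distrib, Finset.sum_ite_eq',
      Finset.sum_ite_eq', if_pos (Finset.mem_univ _), if_pos (Finset.mem_univ _)]
  have e2 : sub (Matrix.transvection i j c) H = s2 i j c H := by
    unfold sub s2
    rw [e1]
  rwa [e2] at h

/-! ### The product of the other variables -/

theorem prodS (S : Finset (Option (Fin n))) (d : ℕ) (hd : d ≤ n)
    (hS : ∀ i : Fin n, some i ∈ S ↔ (i : ℕ) < d)
    (g : Option (Fin n) → MvPolynomial (Option (Fin n)) ℝ)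
    (hg : ∀ i : Fin n, ¬ (i : ℕ) < d → g (some i) = X none + vx n i) :
    ∏ p ∈ Finset.univ \ S, g p =
      (if none ∈ S then 1 else g none) * ∏ i ∈ Finset.Ico d n, (X none + vx n i) := by
  have h1 : ∏ p ∈ Finset.univ \ S, g p = ∏ p, if p ∈ S then 1 else g p := by
    rw [Finset.prod_ite, Finset.prod_const_one, one_mul]
    apply Finset.prod_congr _ fun _ _ => rfl
    ext p
    simp
  rw [h1, Fintype.prod_option]
  congr 1
  have h2 : ∀ i : Fin n, (if some i ∈ S then (1 : MvPolynomial (Option (Fin n)) ℝ)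
      else g (some i)) =
      (fun j : ℕ => if j < d then 1 else X none + vx n j) (i : ℕ) := by
    intro i
    show _ = if (i : ℕ) < d then 1 else X none + vx n i
    by_cases hi : (i : ℕ) < d
    · rw [if_pos hi, if_pos ((hS i).2 hi)]
    · rw [if_neg hi, if_neg (fun h => hi ((hS i).1 h)), hg i hi]
  rw [Finset.prod_congr rfl fun i _ => h2 i,
    Fin.prod_univ_eq_prod_range (fun j : ℕ => if j < d then 1 else X none + vx n j) n,
    Finset.prod_ite, Finset.prod_const_one, one_mul]
  apply Finset.prod_congr _ fun _ _ => rfl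
  ext j
  simp only [Finset.mem_filter, Finset.mem_range, Finset.mem_Ico]
  omega

theorem vx_lt (i : ℕ) (h : i < n) : vx n i = X (some ⟨i, h⟩) := by
  unfold vx
  rw [dif_pos h]

theorem vx_fin (i : Fin n) : vx n i = X (some i) := vx_lt _ i.2

/-! ### The divisors -/

theorem lf_NF (hFrs : St_Frs) (n : ℕ) : ∀ k : Fin 8, dm k ≤ n → LinFree (X none * NF n k)
  | 0, _ => by
    have h0 : LinFree (∏ i : Option (Fin n), (X i : MvPolynomial (Option (Fin n)) ℝ)) := by
      refine hFrs _ _ ⟨1, one_ne_zero, Or.inl ?_⟩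
      rw [C_1, one_mul]
    have h1 := lf1 (fun p => Option.elim p 0 fun _ => 1) rfl _ h0
    have e : s1 (fun p => Option.elim p 0 fun _ => 1)
        (∏ i : Option (Fin n), (X i : MvPolynomial (Option (Fin n)) ℝ)) =
        X none * NF n 0 := by
      have h2 := prodS (n := n) ∅ 0 (Nat.zero_le _) (by simp)
        (fun p => s1 (fun p => Option.elim p 0 fun _ => 1) (X p)) (by
          intro i _
          show s1 _ (X (some i)) = _
          rw [s1_X, vx_fin]
          show X (some i) + C (1 : ℝ) * X none = _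
          rw [C_1]
          ring)
      rw [map_prod]
      rw [Finset.sdiff_empty] at h2
      rw [h2, if_neg (Finset.notMem_empty _), s1_X]
      show (X none + C (0 : ℝ) * X none) * _ = X none * (1 * ∏ i ∈ Finset.Ico 0 n, _)
      rw [C_0]
      ring
    rwa [e] at h1
  | 1, hk => by
    have hk2 : 2 ≤ n := hk
    have i0 : 0 < n := by omega
    have i1 : 1 < n := by omega
    have h0 : LinFree (C (1 : ℝ) * (C (1 : ℝ) * X (some (⟨0, i0⟩ : Fin n)) ^ 2 +
        C (0 : ℝ) * X (some ⟨0, i0⟩) * X (some ⟨1, i1⟩) + C (1 : ℝ) * X (some ⟨1, i1⟩) ^ 2) *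
        ∏ p ∈ Finset.univ \ {some ⟨0, i0⟩, some ⟨1, i1⟩}, X p) := by
      refine hFrs _ _ ⟨1, one_ne_zero, Or.inr (Or.inl ⟨some ⟨0, i0⟩, some ⟨1, i1⟩, 1, 0, 1, ?_, ?_,
        rfl⟩)⟩
      · simp
      · norm_num
    have h1 := lf1 (fun p => Option.elim p 0 fun i => if (i : ℕ) = 1 then 0 else 1) rfl _ h0
    have e : s1 (fun p => Option.elim p 0 fun i : Fin n => if (i : ℕ) = 1 then 0 else 1)
        (C (1 : ℝ) * (C (1 : ℝ) * X (some (⟨0, i0⟩ : Fin n)) ^ 2 +
        C (0 : ℝ) * X (some ⟨0, i0⟩) * X (some ⟨1, i1⟩) + C (1 : ℝ) * X (some ⟨1, i1⟩) ^ 2) *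
        ∏ p ∈ Finset.univ \ {some ⟨0, i0⟩, some ⟨1, i1⟩}, X p) =
        X none * NF n 1 := by
      have h2 := prodS (n := n) {some ⟨0, i0⟩, some ⟨1, i1⟩} 2 hk2 (by
          intro i
          simp [Fin.ext_iff]
          omega)
        (fun p => s1 (fun p => Option.elim p 0 fun i : Fin n => if (i : ℕ) = 1 then 0 else 1)
          (X p)) (by
          intro i hi
          show s1 _ (X (some i)) = _
          rw [s1_X, vx_fin]
          show X (some i) + C (if (i : ℕ) = 1 then (0 : ℝ) else 1) * X none = _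
          rw [if_neg (by omega), C_1]
          ring)
      simp only [map_mul, map_add, map_pow, map_prod]
      rw [h2]
      simp only [s1_X]
      show _ = X none * (((X none + vx n 0) ^ 2 + vx n 1 ^ 2) * ∏ i ∈ Finset.Ico 2 n, _)
      rw [vx_lt 0 i0, vx_lt 1 i1]
      simp
      ring
    rwa [e] at h1
  | 2, hk => by
    have hk2 : 2 ≤ n := hk
    have i0 : 0 < n := by omega
    have i1 : 1 < n := by omega
    have h0 : LinFree (C (1 : ℝ) * X none * (X (some (⟨0, i0⟩ : Fin n)) * X none -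
        C (-1 : ℝ) * X (some ⟨1, i1⟩) ^ 2) *
        ∏ p ∈ Finset.univ \ {some ⟨0, i0⟩, some ⟨1, i1⟩, none}, X p) := by
      refine hFrs _ _ ⟨1, one_ne_zero, Or.inr (Or.inr (Or.inl ⟨some ⟨0, i0⟩, some ⟨1, i1⟩, none,
        -1, ?_, ?_, ?_, ?_, rfl⟩))⟩
      · simp
      · simp
      · simp
      · norm_num
    have h1 := lf1 (fun p => Option.elim p 0 fun i => if (i : ℕ) = 1 then 0 else 1) rfl _ h0
    have e : s1 (fun p => Option.elim p 0 fun i : Fin n => if (i : ℕ) = 1 then 0 else 1)
        (C (1 : ℝ) * X none * (X (some (⟨0, i0⟩ : Fin n)) * X none -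
        C (-1 : ℝ) * X (some ⟨1, i1⟩) ^ 2) *
        ∏ p ∈ Finset.univ \ {some ⟨0, i0⟩, some ⟨1, i1⟩, none}, X p) =
        X none * NF n 2 := by
      have h2 := prodS (n := n) {some ⟨0, i0⟩, some ⟨1, i1⟩, none} 2 hk2 (by
          intro i
          simp [Fin.ext_iff]
          omega)
        (fun p => s1 (fun p => Option.elim p 0 fun i : Fin n => if (i : ℕ) = 1 then 0 else 1)
          (X p)) (by
          intro i hi
          show s1 _ (X (some i)) = _
          rw [s1_X, vx_fin]
          show X (some i) + C (if (i : ℕ) = 1 then (0 : ℝ) else 1) * X none = _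
          rw [if_neg (by omega), C_1]
          ring)
      simp only [map_mul, map_add, map_sub, map_pow, map_prod]
      rw [h2]
      simp only [s1_X]
      show _ = X none * ((X none ^ 2 + vx n 0 * X none + vx n 1 ^ 2) *
        ∏ i ∈ Finset.Ico 2 n, _)
      rw [vx_lt 0 i0, vx_lt 1 i1]
      simp
      ring
    rwa [e] at h1
  | 3, hk => by
    have hk2 : 2 ≤ n := hk
    have i0 : 0 < n := by omega
    have i1 : 1 < n := by omega
    have h0 : LinFree (C (1 : ℝ) * X none * (X (some (⟨0, i0⟩ : Fin n)) * X none -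
        C (1 : ℝ) * X (some ⟨1, i1⟩) ^ 2) *
        ∏ p ∈ Finset.univ \ {some ⟨0, i0⟩, some ⟨1, i1⟩, none}, X p) := by
      refine hFrs _ _ ⟨1, one_ne_zero, Or.inr (Or.inr (Or.inl ⟨some ⟨0, i0⟩, some ⟨1, i1⟩, none,
        1, ?_, ?_, ?_, ?_, rfl⟩))⟩
      · simp
      · simp
      · simp
      · norm_num
    have h1 := lf1 (fun p => Option.elim p 0 fun i => if (i : ℕ) = 1 then 0 else 1) rfl _ h0
    have e : s1 (fun p => Option.elim p 0 fun i : Fin n => if (i : ℕ) = 1 then 0 else 1)
        (C (1 : ℝ) * X none * (X (some (⟨0, i0⟩ : Fin n)) * X none -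
        C (1 : ℝ) * X (some ⟨1, i1⟩) ^ 2) *
        ∏ p ∈ Finset.univ \ {some ⟨0, i0⟩, some ⟨1, i1⟩, none}, X p) =
        X none * NF n 3 := by
      have h2 := prodS (n := n) {some ⟨0, i0⟩, some ⟨1, i1⟩, none} 2 hk2 (by
          intro i
          simp [Fin.ext_iff]
          omega)
        (fun p => s1 (fun p => Option.elim p 0 fun i : Fin n => if (i : ℕ) = 1 then 0 else 1)
          (X p)) (by
          intro i hi
          show s1 _ (X (some i)) = _
          rw [s1_X, vx_fin]
          show X (some i) + C (if (i : ℕ) = 1 then (0 : ℝ) else 1) * X none = _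
          rw [if_neg (by omega), C_1]
          ring)
      simp only [map_mul, map_add, map_sub, map_pow, map_prod]
      rw [h2]
      simp only [s1_X]
      show _ = X none * ((X none ^ 2 + vx n 0 * X none - vx n 1 ^ 2) *
        ∏ i ∈ Finset.Ico 2 n, _)
      rw [vx_lt 0 i0, vx_lt 1 i1]
      simp
      ring
    rwa [e] at h1
  | 4, hk => by
    have hk2 : 3 ≤ n := hk
    have i0 : 0 < n := by omega
    have i1 : 1 < n := by omega
    have i2 : 2 < n := by omega
    have h0 : LinFree (C (1 : ℝ) * X (some ⟨0, i0⟩) * (X (some (⟨1, i1⟩ : Fin n)) *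
        X (some ⟨0, i0⟩) - C (-1 : ℝ) * X (some ⟨2, i2⟩) ^ 2) *
        ∏ p ∈ Finset.univ \ {some ⟨1, i1⟩, some ⟨2, i2⟩, some ⟨0, i0⟩}, X p) := by
      refine hFrs _ _ ⟨1, one_ne_zero, Or.inr (Or.inr (Or.inl ⟨some ⟨1, i1⟩, some ⟨2, i2⟩,
        some ⟨0, i0⟩, -1, ?_, ?_, ?_, ?_, rfl⟩))⟩
      · simp
      · simp
      · simp
      · norm_num
    have h1 := lf2 (some ⟨1, i1⟩) (some ⟨0, i0⟩) (-1) (by simp) _
      (lf1 (fun p => Option.elim p 0 fun i => if (i : ℕ) = 2 then 0 else 1) rfl _ h0)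
    have e : s2 (some ⟨1, i1⟩) (some ⟨0, i0⟩) (-1)
        (s1 (fun p => Option.elim p 0 fun i : Fin n => if (i : ℕ) = 2 then 0 else 1)
        (C (1 : ℝ) * X (some ⟨0, i0⟩) * (X (some (⟨1, i1⟩ : Fin n)) *
        X (some ⟨0, i0⟩) - C (-1 : ℝ) * X (some ⟨2, i2⟩) ^ 2) *
        ∏ p ∈ Finset.univ \ {some ⟨1, i1⟩, some ⟨2, i2⟩, some ⟨0, i0⟩}, X p)) =
        X none * NF n 4 := by
      have h2 := prodS (n := n) {some ⟨1, i1⟩, some ⟨2, i2⟩, some ⟨0, i0⟩} 3 hk2 (by
          intro i
          simp [Fin.ext_iff]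
          omega)
        (fun p => s2 (some ⟨1, i1⟩) (some ⟨0, i0⟩) (-1)
          (s1 (fun p => Option.elim p 0 fun i : Fin n => if (i : ℕ) = 2 then 0 else 1) (X p))) (by
          intro i hi
          show s2 _ _ _ (s1 _ (X (some i))) = _
          rw [s1_X, vx_fin, map_add, map_mul, s2_X, s2_X]
          have hne : ¬ (some i = some (⟨1, i1⟩ : Fin n)) := by
            simp [Fin.ext_iff]
            omega
          have hc : (Option.elim (some i) (0 : ℝ) fun i : Fin n => if (i : ℕ) = 2 then 0 else 1) =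
              1 := by
            show (if (i : ℕ) = 2 then (0 : ℝ) else 1) = 1
            rw [if_neg (by omega)]
          rw [if_neg hne, if_neg (by simp), hc, C_1, map_one]
          ring)
      simp only [map_mul, map_add, map_sub, map_pow, map_prod]
      rw [h2]
      simp only [s1_X, map_add, map_mul, s2_X]
      show _ = X none * ((X none + vx n 0) * (X none ^ 2 + vx n 1 * X none +
        vx n 0 * (vx n 1 - vx n 0) + vx n 2 ^ 2) * ∏ i ∈ Finset.Ico 3 n, _)
      rw [vx_lt 0 i0, vx_lt 1 i1, vx_lt 2 i2]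
      simp
      ring
    rwa [e] at h1
  | 5, hk => by
    have hk2 : 3 ≤ n := hk
    have i0 : 0 < n := by omega
    have i1 : 1 < n := by omega
    have i2 : 2 < n := by omega
    have h0 : LinFree (C (1 : ℝ) * X (some ⟨0, i0⟩) * (X (some (⟨1, i1⟩ : Fin n)) *
        X (some ⟨0, i0⟩) - C (1 : ℝ) * X (some ⟨2, i2⟩) ^ 2) *
        ∏ p ∈ Finset.univ \ {some ⟨1, i1⟩, some ⟨2, i2⟩, some ⟨0, i0⟩}, X p) := by
      refine hFrs _ _ ⟨1, one_ne_zero, Or.inr (Or.inr (Or.inl ⟨some ⟨1, i1⟩, some ⟨2, i2⟩,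
        some ⟨0, i0⟩, 1, ?_, ?_, ?_, ?_, rfl⟩))⟩
      · simp
      · simp
      · simp
      · norm_num
    have h1 := lf2 (some ⟨1, i1⟩) (some ⟨0, i0⟩) (-1) (by simp) _
      (lf1 (fun p => Option.elim p 0 fun i => if (i : ℕ) = 2 then 0 else 1) rfl _ h0)
    have e : s2 (some ⟨1, i1⟩) (some ⟨0, i0⟩) (-1)
        (s1 (fun p => Option.elim p 0 fun i : Fin n => if (i : ℕ) = 2 then 0 else 1)
        (C (1 : ℝ) * X (some ⟨0, i0⟩) * (X (some (⟨1, i1⟩ : Fin n)) *
        X (some ⟨0, i0⟩) - C (1 : ℝ) * X (some ⟨2, i2⟩) ^ 2) *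
        ∏ p ∈ Finset.univ \ {some ⟨1, i1⟩, some ⟨2, i2⟩, some ⟨0, i0⟩}, X p)) =
        X none * NF n 5 := by
      have h2 := prodS (n := n) {some ⟨1, i1⟩, some ⟨2, i2⟩, some ⟨0, i0⟩} 3 hk2 (by
          intro i
          simp [Fin.ext_iff]
          omega)
        (fun p => s2 (some ⟨1, i1⟩) (some ⟨0, i0⟩) (-1)
          (s1 (fun p => Option.elim p 0 fun i : Fin n => if (i : ℕ) = 2 then 0 else 1) (X p))) (by
          intro i hi
          show s2 _ _ _ (s1 _ (X (some i))) = _
          rw [s1_X, vx_fin, map_add, map_mul, s2_X, s2_X]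
          have hne : ¬ (some i = some (⟨1, i1⟩ : Fin n)) := by
            simp [Fin.ext_iff]
            omega
          have hc : (Option.elim (some i) (0 : ℝ) fun i : Fin n => if (i : ℕ) = 2 then 0 else 1) =
              1 := by
            show (if (i : ℕ) = 2 then (0 : ℝ) else 1) = 1
            rw [if_neg (by omega)]
          rw [if_neg hne, if_neg (by simp), hc, C_1, map_one]
          ring)
      simp only [map_mul, map_add, map_sub, map_pow, map_prod]
      rw [h2]
      simp only [s1_X, map_add, map_mul, s2_X]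
      show _ = X none * ((X none + vx n 0) * (X none ^ 2 + vx n 1 * X none +
        vx n 0 * (vx n 1 - vx n 0) - vx n 2 ^ 2) * ∏ i ∈ Finset.Ico 3 n, _)
      rw [vx_lt 0 i0, vx_lt 1 i1, vx_lt 2 i2]
      simp
      ring
    rwa [e] at h1
  | 6, hk => by
    have hk2 : 3 ≤ n := hk
    have i0 : 0 < n := by omega
    have i1 : 1 < n := by omega
    have i2 : 2 < n := by omega
    have h0 : LinFree (C (1 : ℝ) * X (some ⟨0, i0⟩) * X none * (X (some (⟨1, i1⟩ : Fin n)) *
        X none - C (-1 : ℝ) * X (some ⟨0, i0⟩) * X (some ⟨2, i2⟩)) *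
        ∏ p ∈ Finset.univ \ {some ⟨1, i1⟩, some ⟨0, i0⟩, some ⟨2, i2⟩, none}, X p) := by
      refine hFrs _ _ ⟨1, one_ne_zero, Or.inr (Or.inr (Or.inr ⟨some ⟨1, i1⟩, some ⟨0, i0⟩,
        some ⟨2, i2⟩, none, -1, ?_, ?_, ?_, ?_, ?_, ?_, ?_, rfl⟩))⟩
      · simp
      · simp
      · simp
      · simp
      · simp
      · simp
      · norm_num
    have h1 := lf2 (some ⟨1, i1⟩) (some ⟨2, i2⟩) (-1) (by simp) _
      (lf1 (fun p => Option.elim p 0 fun i => if (i : ℕ) = 2 then 0 else 1) rfl _ h0)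
    have e : s2 (some ⟨1, i1⟩) (some ⟨2, i2⟩) (-1)
        (s1 (fun p => Option.elim p 0 fun i : Fin n => if (i : ℕ) = 2 then 0 else 1)
        (C (1 : ℝ) * X (some ⟨0, i0⟩) * X none * (X (some (⟨1, i1⟩ : Fin n)) *
        X none - C (-1 : ℝ) * X (some ⟨0, i0⟩) * X (some ⟨2, i2⟩)) *
        ∏ p ∈ Finset.univ \ {some ⟨1, i1⟩, some ⟨0, i0⟩, some ⟨2, i2⟩, none}, X p)) =
        X none * NF n 6 := by
      have h2 := prodS (n := n) {some ⟨1, i1⟩, some ⟨0, i0⟩, some ⟨2, i2⟩, none} 3 hk2 (by
          intro i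
          simp [Fin.ext_iff]
          omega)
        (fun p => s2 (some ⟨1, i1⟩) (some ⟨2, i2⟩) (-1)
          (s1 (fun p => Option.elim p 0 fun i : Fin n => if (i : ℕ) = 2 then 0 else 1) (X p))) (by
          intro i hi
          show s2 _ _ _ (s1 _ (X (some i))) = _
          rw [s1_X, vx_fin, map_add, map_mul, s2_X, s2_X]
          have hne : ¬ (some i = some (⟨1, i1⟩ : Fin n)) := by
            simp [Fin.ext_iff]
            omega
          have hc : (Option.elim (some i) (0 : ℝ) fun i : Fin n => if (i : ℕ) = 2 then 0 else 1) =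
              1 := by
            show (if (i : ℕ) = 2 then (0 : ℝ) else 1) = 1
            rw [if_neg (by omega)]
          rw [if_neg hne, if_neg (by simp), hc, C_1, map_one]
          ring)
      simp only [map_mul, map_add, map_sub, map_pow, map_prod]
      rw [h2]
      simp only [s1_X, map_add, map_mul, s2_X]
      show _ = X none * ((X none + vx n 0) * (X none ^ 2 + vx n 1 * X none +
        vx n 0 * vx n 2) * ∏ i ∈ Finset.Ico 3 n, _)
      rw [vx_lt 0 i0, vx_lt 1 i1, vx_lt 2 i2]
      simp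
      ring
    rwa [e] at h1
  | 7, hk => by
    have hk2 : 4 ≤ n := hk
    have i0 : 0 < n := by omega
    have i1 : 1 < n := by omega
    have i2 : 2 < n := by omega
    have i3 : 3 < n := by omega
    have h0 : LinFree (C (1 : ℝ) * X (some ⟨1, i1⟩) * X (some ⟨0, i0⟩) *
        (X (some (⟨2, i2⟩ : Fin n)) * X (some ⟨0, i0⟩) -
          C (1 : ℝ) * X (some ⟨1, i1⟩) * X (some ⟨3, i3⟩)) *
        ∏ p ∈ Finset.univ \ {some ⟨2, i2⟩, some ⟨1, i1⟩, some ⟨3, i3⟩, some ⟨0, i0⟩}, X p) := by
      refine hFrs _ _ ⟨1, one_ne_zero, Or.inr (Or.inr (Or.inr ⟨some ⟨2, i2⟩, some ⟨1, i1⟩,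
        some ⟨3, i3⟩, some ⟨0, i0⟩, 1, ?_, ?_, ?_, ?_, ?_, ?_, ?_, rfl⟩))⟩
      · simp
      · simp
      · simp
      · simp
      · simp
      · simp
      · norm_num
    have h1 := lf1 (fun p => Option.elim p 0 fun i => if (i : ℕ) = 3 then 0 else 1) rfl _ h0
    have e : s1 (fun p => Option.elim p 0 fun i : Fin n => if (i : ℕ) = 3 then 0 else 1)
        (C (1 : ℝ) * X (some ⟨1, i1⟩) * X (some ⟨0, i0⟩) *
        (X (some (⟨2, i2⟩ : Fin n)) * X (some ⟨0, i0⟩) -
          C (1 : ℝ) * X (some ⟨1, i1⟩) * X (some ⟨3, i3⟩)) *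
        ∏ p ∈ Finset.univ \ {some ⟨2, i2⟩, some ⟨1, i1⟩, some ⟨3, i3⟩, some ⟨0, i0⟩}, X p) =
        X none * NF n 7 := by
      have h2 := prodS (n := n) {some ⟨2, i2⟩, some ⟨1, i1⟩, some ⟨3, i3⟩, some ⟨0, i0⟩} 4 hk2 (by
          intro i
          simp [Fin.ext_iff]
          omega)
        (fun p => s1 (fun p => Option.elim p 0 fun i : Fin n => if (i : ℕ) = 3 then 0 else 1)
          (X p)) (by
          intro i hi
          show s1 _ (X (some i)) = _
          rw [s1_X, vx_fin]
          show X (some i) + C (if (i : ℕ) = 3 then (0 : ℝ) else 1) * X none = _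
          rw [if_neg (by omega), C_1]
          ring)
      simp only [map_mul, map_add, map_sub, map_pow, map_prod]
      rw [h2]
      simp only [s1_X]
      show _ = X none * ((X none + vx n 0) * (X none + vx n 1) *
        ((X none + vx n 0) * (X none + vx n 2) - (X none + vx n 1) * vx n 3) *
        ∏ i ∈ Finset.Ico 4 n, _)
      rw [vx_lt 0 i0, vx_lt 1 i1, vx_lt 2 i2, vx_lt 3 i3]
      simp
      ring
    rwa [e] at h1

/-! ### Degree, value at the base point, number of factors -/

/-- the base point -/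
def ee (n : ℕ) : Option (Fin n) → ℝ := fun i => Option.elim i 1 fun _ => 0

theorem vx_hom (i : ℕ) : (vx n i).IsHomogeneous 1 := by
  unfold vx
  by_cases h : i < n
  · rw [dif_pos h]
    exact isHomogeneous_X _ _
  · rw [dif_neg h]
    exact isHomogeneous_zero _ _ _

theorem vx_ee (i : ℕ) : MvPolynomial.eval (ee n) (vx n i) = 0 := by
  unfold vx
  by_cases h : i < n
  · rw [dif_pos h, eval_X]
    rfl
  · rw [dif_neg h, map_zero]

theorem vx_e0 (i : ℕ) : MvPolynomial.eval (0 : Option (Fin n) → ℝ) (vx n i) = 0 := by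
  unfold vx
  by_cases h : i < n
  · rw [dif_pos h, eval_X]
    rfl
  · rw [dif_neg h, map_zero]

theorem X_ee : MvPolynomial.eval (ee n) (X none) = 1 := by
  rw [eval_X]
  rfl

theorem X_e0 : MvPolynomial.eval (0 : Option (Fin n) → ℝ) (X none) = 0 := by
  rw [eval_X]
  rfl

theorem ne0 (f : MvPolynomial (Option (Fin n)) ℝ) (h1 : MvPolynomial.eval (ee n) f = 1) :
    f ≠ 0 := by
  rintro rfl
  rw [map_zero] at h1
  exact zero_ne_one h1

theorem one_le (f : MvPolynomial (Option (Fin n)) ℝ) (h1 : MvPolynomial.eval (ee n) f = 1)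
    (h0 : MvPolynomial.eval (0 : Option (Fin n) → ℝ) f = 0) : 1 ≤ Leqx.nfp f := by
  by_contra hc
  have h2 : Multiset.card (UniqueFactorizationMonoid.factors f) = 0 := by
    have h3 : Leqx.nfp f = Multiset.card (UniqueFactorizationMonoid.factors f) := rfl
    omega
  have h3 := UniqueFactorizationMonoid.factors_prod (ne0 f h1)
  rw [Multiset.card_eq_zero.1 h2, Multiset.prod_zero] at h3
  have h4 : IsUnit f := h3.isUnit isUnit_one
  have h5 := h4.map (MvPolynomial.eval (0 : Option (Fin n) → ℝ))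
  rw [h0] at h5
  exact not_isUnit_zero h5

theorem lin_ee (i : ℕ) : MvPolynomial.eval (ee n) (X none + vx n i) = 1 := by
  rw [map_add, X_ee, vx_ee, add_zero]

theorem lin_e0 (i : ℕ) : MvPolynomial.eval (0 : Option (Fin n) → ℝ) (X none + vx n i) = 0 := by
  rw [map_add, X_e0, vx_e0, add_zero]

theorem lin_hom (i : ℕ) : (X none + vx n i).IsHomogeneous 1 :=
  (isHomogeneous_X _ _).add (vx_hom i)

theorem prod_le (s : Finset ℕ) :
    MvPolynomial.eval (ee n) (∏ i ∈ s, (X none + vx n i)) = 1 ∧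
      s.card ≤ Leqx.nfp (∏ i ∈ s, (X none + vx n i)) := by
  induction s using Finset.induction_on with
  | empty =>
    refine ⟨?_, Nat.zero_le _⟩
    rw [Finset.prod_empty, map_one]
  | insert a s ha ih =>
    obtain ⟨h1, h2⟩ := ih
    rw [Finset.prod_insert ha, Finset.card_insert_of_notMem ha]
    refine ⟨?_, ?_⟩
    · rw [map_mul, h1, lin_ee, one_mul]
    · rw [Leqx.nfp_mul _ _ (ne0 _ (lin_ee a)) (ne0 _ h1)]
      have h3 := one_le _ (lin_ee (n := n) a) (lin_e0 a)
      omega

theorem core_all (n : ℕ) : ∀ k : Fin 8, (core n k).IsHomogeneous (dm k) ∧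
    MvPolynomial.eval (ee n) (core n k) = 1 ∧ dm k ≤ Leqx.nfp (core n k) + 1
  | 0 => ⟨isHomogeneous_one _ _, map_one _, Nat.zero_le _⟩
  | 1 => by
    have e1 : MvPolynomial.eval (ee n) (core n 1) = 1 := by
      show MvPolynomial.eval (ee n) ((X none + vx n 0) ^ 2 + vx n 1 ^ 2) = 1
      simp only [map_add, map_mul, map_pow, X_ee, vx_ee]
      norm_num
    have e0 : MvPolynomial.eval (0 : Option (Fin n) → ℝ) (core n 1) = 0 := by
      show MvPolynomial.eval (0 : Option (Fin n) → ℝ) ((X none + vx n 0) ^ 2 + vx n 1 ^ 2) = 0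
      simp only [map_add, map_mul, map_pow, X_e0, vx_e0]
      norm_num
    refine ⟨?_, e1, ?_⟩
    · exact ((lin_hom 0).pow 2).add ((vx_hom 1).pow 2)
    · have := one_le _ e1 e0
      show 2 ≤ _
      omega
  | 2 => by
    have e1 : MvPolynomial.eval (ee n) (core n 2) = 1 := by
      show MvPolynomial.eval (ee n) (X none ^ 2 + vx n 0 * X none + vx n 1 ^ 2) = 1
      simp only [map_add, map_mul, map_pow, X_ee, vx_ee]
      norm_num
    have e0 : MvPolynomial.eval (0 : Option (Fin n) → ℝ) (core n 2) = 0 := by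
      show MvPolynomial.eval (0 : Option (Fin n) → ℝ)
        (X none ^ 2 + vx n 0 * X none + vx n 1 ^ 2) = 0
      simp only [map_add, map_mul, map_pow, X_e0, vx_e0]
      norm_num
    refine ⟨?_, e1, ?_⟩
    · exact (((isHomogeneous_X _ _).pow 2).add ((vx_hom 0).mul (isHomogeneous_X _ _))).add
        ((vx_hom 1).pow 2)
    · have := one_le _ e1 e0
      show 2 ≤ _
      omega
  | 3 => by
    have e1 : MvPolynomial.eval (ee n) (core n 3) = 1 := by
      show MvPolynomial.eval (ee n) (X none ^ 2 + vx n 0 * X none - vx n 1 ^ 2) = 1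
      simp only [map_add, map_sub, map_mul, map_pow, X_ee, vx_ee]
      norm_num
    have e0 : MvPolynomial.eval (0 : Option (Fin n) → ℝ) (core n 3) = 0 := by
      show MvPolynomial.eval (0 : Option (Fin n) → ℝ)
        (X none ^ 2 + vx n 0 * X none - vx n 1 ^ 2) = 0
      simp only [map_add, map_sub, map_mul, map_pow, X_e0, vx_e0]
      norm_num
    refine ⟨?_, e1, ?_⟩
    · exact (((isHomogeneous_X _ _).pow 2).add ((vx_hom 0).mul (isHomogeneous_X _ _))).sub
        ((vx_hom 1).pow 2)
    · have := one_le _ e1 e0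
      show 2 ≤ _
      omega
  | 4 => by
    have e1 : MvPolynomial.eval (ee n) (X none ^ 2 + vx n 1 * X none +
        vx n 0 * (vx n 1 - vx n 0) + vx n 2 ^ 2) = 1 := by
      simp only [map_add, map_sub, map_mul, map_pow, X_ee, vx_ee]
      norm_num
    have e0 : MvPolynomial.eval (0 : Option (Fin n) → ℝ) (X none ^ 2 + vx n 1 * X none +
        vx n 0 * (vx n 1 - vx n 0) + vx n 2 ^ 2) = 0 := by
      simp only [map_add, map_sub, map_mul, map_pow, X_e0, vx_e0]
      norm_num
    refine ⟨?_, ?_, ?_⟩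
    · exact (lin_hom 0).mul (((((isHomogeneous_X _ _).pow 2).add
        ((vx_hom 1).mul (isHomogeneous_X _ _))).add
        ((vx_hom 0).mul ((vx_hom 1).sub (vx_hom 0)))).add ((vx_hom 2).pow 2))
    · show MvPolynomial.eval (ee n) ((X none + vx n 0) * _) = 1
      rw [map_mul, lin_ee, one_mul]
      exact e1
    · have h1 := one_le _ e1 e0
      have h2 := one_le _ (lin_ee (n := n) 0) (lin_e0 0)
      show 3 ≤ Leqx.nfp ((X none + vx n 0) * (X none ^ 2 + vx n 1 * X none +
        vx n 0 * (vx n 1 - vx n 0) + vx n 2 ^ 2)) + 1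
      rw [Leqx.nfp_mul _ _ (ne0 _ (lin_ee 0)) (ne0 _ e1)]
      omega
  | 5 => by
    have e1 : MvPolynomial.eval (ee n) (X none ^ 2 + vx n 1 * X none +
        vx n 0 * (vx n 1 - vx n 0) - vx n 2 ^ 2) = 1 := by
      simp only [map_add, map_sub, map_mul, map_pow, X_ee, vx_ee]
      norm_num
    have e0 : MvPolynomial.eval (0 : Option (Fin n) → ℝ) (X none ^ 2 + vx n 1 * X none +
        vx n 0 * (vx n 1 - vx n 0) - vx n 2 ^ 2) = 0 := by
      simp only [map_add, map_sub, map_mul, map_pow, X_e0, vx_e0]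
      norm_num
    refine ⟨?_, ?_, ?_⟩
    · exact (lin_hom 0).mul (((((isHomogeneous_X _ _).pow 2).add
        ((vx_hom 1).mul (isHomogeneous_X _ _))).add
        ((vx_hom 0).mul ((vx_hom 1).sub (vx_hom 0)))).sub ((vx_hom 2).pow 2))
    · show MvPolynomial.eval (ee n) ((X none + vx n 0) * _) = 1
      rw [map_mul, lin_ee, one_mul]
      exact e1
    · have h1 := one_le _ e1 e0
      have h2 := one_le _ (lin_ee (n := n) 0) (lin_e0 0)
      show 3 ≤ Leqx.nfp ((X none + vx n 0) * (X none ^ 2 + vx n 1 * X none +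
        vx n 0 * (vx n 1 - vx n 0) - vx n 2 ^ 2)) + 1
      rw [Leqx.nfp_mul _ _ (ne0 _ (lin_ee 0)) (ne0 _ e1)]
      omega
  | 6 => by
    have e1 : MvPolynomial.eval (ee n) (X none ^ 2 + vx n 1 * X none + vx n 0 * vx n 2) = 1 := by
      simp only [map_add, map_sub, map_mul, map_pow, X_ee, vx_ee]
      norm_num
    have e0 : MvPolynomial.eval (0 : Option (Fin n) → ℝ) (X none ^ 2 + vx n 1 * X none +
        vx n 0 * vx n 2) = 0 := by
      simp only [map_add, map_sub, map_mul, map_pow, X_e0, vx_e0]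
      norm_num
    refine ⟨?_, ?_, ?_⟩
    · exact (lin_hom 0).mul ((((isHomogeneous_X _ _).pow 2).add
        ((vx_hom 1).mul (isHomogeneous_X _ _))).add ((vx_hom 0).mul (vx_hom 2)))
    · show MvPolynomial.eval (ee n) ((X none + vx n 0) * _) = 1
      rw [map_mul, lin_ee, one_mul]
      exact e1
    · have h1 := one_le _ e1 e0
      have h2 := one_le _ (lin_ee (n := n) 0) (lin_e0 0)
      show 3 ≤ Leqx.nfp ((X none + vx n 0) * (X none ^ 2 + vx n 1 * X none +
        vx n 0 * vx n 2)) + 1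
      rw [Leqx.nfp_mul _ _ (ne0 _ (lin_ee 0)) (ne0 _ e1)]
      omega
  | 7 => by
    have e1 : MvPolynomial.eval (ee n) ((X none + vx n 0) * (X none + vx n 2) -
        (X none + vx n 1) * vx n 3) = 1 := by
      simp only [map_add, map_sub, map_mul, map_pow, X_ee, vx_ee]
      norm_num
    have e0 : MvPolynomial.eval (0 : Option (Fin n) → ℝ) ((X none + vx n 0) * (X none + vx n 2) -
        (X none + vx n 1) * vx n 3) = 0 := by
      simp only [map_add, map_sub, map_mul, map_pow, X_e0, vx_e0]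
      norm_num
    have e2 : MvPolynomial.eval (ee n) ((X none + vx n 0) * (X none + vx n 1)) = 1 := by
      rw [map_mul, lin_ee, lin_ee, one_mul]
    refine ⟨?_, ?_, ?_⟩
    · exact ((lin_hom 0).mul (lin_hom 1)).mul (((lin_hom 0).mul (lin_hom 2)).sub
        ((lin_hom 1).mul (vx_hom 3)))
    · show MvPolynomial.eval (ee n) ((X none + vx n 0) * (X none + vx n 1) * _) = 1
      rw [map_mul, e2, one_mul]
      exact e1
    · have h1 := one_le _ e1 e0
      have h2 := one_le _ (lin_ee (n := n) 0) (lin_e0 0)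
      have h3 := one_le _ (lin_ee (n := n) 1) (lin_e0 1)
      show 4 ≤ Leqx.nfp ((X none + vx n 0) * (X none + vx n 1) *
        ((X none + vx n 0) * (X none + vx n 2) - (X none + vx n 1) * vx n 3)) + 1
      rw [Leqx.nfp_mul _ _ (ne0 _ e2) (ne0 _ e1),
        Leqx.nfp_mul _ _ (ne0 _ (lin_ee 0)) (ne0 _ (lin_ee 1))]
      omega

end Nfax

theorem thm_Nfa (hFrs : St_Frs) : St_Nfa := by
  intro n k hk
  obtain ⟨c1, c2, c3⟩ := Nfax.core_all n k
  obtain ⟨p1, p2⟩ := Nfax.prod_le (n := n) (Finset.Ico (dm k) n)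
  have hev : MvPolynomial.eval (Nfax.ee n) (NF n k) = 1 := by
    show MvPolynomial.eval (Nfax.ee n) (core n k * ∏ i ∈ Finset.Ico (dm k) n, _) = 1
    rw [map_mul, c2, p1, one_mul]
  have hhom : (NF n k).IsHomogeneous n := by
    have h1 : (∏ i ∈ Finset.Ico (dm k) n, (X none + vx n i)).IsHomogeneous
        (∑ _i ∈ Finset.Ico (dm k) n, 1) :=
      IsHomogeneous.prod _ _ _ fun i _ => Nfax.lin_hom i
    have h2 : dm k + ∑ _i ∈ Finset.Ico (dm k) n, 1 = n := by
      rw [Finset.sum_const, Nat.card_Ico, smul_eq_mul, mul_one]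
      omega
    have h3 := c1.mul h1
    rw [h2] at h3
    exact h3
  obtain ⟨τ, hτ⟩ := thm_Frm n (NF n k) 1 hhom hev one_ne_zero
  rw [C_1, one_mul] at hτ
  refine ⟨τ, ?_, hτ.symm, ?_⟩
  · rw [all_MainA n τ, ← hτ]
    exact Nfax.lf_NF hFrs n k hk
  · rw [Leqx.nf_eq, ← hτ]
    show n ≤ Leqx.nfp (core n k * ∏ i ∈ Finset.Ico (dm k) n, (X none + vx n i)) + 1
    rw [Leqx.nfp_mul _ _ (Nfax.ne0 _ c2) (Nfax.ne0 _ p1)]
    rw [Nat.card_Ico] at p2
    omega

end Pool.Agent.LFS
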