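import Pool.Agent.LFS.St

/-!
# Many factors: no crossing (helper9)
-/

set_option autoImplicit false

noncomputable section

namespace Pool.Agent.LFS

open scoped Polynomial
open MvPolynomial Pool.Agent.Helper28.Nij Pool.Agent.LFD

namespace NoXx

variable {ι : Type} [Fintype ι] [DecidableEq ι]

theorem rel_apply (i j i' j' l : ι) : rel i j i' j' l =
    (if l = i then 1 else 0) - (if l = j then 1 else 0) -
      ((if l = i' then 1 else 0) - (if l = j' then (1 : ℝ) else 0)) := by
  simp only [rel, Pi.sub_apply, Pi.single_apply]

theorem side (M : Matrix ι ι ℝ) (hI : Ig M) (P : ι → Prop)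
    (hcl : ∀ i j i' j', M i j ≠ 0 → M i' j' ≠ 0 →
      (∀ l, P l → rel i j i' j' l = 0) ∨ ∀ l, ¬ P l → rel i j i' j' l = 0)
    (hcr : ∀ i j, M i j ≠ 0 → (P i ↔ P j)) (i j : ι) (hij : i ≠ j) (hM : M i j ≠ 0) (hi : P i) :
    ∀ a b, M a b ≠ 0 → P a ∧ P b := by
  have hj : P j := (hcr i j hM).1 hi
  have off : ∀ a b, a ≠ b → M a b ≠ 0 → P a := by
    intro a b hab h1
    by_contra ha
    have hb : ¬ P b := fun hb => ha ((hcr a b h1).2 hb)
    rcases hcl i j a b hM h1 with h2 | h2
    · have h3 := h2 i hi
      have e1 : i ≠ a := fun h => ha (h ▸ hi)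
      have e2 : i ≠ b := fun h => hb (h ▸ hi)
      rw [rel_apply, if_pos rfl, if_neg hij, if_neg e1, if_neg e2] at h3
      norm_num at h3
    · have h3 := h2 a ha
      have e1 : a ≠ i := fun h => ha (h ▸ hi)
      have e2 : a ≠ j := fun h => ha (h ▸ hj)
      rw [rel_apply, if_neg e1, if_neg e2, if_pos rfl, if_neg hab] at h3
      norm_num at h3
  have key : ∀ a b, M a b ≠ 0 → P a := by
    intro a b h1
    by_cases hab : a = b
    · subst hab
      by_contra ha
      have hcol : ∀ c, c ≠ a → M c a = 0 := by
        intro c hc
        by_contra h2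
        exact ha ((hcr c a h2).1 (off c a hc h2))
      have h3 := hI (M a a : ℂ) (Pi.single a 1) (by
        intro h
        have := congrFun h a
        simp at this) (by
        rw [Matrix.mulVec_single_one]
        funext c
        rw [Pi.smul_apply]
        by_cases hc : c = a
        · subst hc
          simp
        · rw [Pi.single_eq_of_ne hc]
          simp [hcol c hc])
      rw [Complex.ofReal_re] at h3
      exact h1 h3
    · exact off a b hab h1
  intro a b h1
  exact ⟨key a b h1, (hcr a b h1).1 (key a b h1)⟩

end NoXx

open NoXx in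
theorem thm_NoX (hRk1 : St_Rk1) : St_NoX := by
  intro ι _ _ h Y S hL hG hCl k
  by_cases hdiag : ∃ d, Y k = Matrix.diagonal d
  · exact Or.inl hdiag
  right
  have hI : Ig (Y k) := (hG.2.2.2 k).resolve_left hdiag
  have hM : h ∣ der (Y k) h := hG.1 k
  have hcl := hCl k
  set M := Y k with hMdef
  have hcr : ∀ i j, M i j ≠ 0 → (i ∈ S ↔ j ∈ S) := by
    intro i j hij
    by_contra hS
    have hne : i ≠ j := fun h => hS (by rw [h])
    have hz : ∀ a b a' b', M a b ≠ 0 → M a' b' ≠ 0 →
        rel a b a' b' i = 0 ∨ rel a b a' b' j = 0 := by
      intro a b a' b' h1 h2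
      by_cases hi : i ∈ S
      · have hj : j ∉ S := fun hj => hS ⟨fun _ => hj, fun _ => hi⟩
        rcases hcl a b a' b' h1 h2 with h3 | h3
        · exact Or.inl (h3 i hi)
        · exact Or.inr (h3 j hj)
      · have hj : j ∈ S := by
          by_contra hj
          exact hS ⟨fun h => absurd h hi, fun h => absurd h hj⟩
        rcases hcl a b a' b' h1 h2 with h3 | h3
        · exact Or.inr (h3 j hj)
        · exact Or.inl (h3 i hi)
    have hcase : ∀ a b, M a b ≠ 0 → (a = i ∧ b ≠ i) ∨ (b = j ∧ a ≠ j) := by
      intro a b hab
      rcases hz i j a b hij hab with h1 | h1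
      · left
        rw [rel_apply, if_pos rfl, if_neg hne] at h1
        by_cases e1 : i = a
        · refine ⟨e1.symm, ?_⟩
          intro e2
          rw [if_pos e1, if_pos e2.symm] at h1
          norm_num at h1
        · rw [if_neg e1] at h1
          by_cases e2 : i = b
          · rw [if_pos e2] at h1
            norm_num at h1
          · rw [if_neg e2] at h1
            norm_num at h1
      · right
        rw [rel_apply, if_neg (Ne.symm hne), if_pos rfl] at h1
        by_cases e1 : j = b
        · refine ⟨e1.symm, ?_⟩
          intro e2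
          rw [if_pos e1, if_pos e2.symm] at h1
          norm_num at h1
        · rw [if_neg e1] at h1
          by_cases e2 : j = a
          · rw [if_pos e2] at h1
            norm_num at h1
          · rw [if_neg e2] at h1
            norm_num at h1
    by_cases hrow : ∀ a b, M a b ≠ 0 → a = i
    · have hii : M i i = 0 := by
        by_contra h1
        rcases hcase i i h1 with ⟨-, h2⟩ | ⟨h2, -⟩
        · exact h2 rfl
        · exact hne h2
      refine hRk1 ι h hL (Pi.single i 1) (fun b => M i b) ?_ ?_ ?_ ?_
      · intro h1
        have := congrFun h1 i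
        simp at this
      · intro h1
        exact hij (congrFun h1 j)
      · simp [Pi.single_apply, hii]
      · have h1 : Matrix.vecMulVec (Pi.single i 1) (fun b => M i b) = M := by
          ext a b
          rw [Matrix.vecMulVec_apply, Pi.single_apply]
          by_cases ha : a = i
          · rw [if_pos ha, one_mul, ha]
          · rw [if_neg ha, zero_mul]
            by_contra h2
            exact ha (hrow a b (Ne.symm h2))
        rw [h1]
        exact hM
    · push Not at hrow
      obtain ⟨a, b, hab, hai⟩ := hrow
      have h1 : b = j ∧ a ≠ j := by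
        rcases hcase a b hab with h1 | h1
        · exact absurd h1.1 hai
        · exact h1
      obtain ⟨rfl, haj⟩ := h1
      have hcol : ∀ c d, M c d ≠ 0 → d = b := by
        intro c d hcd
        rcases hcase c d hcd with ⟨h1, h2⟩ | ⟨h1, -⟩
        · by_contra hdb
          subst h1
          rcases hz c d a b hcd hab with h3 | h3
          · rw [rel_apply, if_pos rfl, if_neg (Ne.symm h2), if_neg (Ne.symm hai), if_neg hne] at h3
            norm_num at h3
          · rw [rel_apply, if_neg (Ne.symm hne), if_neg (Ne.symm hdb), if_neg (Ne.symm haj),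
              if_pos rfl] at h3
            norm_num at h3
        · exact h1
      have hbb : M b b = 0 := by
        by_contra h1
        rcases hcase b b h1 with ⟨h2, -⟩ | ⟨-, h2⟩
        · exact hne h2.symm
        · exact h2 rfl
      refine hRk1 ι h hL (fun a => M a b) (Pi.single b 1) ?_ ?_ ?_ ?_
      · intro h1
        exact hij (congrFun h1 i)
      · intro h1
        have := congrFun h1 b
        simp at this
      · simp [Pi.single_apply, hbb]
      · have h1 : Matrix.vecMulVec (fun a => M a b) (Pi.single b 1) = M := by
          ext c d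
          rw [Matrix.vecMulVec_apply, Pi.single_apply]
          by_cases hd : d = b
          · rw [if_pos hd, mul_one, hd]
          · rw [if_neg hd, mul_zero]
            by_contra h2
            exact hd (hcol c d (Ne.symm h2))
        rw [h1]
        exact hM
  obtain ⟨i, j, hij, hMij⟩ : ∃ i j, i ≠ j ∧ M i j ≠ 0 := by
    by_contra hcon
    push Not at hcon
    refine hdiag ⟨fun i => M i i, ?_⟩
    ext a b
    by_cases hab : a = b
    · subst hab
      rw [Matrix.diagonal_apply_eq]
    · rw [Matrix.diagonal_apply_ne _ hab]
      exact hcon a b hab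
  by_cases hi : i ∈ S
  · left
    exact side M hI (fun l => l ∈ S) (fun a b a' b' h1 h2 => hcl a b a' b' h1 h2) hcr i j hij hMij hi
  · right
    refine side M hI (fun l => l ∉ S) (fun a b a' b' h1 h2 => ?_) (fun a b h1 => not_congr (hcr a b h1))
      i j hij hMij hi
    rcases hcl a b a' b' h1 h2 with h3 | h3
    · right
      intro l hl
      exact h3 l (not_not.1 hl)
    · left
      exact h3

end Pool.Agent.LFS
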