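import Pool.Agent.LFS.St

/-!
# Module One (helper82): the linear free divisors with `N - 1` independent diagonal tangent fields
-/

set_option autoImplicit false

noncomputable section

open scoped Polynomial
open MvPolynomial Pool.Agent.Helper28.Nij Pool.Agent.LFD

namespace Pool.Agent.LFS

namespace Onex

/-! ### determinants -/

section det

variable {ι : Type} [Fintype ι] [DecidableEq ι]

/-- outside of the range of `e` the matrix is diagonal -/
theorem det_blk {R : Type} [CommRing R] {m : ℕ} (e : Fin m → ι) (he : Function.Injective e) (M : Matrix ι ι R)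
    (x : ι → R) (S : Finset ι) (hS : ∀ k, k ∈ S ↔ ∃ a, e a = k)
    (hM : ∀ k, k ∉ S → ∀ i, M k i = if k = i then x k else 0) :
    M.det = (M.submatrix e e).det * ∏ k ∈ Finset.univ \ S, x k := by
  classical
  obtain ⟨φ, hφ⟩ : ∃ φ : Fin m ≃ {k // k ∈ S}, ∀ a, (φ a : ι) = e a := by
    refine ⟨Equiv.ofBijective (fun a => ⟨e a, (hS _).2 ⟨a, rfl⟩⟩) ⟨?_, ?_⟩, fun a => rfl⟩
    · intro a b hab
      exact he (congrArg Subtype.val hab)
    · rintro ⟨k, hk⟩
      obtain ⟨a, ha⟩ := (hS k).1 hk
      exact ⟨a, Subtype.ext ha⟩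
  have h1 := Matrix.det_submatrix_equiv_self ((Equiv.sumCongr φ (Equiv.refl {k // k ∉ S})).trans (Equiv.sumCompl fun k => k ∈ S)) M
  rw [← h1, ← Matrix.fromBlocks_toBlocks (M.submatrix _ _)]
  have h2 : (M.submatrix ⇑((Equiv.sumCongr φ (Equiv.refl {k // k ∉ S})).trans (Equiv.sumCompl fun k => k ∈ S))
      ⇑((Equiv.sumCongr φ (Equiv.refl {k // k ∉ S})).trans (Equiv.sumCompl fun k => k ∈ S))).toBlocks₂₁ = 0 := by
    ext k a
    show M (k : ι) (φ a : ι) = 0
    rw [hM _ k.2, if_neg]
    intro h
    exact k.2 (h ▸ (φ a).2)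
  rw [h2, Matrix.det_fromBlocks_zero₂₁]
  congr 1
  · congr 1
    ext a b
    show M (φ a : ι) (φ b : ι) = M (e a) (e b)
    rw [hφ, hφ]
  · have h3 : (M.submatrix ⇑((Equiv.sumCongr φ (Equiv.refl {k // k ∉ S})).trans (Equiv.sumCompl fun k => k ∈ S))
        ⇑((Equiv.sumCongr φ (Equiv.refl {k // k ∉ S})).trans (Equiv.sumCompl fun k => k ∈ S))).toBlocks₂₂ =
        Matrix.diagonal fun k : {k // k ∉ S} => x k := by
      ext k l
      show M (k : ι) (l : ι) = _
      rw [hM _ k.2, Matrix.diagonal_apply]
      by_cases hkl : k = l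
      · subst hkl
        simp
      · rw [if_neg hkl, if_neg]
        intro h
        exact hkl (Subtype.ext h)
    rw [h3, Matrix.det_diagonal]
    symm
    apply Finset.prod_subtype
    intro k
    simp

theorem fld_diag (d : ι → ℝ) (i : ι) : fld (Matrix.diagonal d) i = C (d i) * X i := by
  rw [fld, Finset.sum_eq_single i]
  · rw [Matrix.diagonal_apply_eq]
  · intro j _ hj
    rw [Matrix.diagonal_apply_ne _ (Ne.symm hj), C_0, zero_mul]
  · intro h
    exact absurd (Finset.mem_univ i) h

omit [DecidableEq ι] in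
theorem fld_zero (Y : Matrix ι ι ℝ) (i : ι) (h : ∀ m, Y i m = 0) : fld Y i = 0 := by
  rw [fld]
  apply Finset.sum_eq_zero
  intro m _
  rw [h m, C_0, zero_mul]

omit [DecidableEq ι] in
theorem fld_one (Y : Matrix ι ι ℝ) (i j : ι) (h : ∀ m, m ≠ j → Y i m = 0) : fld Y i = C (Y i j) * X j := by
  rw [fld, Finset.sum_eq_single j]
  · intro m _ hm
    rw [h m hm, C_0, zero_mul]
  · intro h
    exact absurd (Finset.mem_univ j) h

theorem fld_two (Y : Matrix ι ι ℝ) (i a b : ι) (hab : a ≠ b) (h : ∀ m, m ≠ a → m ≠ b → Y i m = 0) :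
    fld Y i = C (Y i a) * X a + C (Y i b) * X b := by
  rw [fld, ← Finset.sum_subset (Finset.subset_univ {a, b}), Finset.sum_pair hab]
  intro m _ hm
  rw [Finset.mem_insert, Finset.mem_singleton, not_or] at hm
  rw [h m hm.1 hm.2, C_0, zero_mul]

/-- the fields `X_k ∂_k` outside of the range of `e` -/
theorem det_fld {m : ℕ} (e : Fin m → ι) (he : Function.Injective e) (A : ι → Matrix ι ι ℝ) (S : Finset ι)
    (hS : ∀ k, k ∈ S ↔ ∃ a, e a = k) (hA : ∀ k, k ∉ S → A k = Matrix.diagonal (Pi.single k 1)) :
    (Matrix.of fun k i => fld (A k) i).det =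
      (Matrix.of fun a b => fld (A (e a)) (e b)).det * ∏ k ∈ Finset.univ \ S, (X k : MvPolynomial ι ℝ) := by
  rw [det_blk e he _ (fun k => (X k : MvPolynomial ι ℝ)) S hS]
  · rfl
  · intro k hk i
    rw [Matrix.of_apply, hA k hk, fld_diag]
    by_cases hki : k = i
    · subst hki
      rw [if_pos rfl, Pi.single_eq_same, C_1, one_mul]
    · rw [if_neg hki, Pi.single_eq_of_ne (Ne.symm hki), C_0, zero_mul]

theorem prod_eval (S : Finset ι) (i : ι) (hi : i ∈ S) :
    MvPolynomial.eval (fun m => if m = i then (0 : ℝ) else 1) (∏ k ∈ Finset.univ \ S, (X k : MvPolynomial ι ℝ)) = 1 := by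
  rw [map_prod]
  apply Finset.prod_eq_one
  intro k hk
  rw [eval_X, if_neg]
  rintro rfl
  exact (Finset.mem_sdiff.1 hk).2 hi

end det

/-! ### the determinant is a constant times `h` -/

section star

variable {ι : Type} [Fintype ι] [DecidableEq ι]

theorem star {h : MvPolynomial ι ℝ} (hf : LinFree h) (A : ι → Matrix ι ι ℝ) (hA : ∀ k, h ∣ der (A k) h)
    (h0 : (Matrix.of fun k i => fld (A k) i).det ≠ 0) :
    ∃ c : ℝ, c ≠ 0 ∧ h = C c * (Matrix.of fun k i => fld (A k) i).det := by
  obtain ⟨hsq, A0, hA0, c0, hc0, hd0⟩ := hf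
  have hH := (all_Com.1 ι h hsq A0 c0 hA0 hc0 hd0).1
  obtain ⟨a, ha⟩ := Comx.quot hH (Comx.hom_det A) hsq.ne_zero (thm_Sai ι h hsq A hA)
  have ha0 : a ≠ 0 := by
    rintro rfl
    rw [C_0, zero_mul] at ha
    exact h0 ha
  refine ⟨a⁻¹, inv_ne_zero ha0, ?_⟩
  rw [ha, ← mul_assoc, ← C_mul, inv_mul_cancel₀ ha0, C_1, one_mul]

/-- a line of relations -/
theorem tor_eq (T : Submodule ℝ (ι → ℝ)) (hT : Fintype.card ι ≤ Module.finrank ℝ T + 1)
    (φ : (ι → ℝ) →ₗ[ℝ] ℝ) (d0 : ι → ℝ) (hφ : φ d0 ≠ 0) (h : ∀ d ∈ T, φ d = 0) : ∀ d, φ d = 0 → d ∈ T := by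
  have h1 : T ≤ LinearMap.ker φ := fun d hd => LinearMap.mem_ker.2 (h d hd)
  have h2 := LinearMap.finrank_range_add_finrank_ker φ
  have h3 : LinearMap.range φ = ⊤ := by
    apply LinearMap.range_eq_top.2
    intro y
    refine ⟨(y / φ d0) • d0, ?_⟩
    rw [map_smul, smul_eq_mul, div_mul_cancel₀ _ hφ]
  rw [h3, finrank_top, Module.finrank_self, Module.finrank_fintype_fun_eq_card] at h2
  have h4 := Submodule.eq_of_le_of_finrank_le h1 (by omega)
  intro d hd
  rw [h4]
  exact LinearMap.mem_ker.2 hd

end star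

/-! ### the types -/

section typ

variable {ι : Type} [Fintype ι] [DecidableEq ι]

theorem typ0 {h : MvPolynomial ι ℝ} (hf : LinFree h) (hT : ∀ d, d ∈ Tor h) : Typ h := by
  have hA : ∀ k, h ∣ der (Matrix.diagonal (Pi.single k 1)) h := fun k => hT _
  have hdet : (Matrix.of fun k i => fld (Matrix.diagonal (Pi.single k (1 : ℝ))) i).det = ∏ i, (X i : MvPolynomial ι ℝ) := by
    have h1 : (Matrix.of fun k i => fld (Matrix.diagonal (Pi.single k (1 : ℝ))) i) = Matrix.diagonal (X : ι → MvPolynomial ι ℝ) := by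
      ext1 k i
      rw [Matrix.of_apply, fld_diag, Matrix.diagonal_apply]
      by_cases hki : k = i
      · subst hki
        rw [if_pos rfl, Pi.single_eq_same, C_1, one_mul]
      · rw [if_neg hki, Pi.single_eq_of_ne (Ne.symm hki), C_0, zero_mul]
    rw [h1, Matrix.det_diagonal]
  obtain ⟨c, hc, hh⟩ := star hf (fun k => Matrix.diagonal (Pi.single k 1)) hA (by
    rw [hdet]
    exact Finset.prod_ne_zero_iff.2 fun i _ => X_ne_zero i)
  exact ⟨c, hc, Or.inl (by rw [hh, hdet])⟩

theorem typ1 {h : MvPolynomial ι ℝ} (hf : LinFree h) (Y : Matrix ι ι ℝ) (hY : h ∣ der Y h) (i j : ι) (hij : i ≠ j)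
    (hT : ∀ d : ι → ℝ, d i = d j → d ∈ Tor h) (hq : Y i j ≠ 0)
    (hi : ∀ m, m ≠ i → m ≠ j → Y i m = 0) (hj : ∀ m, m ≠ i → m ≠ j → Y j m = 0)
    (htr : Y i i + Y j j = 0) (hpos : 0 < Y i i * Y j j - Y i j * Y j i) : Typ h := by
  set A : ι → Matrix ι ι ℝ := fun k =>
    if k = i then Matrix.diagonal (Pi.single i 1 + Pi.single j 1) else if k = j then Y else Matrix.diagonal (Pi.single k 1) with hAdef
  have hAi : A i = Matrix.diagonal (Pi.single i 1 + Pi.single j 1) := by simp [hAdef]
  have hAj : A j = Y := by simp [hAdef, Ne.symm hij]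
  have hAk : ∀ k, k ∉ ({i, j} : Finset ι) → A k = Matrix.diagonal (Pi.single k 1) := by
    intro k hk
    rw [Finset.mem_insert, Finset.mem_singleton, not_or] at hk
    simp [hAdef, hk.1, hk.2]
  have hA : ∀ k, h ∣ der (A k) h := by
    intro k
    by_cases h1 : k = i
    · rw [h1, hAi]
      apply hT
      simp [Pi.single_apply, hij, Ne.symm hij]
    · by_cases h2 : k = j
      · rw [h2, hAj]
        exact hY
      · rw [hAk k (by simp [h1, h2])]
        apply hT
        rw [Pi.single_eq_of_ne (Ne.symm h1), Pi.single_eq_of_ne (Ne.symm h2)]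
  have hdet : (Matrix.of fun k i => fld (A k) i).det =
      (C (Y j i) * X i ^ 2 + C (Y j j - Y i i) * X i * X j + C (- Y i j) * X j ^ 2) *
        ∏ k ∈ Finset.univ \ {i, j}, (X k : MvPolynomial ι ℝ) := by
    rw [det_fld ![i, j] ?_ A {i, j} ?_ hAk]
    · congr 1
      rw [Matrix.det_fin_two]
      simp only [Matrix.of_apply, Matrix.cons_val_zero, Matrix.cons_val_one]
      rw [hAi, hAj, fld_diag, fld_diag, fld_two Y i i j hij hi, fld_two Y j i j hij hj]
      simp only [Pi.add_apply, Pi.single_eq_same, Pi.single_eq_of_ne hij, Pi.single_eq_of_ne (Ne.symm hij), C_sub, C_neg]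
      simp only [add_zero, zero_add, C_1]
      ring
    · intro a b hab
      fin_cases a <;> fin_cases b <;> simp_all
    · intro k
      constructor
      · intro hk
        rw [Finset.mem_insert, Finset.mem_singleton] at hk
        rcases hk with rfl | rfl
        · exact ⟨0, rfl⟩
        · exact ⟨1, rfl⟩
      · rintro ⟨a, rfl⟩
        fin_cases a <;> simp
  obtain ⟨c, hc, hh⟩ := star hf A hA (by
    rw [hdet]
    intro h0
    have h1 := congrArg (MvPolynomial.eval (fun m => if m = i then (0 : ℝ) else 1)) h0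
    rw [map_mul, prod_eval _ i (by simp)] at h1
    simp [Ne.symm hij] at h1
    exact hq h1)
  refine ⟨c, hc, Or.inr (Or.inl ⟨i, j, Y j i, Y j j - Y i i, - Y i j, hij, ?_, ?_⟩)⟩
  · have : Y j j = - Y i i := by linarith
    rw [this] at hpos ⊢
    nlinarith
  · rw [hh, hdet]
    ring

theorem typ2 {h : MvPolynomial ι ℝ} (hf : LinFree h) (Y : Matrix ι ι ℝ) (hY : h ∣ der Y h) (i j l : ι) (hij : i ≠ j)
    (hil : i ≠ l) (hjl : j ≠ l) (hT : ∀ d : ι → ℝ, d i - d j = d j - d l → d ∈ Tor h) (ha : Y i j ≠ 0) (hb : Y j l ≠ 0)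
    (hs : ∀ a b, Y a b ≠ 0 → (a = i ∧ b = j) ∨ (a = j ∧ b = l)) : Typ h := by
  have hYi : fld Y i = C (Y i j) * X j := fld_one Y i j fun m hm => by
    by_contra hcon
    rcases hs i m hcon with h1 | h1
    · exact hm h1.2
    · exact hij h1.1
  have hYj : fld Y j = C (Y j l) * X l := fld_one Y j l fun m hm => by
    by_contra hcon
    rcases hs j m hcon with h1 | h1
    · exact hij h1.1.symm
    · exact hm h1.2
  have hYl : fld Y l = 0 := fld_zero Y l fun m => by
    by_contra hcon
    rcases hs l m hcon with h1 | h1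
    · exact hil h1.1.symm
    · exact hjl h1.1.symm
  set A : ι → Matrix ι ι ℝ := fun k =>
    if k = i then Matrix.diagonal (Pi.single i 1 + Pi.single j 1 + Pi.single l 1) else
      if k = j then Matrix.diagonal (Pi.single i 1 - Pi.single l 1) else
        if k = l then Y else Matrix.diagonal (Pi.single k 1) with hAdef
  have hAi : A i = Matrix.diagonal (Pi.single i 1 + Pi.single j 1 + Pi.single l 1) := by simp [hAdef]
  have hAj : A j = Matrix.diagonal (Pi.single i 1 - Pi.single l 1) := by simp [hAdef, Ne.symm hij]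
  have hAl : A l = Y := by simp [hAdef, Ne.symm hil, Ne.symm hjl]
  have hAk : ∀ k, k ∉ ({i, j, l} : Finset ι) → A k = Matrix.diagonal (Pi.single k 1) := by
    intro k hk
    rw [Finset.mem_insert, Finset.mem_insert, Finset.mem_singleton, not_or, not_or] at hk
    simp [hAdef, hk.1, hk.2.1, hk.2.2]
  have hA : ∀ k, h ∣ der (A k) h := by
    intro k
    by_cases h1 : k = i
    · rw [h1, hAi]
      apply hT
      simp [Pi.single_apply, hij, Ne.symm hij, hil, Ne.symm hil, hjl, Ne.symm hjl]
    · by_cases h2 : k = j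
      · rw [h2, hAj]
        apply hT
        simp [Pi.single_apply, hij, Ne.symm hij, hil, Ne.symm hil, hjl, Ne.symm hjl]
      · by_cases h3 : k = l
        · rw [h3, hAl]
          exact hY
        · rw [hAk k (by simp [h1, h2, h3])]
          apply hT
          rw [Pi.single_eq_of_ne (Ne.symm h1), Pi.single_eq_of_ne (Ne.symm h2), Pi.single_eq_of_ne (Ne.symm h3)]
  have hdet : (Matrix.of fun k i => fld (A k) i).det =
      (X l * (C (2 * Y j l) * X i * X l - C (Y i j) * X j ^ 2)) *
        ∏ k ∈ Finset.univ \ {i, j, l}, (X k : MvPolynomial ι ℝ) := by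
    rw [det_fld ![i, j, l] ?_ A {i, j, l} ?_ hAk]
    · congr 1
      rw [Matrix.det_fin_three]
      simp only [Matrix.of_apply, Matrix.cons_val_zero, Matrix.cons_val_one, Matrix.cons_val]
      rw [hAi, hAj, hAl, hYi, hYj, hYl]
      simp only [fld_diag]
      simp only [Pi.add_apply, Pi.sub_apply, Pi.single_eq_same, Pi.single_eq_of_ne hij, Pi.single_eq_of_ne (Ne.symm hij),
        Pi.single_eq_of_ne hil, Pi.single_eq_of_ne (Ne.symm hil), Pi.single_eq_of_ne hjl, Pi.single_eq_of_ne (Ne.symm hjl)]
      simp only [add_zero, zero_add, sub_zero, zero_sub, C_1, C_0, C_neg, C_mul, map_ofNat]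
      ring
    · intro a b hab
      fin_cases a <;> fin_cases b <;> simp_all
    · intro k
      constructor
      · intro hk
        rw [Finset.mem_insert, Finset.mem_insert, Finset.mem_singleton] at hk
        rcases hk with rfl | rfl | rfl
        · exact ⟨0, rfl⟩
        · exact ⟨1, rfl⟩
        · exact ⟨2, rfl⟩
      · rintro ⟨a, rfl⟩
        fin_cases a <;> simp
  obtain ⟨c, hc, hh⟩ := star hf A hA (by
    rw [hdet]
    intro h0
    have h1 := congrArg (MvPolynomial.eval (fun m => if m = i then (0 : ℝ) else 1)) h0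
    rw [map_mul, prod_eval _ i (by simp)] at h1
    simp [Ne.symm hij, Ne.symm hil] at h1
    exact ha h1)
  refine ⟨c * (2 * Y j l), mul_ne_zero hc (mul_ne_zero two_ne_zero hb), Or.inr (Or.inr (Or.inl
    ⟨i, j, l, Y i j / (2 * Y j l), hij, hil, hjl, div_ne_zero ha (mul_ne_zero two_ne_zero hb), ?_⟩))⟩
  rw [hh, hdet]
  have h3 : (C (Y i j) : MvPolynomial ι ℝ) = C (2 * Y j l) * C (Y i j / (2 * Y j l)) := by
    rw [← C_mul, mul_div_cancel₀ _ (mul_ne_zero two_ne_zero hb)]
  have h4 : (C (c * (2 * Y j l)) : MvPolynomial ι ℝ) = C c * C (2 * Y j l) := C_mul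
  rw [h3, h4]
  ring

theorem det4 {R : Type} [CommRing R] (x y z w a b : R) :
    (Matrix.of ![![x, y, 0, 0], ![0, 0, z, w], ![x, 0, z, 0], ![a, 0, b, 0]]).det = - (y * w * (x * b - z * a)) := by
  simp [Matrix.det_succ_row_zero, Fin.sum_univ_succ, Fin.succAbove]
  ring

theorem typ3 {h : MvPolynomial ι ℝ} (hf : LinFree h) (Y : Matrix ι ι ℝ) (hY : h ∣ der Y h) (i j k l : ι) (hij : i ≠ j)
    (hik : i ≠ k) (hil : i ≠ l) (hjk : j ≠ k) (hjl : j ≠ l) (hkl : k ≠ l)
    (hT : ∀ d : ι → ℝ, d i - d j = d k - d l → d ∈ Tor h) (ha : Y i j ≠ 0) (hb : Y k l ≠ 0)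
    (hs : ∀ a b, Y a b ≠ 0 → (a = i ∧ b = j) ∨ (a = k ∧ b = l)) : Typ h := by
  have hYi : fld Y i = C (Y i j) * X j := fld_one Y i j fun m hm => by
    by_contra hcon
    rcases hs i m hcon with h1 | h1
    · exact hm h1.2
    · exact hik h1.1
  have hYj : fld Y j = 0 := fld_zero Y j fun m => by
    by_contra hcon
    rcases hs j m hcon with h1 | h1
    · exact hij h1.1.symm
    · exact hjk h1.1
  have hYk : fld Y k = C (Y k l) * X l := fld_one Y k l fun m hm => by
    by_contra hcon
    rcases hs k m hcon with h1 | h1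
    · exact hik h1.1.symm
    · exact hm h1.2
  have hYl : fld Y l = 0 := fld_zero Y l fun m => by
    by_contra hcon
    rcases hs l m hcon with h1 | h1
    · exact hil h1.1.symm
    · exact hkl h1.1.symm
  set A : ι → Matrix ι ι ℝ := fun p =>
    if p = i then Matrix.diagonal (Pi.single i 1 + Pi.single j 1) else
      if p = j then Matrix.diagonal (Pi.single k 1 + Pi.single l 1) else
        if p = k then Matrix.diagonal (Pi.single i 1 + Pi.single k 1) else
          if p = l then Y else Matrix.diagonal (Pi.single p 1) with hAdef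
  have hAi : A i = Matrix.diagonal (Pi.single i 1 + Pi.single j 1) := by simp [hAdef]
  have hAj : A j = Matrix.diagonal (Pi.single k 1 + Pi.single l 1) := by simp [hAdef, Ne.symm hij]
  have hAk : A k = Matrix.diagonal (Pi.single i 1 + Pi.single k 1) := by simp [hAdef, Ne.symm hik, Ne.symm hjk]
  have hAl : A l = Y := by simp [hAdef, Ne.symm hil, Ne.symm hjl, Ne.symm hkl]
  have hAp : ∀ p, p ∉ ({i, j, k, l} : Finset ι) → A p = Matrix.diagonal (Pi.single p 1) := by
    intro p hp
    rw [Finset.mem_insert, Finset.mem_insert, Finset.mem_insert, Finset.mem_singleton, not_or, not_or, not_or] at hp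
    simp [hAdef, hp.1, hp.2.1, hp.2.2.1, hp.2.2.2]
  have hA : ∀ p, h ∣ der (A p) h := by
    intro p
    by_cases h1 : p = i
    · rw [h1, hAi]
      apply hT
      simp [Pi.single_apply, hij, Ne.symm hij, hil, Ne.symm hil, hjl, Ne.symm hjl, hik, Ne.symm hik, hjk, Ne.symm hjk,
        hkl, Ne.symm hkl]
    · by_cases h2 : p = j
      · rw [h2, hAj]
        apply hT
        simp [Pi.single_apply, hij, Ne.symm hij, hil, Ne.symm hil, hjl, Ne.symm hjl, hik, Ne.symm hik, hjk, Ne.symm hjk,
          hkl, Ne.symm hkl]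
      · by_cases h3 : p = k
        · rw [h3, hAk]
          apply hT
          simp [Pi.single_apply, hij, Ne.symm hij, hil, Ne.symm hil, hjl, Ne.symm hjl, hik, Ne.symm hik, hjk, Ne.symm hjk,
            hkl, Ne.symm hkl]
        · by_cases h4 : p = l
          · rw [h4, hAl]
            exact hY
          · rw [hAp p (by simp [h1, h2, h3, h4])]
            apply hT
            rw [Pi.single_eq_of_ne (Ne.symm h1), Pi.single_eq_of_ne (Ne.symm h2), Pi.single_eq_of_ne (Ne.symm h3),
              Pi.single_eq_of_ne (Ne.symm h4)]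
  have hdet : (Matrix.of fun k i => fld (A k) i).det =
      (- (X j * X l * (X i * (C (Y k l) * X l) - X k * (C (Y i j) * X j)))) *
        ∏ p ∈ Finset.univ \ {i, j, k, l}, (X p : MvPolynomial ι ℝ) := by
    rw [det_fld ![i, j, k, l] ?_ A {i, j, k, l} ?_ hAp]
    · congr 1
      rw [← det4]
      congr 1
      ext1 a b
      fin_cases a <;> fin_cases b <;>
        simp [hAi, hAj, hAk, hAl, hYi, hYj, hYk, hYl, fld_diag, hij, Ne.symm hij, hil, Ne.symm hil,
          hjl, Ne.symm hjl, hik, Ne.symm hik, hjk, Ne.symm hjk, hkl, Ne.symm hkl]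
    · intro a b hab
      fin_cases a <;> fin_cases b <;> simp_all
    · intro p
      constructor
      · intro hp
        rw [Finset.mem_insert, Finset.mem_insert, Finset.mem_insert, Finset.mem_singleton] at hp
        rcases hp with rfl | rfl | rfl | rfl
        · exact ⟨0, rfl⟩
        · exact ⟨1, rfl⟩
        · exact ⟨2, rfl⟩
        · exact ⟨3, rfl⟩
      · rintro ⟨a, rfl⟩
        fin_cases a <;> simp
  obtain ⟨c, hc, hh⟩ := star hf A hA (by
    rw [hdet]
    intro h0
    have h1 := congrArg (MvPolynomial.eval (fun m => if m = i then (0 : ℝ) else 1)) h0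
    rw [map_mul, prod_eval _ i (by simp)] at h1
    simp [Ne.symm hij, Ne.symm hil, Ne.symm hik] at h1
    exact ha h1)
  refine ⟨c * (- Y k l), mul_ne_zero hc (neg_ne_zero.2 hb), Or.inr (Or.inr (Or.inr
    ⟨i, j, k, l, Y i j / Y k l, hij, hik, hil, hjk, hjl, hkl, div_ne_zero ha hb, ?_⟩))⟩
  rw [hh, hdet]
  have h3 : (C (Y i j) : MvPolynomial ι ℝ) = C (Y k l) * C (Y i j / Y k l) := by
    rw [← C_mul, mul_div_cancel₀ _ hb]
  rw [h3, C_mul, C_neg]
  ring

end typ

/-! ### eigenvalues -/

section eig

variable {ι : Type} [Fintype ι] [DecidableEq ι]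

/-- a column with only the diagonal entry -/
theorem ig_col (Y : Matrix ι ι ℝ) (hI : Ig Y) (a : ι) (h : ∀ b, b ≠ a → Y b a = 0) : Y a a = 0 := by
  have h1 := hI (Y a a : ℂ) (Pi.single a 1) (by
    intro h0
    have := congrFun h0 a
    simp at this) (by
    rw [Matrix.mulVec_single_one]
    ext b
    rw [Matrix.col_apply, Matrix.map_apply, Pi.smul_apply, smul_eq_mul]
    by_cases hb : b = a
    · subst hb
      simp
    · rw [h b hb, Pi.single_eq_of_ne hb]
      simp)
  simpa using h1

/-- a block of two coordinates -/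
theorem ig_blk (Y : Matrix ι ι ℝ) (hI : Ig Y) (i j : ι) (hij : i ≠ j) (hq : Y i j ≠ 0)
    (hc : ∀ m, m ≠ i → m ≠ j → Y m i = 0 ∧ Y m j = 0) :
    Y i i + Y j j = 0 ∧ 0 ≤ Y i i * Y j j - Y i j * Y j i := by
  have key : ∀ z : ℂ, z * z - (Y i i + Y j j : ℝ) * z + (Y i i * Y j j - Y i j * Y j i : ℝ) = 0 → z.re = 0 := by
    intro z hz
    apply hI z (fun m => if m = i then (Y i j : ℂ) else if m = j then z - (Y i i : ℂ) else 0)
    · intro h0
      have h1 := congrFun h0 i
      simp only [if_true, Pi.zero_apply] at h1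
      exact hq (Complex.ofReal_eq_zero.1 h1)
    · ext m
      rw [Matrix.mulVec, dotProduct, ← Finset.sum_subset (Finset.subset_univ {i, j}), Finset.sum_pair hij, Pi.smul_apply, smul_eq_mul]
      · simp only [Matrix.map_apply, if_true, if_neg (Ne.symm hij), Complex.coe_algebraMap]
        by_cases hmi : m = i
        · subst hmi
          rw [if_pos rfl]
          ring
        · rw [if_neg hmi]
          by_cases hmj : m = j
          · subst hmj
            rw [if_pos rfl]
            push_cast at hz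
            linear_combination -hz
          · rw [if_neg hmj, (hc m hmi hmj).1, (hc m hmi hmj).2]
            simp
      · intro b _ hb
        rw [Finset.mem_insert, Finset.mem_singleton, not_or] at hb
        rw [if_neg hb.1, if_neg hb.2, mul_zero]
  generalize Y i i + Y j j = tr at key ⊢
  generalize Y i i * Y j j - Y i j * Y j i = dt at key ⊢
  rcases le_or_gt 0 (tr ^ 2 - 4 * dt) with hD | hD
  · have hw := Real.mul_self_sqrt hD
    set w := Real.sqrt (tr ^ 2 - 4 * dt) with hwdef
    have h1 := key (((tr + w) / 2 : ℝ) : ℂ) (by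
      have : ((tr + w) / 2) * ((tr + w) / 2) - tr * ((tr + w) / 2) + dt = 0 := by nlinarith
      exact_mod_cast this)
    have h2 := key (((tr - w) / 2 : ℝ) : ℂ) (by
      have : ((tr - w) / 2) * ((tr - w) / 2) - tr * ((tr - w) / 2) + dt = 0 := by nlinarith
      exact_mod_cast this)
    rw [Complex.ofReal_re] at h1 h2
    have h3 : tr = 0 := by linarith
    have h4 : w = 0 := by linarith
    rw [h4, h3] at hw
    exact ⟨h3, by linarith⟩
  · have hw := Real.mul_self_sqrt (show 0 ≤ -(tr ^ 2 - 4 * dt) by linarith)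
    set w := Real.sqrt (-(tr ^ 2 - 4 * dt)) with hwdef
    have h1 := key ⟨tr / 2, w / 2⟩ (by
      apply Complex.ext
      · simp
        nlinarith
      · simp
        ring)
    have h3 : tr = 0 := by
      simp only at h1
      linarith
    refine ⟨h3, ?_⟩
    rw [h3] at hD
    linarith

end eig

/-! ### arrows -/

section arr

variable {ι : Type} [DecidableEq ι]

theorem arr_ne (i j i' j' : ι) (hij : i ≠ j) (h : ¬ (i' = i ∧ j' = j)) :
    ∃ d : ι → ℝ, d i - d j - (d i' - d j') ≠ 0 := by
  by_cases hi : i' = i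
  · subst hi
    have hj : j' ≠ j := fun h1 => h ⟨rfl, h1⟩
    refine ⟨Pi.single j 1, ?_⟩
    rw [Pi.single_eq_same, Pi.single_eq_of_ne hij, Pi.single_eq_of_ne hj]
    norm_num
  · refine ⟨Pi.single i 1, ?_⟩
    rw [Pi.single_eq_same, Pi.single_eq_of_ne (Ne.symm hij), Pi.single_eq_of_ne hi, Pi.single_apply]
    split_ifs <;> norm_num

/-- the block case -/
theorem arr_blk (i j a b : ι) (h : ∀ d : ι → ℝ, d i = d j → d a = d b) :
    a = b ∨ ((a = i ∨ a = j) ∧ (b = i ∨ b = j)) := by
  by_cases hab : a = b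
  · exact Or.inl hab
  right
  by_cases ha : a = i ∨ a = j
  · refine ⟨ha, ?_⟩
    have h1 := h (fun x => if x = i ∨ x = j then 1 else 0) (by simp)
    simp only [if_pos ha] at h1
    by_contra hb
    rw [if_neg hb] at h1
    norm_num at h1
  · exfalso
    rw [not_or] at ha
    have h1 := h (fun x => if x = a then 1 else 0) (by
      show (if i = a then (1 : ℝ) else 0) = if j = a then 1 else 0
      rw [if_neg (Ne.symm ha.1), if_neg (Ne.symm ha.2)])
    simp only [if_true, if_neg (Ne.symm hab)] at h1
    norm_num at h1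

/-- the same source -/
theorem arr_src (i j l a b : ι) (hij : i ≠ j) (hil : i ≠ l) (h : ∀ d : ι → ℝ, d j = d l → d a - d b = d i - d j) :
    a = i ∧ (b = j ∨ b = l) := by
  have h1 := h (fun x => if x = i then 1 else 0) (by
    show (if j = i then (1 : ℝ) else 0) = if l = i then 1 else 0
    rw [if_neg (Ne.symm hij), if_neg (Ne.symm hil)])
  have h2 := h (fun x => if x = j ∨ x = l then 1 else 0) (by simp)
  simp only [if_true, if_neg (Ne.symm hij)] at h1
  simp only [true_or, if_true, if_neg (not_or.2 ⟨hij, hil⟩)] at h2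
  constructor
  · by_contra ha
    rw [if_neg ha] at h1
    split_ifs at h1 <;> norm_num at h1
  · by_contra hb
    rw [if_neg hb] at h2
    split_ifs at h2 <;> norm_num at h2

/-- the same target -/
theorem arr_tgt (i j l a b : ι) (hij : i ≠ j) (hlj : l ≠ j) (h : ∀ d : ι → ℝ, d i = d l → d a - d b = d i - d j) :
    b = j ∧ (a = i ∨ a = l) := by
  have h1 := h (fun x => if x = j then 1 else 0) (by
    show (if i = j then (1 : ℝ) else 0) = if l = j then 1 else 0
    rw [if_neg hij, if_neg hlj])
  have h2 := h (fun x => if x = i ∨ x = l then 1 else 0) (by simp)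
  simp only [if_true, if_neg hij] at h1
  simp only [true_or, if_true, if_neg (not_or.2 ⟨Ne.symm hij, Ne.symm hlj⟩)] at h2
  constructor
  · by_contra hb
    rw [if_neg hb] at h1
    split_ifs at h1 <;> norm_num at h1
  · by_contra ha
    rw [if_neg ha] at h2
    split_ifs at h2 <;> norm_num at h2

/-- a chain -/
theorem arr_chn (i j l a b : ι) (hij : i ≠ j) (hil : i ≠ l) (hjl : j ≠ l)
    (h : ∀ d : ι → ℝ, d i - d j = d j - d l → d a - d b = d i - d j) :
    (a = i ∧ b = j) ∨ (a = j ∧ b = l) := by
  have hab : a ≠ b := by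
    rintro rfl
    have h1 := h (fun x => if x = i then 2 else if x = j then 1 else 0) (by
      simp [Ne.symm hij, Ne.symm hil, Ne.symm hjl]
      norm_num)
    simp only [if_true, if_neg (Ne.symm hij), sub_self] at h1
    norm_num at h1
  have h1 := h (fun x => if x = i then 2 else if x = j then 1 else if x = l then 0 else 7) (by
      simp [Ne.symm hij, Ne.symm hil, Ne.symm hjl]
      norm_num)
  have h2 := h (fun x => if x = i then 2 else if x = j then 1 else if x = l then 0 else if x = a then 7 else 20) (by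
      simp [Ne.symm hij, Ne.symm hil, Ne.symm hjl]
      norm_num)
  simp only [if_true, if_neg (Ne.symm hij)] at h1 h2
  by_cases ha1 : a = i
  · left
    refine ⟨ha1, ?_⟩
    by_contra hb
    rw [if_pos ha1, if_neg (fun h0 => hab (ha1.trans h0.symm)), if_neg hb] at h1
    split_ifs at h1 <;> norm_num at h1
  by_cases ha2 : a = j
  · right
    refine ⟨ha2, ?_⟩
    by_contra hb
    rw [if_neg ha1, if_pos ha2] at h1
    split_ifs at h1 <;> norm_num at h1
  exfalso
  rw [if_neg ha1, if_neg ha2] at h1 h2
  by_cases ha3 : a = l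
  · rw [if_pos ha3] at h1
    split_ifs at h1 <;> norm_num at h1
  · rw [if_neg ha3] at h1 h2
    split_ifs at h1 h2 <;> first | exact hab (by assumption) | exact hab (Eq.symm (by assumption)) | (norm_num at h1) | (norm_num at h2)

/-- four different coordinates -/
theorem arr_four (i j k l a b : ι) (hij : i ≠ j) (hik : i ≠ k) (hil : i ≠ l) (hjk : j ≠ k) (hjl : j ≠ l) (hkl : k ≠ l)
    (h : ∀ d : ι → ℝ, d i - d j = d k - d l → d a - d b = d i - d j) :
    (a = i ∧ b = j) ∨ (a = k ∧ b = l) := by
  have hab : a ≠ b := by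
    rintro rfl
    have h1 := h (fun x => if x = i ∨ x = k then 1 else 0) (by
      simp [Ne.symm hij, Ne.symm hil, Ne.symm hjl, hjk, Ne.symm hkl])
    simp [Ne.symm hij, hjk] at h1
  have h1 := h (fun x => if x = i ∨ x = k then 1 else 0) (by
    simp [Ne.symm hij, Ne.symm hil, hjk, Ne.symm hkl])
  have h2 := h (fun x => if x = i ∨ x = j then 1 else 0) (by
    simp [Ne.symm hik, Ne.symm hil, Ne.symm hjk, Ne.symm hjl])
  have h3 := h (fun x => if x = k ∨ x = l then 1 else 0) (by
    simp [hik, hil, hjk, hjl])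
  simp only [true_or, or_true, if_true, if_neg (not_or.2 ⟨Ne.symm hij, hjk⟩)] at h1
  simp only [true_or, or_true, if_true] at h2
  simp only [if_neg (not_or.2 ⟨hik, hil⟩), if_neg (not_or.2 ⟨hjk, hjl⟩)] at h3
  have ha : a = i ∨ a = k := by
    by_contra ha
    rw [if_neg ha] at h1
    split_ifs at h1 <;> norm_num at h1
  rcases ha with rfl | rfl
  · left
    refine ⟨rfl, ?_⟩
    by_contra hb
    rw [if_pos (Or.inl rfl), if_neg (not_or.2 ⟨Ne.symm hab, hb⟩)] at h2
    norm_num at h2
  · right
    refine ⟨rfl, ?_⟩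
    by_contra hb
    rw [if_pos (Or.inl rfl), if_neg (not_or.2 ⟨Ne.symm hab, hb⟩)] at h3
    norm_num at h3

end arr

end Onex

open Onex

/-- **One**: the linear free divisors with `N - 1` independent diagonal tangent fields -/
theorem thm_One (hRel : St_Rel) (hRk1 : St_Rk1) : St_One := by
  intro ι _ _ h Y hf hG hfr
  have hR := hRel ι h Y hG
  obtain ⟨hYt, -, -, hYI⟩ := hG
  by_cases hall : ∀ k, ∃ d, Y k = Matrix.diagonal d
  · apply typ0 hf
    intro d
    rw [hR]
    intro k i j i' j' h1 h2
    obtain ⟨d', hd'⟩ := hall k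
    have e : ∀ a b, Y k a b ≠ 0 → a = b := by
      intro a b hab
      by_contra hne
      rw [hd', Matrix.diagonal_apply_ne _ hne] at hab
      exact hab rfl
    rw [e i j h1, e i' j' h2, sub_self, sub_self]
  push Not at hall
  obtain ⟨k, hk⟩ := hall
  have hI := (hYI k).resolve_left (by rintro ⟨d, hd⟩; exact hk d hd)
  have hT : h ∣ der (Y k) h := hYt k
  have hrel : ∀ d ∈ Tor h, ∀ i j i' j', Y k i j ≠ 0 → Y k i' j' ≠ 0 → d i - d j = d i' - d j' :=
    fun d hd i j i' j' => (hR d).1 hd k i j i' j'
  clear hR hYt hYI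
  generalize Y k = Z at *
  obtain ⟨i, j, hij, hZ⟩ : ∃ i j, i ≠ j ∧ Z i j ≠ 0 := by
    by_contra hcon
    push Not at hcon
    apply hk (fun i => Z i i)
    ext i j
    by_cases hij : i = j
    · subst hij
      rw [Matrix.diagonal_apply_eq]
    · rw [hcon i j hij, Matrix.diagonal_apply_ne _ hij]
  by_cases hone : ∀ a b, Z a b ≠ 0 → a = i ∧ b = j
  · exfalso
    refine hRk1 ι h hf (Pi.single i 1) (Pi.single j (Z i j)) ?_ ?_ ?_ ?_
    · intro h0
      have := congrFun h0 i
      rw [Pi.single_eq_same] at this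
      exact one_ne_zero this
    · intro h0
      have := congrFun h0 j
      rw [Pi.single_eq_same] at this
      exact hZ this
    · apply Finset.sum_eq_zero
      intro m _
      by_cases hm : m = i
      · subst hm
        rw [Pi.single_eq_of_ne hij, mul_zero]
      · rw [Pi.single_eq_of_ne hm, zero_mul]
    · have h1 : Matrix.vecMulVec (Pi.single i 1) (Pi.single j (Z i j)) = Z := by
        ext a b
        rw [Matrix.vecMulVec_apply]
        by_cases hab : Z a b = 0
        · rw [hab]
          by_cases ha : a = i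
          · by_cases hb : b = j
            · subst ha hb
              exact absurd hab hZ
            · rw [Pi.single_eq_of_ne hb, mul_zero]
          · rw [Pi.single_eq_of_ne ha, zero_mul]
        · obtain ⟨rfl, rfl⟩ := hone a b hab
          rw [Pi.single_eq_same, Pi.single_eq_same, one_mul]
      rw [h1]
      exact hT
  push Not at hone
  obtain ⟨i', j', hZ', hne⟩ := hone
  have hne' : ¬ (i' = i ∧ j' = j) := fun h => hne h.1 h.2
  obtain ⟨d0, hd0⟩ := arr_ne i j i' j' hij hne'
  obtain ⟨φ, hφ⟩ : ∃ φ : (ι → ℝ) →ₗ[ℝ] ℝ, ∀ d, φ d = d i - d j - (d i' - d j') :=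
    ⟨{ toFun := fun d => d i - d j - (d i' - d j')
       map_add' := fun x y => by simp only [Pi.add_apply]; ring
       map_smul' := fun c x => by simp only [Pi.smul_apply, smul_eq_mul, RingHom.id_apply]; ring }, fun d => rfl⟩
  have hTor : ∀ d : ι → ℝ, d i - d j = d i' - d j' → d ∈ Tor h := by
    intro d hd
    refine tor_eq (Tor h) hfr φ d0 (by rw [hφ]; exact hd0) ?_ d ?_
    · intro e he
      have h1 := hrel e he i j i' j' hZ hZ'
      rw [hφ]
      linarith
    · rw [hφ]
      linarith
  have hA : ∀ a b, Z a b ≠ 0 → ∀ d : ι → ℝ, d i - d j = d i' - d j' → d a - d b = d i - d j :=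
    fun a b hab d hd => hrel d (hTor d hd) a b i j hab hZ
  by_cases hB1 : i' = j' ∨ (i' = j ∧ j' = i)
  · -- the block case
    have e1 : ∀ d : ι → ℝ, d i = d j → d i - d j = d i' - d j' := by
      intro d hd
      rcases hB1 with h1 | ⟨h1, h2⟩
      · rw [h1, hd, sub_self, sub_self]
      · rw [h1, h2, hd]
    have e2 : ∀ d : ι → ℝ, d i = d j → d ∈ Tor h := fun d hd => hTor d (e1 d hd)
    have e3 : ∀ a b, Z a b ≠ 0 → a = b ∨ ((a = i ∨ a = j) ∧ (b = i ∨ b = j)) := fun a b hab =>
      arr_blk i j a b fun d hd => by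
        have h1 := hA a b hab d (e1 d hd)
        rw [hd, sub_self] at h1
        linarith
    have e4 : ∀ a b, a ≠ b → ((a ≠ i ∧ a ≠ j) ∨ (b ≠ i ∧ b ≠ j)) → Z a b = 0 := by
      intro a b hab hor
      by_contra hcon
      rcases e3 a b hcon with h1 | ⟨h1, h2⟩
      · exact hab h1
      · rcases hor with h3 | h3
        · rcases h1 with h1 | h1
          · exact h3.1 h1
          · exact h3.2 h1
        · rcases h2 with h2 | h2
          · exact h3.1 h2
          · exact h3.2 h2
    have hi : ∀ m, m ≠ i → m ≠ j → Z i m = 0 := fun m h1 h2 => e4 i m (Ne.symm h1) (Or.inr ⟨h1, h2⟩)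
    have hj : ∀ m, m ≠ i → m ≠ j → Z j m = 0 := fun m h1 h2 => e4 j m (Ne.symm h2) (Or.inr ⟨h1, h2⟩)
    have hc : ∀ m, m ≠ i → m ≠ j → Z m i = 0 ∧ Z m j = 0 := fun m h1 h2 =>
      ⟨e4 m i h1 (Or.inl ⟨h1, h2⟩), e4 m j h2 (Or.inl ⟨h1, h2⟩)⟩
    have hd : ∀ m, m ≠ i → m ≠ j → ∀ m', Z m m' = 0 := by
      intro m h1 h2 m'
      by_cases hm : m = m'
      · subst hm
        exact ig_col Z hI m fun b hb => e4 b m hb (Or.inr ⟨h1, h2⟩)
      · exact e4 m m' hm (Or.inl ⟨h1, h2⟩)
    obtain ⟨h1, h2⟩ := ig_blk Z hI i j hij hZ hc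
    rcases h2.lt_or_eq with h3 | h3
    · exact typ1 hf Z hT i j hij e2 hZ hi hj h1 h3
    · exfalso
      refine hRk1 ι h hf (fun m => if m = i then 1 else if m = j then - (Z i i / Z i j) else 0) (fun m => Z i m) ?_ ?_ ?_ ?_
      · intro h0
        have := congrFun h0 i
        simp at this
      · intro h0
        exact hZ (congrFun h0 j)
      · rw [← Finset.sum_subset (Finset.subset_univ {i, j}), Finset.sum_pair hij]
        · rw [if_pos rfl, if_neg (Ne.symm hij), if_pos rfl]
          field_simp
          ring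
        · intro b _ hb
          rw [Finset.mem_insert, Finset.mem_singleton, not_or] at hb
          rw [if_neg hb.1, if_neg hb.2, zero_mul]
      · have h4 : Matrix.vecMulVec (fun m => if m = i then 1 else if m = j then - (Z i i / Z i j) else 0) (fun m => Z i m) = Z := by
          ext a b
          rw [Matrix.vecMulVec_apply]
          by_cases ha : a = i
          · subst ha
            rw [if_pos rfl, one_mul]
          · rw [if_neg ha]
            by_cases ha2 : a = j
            · subst ha2
              rw [if_pos rfl]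
              have h5 : Z a a = - Z i i := by linarith
              by_cases hb : b = i
              · subst hb
                field_simp
                rw [h5] at h3
                linarith
              · by_cases hb2 : b = a
                · subst hb2
                  rw [h5]
                  field_simp
                · rw [hi b hb hb2, hj b hb hb2, mul_zero]
            · rw [if_neg ha2, hd a ha ha2, zero_mul]
        rw [h4]
        exact hT
  · rw [not_or] at hB1
    obtain ⟨hB1, hB2⟩ := hB1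
    by_cases c1 : i' = i
    · -- the same source
      exfalso
      subst c1
      have hjj : j' ≠ j := fun h0 => hne' ⟨rfl, h0⟩
      have e3 : ∀ a b, Z a b ≠ 0 → a = i' ∧ (b = j ∨ b = j') := fun a b hab =>
        arr_src i' j j' a b hij hB1 fun d hd => hA a b hab d (by rw [hd])
      refine hRk1 ι h hf (Pi.single i' 1) (fun m => Z i' m) ?_ ?_ ?_ ?_
      · intro h0
        have := congrFun h0 i'
        rw [Pi.single_eq_same] at this
        exact one_ne_zero this
      · intro h0
        exact hZ (congrFun h0 j)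
      · apply Finset.sum_eq_zero
        intro m _
        by_cases hm : m = i'
        · subst hm
          have : Z m m = 0 := by
            by_contra hcon
            rcases (e3 m m hcon).2 with h1 | h1
            · exact hij h1
            · exact hB1 h1
          rw [this, mul_zero]
        · rw [Pi.single_eq_of_ne hm, zero_mul]
      · have h1 : Matrix.vecMulVec (Pi.single i' 1) (fun m => Z i' m) = Z := by
          ext a b
          rw [Matrix.vecMulVec_apply]
          by_cases ha : a = i'
          · subst ha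
            rw [Pi.single_eq_same, one_mul]
          · rw [Pi.single_eq_of_ne ha, zero_mul]
            by_contra hcon
            exact ha (e3 a b (Ne.symm hcon)).1
        rw [h1]
        exact hT
    by_cases c2 : j' = j
    · -- the same target
      exfalso
      subst c2
      have e3 : ∀ a b, Z a b ≠ 0 → b = j' ∧ (a = i ∨ a = i') := fun a b hab =>
        arr_tgt i j' i' a b hij hB1 fun d hd => hA a b hab d (by rw [hd])
      refine hRk1 ι h hf (fun m => Z m j') (Pi.single j' 1) ?_ ?_ ?_ ?_
      · intro h0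
        exact hZ (congrFun h0 i)
      · intro h0
        have := congrFun h0 j'
        rw [Pi.single_eq_same] at this
        exact one_ne_zero this
      · apply Finset.sum_eq_zero
        intro m _
        by_cases hm : m = j'
        · subst hm
          have : Z m m = 0 := by
            by_contra hcon
            rcases (e3 m m hcon).2 with h1 | h1
            · exact hij h1.symm
            · exact hB1 h1.symm
          rw [this, zero_mul]
        · rw [Pi.single_eq_of_ne hm, mul_zero]
      · have h1 : Matrix.vecMulVec (fun m => Z m j') (Pi.single j' 1) = Z := by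
          ext a b
          rw [Matrix.vecMulVec_apply]
          by_cases hb : b = j'
          · subst hb
            rw [Pi.single_eq_same, mul_one]
          · rw [Pi.single_eq_of_ne hb, mul_zero]
            by_contra hcon
            exact hb (e3 a b (Ne.symm hcon)).1
        rw [h1]
        exact hT
    by_cases c3 : i' = j
    · -- a chain `i, j, j'`
      subst c3
      have hij' : i ≠ j' := fun h0 => hB2 ⟨rfl, h0.symm⟩
      exact typ2 hf Z hT i i' j' hij hij' hB1 hTor hZ hZ' fun a b hab =>
        arr_chn i i' j' a b hij hij' hB1 fun d hd => hA a b hab d hd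
    by_cases c4 : j' = i
    · -- a chain `i', i, j`
      subst c4
      have h5 : ∀ d : ι → ℝ, d i' - d j' = d j' - d j → d ∈ Tor h := fun d hd => hTor d hd.symm
      exact typ2 hf Z hT i' j' j hB1 c3 hij h5 hZ' hZ fun a b hab =>
        arr_chn i' j' j a b hB1 c3 hij fun d hd => by
          rw [hA a b hab d hd.symm, hd]
    · exact typ3 hf Z hT i j i' j' hij (Ne.symm c1) (Ne.symm c4) (Ne.symm c3) (Ne.symm c2) hB1 hTor hZ hZ' fun a b hab =>
        arr_four i j i' j' a b hij (Ne.symm c1) (Ne.symm c4) (Ne.symm c3) (Ne.symm c2) hB1 fun d hd => hA a b hab d hd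

end Pool.Agent.LFS
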