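import Pool.Agent.LFS.St
import Pool.Agent.LFS.Leq

/-!
# LFS, module P1: decomposition into at least `3m - 2n` summands (helper69)
-/

set_option autoImplicit false

noncomputable section

open scoped Polynomial
open MvPolynomial Pool.Agent.Helper28.Nij Pool.Agent.LFD

namespace Pool.Agent.LFS

namespace P1x

/-- The number of irreducible factors is at most the degree. -/
theorem card_le {ι : Type} (m : Multiset (MvPolynomial ι ℝ)) (hm : ∀ x ∈ m, Irreducible x) :
    Multiset.card m ≤ m.prod.totalDegree ∧ m.prod ≠ 0 := by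
  induction m using Multiset.induction_on with
  | empty => simp
  | cons x m ih =>
    obtain ⟨h1, h2⟩ := ih fun y hy => hm y (Multiset.mem_cons_of_mem hy)
    have hx := hm x (Multiset.mem_cons_self x m)
    rw [Multiset.prod_cons, Multiset.card_cons]
    refine ⟨?_, mul_ne_zero hx.ne_zero h2⟩
    rw [totalDegree_mul_of_isDomain hx.ne_zero h2]
    have h3 : x.totalDegree ≠ 0 := by
      intro h
      have h4 := totalDegree_eq_zero_iff_eq_C.1 h
      apply hx.not_isUnit
      rw [h4]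
      refine IsUnit.map C (isUnit_iff_ne_zero.2 ?_)
      intro h5
      rw [h5, map_zero] at h4
      exact hx.ne_zero h4
    omega

theorem nfp_le {ι : Type} (f : MvPolynomial ι ℝ) (hf : f ≠ 0) : Leqx.nfp f ≤ f.totalDegree := by
  obtain ⟨u, hu⟩ := UniqueFactorizationMonoid.factors_prod hf
  obtain ⟨h1, h2⟩ := card_le (UniqueFactorizationMonoid.factors f)
    fun x hx => UniqueFactorizationMonoid.irreducible_of_factor x hx
  have h3 := totalDegree_mul_of_isDomain h2 u.isUnit.ne_zero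
  rw [hu] at h3
  unfold Leqx.nfp
  omega

theorem nf_le {n : ℕ} (σ : Fin n → MvPolynomial (Fin n) ℝ) (hσ : Admissible σ) : nf σ ≤ n := by
  have h1 : (PP σ).IsHomogeneous n := by
    refine IsHomogeneous.add ?_ (IsHomogeneous.sum _ _ _ fun k _ => ?_)
    · have := (isHomogeneous_X ℝ (none : Option (Fin n))).pow n
      rwa [one_mul] at this
    · have h1 := ((hσ.homog k).rename_isHomogeneous (f := (some : Fin n → Option (Fin n)))).mul
        ((isHomogeneous_X ℝ (none : Option (Fin n))).pow (n - 1 - (k : ℕ)))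
      have h2 : (k : ℕ) + 1 + 1 * (n - 1 - (k : ℕ)) = n := by
        have := k.2
        omega
      rwa [h2] at h1
  exact (nfp_le _ (Leqx.PP_ne σ)).trans h1.totalDegree_le

/-- the inclusion of the variables of one group -/
theorem sub_inc {a n : ℕ} (f : Fin a → Fin n) (A : Matrix (Fin n) (Fin n) ℝ)
    (A₁ : Matrix (Fin a) (Fin a) ℝ)
    (hA : ∀ i, fld A (f i) = rename f (fld A₁ i)) (p : MvPolynomial (Option (Fin a)) ℝ) :
    sub (Injx.blk A) (rename (Option.map f) p) = rename (Option.map f) (sub (Injx.blk A₁) p) := by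
  unfold sub
  rw [aeval_rename]
  have h : ((fun i => fld (Injx.blk A) i) ∘ Option.map f) =
      fun i => rename (Option.map f) (fld (Injx.blk A₁) i) := by
    funext i
    cases i with
    | none =>
      have h1 := Injx.sub_none A
      have h2 := Injx.sub_none A₁
      unfold sub at h1 h2
      rw [aeval_X] at h1 h2
      show fld (Injx.blk A) none = rename (Option.map f) (fld (Injx.blk A₁) none)
      rw [h1, h2, rename_X]
      rfl
    | some i =>
      show fld (Injx.blk A) (some (f i)) = rename (Option.map f) (fld (Injx.blk A₁) (some i))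
      rw [Injx.fld_some, Injx.fld_some, hA, rename_rename, rename_rename]
      rfl
  rw [h]
  exact (comp_aeval_apply (fun i => fld (Injx.blk A₁) i) (rename (Option.map f)) p).symm

section

variable {a b n : ℕ}

/-- the block diagonal matrix -/
def dia (e : Fin a ⊕ Fin b ≃ Fin n) (A₁ : Matrix (Fin a) (Fin a) ℝ)
    (A₂ : Matrix (Fin b) (Fin b) ℝ) : Matrix (Fin n) (Fin n) ℝ :=
  (Matrix.fromBlocks A₁ 0 0 A₂).submatrix e.symm e.symm

theorem dia_det (e : Fin a ⊕ Fin b ≃ Fin n) (A₁ : Matrix (Fin a) (Fin a) ℝ)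
    (A₂ : Matrix (Fin b) (Fin b) ℝ) : (dia e A₁ A₂).det = A₁.det * A₂.det := by
  unfold dia
  rw [Matrix.det_submatrix_equiv_self, Matrix.det_fromBlocks_zero₁₂]

theorem fld_dia (e : Fin a ⊕ Fin b ≃ Fin n) (A₁ : Matrix (Fin a) (Fin a) ℝ)
    (A₂ : Matrix (Fin b) (Fin b) ℝ) (i : Fin a ⊕ Fin b) :
    fld (dia e A₁ A₂) (e i) = ∑ j, C (Matrix.fromBlocks A₁ 0 0 A₂ i j) * X (e j) := by
  unfold fld dia
  refine (Fintype.sum_equiv e _ _ fun j => ?_).symm
  rw [Matrix.submatrix_apply, e.symm_apply_apply, e.symm_apply_apply]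

theorem fld_inl (e : Fin a ⊕ Fin b ≃ Fin n) (A₁ : Matrix (Fin a) (Fin a) ℝ)
    (A₂ : Matrix (Fin b) (Fin b) ℝ) (i : Fin a) :
    fld (dia e A₁ A₂) (e (Sum.inl i)) = rename (fun i => e (Sum.inl i)) (fld A₁ i) := by
  rw [fld_dia, Fintype.sum_sum_type]
  have h1 : ∑ x : Fin b, C (Matrix.fromBlocks A₁ 0 0 A₂ (Sum.inl i) (Sum.inr x)) *
      (X (e (Sum.inr x)) : MvPolynomial (Fin n) ℝ) = 0 := by
    refine Finset.sum_eq_zero fun x _ => ?_
    rw [Matrix.fromBlocks_apply₁₂, Matrix.zero_apply, map_zero, zero_mul]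
  rw [h1, add_zero]
  unfold fld
  rw [map_sum]
  refine Finset.sum_congr rfl fun x _ => ?_
  rw [Matrix.fromBlocks_apply₁₁, map_mul, rename_C, rename_X]

theorem fld_inr (e : Fin a ⊕ Fin b ≃ Fin n) (A₁ : Matrix (Fin a) (Fin a) ℝ)
    (A₂ : Matrix (Fin b) (Fin b) ℝ) (i : Fin b) :
    fld (dia e A₁ A₂) (e (Sum.inr i)) = rename (fun i => e (Sum.inr i)) (fld A₂ i) := by
  rw [fld_dia, Fintype.sum_sum_type]
  have h1 : ∑ x : Fin a, C (Matrix.fromBlocks A₁ 0 0 A₂ (Sum.inr i) (Sum.inl x)) *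
      (X (e (Sum.inl x)) : MvPolynomial (Fin n) ℝ) = 0 := by
    refine Finset.sum_eq_zero fun x _ => ?_
    rw [Matrix.fromBlocks_apply₂₁, Matrix.zero_apply, map_zero, zero_mul]
  rw [h1, zero_add]
  unfold fld
  rw [map_sum]
  refine Finset.sum_congr rfl fun x _ => ?_
  rw [Matrix.fromBlocks_apply₂₂, map_mul, rename_C, rename_X]

/-- changes of the variables of the two groups -/
theorem join (e : Fin a ⊕ Fin b ≃ Fin n) (τ : Fin n → MvPolynomial (Fin n) ℝ)
    (α τ₁ : Fin a → MvPolynomial (Fin a) ℝ) (β τ₂ : Fin b → MvPolynomial (Fin b) ℝ)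
    (h : PP τ = rename (Option.map fun i => e (Sum.inl i)) (PP α) *
      rename (Option.map fun i => e (Sum.inr i)) (PP β))
    (h1 : LinEquiv α τ₁) (h2 : LinEquiv β τ₂) :
    ∃ τ' : Fin n → MvPolynomial (Fin n) ℝ, LinEquiv τ τ' ∧
      PP τ' = rename (Option.map fun i => e (Sum.inl i)) (PP τ₁) *
        rename (Option.map fun i => e (Sum.inr i)) (PP τ₂) := by
  obtain ⟨A₁, hA₁, h1⟩ := (Leqx.PP_iff α τ₁).1 h1
  obtain ⟨A₂, hA₂, h2⟩ := (Leqx.PP_iff β τ₂).1 h2
  refine ⟨fun k => sub (dia e A₁ A₂) (τ k), ?_, ?_⟩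
  · rw [Leqx.def_sub]
    exact ⟨dia e A₁ A₂, by rw [dia_det]; exact hA₁.mul hA₂, fun i => rfl⟩
  · rw [← Injx.sub_PP, h, Facx.sub_mul,
      sub_inc (fun i => e (Sum.inl i)) _ A₁ (fld_inl e A₁ A₂),
      sub_inc (fun i => e (Sum.inr i)) _ A₂ (fld_inr e A₁ A₂), h1, h2]

end

theorem map_inj {κ μ : Type} (f : κ → μ) (hf : Function.Injective f) :
    Function.Injective (Option.map f) := Option.map_injective hf

end P1x

open P1x

/-- **P1** Decomposition of a collection with many irreducible factors. -/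
theorem thm_P1 (hTwo : St_Two) : St_P1 := by
  intro n
  induction n using Nat.strong_induction_on with
  | _ n ih =>
  intro σ hσ
  have hle := nf_le σ hσ
  rcases Nat.eq_zero_or_pos n with h0 | hn
  · subst h0
    refine ⟨Empty, inferInstance, fun j => j.elim, fun j => j.elim, fun j => j.elim, ?_, ?_, ?_⟩
    · refine ⟨⟨fun p => p.1.elim, fun i => i.elim0, fun p => p.1.elim, fun i => i.elim0⟩, σ,
        Leqx.refl σ, ?_⟩
      rw [Finset.univ_eq_empty, Finset.prod_empty]
      unfold PP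
      simp
    · omega
    · omega
  by_cases h3 : 3 * nf σ ≤ 2 * n + 1
  · refine ⟨Unit, inferInstance, fun _ => n, fun _ => σ, fun _ => ⟨hn, hσ⟩, ?_, ?_, ?_⟩
    · refine ⟨⟨fun p => p.2, fun i => ⟨(), i⟩, fun p => rfl, fun i => rfl⟩, σ, Leqx.refl σ, ?_⟩
      rw [Finset.univ_unique, Finset.prod_singleton]
      have h : (Option.map fun i : Fin n => (i : Fin n)) = id := by
        funext i
        cases i <;> rfl
      show PP σ = rename (Option.map fun i : Fin n => (i : Fin n)) (PP σ)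
      rw [h, rename_id]
      rfl
    · rw [Fintype.card_unit]
      exact h3
    · by_cases h1 : n = 1
      · have h2 : Nat.card {j : Unit // n = 1} = 1 := by
          have : Unique {j : Unit // n = 1} :=
            ⟨⟨⟨(), h1⟩⟩, fun x => Subtype.ext (Subsingleton.elim _ _)⟩
          exact Nat.card_unique
        rw [h2]
        omega
      · omega
  · obtain ⟨a, b, e, τ, α₀, β₀, ha, hb, hα, hβ, hστ, hτ⟩ := hTwo n σ hσ (by omega)
    have hab : a + b = n := by
      have := Fintype.card_congr e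
      simpa using this
    obtain ⟨J₁, hJ₁, s₁, α₁, hs₁, ⟨e₁, τ₁, hl₁, hp₁⟩, h31, h41⟩ := ih a (by omega) α₀ hα
    obtain ⟨J₂, hJ₂, s₂, α₂, hs₂, ⟨e₂, τ₂, hl₂, hp₂⟩, h32, h42⟩ := ih b (by omega) β₀ hβ
    have hnf : nf σ = nf α₀ + nf β₀ := by
      have hi1 : Function.Injective fun i : Fin a => e (Sum.inl i) :=
        e.injective.comp Sum.inl_injective
      have hi2 : Function.Injective fun i : Fin b => e (Sum.inr i) :=
        e.injective.comp Sum.inr_injective
      rw [← Leqx.nf_linEquiv hστ, Leqx.nf_eq, hτ, Leqx.nfp_mul, Leqx.nfp_rename _ (map_inj _ hi1) _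
        (Leqx.PP_ne _), Leqx.nfp_rename _ (map_inj _ hi2) _ (Leqx.PP_ne _), ← Leqx.nf_eq,
        ← Leqx.nf_eq]
      · exact (map_ne_zero_iff _ (rename_injective _ (map_inj _ hi1))).2 (Leqx.PP_ne _)
      · exact (map_ne_zero_iff _ (rename_injective _ (map_inj _ hi2))).2 (Leqx.PP_ne _)
    obtain ⟨τ', hττ', hτ'⟩ := join e τ α₀ τ₁ β₀ τ₂ hτ hl₁ hl₂
    let s : J₁ ⊕ J₂ → ℕ := Sum.elim s₁ s₂
    let α : ∀ j : J₁ ⊕ J₂, Fin (s j) → MvPolynomial (Fin (s j)) ℝ := fun j =>
      match j with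
      | Sum.inl j => α₁ j
      | Sum.inr j => α₂ j
    let E : (Σ j : J₁ ⊕ J₂, Fin (s j)) ≃ Fin n :=
      (Equiv.sumSigmaDistrib fun j => Fin (s j)).trans ((Equiv.sumCongr e₁ e₂).trans e)
    refine ⟨J₁ ⊕ J₂, inferInstance, s, α, ?_, ⟨E, τ', Leqx.trans hστ hττ', ?_⟩, ?_, ?_⟩
    · rintro (j | j)
      · exact hs₁ j
      · exact hs₂ j
    · rw [hτ', hp₁, hp₂, map_prod, map_prod, Fintype.prod_sum_type]
      congr 1
      · refine Finset.prod_congr rfl fun j _ => ?_
        rw [rename_rename]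
        congr 2
        funext o
        cases o <;> rfl
      · refine Finset.prod_congr rfl fun j _ => ?_
        rw [rename_rename]
        congr 2
        funext o
        cases o <;> rfl
    · rw [Fintype.card_sum]
      omega
    · have h5 : Nat.card {j : J₁ ⊕ J₂ // s j = 1} =
          Nat.card {j : J₁ // s₁ j = 1} + Nat.card {j : J₂ // s₂ j = 1} := by
        rw [← Nat.card_sum]
        exact Nat.card_congr Equiv.subtypeSum
      rw [h5]
      omega

end Pool.Agent.LFS
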