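import Pool.Agent.LFS.Fac

/-!
# Many factors: two summands (helper9)
-/

set_option autoImplicit false

noncomputable section

namespace Pool.Agent.LFS

open scoped Polynomial
open MvPolynomial Pool.Agent.Helper28.Nij Pool.Agent.LFD

namespace Twox

/-- The common beginning of `Two` and `P2`: coordinates and the number of diagonal tangent fields. -/
theorem start (hTrs : St_Trs) (hChr : St_Chr) {n : ℕ} (σ : Fin n → MvPolynomial (Fin n) ℝ)
    (hσ : Admissible σ) : ∃ B : Matrix (Option (Fin n)) (Option (Fin n)) ℝ, IsUnit B.det ∧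
      (∃ c : ℝ, c ≠ 0 ∧ sub B (X none) = C c * X none) ∧ LinFree (sub B (X none * PP σ)) ∧
      Mx (sub B (X none * PP σ)) ∧
      nf σ + 1 ≤ Module.finrank ℝ (Tor (sub B (X none * PP σ))) := by
  have hL : LinFree (X none * PP σ) := (all_MainA n σ).1 hσ
  obtain ⟨B, hB, hBt, hMx⟩ := hTrs _ (X none * PP σ) hL none (dvd_mul_right _ _)
  have hL' : LinFree (sub B (X none * PP σ)) := thm_Lin.1 _ _ B hB hL
  have h0 : PP σ ≠ 0 := by
    intro h
    have h1 := hL.1
    rw [h, mul_zero] at h1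
    exact not_squarefree_zero h1
  obtain ⟨f, hf1, hf2⟩ := Facx.fam σ h0
  refine ⟨B, hB, hBt, hL', hMx, ?_⟩
  refine hChr _ _ hL' hMx (nf σ + 1) (fun i => sub B (f i)) (fun i => Facx.irr_sub B hB _ (hf1 i)) ?_
  rw [← Facx.sub_prod]
  exact Facx.sub_dvd B _ _ hf2

end Twox

theorem thm_Two (hTrs : St_Trs) (hChr : St_Chr) (hBas : St_Bas) (hRel : St_Rel) (hCnt : St_Cnt)
    (hSpl : St_Spl) (hDir : St_Dir) : St_Two := by
  intro n σ hσ hnf
  obtain ⟨B, hB, ⟨c, hc, hBt⟩, hL, hMx, hfr⟩ := Twox.start hTrs hChr σ hσ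
  obtain ⟨Y, hY⟩ := hBas _ _ hL hMx
  have hR := hRel _ _ Y hY
  obtain ⟨S, hS1, hS2, ⟨j, hj1, hj2⟩, hS4⟩ := hCnt (Option (Fin n))
    {g | ∃ k i j i' j', Y k i j ≠ 0 ∧ Y k i' j' ≠ 0 ∧ g = rel i j i' j'}
    (Tor (sub B (X none * PP σ)))
    (by
      rintro g ⟨k, i, j, i', j', -, -, rfl⟩
      exact ⟨i, j, i', j', rfl⟩)
    (by
      intro d
      have key : ∀ i j i' j' : Option (Fin n), ∑ l, d l * rel i j i' j' l = d i - d j - (d i' - d j') := by
        intro i j i' j'
        simp only [rel, Pi.sub_apply, mul_sub, Finset.sum_sub_distrib]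
        simp [Pi.single_apply]
      rw [hR d]
      constructor
      · rintro h g ⟨k, i, j, i', j', h1, h2, rfl⟩
        rw [key, h k i j i' j' h1 h2, sub_self]
      · intro h k i j i' j' h1 h2
        have := h _ ⟨k, i, j, i', j', h1, h2, rfl⟩
        rw [key] at this
        linarith)
    (by
      rw [Fintype.card_option, Fintype.card_fin]
      omega) none
  have hCl : Cl Y S := by
    intro k i j i' j' h1 h2
    exact hS4 _ ⟨k, i, j, i', j', h1, h2, rfl⟩
  obtain ⟨h₁, h₂, hh1, hh2, hh3⟩ := hSpl _ _ Y S hL hY hCl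
  refine hDir n σ B c S h₁ h₂ hσ hB hc hBt hS1 hS2 ?_ hh1 hh2 hh3
  cases j with
  | none => exact absurd rfl hj1
  | some i => exact ⟨i, hj2⟩

end Pool.Agent.LFS
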