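import Pool.Agent.LFS.Leq
import Pool.Agent.LFS.Two

/-!
# Many factors: the list (helper9)
-/

set_option autoImplicit false

noncomputable section

namespace Pool.Agent.LFS

open scoped Polynomial
open MvPolynomial Pool.Agent.Helper28.Nij Pool.Agent.LFD

namespace P2x

theorem eval_core (n : ℕ) (k : Fin 8) (hk : dm k ≤ n) :
    MvPolynomial.eval (fun i => Option.elim i 1 fun _ => 0) (core n k) = 1 := by
  have hv : ∀ i : ℕ, MvPolynomial.eval (fun i : Option (Fin n) => Option.elim i (1 : ℝ) fun _ => 0)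
      (vx n i) = 0 := by
    intro i
    unfold vx
    split_ifs with h
    · rw [eval_X]; rfl
    · rw [map_zero]
  have ht : MvPolynomial.eval (fun i : Option (Fin n) => Option.elim i (1 : ℝ) fun _ => 0)
      (X none : MvPolynomial (Option (Fin n)) ℝ) = 1 := by
    rw [eval_X]; rfl
  fin_cases k <;> simp [core, hv, ht]

theorem eval_NF (n : ℕ) (k : Fin 8) (hk : dm k ≤ n) :
    MvPolynomial.eval (fun i => Option.elim i 1 fun _ => 0) (NF n k) = 1 := by
  unfold NF
  rw [map_mul, eval_core n k hk, one_mul, map_prod]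
  refine Finset.prod_eq_one fun i hi => ?_
  rw [map_add, eval_X]
  unfold vx
  split_ifs with h
  · rw [eval_X]; simp
  · rw [map_zero]; simp

end P2x

theorem thm_P2 (hTrs : St_Trs) (hChr : St_Chr) (hBas : St_Bas) (hOne : St_One) (hLft : St_Lft)
    (hNrm : St_Nrm) (hNfa : St_Nfa) (hUnq : St_Unq) : St_P2 := by
  intro n σ
  constructor
  · rintro ⟨hσ, hn⟩
    obtain ⟨B, hB, ⟨c, hc, hBt⟩, hL, hMx, hfr⟩ := Twox.start hTrs hChr σ hσ
    obtain ⟨Y, hY⟩ := hBas _ _ hL hMx
    have hT := hOne _ _ Y hL hY (by rw [Fintype.card_option, Fintype.card_fin]; omega)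
    set e : Option (Fin n) → ℝ := fun i => Option.elim i 1 fun _ => 0 with he
    have hBq : B.mulVec (B⁻¹.mulVec e) = e := by
      rw [Matrix.mulVec_mulVec, Matrix.mul_nonsing_inv B hB, Matrix.one_mulVec]
    have hev : MvPolynomial.eval (B⁻¹.mulVec e) (sub B (X none * PP σ)) ≠ 0 := by
      rw [Semx.eval_subst, hBq, map_mul, eval_X, Leqx.eval_e_PP σ hσ]
      simp [he]
    have hdv : X none ∣ sub B (X none * PP σ) := by
      have h1 := Facx.sub_dvd B _ _ (dvd_mul_right (X none) (PP σ))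
      rw [hBt] at h1
      exact (dvd_mul_left _ _).trans h1
    obtain ⟨k, Φ, hk, hΦ, hq, ⟨c1, h1⟩, ⟨c2, h2⟩⟩ := hNrm n _ (B⁻¹.mulVec e) hT hdv hev
    have hE : (B * Φ).mulVec (Pi.single none 1) = e := by
      rw [← Matrix.mulVec_mulVec, Matrix.mulVec_single_one]
      rw [show Φ.col none = B⁻¹.mulVec e from funext fun i => hq i, hBq]
    have hE' : ∀ i, (B * Φ) i none = e i := by
      intro i
      rw [← hE, Matrix.mulVec_single_one]
      rfl
    have hτ : ∃ τ : Fin n → MvPolynomial (Fin n) ℝ, LinEquiv σ τ ∧ PP τ = NF n k := by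
      refine hLft n σ (B * Φ) (NF n k) ?_ (fun i => hE' (some i)) (hE' none) ?_ ?_
        (Leqx.eval_e_PP σ hσ) (P2x.eval_NF n k hk)
      · rw [Matrix.det_mul]
        exact hB.mul hΦ
      · refine ⟨c * c1, ?_⟩
        rw [← Linx.sub_sub, hBt, Facx.sub_mul, h1, C_mul, mul_assoc]
        congr 1
        unfold sub
        rw [← algebraMap_eq, AlgHom.commutes]
      · exact ⟨c2, by rw [← Linx.sub_sub, h2]⟩
    refine ⟨k, ⟨hk, hτ⟩, ?_⟩
    rintro k' ⟨hk', τ', h3, h4⟩
    obtain ⟨τ, h5, h6⟩ := hτ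
    exact hUnq n k' k τ' τ hk' hk h4 h6 (Leqx.trans (Leqx.symm h3) h5)
  · rintro ⟨k, ⟨hk, τ, h1, h2⟩, -⟩
    obtain ⟨τ', h3, h4, h5⟩ := hNfa n k hk
    have h6 : τ = τ' := by
      funext i
      exact Injx.PP_inj _ _ (h2.trans h4.symm) i
    subst h6
    refine ⟨Leqx.admissible (Leqx.symm h1) h3, ?_⟩
    rw [← Leqx.nf_linEquiv h1]
    exact h5

end Pool.Agent.LFS
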