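import Pool.Agent.LFS.St

/-!
# Many factors: the diagonal tangent fields in terms of the supports (helper9)
-/

set_option autoImplicit false

noncomputable section

namespace Pool.Agent.LFS

open scoped Polynomial
open MvPolynomial Pool.Agent.Helper28.Nij Pool.Agent.LFD

namespace Relx

variable {ι : Type} [Fintype ι] [DecidableEq ι]

theorem D_prod (A : Matrix ι ι ℝ) {κ : Type} [DecidableEq κ] (s : Finset κ)
    (a : κ → MvPolynomial ι ℝ)
    (μ : κ → ℝ) (h : ∀ k ∈ s, Comx.D A (a k) = C (μ k) * a k) :
    Comx.D A (∏ k ∈ s, a k) = C (∑ k ∈ s, μ k) * ∏ k ∈ s, a k := by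
  induction s using Finset.induction_on with
  | empty => simp
  | insert i s hi ih =>
    rw [Finset.prod_insert hi, Finset.sum_insert hi, Derivation.leibniz,
      ih fun k hk => h k (Finset.mem_insert_of_mem hk), h i (Finset.mem_insert_self i s), smul_eq_mul,
      smul_eq_mul, C_add]
    ring

theorem D_det (A : Matrix ι ι ℝ) (M : Matrix ι ι (MvPolynomial ι ℝ)) (a c : ι → ℝ)
    (h : ∀ k i, Comx.D A (M k i) = C (a i - c k) * M k i) :
    Comx.D A M.det = C (∑ i, a i - ∑ i, c i) * M.det := by
  rw [Matrix.det_apply, map_sum, Finset.mul_sum]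
  refine Finset.sum_congr rfl fun s _ => ?_
  rw [Units.smul_def, ← Int.cast_smul_eq_zsmul ℝ, Derivation.map_smul,
    D_prod A Finset.univ (fun i => M (s i) i) (fun i => a i - c (s i)) (fun i _ => h (s i) i)]
  rw [mul_smul_comm]
  congr 3
  rw [Finset.sum_sub_distrib, Equiv.sum_comp s c]

end Relx

theorem thm_Rel : St_Rel := by
  intro ι _ _ h Y hG d
  have hent : ∀ k i j, (Matrix.diagonal d * Y k - Y k * Matrix.diagonal d) i j =
      (d i - d j) * Y k i j := by
    intro k i j
    rw [Matrix.sub_apply, Matrix.diagonal_mul, Matrix.mul_diagonal]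
    ring
  constructor
  · intro hd k i j i' j' h1 h2
    obtain ⟨c, hc⟩ := hG.2.2.1 k d hd
    have h3 := congrFun (congrFun hc i) j
    have h4 := congrFun (congrFun hc i') j'
    rw [hent, Matrix.smul_apply, smul_eq_mul] at h3 h4
    rw [mul_right_cancel₀ h1 h3, mul_right_cancel₀ h2 h4]
  · intro H
    have hc : ∀ k, ∃ c : ℝ, ∀ i j, Y k i j ≠ 0 → d i - d j = c := by
      intro k
      by_cases hk : ∃ i j, Y k i j ≠ 0
      · obtain ⟨i, j, hij⟩ := hk
        exact ⟨d i - d j, fun i' j' h' => (H k i j i' j' hij h').symm⟩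
      · push Not at hk
        exact ⟨0, fun i j hij => absurd (hk i j) hij⟩
    choose c hc using hc
    have h1 : ∀ k i, Comx.D (Matrix.diagonal d) (fld (Y k) i) = C (d i - c k) * fld (Y k) i := by
      intro k i
      rw [Comx.D_fld]
      unfold fld
      rw [Finset.mul_sum]
      refine Finset.sum_congr rfl fun j _ => ?_
      rw [Matrix.mul_diagonal, ← mul_assoc, ← C_mul]
      congr 2
      by_cases hy : Y k i j = 0
      · rw [hy]; ring
      · rw [← hc k i j hy]; ring
    obtain ⟨e, he, hdet⟩ := hG.2.1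
    have h2 := Relx.D_det (Matrix.diagonal d) (Matrix.of fun k i => fld (Y k) i) d c h1
    rw [hdet, Derivation.leibniz, smul_eq_mul, smul_eq_mul] at h2
    have h3 : Comx.D (Matrix.diagonal d) (C e : MvPolynomial ι ℝ) = 0 := by
      rw [← algebraMap_eq]
      exact Derivation.map_algebraMap _ _
    rw [h3, mul_zero, add_zero, Comx.D_apply] at h2
    have h4 : (C e : MvPolynomial ι ℝ) ≠ 0 := by
      rw [Ne, C_eq_zero]
      exact he
    have h5 : der (Matrix.diagonal d) h = C (∑ i, d i - ∑ i, c i) * h := by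
      apply mul_left_cancel₀ h4
      rw [h2]
      ring
    change h ∣ der (Matrix.diagonal d) h
    rw [h5]
    exact dvd_mul_left _ _

end Pool.Agent.LFS
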