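import Pool.Agent.LFS.St

/-!
# LFS, module Ren: renaming the variables
-/

set_option autoImplicit false

noncomputable section

open scoped Polynomial
open MvPolynomial Pool.Agent.Helper28.Nij Pool.Agent.LFD

namespace Pool.Agent.LFS

namespace Renx

variable {ι κ : Type} [Fintype ι] [Fintype κ]

theorem ren_fld (e : ι ≃ κ) (A : Matrix ι ι ℝ) (i : ι) :
    rename e (fld A i) = fld (A.submatrix e.symm e.symm) (e i) := by
  unfold fld
  rw [map_sum]
  refine Fintype.sum_equiv e _ _ fun j => ?_
  rw [map_mul, rename_C, rename_X, Matrix.submatrix_apply, e.symm_apply_apply,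
    e.symm_apply_apply]

theorem ren_der (e : ι ≃ κ) (A : Matrix ι ι ℝ) (f : MvPolynomial ι ℝ) :
    rename e (der A f) = der (A.submatrix e.symm e.symm) (rename e f) := by
  unfold der
  rw [map_sum]
  refine Fintype.sum_equiv e _ _ fun i => ?_
  rw [map_mul, ren_fld, pderiv_rename e.injective]

omit [Fintype ι] [Fintype κ] in
theorem ren_symm (e : ι ≃ κ) (f : MvPolynomial ι ℝ) : rename e.symm (rename e f) = f := by
  rw [rename_rename]
  have h : (e.symm : κ → ι) ∘ (e : ι → κ) = id := by
    funext i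
    simp
  rw [h, rename_id]
  rfl

end Renx

open Renx

theorem thm_Ren : St_Ren := by
  intro ι κ _ _ _ _ e h hf
  obtain ⟨hs, A, hA, c, hc, hd⟩ := hf
  refine ⟨?_, fun k => (A (e.symm k)).submatrix e.symm e.symm, fun k => ?_, c, hc, ?_⟩
  · intro x hx
    have h1 : rename e.symm x * rename e.symm x ∣ h := by
      have h2 := map_dvd (rename e.symm : MvPolynomial κ ℝ →ₐ[ℝ] MvPolynomial ι ℝ) hx
      rwa [map_mul, ren_symm] at h2
    have h3 := (hs _ h1).map (rename e : MvPolynomial ι ℝ →ₐ[ℝ] MvPolynomial κ ℝ)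
    have h4 := ren_symm e.symm x
    rw [Equiv.symm_symm] at h4
    rwa [h4] at h3
  · have h1 := map_dvd (rename e : MvPolynomial ι ℝ →ₐ[ℝ] MvPolynomial κ ℝ) (hA (e.symm k))
    rwa [ren_der] at h1
  · have h1 := congrArg (rename e : MvPolynomial ι ℝ →ₐ[ℝ] MvPolynomial κ ℝ) hd
    rw [AlgHom.map_det, map_mul, rename_C] at h1
    rw [← h1, ← Matrix.det_submatrix_equiv_self e]
    congr 1
    ext1 k i
    rw [Matrix.submatrix_apply, Matrix.of_apply]
    show fld ((A (e.symm (e k))).submatrix e.symm e.symm) (e i) = rename e (fld (A k) i)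
    rw [e.symm_apply_apply, ren_fld]

end Pool.Agent.LFS
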