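import Pool.Agent.LFS.St

/-!
# Many factors: no tangent rank one nilpotent fields (helper9)
-/

set_option autoImplicit false

noncomputable section

namespace Pool.Agent.LFS

open scoped Polynomial
open MvPolynomial Pool.Agent.Helper28.Nij Pool.Agent.LFD

namespace Rk1x

variable {ι : Type} [Fintype ι] [DecidableEq ι]

/-- The constant vector field `u`. -/
def E (u : ι → ℝ) : Derivation ℝ (MvPolynomial ι ℝ) (MvPolynomial ι ℝ) :=
  mkDerivation ℝ fun i => C (u i)

theorem E_X (u : ι → ℝ) (i : ι) : E u (X i) = C (u i) := mkDerivation_X _ _ _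

theorem E_apply (u : ι → ℝ) (f : MvPolynomial ι ℝ) : E u f = ∑ i, C (u i) * pderiv i f := by
  have h : E u = ∑ i, (C (u i) : MvPolynomial ι ℝ) • pderiv i := by
    apply MvPolynomial.derivation_ext
    intro i
    rw [E_X]
    have h1 : ∀ s : Finset ι, (∑ j ∈ s, (C (u j) : MvPolynomial ι ℝ) • pderiv j :
        Derivation ℝ (MvPolynomial ι ℝ) (MvPolynomial ι ℝ)) (X i) =
          ∑ j ∈ s, C (u j) * pderiv j (X i) := by
      intro s
      induction s using Finset.induction_on with
      | empty => rfl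
      | insert a s ha ih =>
        rw [Finset.sum_insert ha, Finset.sum_insert ha, Derivation.add_apply, ih]
        rfl
    rw [h1, Finset.sum_eq_single i]
    · rw [pderiv_X_self, mul_one]
    · intro j _ hj
      rw [pderiv_X_of_ne (Ne.symm hj), mul_zero]
    · intro h
      exact absurd (Finset.mem_univ i) h
  rw [h]
  have h1 : ∀ s : Finset ι, (∑ j ∈ s, (C (u j) : MvPolynomial ι ℝ) • pderiv j :
      Derivation ℝ (MvPolynomial ι ℝ) (MvPolynomial ι ℝ)) f = ∑ j ∈ s, C (u j) * pderiv j f := by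
    intro s
    induction s using Finset.induction_on with
    | empty => rfl
    | insert a s ha ih =>
      rw [Finset.sum_insert ha, Finset.sum_insert ha, Derivation.add_apply, ih]
      rfl
  exact h1 Finset.univ

/-- The linear form `v`. -/
def lf (v : ι → ℝ) : MvPolynomial ι ℝ := ∑ j, C (v j) * X j

theorem E_lf (u v : ι → ℝ) (h : ∑ i, u i * v i = 0) : E u (lf v) = 0 := by
  unfold lf
  rw [map_sum]
  have h1 : ∀ j ∈ (Finset.univ : Finset ι), E u (C (v j) * X j) = C (u j * v j) := by
    intro j _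
    rw [C_mul', Derivation.map_smul, E_X, smul_eq_C_mul, ← C_mul, mul_comm]
  rw [Finset.sum_congr rfl h1, ← map_sum, h, C_0]

theorem der_vmv (u v : ι → ℝ) (f : MvPolynomial ι ℝ) :
    der (Matrix.vecMulVec u v) f = lf v * E u f := by
  rw [E_apply, der, Finset.mul_sum]
  refine Finset.sum_congr rfl fun i _ => ?_
  rw [← mul_assoc]
  congr 1
  unfold fld lf
  rw [Finset.sum_mul]
  refine Finset.sum_congr rfl fun j _ => ?_
  rw [Matrix.vecMulVec_apply, C_mul]
  ring

theorem hom_E (u : ι → ℝ) (m : ℕ) (f : MvPolynomial ι ℝ) (hf : f.IsHomogeneous (m + 1)) :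
    (E u f).IsHomogeneous m := by
  rw [E_apply]
  refine IsHomogeneous.sum _ _ _ fun i _ => ?_
  have h1 := (isHomogeneous_C ι (u i)).mul (hf.pderiv (i := i))
  rwa [zero_add, Nat.add_sub_cancel] at h1

theorem nil (u v : ι → ℝ) (h : ∑ i, u i * v i = 0) (μ : ℝ) (hμ : μ ≠ 0) (m : ℕ) :
    ∀ f : MvPolynomial ι ℝ, f.IsHomogeneous m → lf v * E u f = C μ * f → f = 0 := by
  have hC : (C μ : MvPolynomial ι ℝ) ≠ 0 := by
    rw [Ne, C_eq_zero]
    exact hμ
  induction m with
  | zero =>
    intro f hf h1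
    have h2 : f = C (coeff 0 f) := by
      rw [← totalDegree_eq_zero_iff_eq_C]
      exact Nat.le_zero.1 hf.totalDegree_le
    have h3 : E u f = 0 := by
      rw [h2, ← algebraMap_eq]
      exact Derivation.map_algebraMap _ _
    rw [h3, mul_zero] at h1
    exact (mul_eq_zero.1 h1.symm).resolve_left hC
  | succ m ih =>
    intro f hf h1
    have h2 : E u f = 0 := by
      refine ih _ (hom_E u m f hf) ?_
      have h3 := congrArg (E u) h1
      rw [Derivation.leibniz, E_lf u v h, smul_zero, add_zero, smul_eq_mul, C_mul',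
        Derivation.map_smul, smul_eq_C_mul] at h3
      exact h3
    rw [h2, mul_zero] at h1
    exact (mul_eq_zero.1 h1.symm).resolve_left hC

theorem eval_lf (v q : ι → ℝ) : MvPolynomial.eval q (lf v) = ∑ j, v j * q j := by
  unfold lf
  simp

theorem lf_ne (v : ι → ℝ) (hv : v ≠ 0) : lf v ≠ 0 := by
  intro h
  apply hv
  funext i
  have h1 := congrArg (MvPolynomial.eval (Pi.single i 1)) h
  rw [eval_lf, map_zero] at h1
  simpa [Pi.single_apply] using h1

/-- The values of the tangent fields at a point outside the divisor determine them. -/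
theorem inj_at (h : MvPolynomial ι ℝ) (hL : LinFree h) (q : ι → ℝ) (hq : MvPolynomial.eval q h ≠ 0)
    (B : Matrix ι ι ℝ) (hB : h ∣ der B h) (hBq : B.mulVec q = 0) : B = 0 := by
  obtain ⟨hsq, A, hA, c, hc, hdet⟩ := hL
  obtain ⟨g, hg⟩ := (all_Com.1 ι h hsq A c hA hc hdet).2 B hB
  have hdet' : (Matrix.of fun k i => (A k).mulVec q i).det ≠ 0 := by
    have h1 := congrArg (MvPolynomial.eval q) hdet
    rw [RingHom.map_det, map_mul, eval_C] at h1
    have h2 : (MvPolynomial.eval q).mapMatrix (Matrix.of fun k i => fld (A k) i) =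
        Matrix.of fun k i => (A k).mulVec q i := by
      ext k i
      rw [RingHom.mapMatrix_apply, Matrix.map_apply, Matrix.of_apply, Matrix.of_apply, Semx.eval_fld]
    rw [h2] at h1
    rw [h1]
    exact mul_ne_zero hc hq
  have hg0 : g = 0 := by
    apply Matrix.eq_zero_of_vecMul_eq_zero hdet'
    funext i
    have h1 := congrFun hBq i
    rw [hg, Matrix.sum_mulVec, Finset.sum_apply] at h1
    rw [Matrix.vecMul, dotProduct]
    rw [Pi.zero_apply] at h1 ⊢
    rw [← h1]
    refine Finset.sum_congr rfl fun k _ => ?_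
    rw [Matrix.smul_mulVec, Pi.smul_apply, smul_eq_mul, Matrix.of_apply]
  rw [hg, hg0]
  simp

end Rk1x

open Rk1x in
theorem thm_Rk1 : St_Rk1 := by
  intro ι _ _ h hL u v hu hv huv hd
  have hsq := hL.1
  have h0 : h ≠ 0 := fun h0 => not_squarefree_zero (h0 ▸ hsq)
  obtain ⟨A, hA, c, hc, hdet⟩ := hL.2
  have hhom := (all_Com.1 ι h hsq A c hA hc hdet).1
  obtain ⟨μ, hμ⟩ := Semx.quot _ h hd
  rw [der_vmv] at hμ
  have hμ0 : μ = 0 := by
    by_contra hne
    exact h0 (nil u v huv μ hne _ h hhom hμ)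
  rw [hμ0, C_0, zero_mul] at hμ
  have hE : E u h = 0 := (mul_eq_zero.1 hμ).resolve_left (lf_ne v hv)
  obtain ⟨q, hq⟩ : ∃ q : ι → ℝ, MvPolynomial.eval q h ≠ 0 := by
    by_contra hcon
    push Not at hcon
    exact h0 (MvPolynomial.funext fun q => by rw [hcon q, map_zero])
  obtain ⟨i, hi⟩ : ∃ i, v i ≠ 0 := by
    by_contra hcon
    push Not at hcon
    exact hv (funext hcon)
  obtain ⟨j, hj⟩ : ∃ j, j ≠ i := by
    by_contra hcon
    push Not at hcon
    have h1 : ∀ k, k = i := hcon
    have h2 : ∑ k, u k * v k = u i * v i := by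
      rw [Finset.sum_eq_single i (fun k _ hk => absurd (h1 k) hk)
        (fun h => absurd (Finset.mem_univ i) h)]
    rw [h2] at huv
    have h3 : u i = 0 := (mul_eq_zero.1 huv).resolve_right hi
    exact hu (funext fun k => by rw [h1 k, h3]; rfl)
  obtain ⟨w, hw, hwq⟩ : ∃ w : ι → ℝ, w ≠ 0 ∧ ∑ k, w k * q k = 0 := by
    by_cases hqi : q i = 0
    · refine ⟨Pi.single i 1, ?_, ?_⟩
      · intro h1
        have := congrFun h1 i
        simp at this
      · simp [Pi.single_apply, hqi]
    · refine ⟨Pi.single i (q j) - Pi.single j (q i), ?_, ?_⟩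
      · intro h1
        have := congrFun h1 j
        rw [Pi.sub_apply, Pi.single_eq_of_ne hj, Pi.single_eq_same] at this
        simp at this
        exact hqi this
      · simp only [Pi.sub_apply, sub_mul, Finset.sum_sub_distrib]
        simp [Pi.single_apply]
        ring
  have hB : Matrix.vecMulVec u w = 0 := by
    refine inj_at h hL q hq _ ?_ ?_
    · rw [der_vmv, hE, mul_zero]
      exact dvd_zero _
    · funext k
      rw [Matrix.mulVec, dotProduct]
      simp only [Matrix.vecMulVec_apply, mul_assoc]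
      rw [← Finset.mul_sum, hwq, mul_zero]
      rfl
  obtain ⟨a, ha⟩ : ∃ a, u a ≠ 0 := by
    by_contra hcon
    push Not at hcon
    exact hu (funext hcon)
  obtain ⟨b, hb⟩ : ∃ b, w b ≠ 0 := by
    by_contra hcon
    push Not at hcon
    exact hw (funext hcon)
  have h1 := congrFun (congrFun hB a) b
  rw [Matrix.vecMulVec_apply, Matrix.zero_apply] at h1
  exact mul_ne_zero ha hb h1

end Pool.Agent.LFS
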