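import Pool.Agent.LFS.St

/-!
# Many factors: the substitutions `sub B` and the number of factors (helper9)
-/

set_option autoImplicit false

noncomputable section

namespace Pool.Agent.LFS

open scoped Polynomial
open MvPolynomial Pool.Agent.Helper28.Nij Pool.Agent.LFD

namespace Facx

section

variable {ι : Type} [Fintype ι] [DecidableEq ι]

/-- The substitution as an algebra isomorphism. -/
def subE (B : Matrix ι ι ℝ) (hB : IsUnit B.det) : MvPolynomial ι ℝ ≃ₐ[ℝ] MvPolynomial ι ℝ :=
  AlgEquiv.ofAlgHom (aeval fun i => fld B i) (aeval fun i => fld B⁻¹ i)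
    (by
      apply AlgHom.ext
      intro f
      have := Linx.sub_sub B⁻¹ B f
      rw [Matrix.nonsing_inv_mul B hB, Linx.sub_one] at this
      exact this)
    (by
      apply AlgHom.ext
      intro f
      have := Linx.sub_sub B B⁻¹ f
      rw [Matrix.mul_nonsing_inv B hB, Linx.sub_one] at this
      exact this)

theorem subE_apply (B : Matrix ι ι ℝ) (hB : IsUnit B.det) (f : MvPolynomial ι ℝ) :
    subE B hB f = sub B f := rfl

theorem irr_sub (B : Matrix ι ι ℝ) (hB : IsUnit B.det) (f : MvPolynomial ι ℝ)
    (hf : Irreducible f) : Irreducible (sub B f) := by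
  rw [← subE_apply B hB]
  exact (MulEquiv.irreducible_iff (subE B hB)).2 hf

theorem sub_mul (B : Matrix ι ι ℝ) (f g : MvPolynomial ι ℝ) : sub B (f * g) = sub B f * sub B g := by
  unfold sub
  exact map_mul _ _ _

theorem sub_prod {κ : Type} [Fintype κ] (B : Matrix ι ι ℝ) (f : κ → MvPolynomial ι ℝ) :
    sub B (∏ k, f k) = ∏ k, sub B (f k) := by
  unfold sub
  exact map_prod _ _ _

theorem sub_dvd (B : Matrix ι ι ℝ) (f g : MvPolynomial ι ℝ) (h : f ∣ g) : sub B f ∣ sub B g := by
  obtain ⟨k, rfl⟩ := h
  rw [sub_mul]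
  exact dvd_mul_right _ _

end

/-- `X none` and the irreducible factors of `P`, as a family. -/
theorem fam {n : ℕ} (σ : Fin n → MvPolynomial (Fin n) ℝ) (h0 : PP σ ≠ 0) :
    ∃ f : Fin (nf σ + 1) → MvPolynomial (Option (Fin n)) ℝ, (∀ i, Irreducible (f i)) ∧
      (∏ i, f i) ∣ X none * PP σ := by
  set m := UniqueFactorizationMonoid.factors (PP σ) with hm
  have hlen : m.toList.length = nf σ := by
    rw [Multiset.length_toList]; rfl
  refine ⟨Fin.cons (X none) fun i => m.toList.get (Fin.cast hlen.symm i), ?_, ?_⟩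
  · intro i
    refine Fin.cases ?_ (fun i => ?_) i
    · rw [Fin.cons_zero]
      exact (MvPolynomial.X_prime).irreducible
    · rw [Fin.cons_succ]
      exact UniqueFactorizationMonoid.irreducible_of_factor _
        (Multiset.mem_toList.1 (List.get_mem _ _))
  · rw [Fin.prod_univ_succ, Fin.cons_zero]
    refine mul_dvd_mul_left _ ?_
    simp only [Fin.cons_succ]
    have h1 : (∏ i : Fin (nf σ), m.toList.get (Fin.cast hlen.symm i)) = m.prod := by
      rw [← Multiset.prod_toList]
      have h2 : ∀ (l : List (MvPolynomial (Option (Fin n)) ℝ)) (k : ℕ) (hk : l.length = k),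
          (∏ i : Fin k, l.get (Fin.cast hk.symm i)) = l.prod := by
        intro l k hk
        subst hk
        rw [← List.prod_ofFn]
        congr 1
        exact List.ofFn_get l
      exact h2 _ _ hlen
    rw [h1]
    exact (UniqueFactorizationMonoid.factors_prod h0).dvd

end Facx

end Pool.Agent.LFS
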