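import Pool.Agent.LFS.St
import Pool.Agent.LFS.Ren
import Pool.Agent.LFS.Fac
import Pool.Agent.LFS.Leq

/-!
# LFS, module Shp: indecomposable collections with many factors (helper37)
-/

set_option autoImplicit false

noncomputable section

open scoped Polynomial
open MvPolynomial Pool.Agent.Helper28.Nij Pool.Agent.LFD

namespace Pool.Agent.LFS

namespace Shpx

/-- The variables: `y`, and `a_j`, `b_j`, `c_j`. -/
abbrev V (d : ℕ) : Type := Unit ⊕ (Fin 3 × Fin d)

/-- The factors: `y`, `a_j` and the quadratic forms. -/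
abbrev K (d : ℕ) : Type := Option (Fin d ⊕ Fin d)

/-- The factors, for the values `w` of the variables. -/
def fac {R : Type} [CommRing R] {d : ℕ} (w : V d → R) : K d → R
  | none => w (Sum.inl ())
  | some (Sum.inl j) => w (Sum.inr (0, j))
  | some (Sum.inr j) =>
      w (Sum.inl ()) * w (Sum.inr (1, j)) - w (Sum.inr (0, j)) * w (Sum.inr (2, j))

theorem fac_map {R S : Type} [CommRing R] [CommRing S] {d : ℕ} (φ : R →+* S) (w : V d → R)
    (κ : K d) : φ (fac w κ) = fac (fun v => φ (w v)) κ := by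
  rcases κ with _ | j | j
  · rfl
  · rfl
  · simp only [fac, map_sub, map_mul]

/-! ### Irreducibility -/

section

variable {ι : Type}

theorem notvars (m : ι) (c : ℝ) (T : MvPolynomial ι ℝ) (i : ι) (h1 : i ≠ m) (h2 : i ∉ T.vars) :
    i ∉ (X m + C c * T : MvPolynomial ι ℝ).vars := by
  classical
  intro h
  rcases Finset.mem_union.1 (vars_add_subset _ _ h) with h | h
  · rw [vars_X, Finset.mem_singleton] at h
    exact h1 h
  · rcases Finset.mem_union.1 (vars_mul _ _ h) with h | h
    · rw [vars_C] at h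
      exact absurd h (Finset.notMem_empty _)
    · exact h2 h

theorem irr_lin (m : ι) (c : ℝ) (T : MvPolynomial ι ℝ) (h : m ∉ T.vars) :
    Irreducible (X m + C c * T : MvPolynomial ι ℝ) := by
  classical
  have h1 := irreducible_mul_X_add (1 : MvPolynomial ι ℝ) (C c * T) m one_ne_zero
    (by rw [vars_one]; exact Finset.notMem_empty _)
    (by
      intro h2
      rcases Finset.mem_union.1 (vars_mul _ _ h2) with h3 | h3
      · rw [vars_C] at h3
        exact absurd h3 (Finset.notMem_empty _)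
      · exact h h3) isRelPrime_one_left
  rwa [one_mul] at h1

theorem irr_fac {d : ℕ} (m : V d → ι) (hm : Function.Injective m) (p : V d → ℝ)
    (T : MvPolynomial ι ℝ) (hT : ∀ v, m v ∉ T.vars)
    (hT' : ∀ v, ∃ x : ι → ℝ, x (m v) = 1 ∧ (∀ u, u ≠ v → x (m u) = 0) ∧ MvPolynomial.eval x T = 0)
    (κ : K d) :
    Irreducible (fac (fun v => (X (m v) + C (p v) * T : MvPolynomial ι ℝ)) κ) := by
  classical
  rcases κ with _ | j | j
  · exact irr_lin _ _ _ (hT _)
  · exact irr_lin _ _ _ (hT _)
  · set w : V d → MvPolynomial ι ℝ := fun v => (X (m v) + C (p v) * T : MvPolynomial ι ℝ) with hw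
    have hwv : ∀ u v, u ≠ v → m u ∉ (w v).vars := fun u v huv =>
      notvars _ _ _ _ (fun h => huv (hm h)) (hT u)
    have hirr : ∀ v, Irreducible (w v) := fun v => irr_lin _ _ _ (hT v)
    have hnd : ∀ u v, u ≠ v → ¬ w u ∣ w v := by
      intro u v huv h
      obtain ⟨x, hx1, hx2, hx3⟩ := hT' v
      have h1 := map_dvd (MvPolynomial.eval x) h
      have h2 : MvPolynomial.eval x (w u) = 0 := by
        rw [hw]
        simp only [map_add, map_mul, eval_X, eval_C]
        rw [hx3, hx2 u huv]
        ring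
      have h3 : MvPolynomial.eval x (w v) = 1 := by
        rw [hw]
        simp only [map_add, map_mul, eval_X, eval_C]
        rw [hx3, hx1]
        ring
      rw [h2, h3, zero_dvd_iff] at h1
      exact one_ne_zero h1
    have hQ : fac w (some (Sum.inr j)) = w (Sum.inl ()) * X (m (Sum.inr (1, j))) +
        (w (Sum.inl ()) * (C (p (Sum.inr (1, j))) * T) -
          w (Sum.inr (0, j)) * w (Sum.inr (2, j))) := by
      show w (Sum.inl ()) * w (Sum.inr (1, j)) - w (Sum.inr (0, j)) * w (Sum.inr (2, j)) = _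
      have : w (Sum.inr (1, j)) = X (m (Sum.inr (1, j))) + C (p (Sum.inr (1, j))) * T := rfl
      rw [this]
      ring
    rw [hQ]
    refine irreducible_mul_X_add _ _ _ (hirr _).ne_zero (hwv _ _ (by simp)) ?_ ?_
    · intro h
      rcases Finset.mem_union.1 (vars_sub_subset _ h) with h | h
      · rcases Finset.mem_union.1 (vars_mul _ _ h) with h | h
        · exact hwv _ _ (by simp) h
        · rcases Finset.mem_union.1 (vars_mul _ _ h) with h | h
          · rw [vars_C] at h
            exact absurd h (Finset.notMem_empty _)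
          · exact hT _ h
      · rcases Finset.mem_union.1 (vars_mul _ _ h) with h | h
        · exact hwv _ _ (by simp) h
        · exact hwv _ _ (by simp) h
    · rw [(hirr _).isRelPrime_iff_not_dvd]
      intro h
      have h1 : w (Sum.inl ()) ∣ w (Sum.inr (0, j)) * w (Sum.inr (2, j)) :=
        (dvd_sub_right (dvd_mul_right _ _)).1 h
      rcases (hirr (Sum.inl ())).prime.dvd_mul.1 h1 with h2 | h2
      · exact hnd _ _ (by simp) h2
      · exact hnd _ _ (by simp) h2

/-- Squarefree products. -/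
theorem sqf_prod {κ : Type} [Fintype κ] [DecidableEq κ] (G : κ → MvPolynomial ι ℝ)
    (hG : ∀ k, Irreducible (G k)) (v : κ → ι → ℝ) (h0 : ∀ k, MvPolynomial.eval (v k) (G k) = 0)
    (h1 : ∀ k l, l ≠ k → MvPolynomial.eval (v k) (G l) ≠ 0) : Squarefree (∏ k, G k) := by
  have hne : ∏ k, G k ≠ 0 := Finset.prod_ne_zero_iff.2 fun k _ => (hG k).ne_zero
  rw [squarefree_iff_irreducible_sq_not_dvd_of_ne_zero hne]
  intro x hx hd
  obtain ⟨k, -, hk⟩ := hx.prime.exists_mem_finset_dvd (dvd_trans (dvd_mul_right x x) hd)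
  have ha : Associated x (G k) := (hx.dvd_irreducible_iff_associated (hG k)).1 hk
  have h2 : G k * G k ∣ ∏ l, G l := (ha.mul_mul ha).dvd_iff_dvd_left.1 hd
  rw [← Finset.mul_prod_erase Finset.univ G (Finset.mem_univ k)] at h2
  have h3 : G k ∣ ∏ l ∈ Finset.univ.erase k, G l :=
    (mul_dvd_mul_iff_left (hG k).ne_zero).1 h2
  have h4 := map_dvd (MvPolynomial.eval (v k)) h3
  rw [h0, zero_dvd_iff, map_prod] at h4
  obtain ⟨l, hl, h5⟩ := Finset.prod_eq_zero_iff.1 h4
  exact h1 k l (Finset.ne_of_mem_erase hl) h5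

end

/-! ### The linear free divisor -/

section

variable {d : ℕ}

/-- The variable occurring in a coefficient of a field. -/
def qf : V d → V d → V d
  | Sum.inl _, v => v
  | Sum.inr _, Sum.inl u => Sum.inl u
  | Sum.inr (k, j), Sum.inr (i, l) =>
      if k = 2 then (if i = 2 then Sum.inl () else Sum.inr (0, j)) else Sum.inr (i, l)

/-- Its coefficient. -/
def cf : V d → V d → ℝ
  | Sum.inl _, Sum.inl _ => 1
  | Sum.inl _, Sum.inr (i, _) => ![0, -1, 0] i
  | Sum.inr _, Sum.inl _ => 0
  | Sum.inr (k, j), Sum.inr (i, l) =>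
      if j = l then (![![1, 0, -1], ![0, 1, 1], ![0, 1, 1]] : Fin 3 → Fin 3 → ℝ) k i else 0

/-- The fields. -/
def Am (k : V d) : Matrix (V d) (V d) ℝ := Matrix.of fun i => Pi.single (qf k i) (cf k i)

theorem fld_Am (k i : V d) : fld (Am k) i = C (cf k i) * X (qf k i) := by
  unfold fld
  rw [Finset.sum_eq_single (qf k i)]
  · rw [Am, Matrix.of_apply, Pi.single_eq_same]
  · intro j _ hj
    rw [Am, Matrix.of_apply, Pi.single_eq_of_ne hj, C_0, zero_mul]
  · intro h
    exact absurd (Finset.mem_univ _) h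

theorem dz {R : Type} [CommRing R] {a b : R} (h : b = 0) : a ∣ b := by
  rw [h]
  exact dvd_zero _

theorem f3 (k : Fin 3) : k = 0 ∨ k = 1 ∨ k = 2 := by
  revert k
  decide

theorem tan (k : V d) (κ : K d) :
    fac (X : V d → MvPolynomial (V d) ℝ) κ ∣ Comx.D (Am k) (fac X κ) := by
  rcases κ with _ | j | j
  · show X (Sum.inl ()) ∣ Comx.D (Am k) (X (Sum.inl ()))
    rw [Comx.D_X, fld_Am]
    rcases k with _ | ⟨k, l⟩
    · exact dvd_mul_left _ _
    · show _ ∣ C 0 * _
      rw [C_0, zero_mul]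
      exact dvd_zero _
  · show X (Sum.inr (0, j)) ∣ Comx.D (Am k) (X (Sum.inr (0, j)))
    rw [Comx.D_X, fld_Am]
    rcases k with _ | ⟨k, l⟩
    · exact dvd_mul_left _ _
    · by_cases hk : k = 2
      · have h1 : cf (Sum.inr (k, l)) (Sum.inr (0, j) : V d) = 0 := by
          subst hk
          simp [cf]
        rw [h1, C_0, zero_mul]
        exact dvd_zero _
      · have h1 : qf (Sum.inr (k, l)) (Sum.inr (0, j) : V d) = Sum.inr (0, j) := by
          simp [qf, hk]
        rw [h1]
        exact dvd_mul_left _ _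
  · have h1 : Comx.D (Am k) (fac (X : V d → MvPolynomial (V d) ℝ) (some (Sum.inr j))) =
        X (Sum.inl ()) * fld (Am k) (Sum.inr (1, j)) + X (Sum.inr (1, j)) * fld (Am k) (Sum.inl ()) -
        (X (Sum.inr (0, j)) * fld (Am k) (Sum.inr (2, j)) +
          X (Sum.inr (2, j)) * fld (Am k) (Sum.inr (0, j))) := by
      show Comx.D (Am k) (X (Sum.inl ()) * X (Sum.inr (1, j)) -
        X (Sum.inr (0, j)) * X (Sum.inr (2, j))) = _
      rw [map_sub, Derivation.leibniz, Derivation.leibniz]
      simp only [Comx.D_X, smul_eq_mul]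
    rw [h1, fld_Am, fld_Am, fld_Am, fld_Am]
    rcases k with _ | ⟨k, l⟩
    · have e1 : cf (Sum.inl ()) (Sum.inr (1, j) : V d) = -1 := by simp [cf]
      have e2 : cf (Sum.inl ()) (Sum.inl () : V d) = 1 := rfl
      have e3 : cf (Sum.inl ()) (Sum.inr (2, j) : V d) = 0 := by simp [cf]
      have e4 : cf (Sum.inl ()) (Sum.inr (0, j) : V d) = 0 := by simp [cf]
      rw [e1, e2, e3, e4]
      simp only [qf]
      refine dz ?_
      rw [C_neg, C_1, C_0]
      ring
    · have e2 : cf (Sum.inr (k, l)) (Sum.inl () : V d) = 0 := rfl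
      rw [e2]
      by_cases hl : l = j
      · subst hl
        have hk := f3 k
        rcases hk with rfl | rfl | rfl
        · have e1 : cf (Sum.inr (0, l)) (Sum.inr (1, l) : V d) = 0 := by simp [cf]
          have e3 : cf (Sum.inr (0, l)) (Sum.inr (2, l) : V d) = -1 := by simp [cf]
          have e4 : cf (Sum.inr (0, l)) (Sum.inr (0, l) : V d) = 1 := by simp [cf]
          have f1 : qf (Sum.inr (0, l)) (Sum.inr (2, l) : V d) = Sum.inr (2, l) := by simp [qf]
          have f2 : qf (Sum.inr (0, l)) (Sum.inr (0, l) : V d) = Sum.inr (0, l) := by simp [qf]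
          rw [e1, e3, e4, f1, f2]
          refine dz ?_
          rw [C_neg, C_1, C_0]
          ring
        · have e1 : cf (Sum.inr (1, l)) (Sum.inr (1, l) : V d) = 1 := by simp [cf]
          have e3 : cf (Sum.inr (1, l)) (Sum.inr (2, l) : V d) = 1 := by simp [cf]
          have e4 : cf (Sum.inr (1, l)) (Sum.inr (0, l) : V d) = 0 := by simp [cf]
          have f1 : qf (Sum.inr (1, l)) (Sum.inr (2, l) : V d) = Sum.inr (2, l) := by simp [qf]
          have f2 : qf (Sum.inr (1, l)) (Sum.inr (1, l) : V d) = Sum.inr (1, l) := by simp [qf]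
          rw [e1, e3, e4, f1, f2]
          refine dvd_of_eq ?_
          rw [C_1, C_0]
          simp only [fac]
          ring
        · have e1 : cf (Sum.inr (2, l)) (Sum.inr (1, l) : V d) = 1 := by simp [cf]
          have e3 : cf (Sum.inr (2, l)) (Sum.inr (2, l) : V d) = 1 := by simp [cf]
          have e4 : cf (Sum.inr (2, l)) (Sum.inr (0, l) : V d) = 0 := by simp [cf]
          have f1 : qf (Sum.inr (2, l)) (Sum.inr (2, l) : V d) = Sum.inl () := by simp [qf]
          have f2 : qf (Sum.inr (2, l)) (Sum.inr (1, l) : V d) = Sum.inr (0, l) := by simp [qf]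
          rw [e1, e3, e4, f1, f2]
          refine dz ?_
          rw [C_1, C_0]
          ring
      · have h3 : ∀ i : Fin 3, cf (Sum.inr (k, l)) (Sum.inr (i, j) : V d) = 0 := by
          intro i
          simp only [cf, if_neg hl]
        rw [h3, h3, h3]
        refine dz ?_
        rw [C_0]
        ring

/-- A product of divisors is divisible. -/
theorem dvd_D {κ ι : Type} [Fintype ι] (D : Derivation ℝ (MvPolynomial ι ℝ) (MvPolynomial ι ℝ))
    (G : κ → MvPolynomial ι ℝ) (h : ∀ k, G k ∣ D (G k)) (s : Finset κ) :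
    (∏ k ∈ s, G k) ∣ D (∏ k ∈ s, G k) := by
  classical
  induction s using Finset.induction_on with
  | empty =>
    rw [Finset.prod_empty]
    exact one_dvd _
  | insert a s ha ih =>
    rw [Finset.prod_insert ha, Derivation.leibniz, smul_eq_mul, smul_eq_mul]
    exact dvd_add (mul_dvd_mul_left _ ih) (by
      rw [mul_comm (∏ k ∈ s, G k)]
      exact mul_dvd_mul_right (h a) _)

/-- The product over the factors. -/
theorem prod_K {M : Type} [CommMonoid M] (f : K d → M) :
    ∏ κ, f κ = f none * ((∏ j, f (some (Sum.inl j))) * ∏ j, f (some (Sum.inr j))) := by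
  rw [Fintype.prod_option, Fintype.prod_sum_type]

/-- The block of the number `j`. -/
def Nb (j : Fin d) : Matrix (Fin 3) (Fin 3) (MvPolynomial (V d) ℝ) :=
  !![X (Sum.inr (0, j)), 0, - X (Sum.inr (2, j));
    0, X (Sum.inr (1, j)), X (Sum.inr (2, j));
    0, X (Sum.inr (0, j)), X (Sum.inl ())]

theorem det_Am : (Matrix.of fun k i => fld (Am (d := d) k) i).det =
    ∏ κ, fac (X : V d → MvPolynomial (V d) ℝ) κ := by
  have h1 : (Matrix.of fun k i => fld (Am (d := d) k) i) =
      Matrix.fromBlocks (Matrix.of fun _ _ => X (Sum.inl ()))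
        (Matrix.of fun _ v => fld (Am (d := d) (Sum.inl ())) (Sum.inr v)) 0
        (Matrix.blockDiagonal Nb) := by
    ext1 k i
    rcases k with k | ⟨k, j⟩
    · rcases i with i | ⟨i, l⟩
      · rw [Matrix.fromBlocks_apply₁₁, Matrix.of_apply, Matrix.of_apply, fld_Am]
        show C 1 * X (Sum.inl ()) = _
        rw [C_1, one_mul]
      · rw [Matrix.fromBlocks_apply₁₂, Matrix.of_apply, Matrix.of_apply]
    · rcases i with i | ⟨i, l⟩
      · rw [Matrix.fromBlocks_apply₂₁, Matrix.of_apply, fld_Am]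
        show C 0 * _ = 0
        rw [C_0, zero_mul]
      · rw [Matrix.fromBlocks_apply₂₂, Matrix.of_apply, fld_Am, Matrix.blockDiagonal_apply]
        by_cases hj : j = l
        · subst hj
          rw [if_pos rfl]
          have hk := f3 k
          have hi := f3 i
          rcases hk with rfl | rfl | rfl <;> rcases hi with rfl | rfl | rfl <;>
            simp [cf, qf, Nb]
        · have h3 : cf (Sum.inr (k, j)) (Sum.inr (i, l) : V d) = 0 := by
            simp only [cf, if_neg hj]
          rw [h3, C_0, zero_mul]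
          exact (if_neg hj).symm
  rw [h1, Matrix.det_fromBlocks_zero₂₁, Matrix.det_blockDiagonal, Matrix.det_unique, prod_K,
    ← Finset.prod_mul_distrib]
  refine congrArg₂ (· * ·) rfl (Finset.prod_congr rfl fun j _ => ?_)
  rw [Matrix.det_fin_three]
  simp [Nb, fac]
  ring

/-- The zeros of the factors. -/
def pt (d : ℕ) : K d → V d → ℝ
  | none, Sum.inl _ => 0
  | none, Sum.inr (i, _) => ![1, 0, 1] i
  | some (Sum.inl _), Sum.inl _ => 1
  | some (Sum.inl j), Sum.inr (i, l) => ![if l = j then 0 else 1, 1, 0] i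
  | some (Sum.inr _), Sum.inl _ => 1
  | some (Sum.inr j), Sum.inr (i, l) => ![1, 1, if l = j then 1 else 0] i

theorem eval_fac {ι : Type} (x : ι → ℝ) (w : V d → MvPolynomial ι ℝ) (κ : K d) :
    MvPolynomial.eval x (fac w κ) = fac (fun v => MvPolynomial.eval x (w v)) κ :=
  fac_map (MvPolynomial.eval x) w κ

theorem linFree : LinFree (∏ κ, fac (X : V d → MvPolynomial (V d) ℝ) κ) := by
  classical
  refine ⟨?_, Am, fun k => ?_, 1, one_ne_zero, ?_⟩
  · have hirr : ∀ κ, Irreducible (fac (X : V d → MvPolynomial (V d) ℝ) κ) := by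
      intro κ
      have h1 := irr_fac (ι := V d) id Function.injective_id (fun _ => (0 : ℝ)) 0
        (fun v => by rw [vars_0]; exact Finset.notMem_empty _)
        (fun v => ⟨Pi.single v 1, by simp, fun u hu => by simp [hu], by simp⟩) κ
      have h2 : (fun v : V d => (X (id v) + C (0 : ℝ) * 0 : MvPolynomial (V d) ℝ)) = X := by
        funext v
        rw [mul_zero, add_zero]
        rfl
      rwa [h2] at h1
    refine sqf_prod _ hirr (pt d) ?_ ?_
    · intro κ
      rw [eval_fac]
      simp only [eval_X]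
      rcases κ with _ | j | j
      · rfl
      · simp [fac, pt]
      · simp [fac, pt]
    · intro κ κ' hκ
      rw [eval_fac]
      simp only [eval_X]
      rcases κ with _ | j | j <;> rcases κ' with _ | l | l
      · exact absurd rfl hκ
      · simp [fac, pt]
      · simp [fac, pt]
      · simp [fac, pt]
      · have hl : l ≠ j := fun h => hκ (by rw [h])
        simp [fac, pt, hl]
      · simp [fac, pt]
      · simp [fac, pt]
      · simp [fac, pt]
      · have hl : l ≠ j := fun h => hκ (by rw [h])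
        simp [fac, pt, hl]
  · rw [← Comx.D_apply]
    exact dvd_D _ _ (fun κ => tan k κ) _
  · rw [det_Am, C_1, one_mul]

end

/-! ### Derivatives and substitutions -/

theorem pd_comm {ι : Type} (i j : ι) (f : MvPolynomial ι ℝ) :
    pderiv i (pderiv j f) = pderiv j (pderiv i f) := by
  classical
  have h : ⁅(pderiv i : Derivation ℝ (MvPolynomial ι ℝ) (MvPolynomial ι ℝ)),
      (pderiv j : Derivation ℝ (MvPolynomial ι ℝ) (MvPolynomial ι ℝ))⁆ = 0 := by
    apply MvPolynomial.derivation_ext
    intro k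
    rw [Derivation.commutator_apply, pderiv_X, pderiv_X, Pi.single_apply, Pi.single_apply]
    split_ifs <;> simp
  have h1 := congrArg (fun D : Derivation ℝ (MvPolynomial ι ℝ) (MvPolynomial ι ℝ) => D f) h
  simp only [Derivation.commutator_apply, Derivation.coe_zero, Pi.zero_apply] at h1
  exact sub_eq_zero.1 h1

/-- The derivatives along the new variables generate the derivatives along the old ones. -/
theorem sub_pd {ι : Type} [Fintype ι] [DecidableEq ι] (B : Matrix ι ι ℝ) (hB : IsUnit B.det)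
    (f : MvPolynomial ι ℝ) (i : ι) :
    sub B (pderiv i f) = ∑ l, pderiv l (sub B f) * C (B⁻¹ l i) := by
  simp only [Linx.pderiv_sub, Finset.sum_mul]
  rw [Finset.sum_comm]
  have h1 : ∀ k, ∑ l, sub B (pderiv k f) * C (B k l) * C (B⁻¹ l i) =
      sub B (pderiv k f) * C ((1 : Matrix ι ι ℝ) k i) := by
    intro k
    rw [← Matrix.mul_nonsing_inv B hB, Matrix.mul_apply, map_sum, Finset.mul_sum]
    refine Finset.sum_congr rfl fun l _ => ?_
    rw [C_mul, mul_assoc]
  rw [Finset.sum_congr rfl fun k _ => h1 k, Finset.sum_eq_single i]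
  · rw [Matrix.one_apply_eq, C_1, mul_one]
  · intro k _ hk
    rw [Matrix.one_apply_ne hk, C_0, mul_zero]
  · intro h
    exact absurd (Finset.mem_univ _) h

/-- No derivative in the variables outside `S`. -/
def Z {n : ℕ} (S : Fin n → Prop) (f : MvPolynomial (Option (Fin n)) ℝ) : Prop :=
  ∀ v, ¬ S v → pderiv (some v) f = 0

theorem Z_sub {n : ℕ} (S : Fin n → Prop) (B : Matrix (Option (Fin n)) (Option (Fin n)) ℝ)
    (hB : IsUnit B.det) (f : MvPolynomial (Option (Fin n)) ℝ) (h : Z S (sub B f))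
    (i : Option (Fin n)) : Z S (sub B (pderiv i f)) := by
  intro v hv
  rw [sub_pd B hB, map_sum]
  refine Finset.sum_eq_zero fun l _ => ?_
  rw [mul_comm, pderiv_C_mul, pd_comm, h v hv, map_zero, mul_zero]

theorem Z_dvd {n k : ℕ} (e : Fin k → Fin n) (P : MvPolynomial (Option (Fin k)) ℝ)
    (he : Function.Injective e) (hP : P ≠ 0) (f : MvPolynomial (Option (Fin n)) ℝ)
    (h : f ∣ rename (Option.map e) P) : Z (fun v => ∃ i, e i = v) f := by
  classical
  intro v hv
  have hR : rename (Option.map e) P ≠ 0 := fun h0 =>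
    hP ((map_eq_zero_iff _ (rename_injective _ (Option.map_injective he))).1 h0)
  have h1 : some v ∉ (rename (Option.map e) P).vars := by
    intro h1
    obtain ⟨u, -, hu⟩ := Finset.mem_image.1 (vars_rename _ _ h1)
    rcases u with _ | u
    · rw [Option.map_none] at hu
      exact absurd hu.symm (Option.some_ne_none _)
    · exact hv ⟨u, Option.some_injective _ hu⟩
  apply pderiv_eq_zero_of_notMem_vars
  obtain ⟨g, hg⟩ := h
  have hf0 : f ≠ 0 := by
    rintro rfl
    rw [zero_mul] at hg
    exact hR hg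
  have hg0 : g ≠ 0 := by
    rintro rfl
    rw [mul_zero] at hg
    exact hR hg
  rw [mem_vars_iff_degreeOf_ne_zero, not_not] at h1 ⊢
  rw [hg, degreeOf_mul_eq hf0 hg0] at h1
  omega

theorem PP_not_unit {n : ℕ} (hn : 0 < n) (σ : Fin n → MvPolynomial (Fin n) ℝ) :
    ¬ ∃ c : ℝ, PP σ = C c := by
  rintro ⟨c, hc⟩
  have h1 := Sqfx.phi_PP σ
  have h2 : Sqfx.phi n (C c) = Polynomial.C (C c) := by
    have h3 := Sqfx.phi_rename (n := n) (C c)
    rwa [rename_C] at h3
  rw [hc, h2] at h1
  have h4 : (Sqfx.Q σ).natDegree = n := by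
    unfold Sqfx.Q
    refine Polynomial.natDegree_eq_of_degree_eq_some ?_
    rw [Polynomial.degree_add_eq_left_of_degree_lt, Polynomial.degree_X_pow]
    rw [Polynomial.degree_X_pow]
    refine Polynomial.mem_degreeLT.1 (Submodule.sum_mem _ fun k _ => Polynomial.mem_degreeLT.2 ?_)
    refine lt_of_le_of_lt (Polynomial.degree_C_mul_X_pow_le _ _) ?_
    have hk := k.2
    exact_mod_cast (by omega : n - 1 - (k : ℕ) < n)
  rw [← h1, Polynomial.natDegree_C] at h4
  omega

theorem ren_not_unit {n k : ℕ} (e : Fin k → Fin n) (he : Function.Injective e) (hk : 0 < k)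
    (α : Fin k → MvPolynomial (Fin k) ℝ) : ¬ IsUnit (rename (Option.map e) (PP α)) := by
  intro h
  obtain ⟨c, -, hc⟩ := isUnit_iff_eq_C_of_isReduced.1 h
  refine PP_not_unit hk α ⟨c, ?_⟩
  apply rename_injective _ (Option.map_injective he)
  rw [hc, rename_C]

/-- The number of factors. -/
theorem nf_of {n : ℕ} (σ : Fin n → MvPolynomial (Fin n) ℝ) {κ : Type} [Fintype κ]
    (G : κ → MvPolynomial (Option (Fin n)) ℝ) (hG : ∀ k, Irreducible (G k))
    (h : PP σ = ∏ k, G k) : nf σ = Fintype.card κ := by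
  have h1 : Multiset.Rel Associated (UniqueFactorizationMonoid.factors (PP σ))
      ((Finset.univ : Finset κ).val.map G) := by
    refine UniqueFactorizationMonoid.factors_unique
      (fun x hx => UniqueFactorizationMonoid.irreducible_of_factor x hx) ?_ ?_
    · intro x hx
      obtain ⟨y, -, rfl⟩ := Multiset.mem_map.1 hx
      exact hG y
    · refine (UniqueFactorizationMonoid.factors_prod (Leqx.PP_ne σ)).trans ?_
      rw [h]
      exact Associated.refl _
  unfold nf
  rw [Multiset.card_eq_card_of_rel h1, Multiset.card_map]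
  rfl

/-! ### The collection -/

section

variable {n d : ℕ}

/-- The base point. -/
def pv : V d → ℝ
  | Sum.inl _ => 1
  | Sum.inr (i, _) => ![1, 1, 0] i

/-- The values of the variables. -/
def ww (ε : V d ≃ Fin n) (v : V d) : MvPolynomial (Option (Fin n)) ℝ :=
  X (some (ε v)) + C (pv v) * X none

theorem ww_irr (ε : V d ≃ Fin n) (κ : K d) : Irreducible (fac (ww ε) κ) := by
  classical
  refine irr_fac (fun v => some (ε v)) (fun u v h => ε.injective (Option.some_injective _ h)) pv
    (X none) (fun v => ?_) (fun v => ?_) κ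
  · rw [vars_X, Finset.mem_singleton]
    exact Option.some_ne_none _
  · refine ⟨Pi.single (some (ε v)) 1, by simp, fun u hu => ?_, by simp⟩
    have : some (ε u) ≠ some (ε v) := fun h => hu (ε.injective (Option.some_injective _ h))
    simp [this]

theorem pd_ww (ε : V d ≃ Fin n) (u v : V d) :
    pderiv (some (ε u)) (ww ε v) = if u = v then 1 else 0 := by
  classical
  unfold ww
  rw [map_add, pderiv_C_mul, pderiv_X_of_ne (Option.some_ne_none _).symm, mul_zero, add_zero]
  by_cases h : u = v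
  · rw [if_pos h, h, pderiv_X_self]
  · rw [if_neg h, pderiv_X_of_ne]
    exact fun h1 => h (ε.injective (Option.some_injective _ h1.symm))

theorem pd_b (ε : V d ≃ Fin n) (j : Fin d) :
    pderiv (some (ε (Sum.inr (1, j)))) (fac (ww ε) (some (Sum.inr j))) = ww ε (Sum.inl ()) := by
  show pderiv _ (ww ε (Sum.inl ()) * ww ε (Sum.inr (1, j)) -
    ww ε (Sum.inr (0, j)) * ww ε (Sum.inr (2, j))) = _
  rw [map_sub, pderiv_mul, pderiv_mul, pd_ww, pd_ww, pd_ww, pd_ww]
  simp

theorem pd_c (ε : V d ≃ Fin n) (j : Fin d) :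
    pderiv (some (ε (Sum.inr (2, j)))) (fac (ww ε) (some (Sum.inr j))) =
      - ww ε (Sum.inr (0, j)) := by
  show pderiv _ (ww ε (Sum.inl ()) * ww ε (Sum.inr (1, j)) -
    ww ε (Sum.inr (0, j)) * ww ε (Sum.inr (2, j))) = _
  rw [map_sub, pderiv_mul, pderiv_mul, pd_ww, pd_ww, pd_ww, pd_ww]
  simp

/-- A linear factor depends on a variable. -/
theorem lin_dep (ε : V d ≃ Fin n) (A : Matrix (Fin n) (Fin n) ℝ) (hA : IsUnit A.det) (v : V d) :
    ∃ u, pderiv (some u) (sub (Injx.blk A) (ww ε v)) ≠ 0 := by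
  classical
  by_contra hcon
  push Not at hcon
  refine hA.ne_zero (Matrix.det_eq_zero_of_row_eq_zero (ε v) fun u => ?_)
  have h1 := hcon u
  have h2 : sub (Injx.blk A) (ww ε v) =
      fld (Injx.blk A) (some (ε v)) + C (pv v) * fld (Injx.blk A) none := by
    unfold ww sub
    rw [map_add, map_mul, aeval_X, aeval_X, ← algebraMap_eq, AlgHom.commutes]
  rw [h2, map_add, pderiv_C_mul, Linx.pderiv_fld, Linx.pderiv_fld, Injx.blk_ns, Injx.blk_ss,
    C_0, mul_zero, add_zero] at h1
  exact C_injective _ _ (by rw [h1, C_0])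

theorem single_group (ε : V d ≃ Fin n) (A : Matrix (Fin n) (Fin n) ℝ) (hA : IsUnit A.det)
    (J : Type) [Fintype J] (s : J → ℕ) (α : ∀ j, Fin (s j) → MvPolynomial (Fin (s j)) ℝ)
    (hs : ∀ j, 0 < s j) (e : (Σ j, Fin (s j)) ≃ Fin n)
    (h : ∏ κ, sub (Injx.blk A) (fac (ww ε) κ) =
      ∏ j, rename (Option.map fun i => e ⟨j, i⟩) (PP (α j))) : Fintype.card J = 1 := by
  classical
  set B := Injx.blk A with hBdef
  have hB : IsUnit B.det := by
    rw [hBdef, Injx.blk_det]
    exact hA
  have hinj : ∀ j, Function.Injective fun i => e ⟨j, i⟩ := fun j i i' hi => by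
    have h1 := e.injective hi
    exact eq_of_heq (Sigma.mk.inj h1).2
  set S : J → Fin n → Prop := fun j v => ∃ i, e ⟨j, i⟩ = v with hS
  have hdis : ∀ j j' v, S j v → S j' v → j = j' := by
    rintro j j' v ⟨i, rfl⟩ ⟨i', hi'⟩
    exact ((Sigma.mk.inj (e.injective hi')).1).symm
  have hirr : ∀ κ, Irreducible (sub B (fac (ww ε) κ)) := fun κ =>
    Facx.irr_sub B hB _ (ww_irr ε κ)
  -- a linear factor belongs to one group
  have hone : ∀ v j j', Z (S j) (sub B (ww ε v)) → Z (S j') (sub B (ww ε v)) → j = j' := by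
    intro v j j' h1 h2
    obtain ⟨u, hu⟩ := lin_dep ε A hA v
    by_contra hjj
    by_cases hu1 : S j u
    · exact hu (h2 u fun hu2 => hjj (hdis j j' u hu1 hu2))
    · exact hu (h1 u hu1)
  have hdvd : ∀ j κ, sub B (fac (ww ε) κ) ∣ rename (Option.map fun i => e ⟨j, i⟩) (PP (α j)) →
      Z (S j) (sub B (fac (ww ε) κ)) := fun j κ hd =>
    Z_dvd (fun i => e ⟨j, i⟩) (PP (α j)) (hinj j) (Leqx.PP_ne _) _ hd
  have hex : ∀ κ, ∃ j, sub B (fac (ww ε) κ) ∣ rename (Option.map fun i => e ⟨j, i⟩) (PP (α j)) := by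
    intro κ
    have h1 : sub B (fac (ww ε) κ) ∣ ∏ κ, sub B (fac (ww ε) κ) :=
      Finset.dvd_prod_of_mem _ (Finset.mem_univ κ)
    rw [h] at h1
    obtain ⟨j, -, hj⟩ := (hirr κ).prime.exists_mem_finset_dvd h1
    exact ⟨j, hj⟩
  obtain ⟨j₀, hj₀⟩ := hex none
  have hy : Z (S j₀) (sub B (ww ε (Sum.inl ()))) := hdvd j₀ none hj₀
  have hQ : ∀ (i : Fin d) (j : J), Z (S j) (sub B (fac (ww ε) (some (Sum.inr i)))) → j = j₀ := by
    intro i j h1
    have h2 := Z_sub (S j) B hB _ h1 (some (ε (Sum.inr (1, i))))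
    rw [pd_b] at h2
    exact hone _ _ _ h2 hy
  have hall : ∀ (κ : K d) (j : J), Z (S j) (sub B (fac (ww ε) κ)) → j = j₀ := by
    intro κ j h1
    rcases κ with _ | i | i
    · exact hone _ _ _ h1 hy
    · obtain ⟨j', hj'⟩ := hex (some (Sum.inr i))
      have h2 := hdvd _ _ hj'
      have h3 := hQ i j' h2
      have h4 := Z_sub (S j') B hB _ h2 (some (ε (Sum.inr (2, i))))
      rw [pd_c] at h4
      have h5 : Z (S j') (sub B (ww ε (Sum.inr (0, i)))) := by
        intro v hv
        have h6 := h4 v hv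
        have h7 : sub B (- ww ε (Sum.inr (0, i))) = - sub B (ww ε (Sum.inr (0, i))) := by
          unfold sub
          rw [map_neg]
        rw [h7, map_neg, neg_eq_zero] at h6
        exact h6
      rw [← h3]
      exact hone _ _ _ h1 h5
    · exact hQ i j h1
  have huniq : ∀ j, j = j₀ := by
    intro j
    have hne : rename (Option.map fun i => e ⟨j, i⟩) (PP (α j)) ≠ 0 := fun h0 =>
      Leqx.PP_ne (α j) ((map_eq_zero_iff _ (rename_injective _ (Option.map_injective (hinj j)))).1 h0)
    obtain ⟨x, hx, hxd⟩ := WfDvdMonoid.exists_irreducible_factor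
      (ren_not_unit (fun i => e ⟨j, i⟩) (hinj j) (hs j) (α j)) hne
    have h1 : x ∣ ∏ κ, sub B (fac (ww ε) κ) := by
      rw [h]
      exact hxd.trans (Finset.dvd_prod_of_mem _ (Finset.mem_univ j))
    obtain ⟨κ, -, hκ⟩ := hx.prime.exists_mem_finset_dvd h1
    have ha : Associated x (sub B (fac (ww ε) κ)) :=
      (hx.dvd_irreducible_iff_associated (hirr κ)).1 hκ
    exact hall κ j (hdvd j κ (ha.dvd_iff_dvd_left.1 hxd))
  rw [Fintype.card_eq_one_iff]
  exact ⟨j₀, huniq⟩

end

end Shpx

open Shpx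

theorem thm_Shp : St_Shp := by
  classical
  intro d _
  have hcard : Fintype.card (V d) = 3 * d + 1 := by
    simp [V]
    ring
  set ε : V d ≃ Fin (3 * d + 1) := Fintype.equivFinOfCardEq hcard with hε
  have hf : LinFree (rename ε (∏ κ, fac (X : V d → MvPolynomial (V d) ℝ) κ)) :=
    thm_Ren _ _ _ _ linFree
  have hev : MvPolynomial.eval (fun i => pv (ε.symm i))
      (rename ε (∏ κ, fac (X : V d → MvPolynomial (V d) ℝ) κ)) = 1 := by
    rw [eval_rename, map_prod, prod_K]
    simp [fac, pv]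
  obtain ⟨σ, hσ, h1⟩ := all_MainB _ _ (fun i => pv (ε.symm i)) hf (by rw [hev]; exact one_ne_zero)
  have hPP : PP σ = ∏ κ, fac (ww ε) κ := by
    rw [hev, C_1, one_mul, aeval_rename, map_prod] at h1
    rw [← h1]
    refine Finset.prod_congr rfl fun κ _ => ?_
    have h2 := fac_map ((aeval ((fun i => X (some i) + C (pv (ε.symm i)) * X none :
      Fin (3 * d + 1) → MvPolynomial (Option (Fin (3 * d + 1))) ℝ) ∘ ε) :
        MvPolynomial (V d) ℝ →ₐ[ℝ] MvPolynomial (Option (Fin (3 * d + 1))) ℝ) :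
          MvPolynomial (V d) ℝ →+* MvPolynomial (Option (Fin (3 * d + 1))) ℝ)
      (X : V d → MvPolynomial (V d) ℝ) κ
    refine h2.trans ?_
    congr 1
    funext v
    show aeval _ (X v) = _
    rw [aeval_X]
    show X (some (ε v)) + C (pv (ε.symm (ε v))) * X none = _
    rw [ε.symm_apply_apply]
    rfl
  refine ⟨σ, hσ, ?_, ?_⟩
  · rw [nf_of σ (fac (ww ε)) (ww_irr ε) hPP]
    simp [K]
    ring
  · intro J _ s α hs hsum
    obtain ⟨e, τ, hτ, hP⟩ := hsum
    obtain ⟨A, hA, h2⟩ := (Leqx.PP_iff σ τ).1 hτ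
    refine single_group ε A hA J s α hs e ?_
    rw [← hP, ← h2, hPP, Facx.sub_prod]

end Pool.Agent.LFS
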