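import Pool.Agent.LFS.St

/-!
# Module Spl: a linear free divisor with a closed set of coordinates is a product
-/

set_option autoImplicit false

noncomputable section

namespace Pool.Agent.LFS

open scoped Polynomial
open MvPolynomial Pool.Agent.Helper28.Nij Pool.Agent.LFD

namespace Splx

open Pool.Agent.LFD.Comx

variable {ι : Type} [Fintype ι] [DecidableEq ι]

/-- the tangent matrices -/
def Tn (h : MvPolynomial ι ℝ) : Submodule ℝ (Matrix ι ι ℝ) where
  carrier := {A | h ∣ der A h}
  add_mem' := by
    intro a b ha hb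
    change h ∣ der (a + b) h
    rw [der_add]
    exact dvd_add ha hb
  zero_mem' := by
    change h ∣ der (0 : Matrix ι ι ℝ) h
    have : der (0 : Matrix ι ι ℝ) h = 0 := by simp [der, fld]
    rw [this]
    exact dvd_zero _
  smul_mem' := by
    intro c a ha
    change h ∣ der (c • a) h
    rw [der_smul]
    exact dvd_mul_of_dvd_right ha _

theorem mem_Tn {h : MvPolynomial ι ℝ} {A : Matrix ι ι ℝ} : A ∈ Tn h ↔ h ∣ der A h := Iff.rfl

/-- the block of a matrix -/
def pr (P : ι → Prop) [DecidablePred P] : Matrix ι ι ℝ →ₗ[ℝ] Matrix ι ι ℝ where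
  toFun B := Matrix.of fun i j => if P i ∧ P j then B i j else 0
  map_add' A B := by
    ext i j
    simp only [Matrix.of_apply, Matrix.add_apply]
    split_ifs
    · rfl
    · rw [add_zero]
  map_smul' c A := by
    ext i j
    simp only [Matrix.of_apply, Matrix.smul_apply, smul_eq_mul, RingHom.id_apply]
    split_ifs
    · rfl
    · rw [mul_zero]

omit [Fintype ι] [DecidableEq ι] in
theorem pr_apply (P : ι → Prop) [DecidablePred P] (B : Matrix ι ι ℝ) (i j : ι) :
    pr P B i j = if P i ∧ P j then B i j else 0 := rfl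

omit [DecidableEq ι] in
theorem fld_sum (g : ι → ℝ) (Y : ι → Matrix ι ι ℝ) (i : ι) :
    fld (∑ k, g k • Y k) i = ∑ k, C (g k) * fld (Y k) i := by
  simp only [fld, Matrix.sum_apply, Matrix.smul_apply, smul_eq_mul, map_sum, C_mul,
    Finset.sum_mul, Finset.mul_sum]
  rw [Finset.sum_comm]
  refine Finset.sum_congr rfl fun k _ => Finset.sum_congr rfl fun j _ => ?_
  ring

omit [DecidableEq ι] in
theorem eval_fld (q : ι → ℝ) (A : Matrix ι ι ℝ) (i : ι) :
    MvPolynomial.eval q (fld A i) = A.mulVec q i := by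
  simp [fld, Matrix.mulVec, dotProduct]

theorem sum_rel (d : ι → ℝ) (i j i' j' : ι) :
    ∑ l, d l * rel i j i' j' l = d i - d j - (d i' - d j') := by
  simp only [rel, Pi.sub_apply, mul_sub, Finset.sum_sub_distrib, Pi.single_apply, mul_ite, mul_one,
    mul_zero, Finset.sum_ite_eq', Finset.mem_univ, if_true]

omit [DecidableEq ι] in
/-- a derivation and a renaming -/
theorem D_rename {κ : Type} [Fintype κ] (v : κ → ι) (A : Matrix ι ι ℝ) (B : Matrix κ κ ℝ)
    (hAB : ∀ i, fld A (v i) = rename v (fld B i)) (p : MvPolynomial κ ℝ) :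
    D A (rename v p) = rename v (D B p) := by
  induction p using MvPolynomial.induction_on with
  | C a => simp
  | add p q hp hq => rw [map_add, map_add, hp, hq, map_add, map_add]
  | mul_X p i hp =>
    rw [map_mul, Derivation.leibniz, Derivation.leibniz, hp, rename_X, D_X, D_X, hAB, smul_eq_mul,
      smul_eq_mul, smul_eq_mul, smul_eq_mul, map_add, map_mul, map_mul, rename_X]

theorem D_rename_zero {κ : Type} (v : κ → ι) (A : Matrix ι ι ℝ)
    (hA : ∀ i, fld A (v i) = 0) (p : MvPolynomial κ ℝ) :
    D A (rename v p) = 0 := by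
  induction p using MvPolynomial.induction_on with
  | C a => simp
  | add p q hp hq => rw [map_add, map_add, hp, hq, add_zero]
  | mul_X p i hp =>
    rw [map_mul, Derivation.leibniz, hp, rename_X, D_X, hA, smul_zero, smul_zero, add_zero]

/-- one factor of a product -/
theorem tang {κ : Type} [Fintype κ] (v : κ → ι) (hv : Function.Injective v) (A : Matrix ι ι ℝ)
    (B : Matrix κ κ ℝ) (hAB : ∀ i, fld A (v i) = rename v (fld B i)) (p : MvPolynomial κ ℝ)
    (r : MvPolynomial ι ℝ) (hr : D A r = 0) (h0 : rename v p * r ≠ 0)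
    (hd : rename v p * r ∣ der A (rename v p * r)) : p ∣ der B p := by
  have h1 : der A (rename v p * r) = rename v (der B p) * r := by
    rw [← D_apply, Derivation.leibniz, hr, smul_zero, zero_add, D_rename v A B hAB, D_apply,
      smul_eq_mul, mul_comm]
  rw [h1] at hd
  have hr0 : r ≠ 0 := right_ne_zero_of_mul h0
  have h2 : rename v p ∣ rename v (der B p) := (mul_dvd_mul_iff_right hr0).mp hd
  have h3 := map_dvd (killCompl hv : MvPolynomial ι ℝ →ₐ[ℝ] MvPolynomial κ ℝ) h2
  rwa [killCompl_rename_app, killCompl_rename_app] at h3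

omit [Fintype ι] [DecidableEq ι] in
theorem sqf {κ : Type} (v : κ → ι) (hv : Function.Injective v) (p : MvPolynomial κ ℝ)
    (h : MvPolynomial ι ℝ) (hs : Squarefree h) (hd : rename v p ∣ h) : Squarefree p := by
  intro d hdd
  have h1 : rename v d * rename v d ∣ h := by
    rw [← map_mul]
    exact (map_dvd (rename v) hdd).trans hd
  have h2 := (hs _ h1).map (killCompl hv : MvPolynomial ι ℝ →ₐ[ℝ] MvPolynomial κ ℝ)
  rwa [killCompl_rename_app] at h2

omit [DecidableEq ι] in
/-- a matrix with entries in a block -/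
theorem fld_block {κ : Type} [Fintype κ] [DecidableEq κ] (v : κ → ι) (hv : Function.Injective v)
    (A : Matrix ι ι ℝ) (hA : ∀ i j, (∀ x, v x ≠ j) → A (v i) j = 0) (i : κ) :
    fld A (v i) = rename v (fld (Matrix.of fun a b => A (v a) (v b)) i) := by
  simp only [fld, map_sum, map_mul, rename_C, rename_X, Matrix.of_apply]
  have h1 : ∑ x : κ, (C (A (v i) (v x)) * X (v x) : MvPolynomial ι ℝ) =
      ∑ j ∈ Finset.univ.map ⟨v, hv⟩, C (A (v i) j) * X j := by
    rw [Finset.sum_map]
    rfl
  rw [h1]
  symm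
  refine Finset.sum_subset (Finset.subset_univ _) fun j _ hj => ?_
  rw [hA i j (fun x hx => hj (Finset.mem_map.mpr ⟨x, Finset.mem_univ x, hx⟩)), C_0, zero_mul]

theorem block_det {R : Type} [CommRing R] (S : Finset ι) (M : Matrix ι ι R)
    (h : ∀ i, i ∉ S → ∀ j, j ∈ S → M i j = 0) :
    M.det = (Matrix.of fun a b : {i // i ∈ S} => M a.1 b.1).det *
      (Matrix.of fun a b : {i // i ∉ S} => M a.1 b.1).det := by
  rw [Matrix.twoBlockTriangular_det M (fun i => i ∈ S) h]
  have e : (Subtype.fintype fun i => i ∈ S) = (Finset.Subtype.fintype S) := Subsingleton.elim _ _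
  refine congrArg₂ (· * ·) ?_ rfl
  exact congrArg (fun inst : Fintype {i // i ∈ S} =>
    @Matrix.det {i // i ∈ S} (fun a b => a.instDecidableEq b) inst R _
      (Matrix.of fun a b : {i // i ∈ S} => M a.1 b.1)) e

omit [Fintype ι] [DecidableEq ι] in
theorem det_rename {κ : Type} [Fintype κ] [DecidableEq κ] (v : κ → ι)
    (M : Matrix κ κ (MvPolynomial κ ℝ)) (N : Matrix κ κ (MvPolynomial ι ℝ))
    (h : ∀ k i, N k i = rename v (M k i)) : N.det = rename v M.det := by
  rw [AlgHom.map_det]
  congr 1
  ext1 k i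
  exact h k i

end Splx

open Splx Pool.Agent.LFD.Comx

theorem thm_Spl (hRel : St_Rel) (hNoX : St_NoX) : St_Spl := by
  intro ι _ _ h Y S hL hG hC
  have hrel := hRel ι h Y hG
  have hnox := hNoX ι h Y S hL hG hC
  obtain ⟨gT, ⟨c, hc, hdet⟩, -, -⟩ := hG
  obtain ⟨-, hspan⟩ := all_Com.1 ι h hL.1 Y c gT hc hdet
  have hh0 : h ≠ 0 := hL.1.ne_zero
  -- the projections of the tangent matrices
  have hdec : ∀ k, pr (fun i => i ∈ S) (Y k) ∈ Tn h ∧ pr (fun i => i ∉ S) (Y k) ∈ Tn h ∧
      Y k = pr (fun i => i ∈ S) (Y k) + pr (fun i => i ∉ S) (Y k) := by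
    intro k
    rcases hnox k with ⟨d, hd⟩ | hk | hk
    · have hdT : d ∈ Tor h := by
        have := gT k
        rw [hd] at this
        exact this
      have hS : (fun i => if i ∈ S then d i else 0) ∈ Tor h := by
        rw [hrel]
        intro k' i j i' j' h1 h2
        have e1 := sum_rel d i j i' j'
        have e2 := sum_rel (fun i => if i ∈ S then d i else 0) i j i' j'
        have e3 := (hrel d).mp hdT k' i j i' j' h1 h2
        have e4 : ∑ l, (if l ∈ S then d l else 0) * rel i j i' j' l = 0 := by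
          rcases hC k' i j i' j' h1 h2 with h3 | h3
          · refine Finset.sum_eq_zero fun l _ => ?_
            by_cases hl : l ∈ S
            · rw [h3 l hl, mul_zero]
            · rw [if_neg hl, zero_mul]
          · have : ∑ l, (if l ∈ S then d l else 0) * rel i j i' j' l =
                ∑ l, d l * rel i j i' j' l := by
              refine Finset.sum_congr rfl fun l _ => ?_
              by_cases hl : l ∈ S
              · rw [if_pos hl]
              · rw [h3 l hl, mul_zero, mul_zero]
            rw [this, e1]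
            linarith
        have e5 := e2.symm.trans e4
        linarith
      have hSc : (fun i => if i ∉ S then d i else 0) ∈ Tor h := by
        have := (Tor h).sub_mem hdT hS
        have e : d - (fun i => if i ∈ S then d i else 0) = fun i => if i ∉ S then d i else 0 := by
          ext i
          by_cases hi : i ∈ S
          · simp [hi]
          · simp [hi]
        rwa [e] at this
      have p1 : pr (fun i => i ∈ S) (Y k) = Matrix.diagonal fun i => if i ∈ S then d i else 0 := by
        ext i j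
        rw [pr_apply, hd]
        by_cases hij : i = j
        · subst hij
          simp
        · simp [hij]
      have p2 : pr (fun i => i ∉ S) (Y k) = Matrix.diagonal fun i => if i ∉ S then d i else 0 := by
        ext i j
        rw [pr_apply, hd]
        by_cases hij : i = j
        · subst hij
          simp
        · simp [hij]
      refine ⟨?_, ?_, ?_⟩
      · rw [p1]; exact hS
      · rw [p2]; exact hSc
      · rw [p1, p2, hd, Matrix.diagonal_add]
        congr 1
        ext i
        by_cases hi : i ∈ S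
        · simp [hi]
        · simp [hi]
    · have p1 : pr (fun i => i ∈ S) (Y k) = Y k := by
        ext i j
        rw [pr_apply]
        by_cases h1 : Y k i j = 0
        · simp [h1]
        · rw [if_pos (hk i j h1)]
      have p2 : pr (fun i => i ∉ S) (Y k) = 0 := by
        ext i j
        rw [pr_apply]
        by_cases h1 : Y k i j = 0
        · simp [h1]
        · rw [if_neg fun h2 => h2.1 (hk i j h1).1]
          rfl
      rw [p1, p2]
      exact ⟨gT k, (Tn h).zero_mem, (add_zero _).symm⟩
    · have p1 : pr (fun i => i ∉ S) (Y k) = Y k := by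
        ext i j
        rw [pr_apply]
        by_cases h1 : Y k i j = 0
        · simp [h1]
        · rw [if_pos (hk i j h1)]
      have p2 : pr (fun i => i ∈ S) (Y k) = 0 := by
        ext i j
        rw [pr_apply]
        by_cases h1 : Y k i j = 0
        · simp [h1]
        · rw [if_neg fun h2 => (hk i j h1).1 h2.1]
          rfl
      rw [p1, p2]
      exact ⟨(Tn h).zero_mem, gT k, (zero_add _).symm⟩
  have hdecB : ∀ B ∈ Tn h, pr (fun i => i ∈ S) B ∈ Tn h ∧ pr (fun i => i ∉ S) B ∈ Tn h ∧
      B = pr (fun i => i ∈ S) B + pr (fun i => i ∉ S) B := by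
    intro B hB
    obtain ⟨g, rfl⟩ := hspan B hB
    refine ⟨?_, ?_, ?_⟩
    · rw [map_sum]
      refine (Tn h).sum_mem fun k _ => ?_
      rw [map_smul]
      exact (Tn h).smul_mem _ (hdec k).1
    · rw [map_sum]
      refine (Tn h).sum_mem fun k _ => ?_
      rw [map_smul]
      exact (Tn h).smul_mem _ (hdec k).2.1
    · rw [map_sum, map_sum, ← Finset.sum_add_distrib]
      refine Finset.sum_congr rfl fun k _ => ?_
      rw [map_smul, map_smul, ← smul_add, ← (hdec k).2.2]
  -- a point
  obtain ⟨q, hq⟩ : ∃ q : ι → ℝ, MvPolynomial.eval q h ≠ 0 := by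
    by_contra hcon
    push Not at hcon
    exact hh0 (MvPolynomial.funext fun q => by rw [hcon q, map_zero])
  set R : Matrix ι ι ℝ := Matrix.of fun k i => (Y k).mulVec q i with hR
  have hRdet : R.det ≠ 0 := by
    have h1 : MvPolynomial.eval q (Matrix.of fun k i => fld (Y k) i).det = R.det := by
      rw [RingHom.map_det]
      congr 1
      ext k i
      simp [hR, eval_fld]
    rw [← h1, hdet, map_mul, eval_C]
    exact mul_ne_zero hc hq
  have hRu : IsUnit R.det := isUnit_iff_ne_zero.mpr hRdet
  have hinj : ∀ B ∈ Tn h, B.mulVec q = 0 → B = 0 := by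
    intro B hB hBq
    obtain ⟨g, rfl⟩ := hspan B hB
    have h1 : Matrix.vecMul g R = 0 := by
      ext i
      have h2 := congrFun hBq i
      rw [← h2]
      rw [Matrix.sum_mulVec]
      simp only [Matrix.vecMul, dotProduct, hR, Matrix.of_apply, Finset.sum_apply,
        Matrix.smul_mulVec, Pi.smul_apply, smul_eq_mul]
    have h3 : g = 0 := Matrix.eq_zero_of_vecMul_eq_zero hRdet h1
    rw [h3]
    simp
  -- the new matrices
  let A : ι → Matrix ι ι ℝ := fun k => ∑ l, (R⁻¹) k l • Y l
  have hAT : ∀ k, A k ∈ Tn h := fun k => (Tn h).sum_mem fun l _ => (Tn h).smul_mem _ (gT l)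
  have hAq : ∀ k i, (A k).mulVec q i = (1 : Matrix ι ι ℝ) k i := by
    intro k i
    rw [← Matrix.nonsing_inv_mul R hRu, Matrix.mul_apply]
    simp only [A]
    rw [Matrix.sum_mulVec]
    simp only [Finset.sum_apply, Matrix.smul_mulVec, Pi.smul_apply, smul_eq_mul, hR,
      Matrix.of_apply]
  have hAdet : (Matrix.of fun k i => fld (A k) i).det = C ((R⁻¹).det * c) * h := by
    have h1 : (Matrix.of fun k i => fld (A k) i) =
        (R⁻¹).map C * (Matrix.of fun k i => fld (Y k) i) := by
      ext1 k i
      rw [Matrix.of_apply, Matrix.mul_apply, fld_sum]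
      rfl
    rw [h1, Matrix.det_mul, hdet, C_mul, mul_assoc]
    congr 1
    exact (RingHom.map_det (C : ℝ →+* MvPolynomial ι ℝ) R⁻¹).symm
  set a : ℝ := (R⁻¹).det * c with ha
  have ha0 : a ≠ 0 := by
    refine mul_ne_zero ?_ hc
    have h1 : (R⁻¹).det * R.det = 1 := by
      rw [← Matrix.det_mul, Matrix.nonsing_inv_mul R hRu, Matrix.det_one]
    exact left_ne_zero_of_mul_eq_one h1
  have hA1 : ∀ k, k ∈ S → ∀ i j, ¬ (i ∈ S ∧ j ∈ S) → A k i j = 0 := by
    intro k hk
    obtain ⟨d1, d2, d3⟩ := hdecB (A k) (hAT k)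
    have h0 : pr (fun i => i ∉ S) (A k) = 0 := by
      apply hinj _ d2
      ext i
      rw [Pi.zero_apply]
      by_cases hi : i ∈ S
      · simp only [Matrix.mulVec, dotProduct, pr_apply]
        refine Finset.sum_eq_zero fun j _ => ?_
        rw [if_neg fun h2 => h2.1 hi, zero_mul]
      · have h1 : (pr (fun i => i ∉ S) (A k)).mulVec q i = (A k).mulVec q i := by
          simp only [Matrix.mulVec, dotProduct]
          refine Finset.sum_congr rfl fun j _ => ?_
          have h2 := congrFun (congrFun d3 i) j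
          rw [Matrix.add_apply, pr_apply, if_neg fun h3 => hi h3.1, zero_add] at h2
          rw [← h2]
        rw [h1, hAq, Matrix.one_apply_ne]
        rintro rfl
        exact hi hk
    intro i j hij
    rw [d3, h0, add_zero, pr_apply, if_neg hij]
  have hA2 : ∀ k, k ∉ S → ∀ i j, ¬ (i ∉ S ∧ j ∉ S) → A k i j = 0 := by
    intro k hk
    obtain ⟨d1, d2, d3⟩ := hdecB (A k) (hAT k)
    have h0 : pr (fun i => i ∈ S) (A k) = 0 := by
      apply hinj _ d1
      ext i
      rw [Pi.zero_apply]
      by_cases hi : i ∉ S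
      · simp only [Matrix.mulVec, dotProduct, pr_apply]
        refine Finset.sum_eq_zero fun j _ => ?_
        rw [if_neg fun h2 => hi h2.1, zero_mul]
      · have h1 : (pr (fun i => i ∈ S) (A k)).mulVec q i = (A k).mulVec q i := by
          simp only [Matrix.mulVec, dotProduct]
          refine Finset.sum_congr rfl fun j _ => ?_
          have h2 := congrFun (congrFun d3 i) j
          rw [Matrix.add_apply, pr_apply (fun i => i ∉ S), if_neg fun h3 => hi h3.1, add_zero] at h2
          rw [← h2]
        rw [h1, hAq, Matrix.one_apply_ne]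
        rintro rfl
        exact hi hk
    intro i j hij
    rw [d3, h0, zero_add, pr_apply, if_neg hij]
  -- the blocks
  let v : {i // i ∈ S} → ι := Subtype.val
  let w : {i // i ∉ S} → ι := Subtype.val
  have hv : Function.Injective v := Subtype.val_injective
  have hw : Function.Injective w := Subtype.val_injective
  let B₁ : {i // i ∈ S} → Matrix {i // i ∈ S} {i // i ∈ S} ℝ :=
    fun k => Matrix.of fun a b => A k.1 a.1 b.1
  let B₂ : {i // i ∉ S} → Matrix {i // i ∉ S} {i // i ∉ S} ℝ :=
    fun k => Matrix.of fun a b => A k.1 a.1 b.1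
  have hb1 : ∀ k i, fld (A (v k)) (v i) = rename v (fld (B₁ k) i) := by
    intro k i
    refine fld_block v hv (A (v k)) (fun i j hj => hA1 _ k.2 _ _ fun h2 => ?_) i
    exact hj ⟨j, h2.2⟩ rfl
  have hb2 : ∀ k i, fld (A (w k)) (w i) = rename w (fld (B₂ k) i) := by
    intro k i
    refine fld_block w hw (A (w k)) (fun i j hj => hA2 _ k.2 _ _ fun h2 => ?_) i
    exact hj ⟨j, h2.2⟩ rfl
  have hz1 : ∀ k : {i // i ∈ S}, ∀ i : {i // i ∉ S}, fld (A (v k)) (w i) = 0 := by
    intro k i
    rw [fld]
    refine Finset.sum_eq_zero fun j _ => ?_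
    rw [hA1 _ k.2 _ _ (fun h2 => i.2 h2.1), C_0, zero_mul]
  have hz2 : ∀ k : {i // i ∉ S}, ∀ i : {i // i ∈ S}, fld (A (w k)) (v i) = 0 := by
    intro k i
    rw [fld]
    refine Finset.sum_eq_zero fun j _ => ?_
    rw [hA2 _ k.2 _ _ (fun h2 => h2.1 i.2), C_0, zero_mul]
  let h₁ : MvPolynomial {i // i ∈ S} ℝ := (Matrix.of fun k i => fld (B₁ k) i).det
  let g₂ : MvPolynomial {i // i ∉ S} ℝ := (Matrix.of fun k i => fld (B₂ k) i).det
  have hprod : (Matrix.of fun k i => fld (A k) i).det = rename v h₁ * rename w g₂ := by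
    rw [block_det S (Matrix.of fun k i => fld (A k) i)
      (fun i hi j hj => hz2 ⟨i, hi⟩ ⟨j, hj⟩)]
    have t1 := det_rename v (Matrix.of fun k i => fld (B₁ k) i)
      (Matrix.of fun a b : {i // i ∈ S} => (Matrix.of fun k i => fld (A k) i) a.1 b.1)
      (fun k i => hb1 k i)
    have t2 := det_rename w (Matrix.of fun k i => fld (B₂ k) i)
      (Matrix.of fun a b : {i // i ∉ S} => (Matrix.of fun k i => fld (A k) i) a.1 b.1)
      (fun k i => hb2 k i)
    rw [t1, t2]
  let h₂ : MvPolynomial {i // i ∉ S} ℝ := C a⁻¹ * g₂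
  have hh : h = rename v h₁ * rename w h₂ := by
    have h1 : C a * h = rename v h₁ * rename w g₂ := by rw [← hAdet, hprod]
    have h2 : rename w h₂ = C a⁻¹ * rename w g₂ := by
      simp only [h₂, map_mul, rename_C]
    rw [h2, mul_left_comm, ← h1, ← mul_assoc, ← C_mul, inv_mul_cancel₀ ha0, C_1, one_mul]
  refine ⟨h₁, h₂, ⟨?_, B₁, ?_, 1, one_ne_zero, ?_⟩, ⟨?_, B₂, ?_, a, ha0, ?_⟩, hh⟩
  · exact sqf v hv h₁ h hL.1 ⟨_, hh⟩
  · intro k
    refine tang v hv (A (v k)) (B₁ k) (hb1 k) h₁ (rename w h₂)
      (D_rename_zero w (A (v k)) (hz1 k) h₂) (hh ▸ hh0) ?_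
    have := hAT (v k)
    rw [mem_Tn] at this
    rwa [hh] at this
  · rw [C_1, one_mul]
  · exact sqf w hw h₂ h hL.1 ⟨rename v h₁, by rw [mul_comm]; exact hh⟩
  · intro k
    have hh' : h = rename w h₂ * rename v h₁ := by rw [mul_comm]; exact hh
    refine tang w hw (A (w k)) (B₂ k) (hb2 k) h₂ (rename v h₁)
      (D_rename_zero v (A (w k)) (hz2 k) h₁) (hh' ▸ hh0) ?_
    have := hAT (w k)
    rw [mem_Tn] at this
    rwa [hh'] at this
  · simp only [h₂]
    rw [← mul_assoc, ← C_mul, mul_inv_cancel₀ ha0, C_1, one_mul]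

end Pool.Agent.LFS
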