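import Pool.Agent.LFS.St

/-!
# Module Trs: a maximal split torus is diagonal in suitable coordinates (helper12)
-/

set_option autoImplicit false

noncomputable section

namespace Pool.Agent.LFS

open scoped Polynomial
open MvPolynomial Pool.Agent.Helper28.Nij Pool.Agent.LFD

namespace Trsx

variable {ι : Type} [Fintype ι] [DecidableEq ι]

/-! ### diagonalisable matrices -/

theorem dz_zero : Dz (0 : Matrix ι ι ℝ) := by
  refine ⟨1, 0, by rw [Matrix.det_one]; exact isUnit_one, ?_⟩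
  rw [Matrix.zero_mul, Matrix.one_mul, Matrix.diagonal_zero']

theorem dz_smul (c : ℝ) {A : Matrix ι ι ℝ} (hA : Dz A) : Dz (c • A) := by
  obtain ⟨Q, d, hQ, h⟩ := hA
  refine ⟨Q, c • d, hQ, ?_⟩
  rw [Matrix.smul_mul, h, Matrix.diagonal_smul, Matrix.mul_smul]

theorem dz_transpose {A : Matrix ι ι ℝ} (hA : Dz A) : Dz A.transpose := by
  obtain ⟨Q, d, hQ, h⟩ := hA
  refine ⟨(Q⁻¹).transpose, d, ?_, ?_⟩
  · rw [Matrix.det_transpose]
    exact Matrix.isUnit_nonsing_inv_det Q hQ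
  · rw [← Matrix.transpose_mul, ← Matrix.diagonal_transpose d, ← Matrix.transpose_mul]
    congr 1
    calc Q⁻¹ * A = Q⁻¹ * (A * Q) * Q⁻¹ := by
          rw [Matrix.mul_assoc, Matrix.mul_assoc, Matrix.mul_nonsing_inv Q hQ, Matrix.mul_one]
      _ = Matrix.diagonal d * Q⁻¹ := by
          rw [h, ← Matrix.mul_assoc, Matrix.nonsing_inv_mul Q hQ, Matrix.one_mul]

theorem dz_conj {A B : Matrix ι ι ℝ} (hB : IsUnit B.det) (hA : Dz A) : Dz (B * A * B⁻¹) := by
  obtain ⟨Q, d, hQ, h⟩ := hA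
  refine ⟨B * Q, d, ?_, ?_⟩
  · rw [Matrix.det_mul]
    exact hB.mul hQ
  · calc B * A * B⁻¹ * (B * Q) = B * A * (B⁻¹ * B) * Q := by simp only [Matrix.mul_assoc]
      _ = B * Q * Matrix.diagonal d := by
          rw [Matrix.nonsing_inv_mul B hB, Matrix.mul_one, Matrix.mul_assoc, h, Matrix.mul_assoc]

/-- a matrix with a basis of eigenvectors is diagonalisable -/
theorem dz_of (A Q : Matrix ι ι ℝ) (hQ : IsUnit Q.det)
    (h : ∀ j, ∃ c : ℝ, A.mulVec (fun i => Q i j) = c • fun i => Q i j) :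
    ∃ d : ι → ℝ, A * Q = Q * Matrix.diagonal d := by
  choose c hc using h
  refine ⟨c, Matrix.ext fun i j => ?_⟩
  rw [Matrix.mul_diagonal]
  have h1 := congrFun (hc j) i
  rw [Pi.smul_apply, smul_eq_mul] at h1
  rw [mul_comm, ← h1]
  rfl

theorem pow_conj {M N Q : Matrix ι ι ℝ} (h : M * Q = Q * N) (k : ℕ) : M ^ k * Q = Q * N ^ k := by
  induction k with
  | zero => rw [pow_zero, pow_zero, Matrix.one_mul, Matrix.mul_one]
  | succ k ih => rw [pow_succ, Matrix.mul_assoc, h, ← Matrix.mul_assoc, ih, Matrix.mul_assoc, pow_succ]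

/-- generalised eigenvectors are eigenvectors -/
theorem gen_eig {A : Matrix ι ι ℝ} (hA : Dz A) (μ : ℝ) (v : ι → ℝ) (k : ℕ)
    (hk : ((A - μ • (1 : Matrix ι ι ℝ)) ^ k).mulVec v = 0) : A.mulVec v = μ • v := by
  obtain ⟨Q, d, hQ, h⟩ := hA
  have h1 : (A - μ • (1 : Matrix ι ι ℝ)) * Q = Q * Matrix.diagonal (fun i => d i - μ) := by
    have h2 : Matrix.diagonal (fun i => d i - μ) =
        Matrix.diagonal d - μ • (1 : Matrix ι ι ℝ) := by
      rw [← Matrix.diagonal_one, ← Matrix.diagonal_smul, Matrix.diagonal_sub]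
      congr 1
      funext i
      simp
    rw [h2, Matrix.sub_mul, Matrix.mul_sub, h, Matrix.smul_mul, Matrix.mul_smul, Matrix.one_mul,
      Matrix.mul_one]
  obtain ⟨w, hw⟩ : ∃ w, v = Q.mulVec w := by
    refine ⟨(Q⁻¹).mulVec v, ?_⟩
    rw [Matrix.mulVec_mulVec, Matrix.mul_nonsing_inv Q hQ, Matrix.one_mulVec]
  have h3 := pow_conj h1 k
  rw [hw, Matrix.mulVec_mulVec, h3, ← Matrix.mulVec_mulVec, Matrix.diagonal_pow] at hk
  have h4 : (Matrix.diagonal ((fun i => d i - μ) ^ k)).mulVec w = 0 := by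
    have h5 := congrArg (fun x => (Q⁻¹).mulVec x) hk
    simp only [Matrix.mulVec_mulVec, Matrix.mulVec_zero] at h5
    rwa [← Matrix.mul_assoc, Matrix.nonsing_inv_mul Q hQ, Matrix.one_mul] at h5
  have h6 : (Matrix.diagonal (fun i => d i - μ)).mulVec w = 0 := by
    funext i
    have h7 := congrFun h4 i
    rw [Matrix.mulVec_diagonal, Pi.pow_apply, Pi.zero_apply] at h7
    rw [Matrix.mulVec_diagonal, Pi.zero_apply]
    rcases mul_eq_zero.1 h7 with h8 | h8
    · rw [eq_zero_of_pow_eq_zero h8, zero_mul]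
    · rw [h8, mul_zero]
  have h8 : (A - μ • (1 : Matrix ι ι ℝ)).mulVec v = 0 := by
    rw [hw, Matrix.mulVec_mulVec, h1, ← Matrix.mulVec_mulVec, h6, Matrix.mulVec_zero]
  rw [Matrix.sub_mulVec, Matrix.smul_mulVec, Matrix.one_mulVec, sub_eq_zero] at h8
  exact h8

/-- the common eigenvectors -/
def Ce (S : Set (Matrix ι ι ℝ)) : Set (ι → ℝ) := {v | ∀ A ∈ S, ∃ c : ℝ, A.mulVec v = c • v}

/-- simultaneous diagonalisation -/
theorem sd (S : Set (Matrix ι ι ℝ)) (hS : ∀ A ∈ S, Dz A)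
    (hc : ∀ A ∈ S, ∀ B ∈ S, A * B = B * A) : Submodule.span ℝ (Ce S) = ⊤ := by
  let f : S → Module.End ℝ (ι → ℝ) := fun A => Matrix.toLinAlgEquiv' (A : Matrix ι ι ℝ)
  have hgen : ∀ (A : S) (μ : ℝ) (v : ι → ℝ), v ∈ (f A).maxGenEigenspace μ →
      (A : Matrix ι ι ℝ).mulVec v = μ • v := by
    intro A μ v hv
    rw [Module.End.mem_maxGenEigenspace] at hv
    obtain ⟨k, hk⟩ := hv
    apply gen_eig (hS A A.2) μ v k
    have h1 : (f A - μ • (1 : Module.End ℝ (ι → ℝ))) ^ k =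
        Matrix.toLinAlgEquiv' (((A : Matrix ι ι ℝ) - μ • (1 : Matrix ι ι ℝ)) ^ k) := by
      rw [map_pow, map_sub, map_smul, map_one]
    rw [h1, Matrix.toLinAlgEquiv'_apply] at hk
    exact hk
  have h1 := Module.End.iSup_iInf_maxGenEigenspace_eq_top_of_iSup_maxGenEigenspace_eq_top_of_commute
    f (fun A B _ => by
      change f A * f B = f B * f A
      change Matrix.toLinAlgEquiv' (A : Matrix ι ι ℝ) * Matrix.toLinAlgEquiv' (B : Matrix ι ι ℝ) =
        Matrix.toLinAlgEquiv' (B : Matrix ι ι ℝ) * Matrix.toLinAlgEquiv' (A : Matrix ι ι ℝ)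
      rw [← map_mul, ← map_mul, hc A A.2 B B.2]) (fun A => by
      obtain ⟨Q, d, hQ, h⟩ := hS A A.2
      rw [eq_top_iff]
      intro v _
      have h2 : v = ∑ j, ((Q⁻¹).mulVec v) j • fun i => Q i j := by
        have h3 : v = Q.mulVec ((Q⁻¹).mulVec v) := by
          rw [Matrix.mulVec_mulVec, Matrix.mul_nonsing_inv Q hQ, Matrix.one_mulVec]
        funext i
        conv_lhs => rw [h3]
        rw [Finset.sum_apply, Matrix.mulVec, dotProduct]
        refine Finset.sum_congr rfl fun j _ => ?_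
        rw [Pi.smul_apply, smul_eq_mul, mul_comm]
      rw [h2]
      refine Submodule.sum_mem _ fun j _ => Submodule.smul_mem _ _ ?_
      refine (le_iSup (fun μ => (f A).maxGenEigenspace μ) (d j)) ?_
      refine (Module.End.mem_maxGenEigenspace (f A) (d j) _).2 ⟨1, ?_⟩
      rw [pow_one, LinearMap.sub_apply, sub_eq_zero]
      change (Matrix.toLinAlgEquiv' (A : Matrix ι ι ℝ)) (fun i => Q i j) = d j • fun i => Q i j
      rw [Matrix.toLinAlgEquiv'_apply]
      funext i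
      have h4 := congrFun (congrFun h i) j
      rw [Matrix.mul_diagonal] at h4
      rw [Pi.smul_apply, smul_eq_mul, mul_comm, ← h4]
      rfl)
  rw [eq_top_iff, ← h1]
  refine iSup_le fun χ => ?_
  intro v hv
  apply Submodule.subset_span
  intro A hA
  refine ⟨χ ⟨A, hA⟩, ?_⟩
  rw [Submodule.mem_iInf] at hv
  exact hgen ⟨A, hA⟩ _ v (hv ⟨A, hA⟩)

/-- a basis in a spanning set as a matrix -/
theorem unit_basis (β : Module.Basis ι ℝ (ι → ℝ)) :
    IsUnit (Matrix.of fun i j => β j i).det := by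
  rw [← Matrix.isUnit_iff_isUnit_det, ← Matrix.linearIndependent_cols_iff_isUnit]
  exact β.linearIndependent

/-- a basis in a spanning set, with a given member -/
theorem bas (t : Set (ι → ℝ)) (ht : Submodule.span ℝ t = ⊤) (i₀ : ι) (e : ι → ℝ) (he : e ≠ 0)
    (het : e ∈ t) : ∃ Q : Matrix ι ι ℝ, IsUnit Q.det ∧ (∀ j, (fun i => Q i j) ∈ t) ∧
      (fun i => Q i i₀) = e := by
  have hs : LinearIndepOn ℝ id ({e} : Set (ι → ℝ)) := LinearIndepOn.singleton he
  obtain ⟨b, hbt, hsb, htb, hb⟩ := exists_linearIndepOn_extension hs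
    (Set.singleton_subset_iff.2 het)
  rw [Set.image_id, Set.image_id] at htb
  have hspan : Submodule.span ℝ b = ⊤ := by
    rw [eq_top_iff, ← ht]
    exact Submodule.span_le.2 htb
  have hb' : LinearIndependent ℝ (fun x : b => (x : ι → ℝ)) := hb
  let β : Module.Basis b ℝ (ι → ℝ) := Module.Basis.mk hb' (by
    rw [Subtype.range_coe, hspan])
  have hβ : ∀ x : b, β x = x := fun x => Module.Basis.mk_apply _ _ x
  let e1 : b ≃ ι := β.indexEquiv (Pi.basisFun ℝ ι)
  let e2 : b ≃ ι := e1.trans (Equiv.swap (e1 ⟨e, hsb rfl⟩) i₀)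
  let β' : Module.Basis ι ℝ (ι → ℝ) := β.reindex e2
  have hβ' : ∀ j, β' j = (e2.symm j : ι → ℝ) := fun j => by
    change β.reindex e2 j = _
    rw [Module.Basis.reindex_apply, hβ]
  refine ⟨Matrix.of fun i j => β' j i, unit_basis β', fun j => ?_, ?_⟩
  · change β' j ∈ t
    rw [hβ']
    exact hbt (e2.symm j).2
  · change β' i₀ = e
    rw [hβ']
    have h1 : e2.symm i₀ = ⟨e, hsb rfl⟩ := by
      rw [Equiv.symm_apply_eq]
      change i₀ = (Equiv.swap (e1 ⟨e, hsb rfl⟩) i₀) (e1 ⟨e, hsb rfl⟩)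
      rw [Equiv.swap_apply_left]
    rw [h1]

/-- a basis in a spanning set -/
theorem bas0 (t : Set (ι → ℝ)) (ht : Submodule.span ℝ t = ⊤) :
    ∃ Q : Matrix ι ι ℝ, IsUnit Q.det ∧ (∀ j, (fun i => Q i j) ∈ t) := by
  by_cases hι : Nonempty ι
  · obtain ⟨i₀⟩ := hι
    by_cases h : ∃ e ∈ t, e ≠ 0
    · obtain ⟨e, het, he⟩ := h
      obtain ⟨Q, h1, h2, -⟩ := bas t ht i₀ e he het
      exact ⟨Q, h1, h2⟩
    · exfalso
      push Not at h
      have h1 : Submodule.span ℝ t = ⊥ := by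
        rw [Submodule.span_eq_bot]
        exact h
      rw [ht] at h1
      have h2 : (Pi.single i₀ 1 : ι → ℝ) ∈ (⊤ : Submodule ℝ (ι → ℝ)) := Submodule.mem_top
      rw [h1, Submodule.mem_bot] at h2
      have h3 := congrFun h2 i₀
      rw [Pi.single_eq_same, Pi.zero_apply] at h3
      exact one_ne_zero h3
  · rw [not_nonempty_iff] at hι
    refine ⟨1, by rw [Matrix.det_one]; exact isUnit_one, fun j => (hι.false j).elim⟩

theorem dz_add {A B : Matrix ι ι ℝ} (hA : Dz A) (hB : Dz B) (hc : A * B = B * A) :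
    Dz (A + B) := by
  have h1 := sd ({A, B} : Set (Matrix ι ι ℝ)) (by
      rintro M (rfl | rfl)
      · exact hA
      · exact hB) (by
      rintro M (rfl | rfl) N (rfl | rfl)
      · rfl
      · exact hc
      · exact hc.symm
      · rfl)
  obtain ⟨Q, hQ, hQt⟩ := bas0 _ h1
  obtain ⟨d, hd⟩ := dz_of (A + B) Q hQ (fun j => by
    obtain ⟨a, ha⟩ := hQt j A (Or.inl rfl)
    obtain ⟨b, hb⟩ := hQt j B (Or.inr rfl)
    exact ⟨a + b, by rw [Matrix.add_mulVec, ha, hb, add_smul]⟩)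
  exact ⟨Q, d, hQ, hd⟩

/-! ### linear factors -/

theorem row {h : MvPolynomial ι ℝ} (hsq : Squarefree h) {i₀ : ι} (hi : X i₀ ∣ h)
    {A : Matrix ι ι ℝ} (hA : h ∣ der A h) (j : ι) (hj : j ≠ i₀) : A i₀ j = 0 := by
  have hp : Prime (X i₀ : MvPolynomial ι ℝ) := MvPolynomial.X_prime
  obtain ⟨g, rfl⟩ := hi
  have hg : ¬ (X i₀ ∣ g) := by
    rintro ⟨g', rfl⟩
    have h1 := hsq (X i₀) ⟨g', by ring⟩
    exact hp.not_isUnit h1
  have h1 : X i₀ ∣ der A (X i₀ * g) := (dvd_mul_right _ _).trans hA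
  rw [← Comx.D_apply, Derivation.leibniz, Comx.D_X, smul_eq_mul, smul_eq_mul] at h1
  have h2 : X i₀ ∣ g * fld A i₀ := (dvd_add_right (dvd_mul_right _ _)).1 h1
  obtain ⟨q, hq⟩ := (hp.dvd_or_dvd h2).resolve_left hg
  have h3 := Comx.coeff_fld A i₀ j
  rw [hq, coeff_X_mul', if_neg] at h3
  · exact h3.symm
  · rw [Finsupp.mem_support_iff, not_not, Finsupp.single_apply, if_neg hj]

theorem sub_dvd {B : Matrix ι ι ℝ} {f g : MvPolynomial ι ℝ} (h : f ∣ g) : sub B f ∣ sub B g := by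
  unfold LFD.sub
  exact map_dvd _ h

theorem sub_dvd_iff {B : Matrix ι ι ℝ} (hB : IsUnit B.det) {f g : MvPolynomial ι ℝ} :
    sub B f ∣ sub B g ↔ f ∣ g := by
  refine ⟨fun h => ?_, sub_dvd⟩
  have h1 := sub_dvd (B := B⁻¹) h
  rwa [Linx.sub_sub, Linx.sub_sub, Matrix.mul_nonsing_inv B hB, Linx.sub_one, Linx.sub_one] at h1

end Trsx

open Trsx

/-- the spaces of commuting diagonalisable tangent fields -/
def Trsx.Tp {ι : Type} [Fintype ι] [DecidableEq ι] (h : MvPolynomial ι ℝ)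
    (T : Submodule ℝ (Matrix ι ι ℝ)) : Prop :=
  (∀ A ∈ T, h ∣ der A h ∧ Dz A) ∧ ∀ A ∈ T, ∀ B ∈ T, A * B = B * A

theorem thm_Trs : St_Trs := by
  intro ι _ _ h hfree i₀ hi₀
  have hsq := hfree.1
  obtain ⟨T, hT, hmax⟩ := WellFounded.has_min
    (wellFounded_gt : WellFounded ((· > ·) : Submodule ℝ (Matrix ι ι ℝ) → _ → Prop))
    {T | Tp h T} ⟨⊥, by
      refine ⟨fun A hA => ?_, fun A hA B hB => ?_⟩
      · rw [Submodule.mem_bot] at hA
        subst hA
        refine ⟨?_, dz_zero⟩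
        have : der (0 : Matrix ι ι ℝ) h = 0 := by simp [der, fld]
        rw [this]
        exact dvd_zero _
      · rw [Submodule.mem_bot] at hA hB
        rw [hA, hB]⟩
  obtain ⟨hT1, hT2⟩ : Tp h T := hT
  -- simultaneous diagonalisation of the transposed matrices
  have hspan := sd (Matrix.transpose '' (T : Set (Matrix ι ι ℝ))) (by
      rintro _ ⟨A, hA, rfl⟩
      exact dz_transpose (hT1 A hA).2) (by
      rintro _ ⟨A, hA, rfl⟩ _ ⟨B, hB, rfl⟩
      rw [← Matrix.transpose_mul, ← Matrix.transpose_mul, hT2 A hA B hB])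
  obtain ⟨Q, hQ, hQt, hQ0⟩ := bas _ hspan i₀ (Pi.single i₀ 1) (by
      intro h0
      have h1 := congrFun h0 i₀
      rw [Pi.single_eq_same, Pi.zero_apply] at h1
      exact one_ne_zero h1) (by
      rintro _ ⟨A, hA, rfl⟩
      refine ⟨A i₀ i₀, ?_⟩
      funext j
      rw [Matrix.mulVec_single_one, Pi.smul_apply, smul_eq_mul]
      change A i₀ j = _
      by_cases hj : j = i₀
      · subst hj
        rw [Pi.single_eq_same, mul_one]
      · rw [Pi.single_eq_of_ne hj, mul_zero]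
        exact row hsq hi₀ (hT1 A hA).1 j hj)
  obtain ⟨E, hE⟩ : ∃ E, E = Q.transpose := ⟨_, rfl⟩
  have hEu : IsUnit E.det := by rw [hE, Matrix.det_transpose]; exact hQ
  have hEi : IsUnit (E⁻¹).det := Matrix.isUnit_nonsing_inv_det E hEu
  have hEii : (E⁻¹)⁻¹ = E := Matrix.nonsing_inv_nonsing_inv E hEu
  have hdiag : ∀ A ∈ T, ∃ d : ι → ℝ, E * A * E⁻¹ = Matrix.diagonal d := by
    intro A hA
    obtain ⟨d, hd⟩ := dz_of A.transpose Q hQ (fun j => hQt j _ ⟨A, hA, rfl⟩)
    refine ⟨d, ?_⟩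
    have h1 := congrArg Matrix.transpose hd
    rw [Matrix.transpose_mul, Matrix.transpose_mul, Matrix.transpose_transpose,
      Matrix.diagonal_transpose, ← hE] at h1
    rw [h1, Matrix.mul_assoc, Matrix.mul_nonsing_inv E hEu, Matrix.mul_one]
  refine ⟨E⁻¹, hEi, ⟨1, one_ne_zero, ?_⟩, ?_⟩
  · have h1 : ∀ j, E⁻¹ i₀ j = (1 : Matrix ι ι ℝ) i₀ j := by
      intro j
      rw [← Matrix.mul_nonsing_inv E hEu, Matrix.mul_apply, Finset.sum_eq_single i₀]
      · have h2 : E i₀ i₀ = 1 := by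
          rw [hE]
          have h3 := congrFun hQ0 i₀
          rw [Pi.single_eq_same] at h3
          exact h3
        rw [h2, one_mul]
      · intro k _ hk
        have h2 : E i₀ k = 0 := by
          rw [hE]
          have h3 := congrFun hQ0 k
          rw [Pi.single_eq_of_ne hk] at h3
          exact h3
        rw [h2, zero_mul]
      · intro h0
        exact absurd (Finset.mem_univ i₀) h0
    have h2 : sub E⁻¹ (X i₀) = fld E⁻¹ i₀ := by
      unfold LFD.sub
      rw [aeval_X]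
    rw [h2, fld, Finset.sum_eq_single i₀]
    · rw [h1, Matrix.one_apply_eq]
    · intro j _ hj
      rw [h1, Matrix.one_apply_ne (Ne.symm hj), C_0, zero_mul]
    · intro h0
      exact absurd (Finset.mem_univ i₀) h0
  · intro A' hA' hdz hcomm
    obtain ⟨A, hA⟩ : ∃ A, A = E⁻¹ * A' * E := ⟨_, rfl⟩
    have hA2 : E * A * E⁻¹ = A' := by
      rw [hA]
      calc E * (E⁻¹ * A' * E) * E⁻¹ = (E * E⁻¹) * A' * (E * E⁻¹) := by simp only [Matrix.mul_assoc]
        _ = A' := by rw [Matrix.mul_nonsing_inv E hEu, Matrix.one_mul, Matrix.mul_one]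
    have hconj : ∀ M : Matrix ι ι ℝ, h ∣ der M h ↔ sub E⁻¹ h ∣ der (E * M * E⁻¹) (sub E⁻¹ h) := by
      intro M
      have h1 := Linx.der_sub M E⁻¹ hEi h
      rw [hEii] at h1
      rw [h1, sub_dvd_iff hEi]
    have hAt : h ∣ der A h := by
      rw [hconj, hA2]
      exact hA'
    have hAd : Dz A := by
      have h1 := dz_conj hEi hdz
      rwa [hEii, ← hA] at h1
    have hAc : ∀ M ∈ T, A * M = M * A := by
      intro M hM
      obtain ⟨d, hd⟩ := hdiag M hM
      have hdT : d ∈ Tor (sub E⁻¹ h) := by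
        change sub E⁻¹ h ∣ der (Matrix.diagonal d) (sub E⁻¹ h)
        rw [← hd, ← hconj]
        exact (hT1 M hM).1
      have h1 := hcomm d hdT
      rw [← hd] at h1
      have h2 : E⁻¹ * (A' * (E * M * E⁻¹)) * E = A * M := by
        rw [hA]
        calc E⁻¹ * (A' * (E * M * E⁻¹)) * E = E⁻¹ * A' * E * M * (E⁻¹ * E) := by
              simp only [Matrix.mul_assoc]
          _ = E⁻¹ * A' * E * M := by rw [Matrix.nonsing_inv_mul E hEu, Matrix.mul_one]
      have h3 : E⁻¹ * (E * M * E⁻¹ * A') * E = M * A := by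
        rw [hA]
        calc E⁻¹ * (E * M * E⁻¹ * A') * E = (E⁻¹ * E) * M * (E⁻¹ * A' * E) := by
              simp only [Matrix.mul_assoc]
          _ = M * (E⁻¹ * A' * E) := by rw [Matrix.nonsing_inv_mul E hEu, Matrix.one_mul]
      rw [← h2, ← h3, h1]
    have hAT : A ∈ T := by
      by_contra hAT
      apply hmax (T ⊔ Submodule.span ℝ {A})
      · refine ⟨?_, ?_⟩
        · intro M hM
          rw [Submodule.mem_sup] at hM
          obtain ⟨M1, hM1, M2, hM2, rfl⟩ := hM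
          rw [Submodule.mem_span_singleton] at hM2
          obtain ⟨c, rfl⟩ := hM2
          refine ⟨?_, ?_⟩
          · rw [der_add, der_smul]
            exact dvd_add (hT1 M1 hM1).1 (dvd_mul_of_dvd_right hAt _)
          · apply dz_add (hT1 M1 hM1).2 (dz_smul c hAd)
            rw [Matrix.mul_smul, Matrix.smul_mul, hAc M1 hM1]
        · intro M hM N hN
          rw [Submodule.mem_sup] at hM hN
          obtain ⟨M1, hM1, M2, hM2, rfl⟩ := hM
          obtain ⟨N1, hN1, N2, hN2, rfl⟩ := hN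
          rw [Submodule.mem_span_singleton] at hM2 hN2
          obtain ⟨c, rfl⟩ := hM2
          obtain ⟨d, rfl⟩ := hN2
          have e1 : (M1 + c • A) * (N1 + d • A) =
              M1 * N1 + d • (M1 * A) + c • (A * N1) + (c * d) • (A * A) := by
            simp only [Matrix.mul_add, Matrix.add_mul, Matrix.mul_smul, Matrix.smul_mul, smul_add,
              smul_smul, mul_comm d c]
            abel
          have e2 : (N1 + d • A) * (M1 + c • A) =
              N1 * M1 + c • (N1 * A) + d • (A * M1) + (c * d) • (A * A) := by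
            simp only [Matrix.mul_add, Matrix.add_mul, Matrix.mul_smul, Matrix.smul_mul, smul_add,
              smul_smul, mul_comm d c]
            abel
          rw [e1, e2, hT2 M1 hM1 N1 hN1, hAc M1 hM1, hAc N1 hN1]
          abel
      · refine lt_of_le_of_ne le_sup_left ?_
        intro h0
        apply hAT
        rw [h0]
        exact Submodule.mem_sup_right (Submodule.mem_span_singleton_self A)
    obtain ⟨d, hd⟩ := hdiag A hAT
    exact ⟨d, by rw [← hA2, hd]⟩

end Pool.Agent.LFS
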