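import Pool.Agent.LFS.St

/-! **Unq.** The normal forms are pairwise inequivalent. -/

set_option autoImplicit false

noncomputable section

open scoped Polynomial
open MvPolynomial Pool.Agent.Helper28.Nij Pool.Agent.LFD

namespace Pool.Agent.LFS

namespace Unqx

open Pool.Agent.LFD.Injx

/-! ### Linear factors -/

/-- the linear factor `t + l` -/
def lf {n : ℕ} (l : Fin n → ℝ) : MvPolynomial (Option (Fin n)) ℝ :=
  X none + ∑ i, C (l i) * X (some i)

/-- evaluation at `(x, t)` -/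
def ev {n : ℕ} (F : MvPolynomial (Option (Fin n)) ℝ) (x : Fin n → ℝ) (t : ℝ) : ℝ :=
  eval (fun o : Option (Fin n) => o.elim t x) F

theorem ev_lf {n : ℕ} (l x : Fin n → ℝ) (t : ℝ) : ev (lf l) x t = t + ∑ i, l i * x i := by
  unfold ev lf
  simp [map_sum]

theorem lf_prime {n : ℕ} (l : Fin n → ℝ) : Prime (lf l) := by
  classical
  have hc : coeff (Finsupp.single none 1) (lf l) = 1 := by
    unfold lf
    rw [coeff_add, coeff_X, if_pos rfl, coeff_sum]
    have h : ∀ i : Fin n, coeff (Finsupp.single (none : Option (Fin n)) 1)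
        (C (l i) * X (some i) : MvPolynomial (Option (Fin n)) ℝ) = 0 := by
      intro i
      rw [coeff_C_mul, coeff_X, if_neg, mul_zero]
      intro h
      rw [Finsupp.single_left_inj one_ne_zero] at h
      exact Option.some_ne_none _ h
    rw [Finset.sum_eq_zero fun i _ => h i, add_zero]
  apply Irreducible.prime
  apply irreducible_of_totalDegree_eq_one
  · apply le_antisymm
    · unfold lf
      refine (totalDegree_add _ _).trans (max_le ?_ ?_)
      · rw [totalDegree_X]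
      · refine totalDegree_finsetSum_le fun i _ => ?_
        refine (totalDegree_mul _ _).trans ?_
        rw [totalDegree_C, totalDegree_X]
    · have h := le_totalDegree (p := lf l) (s := Finsupp.single none 1)
        (by rw [mem_support_iff, hc]; exact one_ne_zero)
      rw [Finsupp.sum_single_index rfl] at h
      exact h
  · intro x hx
    have := hx (Finsupp.single none 1)
    rw [hc] at this
    exact isUnit_of_dvd_one this

/-- cancellation of the linear factors -/
theorem key {R : Type} [CommRing R] [IsDomain R] (s : Multiset R) :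
    ∀ (Q Q' P : R), (∀ p ∈ s, Prime p ∧ ¬ p ∣ Q') → Q' * P = Q * s.prod → s.prod ∣ P := by
  induction s using Multiset.induction_on with
  | empty => intro Q Q' P _ _; rw [Multiset.prod_zero]; exact one_dvd _
  | cons p s ih =>
    intro Q Q' P h e
    rw [Multiset.prod_cons] at e ⊢
    have hp := h p (Multiset.mem_cons_self p s)
    have h1 : p ∣ Q' * P := by rw [e]; exact ⟨Q * s.prod, by ring⟩
    rcases hp.1.dvd_or_dvd h1 with h2 | ⟨P1, hP1⟩
    · exact absurd h2 hp.2
    · have h3 : Q' * P1 = Q * s.prod := by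
        apply mul_left_cancel₀ hp.1.ne_zero
        rw [hP1] at e
        linear_combination e
      rw [hP1]
      exact mul_dvd_mul_left p (ih Q Q' P1 (fun r hr => h r (Multiset.mem_cons_of_mem hr)) h3)

theorem key2 {R : Type} [CommRing R] [IsDomain R] (s s' : Multiset R) (Q Q' : R)
    (h1 : ∀ p ∈ s, Prime p ∧ ¬ p ∣ Q') (h2 : ∀ p ∈ s', Prime p ∧ ¬ p ∣ Q)
    (e : Q' * s'.prod = Q * s.prod) : Associated Q Q' := by
  have hs : s.prod ≠ 0 := Multiset.prod_ne_zero fun h => (h1 0 h).1.ne_zero rfl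
  have hs' : s'.prod ≠ 0 := Multiset.prod_ne_zero fun h => (h2 0 h).1.ne_zero rfl
  obtain ⟨c, hc⟩ := key s Q Q' s'.prod h1 e
  obtain ⟨c', hc'⟩ := key s' Q' Q s.prod h2 e.symm
  apply associated_of_dvd_dvd
  · refine ⟨c', ?_⟩
    apply mul_right_cancel₀ hs'
    rw [e, hc']
    ring
  · refine ⟨c, ?_⟩
    apply mul_right_cancel₀ hs
    rw [← e, hc]
    ring

/-! ### The quadratic factors -/

/-- the quadratic factor -/
def Qp (n : ℕ) : Fin 8 → MvPolynomial (Option (Fin n)) ℝ
  | 0 => 1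
  | 1 => (X none + vx n 0) ^ 2 + vx n 1 ^ 2
  | 2 => X none ^ 2 + vx n 0 * X none + vx n 1 ^ 2
  | 3 => X none ^ 2 + vx n 0 * X none - vx n 1 ^ 2
  | 4 => X none ^ 2 + vx n 1 * X none + vx n 0 * (vx n 1 - vx n 0) + vx n 2 ^ 2
  | 5 => X none ^ 2 + vx n 1 * X none + vx n 0 * (vx n 1 - vx n 0) - vx n 2 ^ 2
  | 6 => X none ^ 2 + vx n 1 * X none + vx n 0 * vx n 2
  | 7 => (X none + vx n 0) * (X none + vx n 2) - (X none + vx n 1) * vx n 3

/-- its values -/
def qs : Fin 8 → (ℕ → ℝ) → ℝ → ℝ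
  | 0, _, _ => 1
  | 1, y, t => (t + y 0) ^ 2 + y 1 ^ 2
  | 2, y, t => t ^ 2 + y 0 * t + y 1 ^ 2
  | 3, y, t => t ^ 2 + y 0 * t - y 1 ^ 2
  | 4, y, t => t ^ 2 + y 1 * t + y 0 * (y 1 - y 0) + y 2 ^ 2
  | 5, y, t => t ^ 2 + y 1 * t + y 0 * (y 1 - y 0) - y 2 ^ 2
  | 6, y, t => t ^ 2 + y 1 * t + y 0 * y 2
  | 7, y, t => (t + y 0) * (t + y 2) - (t + y 1) * y 3

/-- the coordinates, continued by `0` -/
def g {n : ℕ} (x : Fin n → ℝ) (i : ℕ) : ℝ := if h : i < n then x ⟨i, h⟩ else 0

theorem ev_vx {n : ℕ} (i : ℕ) (x : Fin n → ℝ) (t : ℝ) :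
    eval (fun o : Option (Fin n) => o.elim t x) (vx n i) = g x i := by
  unfold vx g
  split_ifs with h
  · rw [eval_X]; rfl
  · rw [map_zero]

theorem all8 : ∀ k : Fin 8, k = 0 ∨ k = 1 ∨ k = 2 ∨ k = 3 ∨ k = 4 ∨ k = 5 ∨ k = 6 ∨ k = 7 := by
  decide

theorem ev_Qp {n : ℕ} (k : Fin 8) (x : Fin n → ℝ) (t : ℝ) : ev (Qp n k) x t = qs k (g x) t := by
  have ht : eval (fun o : Option (Fin n) => o.elim t x) (X none) = t := by rw [eval_X]; rfl
  unfold ev
  rcases all8 k with rfl | rfl | rfl | rfl | rfl | rfl | rfl | rfl <;>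
    simp only [Qp, qs, map_add, map_sub, map_mul, map_pow, map_one, ev_vx, ht]

theorem vx_lf {n i : ℕ} (h : i < n) : ∃ l : Fin n → ℝ, X none + vx n i = lf l := by
  classical
  refine ⟨Pi.single ⟨i, h⟩ 1, ?_⟩
  unfold lf vx
  rw [dif_pos h, Finset.sum_eq_single ⟨i, h⟩]
  · rw [Pi.single_eq_same, C_1, one_mul]
  · intro j _ hj
    rw [Pi.single_eq_of_ne hj, C_0, zero_mul]
  · intro h'
    exact absurd (Finset.mem_univ _) h'

/-- the normal form is the quadratic factor times linear factors -/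
theorem dat {n : ℕ} (k : Fin 8) (hk : dm k ≤ n) :
    ∃ s : Multiset (MvPolynomial (Option (Fin n)) ℝ), (∀ p ∈ s, ∃ l : Fin n → ℝ, p = lf l) ∧
      NF n k = Qp n k * s.prod := by
  obtain ⟨s0, hs0, hp0⟩ : ∃ s0 : Multiset (MvPolynomial (Option (Fin n)) ℝ),
      (∀ p ∈ s0, ∃ l : Fin n → ℝ, p = lf l) ∧
      ∏ i ∈ Finset.Ico (dm k) n, (X none + vx n i) = s0.prod := by
    refine ⟨(Finset.Ico (dm k) n).val.map fun i => X none + vx n i, ?_, rfl⟩
    intro p hp
    rw [Multiset.mem_map] at hp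
    obtain ⟨i, hi, rfl⟩ := hp
    have hi' : i ∈ Finset.Ico (dm k) n := hi
    rw [Finset.mem_Ico] at hi'
    exact vx_lf hi'.2
  unfold NF
  rw [hp0]
  rcases all8 k with rfl | rfl | rfl | rfl | rfl | rfl | rfl | rfl
  · exact ⟨s0, hs0, rfl⟩
  · exact ⟨s0, hs0, rfl⟩
  · exact ⟨s0, hs0, rfl⟩
  · exact ⟨s0, hs0, rfl⟩
  · have h3 : 3 ≤ n := hk
    obtain ⟨l, hl⟩ := vx_lf (n := n) (i := 0) (by omega)
    refine ⟨(X none + vx n 0) ::ₘ s0, ?_, ?_⟩
    · intro p hp
      rcases Multiset.mem_cons.1 hp with rfl | hp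
      · exact ⟨l, hl⟩
      · exact hs0 p hp
    · rw [Multiset.prod_cons]
      have : core n 4 = (X none + vx n 0) * Qp n 4 := rfl
      rw [this]
      ring
  · have h3 : 3 ≤ n := hk
    obtain ⟨l, hl⟩ := vx_lf (n := n) (i := 0) (by omega)
    refine ⟨(X none + vx n 0) ::ₘ s0, ?_, ?_⟩
    · intro p hp
      rcases Multiset.mem_cons.1 hp with rfl | hp
      · exact ⟨l, hl⟩
      · exact hs0 p hp
    · rw [Multiset.prod_cons]
      have : core n 5 = (X none + vx n 0) * Qp n 5 := rfl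
      rw [this]
      ring
  · have h3 : 3 ≤ n := hk
    obtain ⟨l, hl⟩ := vx_lf (n := n) (i := 0) (by omega)
    refine ⟨(X none + vx n 0) ::ₘ s0, ?_, ?_⟩
    · intro p hp
      rcases Multiset.mem_cons.1 hp with rfl | hp
      · exact ⟨l, hl⟩
      · exact hs0 p hp
    · rw [Multiset.prod_cons]
      have : core n 6 = (X none + vx n 0) * Qp n 6 := rfl
      rw [this]
      ring
  · have h3 : 4 ≤ n := hk
    obtain ⟨l, hl⟩ := vx_lf (n := n) (i := 0) (by omega)
    obtain ⟨l', hl'⟩ := vx_lf (n := n) (i := 1) (by omega)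
    refine ⟨(X none + vx n 0) ::ₘ (X none + vx n 1) ::ₘ s0, ?_, ?_⟩
    · intro p hp
      rcases Multiset.mem_cons.1 hp with rfl | hp
      · exact ⟨l, hl⟩
      · rcases Multiset.mem_cons.1 hp with rfl | hp
        · exact ⟨l', hl'⟩
        · exact hs0 p hp
    · rw [Multiset.prod_cons, Multiset.prod_cons]
      have : core n 7 = (X none + vx n 0) * (X none + vx n 1) * Qp n 7 := rfl
      rw [this]
      ring

/-! ### Points -/

/-- the point `(a, b, c, d, 0, …)` -/
def pt {n : ℕ} (a b c d : ℝ) (i : Fin n) : ℝ :=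
  if i.val = 0 then a else if i.val = 1 then b else if i.val = 2 then c else
    if i.val = 3 then d else 0

theorem g0 {n : ℕ} (h : 0 < n) (a b c d : ℝ) : g (pt (n := n) a b c d) 0 = a := by
  unfold g; rw [dif_pos h]; rfl

theorem g1 {n : ℕ} (h : 1 < n) (a b c d : ℝ) : g (pt (n := n) a b c d) 1 = b := by
  unfold g; rw [dif_pos h]; rfl

theorem g2 {n : ℕ} (h : 2 < n) (a b c d : ℝ) : g (pt (n := n) a b c d) 2 = c := by
  unfold g; rw [dif_pos h]; rfl

theorem g3 {n : ℕ} (h : 3 < n) (a b c d : ℝ) : g (pt (n := n) a b c d) 3 = d := by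
  unfold g; rw [dif_pos h]; rfl

theorem g_add {n : ℕ} (x v : Fin n → ℝ) (i : ℕ) : g (x + v) i = g x i + g v i := by
  unfold g
  split_ifs with h
  · rfl
  · rw [add_zero]

theorem g_zero {n : ℕ} (i : ℕ) : g (0 : Fin n → ℝ) i = 0 := by
  unfold g
  split_ifs with h
  · rfl
  · rfl

theorem lin {n : ℕ} (l : Fin n → ℝ) (a b c d : ℝ) : ∑ i, l i * pt a b c d i =
    a * (∑ i, l i * pt 1 0 0 0 i) + b * (∑ i, l i * pt 0 1 0 0 i) +
      c * (∑ i, l i * pt 0 0 1 0 i) + d * (∑ i, l i * pt 0 0 0 1 i) := by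
  simp only [Finset.mul_sum]
  rw [← Finset.sum_add_distrib, ← Finset.sum_add_distrib, ← Finset.sum_add_distrib]
  refine Finset.sum_congr rfl fun i _ => ?_
  unfold pt
  split_ifs <;> ring

/-- no linear form divides the quadratic factor -/
theorem nd {n : ℕ} (k : Fin 8) (hk : dm k ≤ n) (l : Fin n → ℝ) :
    ∃ x : Fin n → ℝ, qs k (g x) (-∑ i, l i * x i) ≠ 0 := by
  by_contra hcon
  push Not at hcon
  have h := fun a b c d => hcon (pt a b c d)
  have hl := lin l
  obtain ⟨α, hα⟩ : ∃ α, α = ∑ i, l i * pt 1 0 0 0 i := ⟨_, rfl⟩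
  obtain ⟨β, hβ⟩ : ∃ β, β = ∑ i, l i * pt 0 1 0 0 i := ⟨_, rfl⟩
  obtain ⟨γ, hγ⟩ : ∃ γ, γ = ∑ i, l i * pt 0 0 1 0 i := ⟨_, rfl⟩
  obtain ⟨δ, hδ⟩ : ∃ δ, δ = ∑ i, l i * pt 0 0 0 1 i := ⟨_, rfl⟩
  simp only [← hα, ← hβ, ← hγ, ← hδ] at hl
  simp only [hl] at h
  rcases all8 k with rfl | rfl | rfl | rfl | rfl | rfl | rfl | rfl
  · have := h 0 0 0 0
    simp [qs] at this
  · have h2 : 2 ≤ n := hk
    simp only [qs, g0 (show 0 < n by omega), g1 (show 1 < n by omega)] at h
    have := h 0 1 0 0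
    nlinarith [sq_nonneg β]
  · have h2 : 2 ≤ n := hk
    simp only [qs, g0 (show 0 < n by omega), g1 (show 1 < n by omega)] at h
    have := h 0 1 0 0
    nlinarith [sq_nonneg β]
  · have h2 : 2 ≤ n := hk
    simp only [qs, g0 (show 0 < n by omega), g1 (show 1 < n by omega)] at h
    have e1 := h 1 0 0 0
    have e2 := h 0 1 0 0
    have e3 := h 1 1 0 0
    have e4 := h 1 (-1) 0 0
    have e5 : β * (2 * α - 1) = 0 := by linear_combination (e3 - e4) / 2
    rcases mul_eq_zero.1 e5 with e6 | e6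
    · rw [e6] at e2
      norm_num at e2
    · have e7 : α = 1 / 2 := by linarith
      rw [e7] at e1
      norm_num at e1
  · have h2 : 3 ≤ n := hk
    simp only [qs, g0 (show 0 < n by omega), g1 (show 1 < n by omega),
      g2 (show 2 < n by omega)] at h
    have := h 0 0 1 0
    nlinarith [sq_nonneg γ]
  · have h2 : 3 ≤ n := hk
    simp only [qs, g0 (show 0 < n by omega), g1 (show 1 < n by omega),
      g2 (show 2 < n by omega)] at h
    have e1 := h 1 0 0 0
    have e2 := h 0 0 1 0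
    have e3 := h 1 0 1 0
    have e4 : α ^ 2 = 1 := by linear_combination e1
    have e5 : γ ^ 2 = 1 := by linear_combination e2
    have e6 : α * γ = 0 := by linear_combination (e3 - e1 - e2) / 2
    rcases mul_eq_zero.1 e6 with e7 | e7
    · rw [e7] at e4
      norm_num at e4
    · rw [e7] at e5
      norm_num at e5
  · have h2 : 3 ≤ n := hk
    simp only [qs, g0 (show 0 < n by omega), g1 (show 1 < n by omega),
      g2 (show 2 < n by omega)] at h
    have := h 1 0 1 0
    nlinarith [sq_nonneg (α + γ)]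
  · have h2 : 4 ≤ n := hk
    simp only [qs, g0 (show 0 < n by omega), g1 (show 1 < n by omega),
      g2 (show 2 < n by omega), g3 (show 3 < n by omega)] at h
    have e1 := h 0 1 0 0
    have e2 := h 0 0 0 1
    have e3 := h 0 1 0 1
    have e4 : β ^ 2 = 0 := by linear_combination e1
    have e5 : β = 0 := pow_eq_zero_iff (two_ne_zero) |>.1 e4
    rw [e5] at e3
    linarith

/-! ### Invariants -/

/-- `k` and `k'` are related by an invertible matrix -/
def Rel (n : ℕ) (k k' : Fin 8) : Prop :=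
  ∃ A B : Matrix (Fin n) (Fin n) ℝ, A * B = 1 ∧ B * A = 1 ∧
    ∀ (x : Fin n → ℝ) (t : ℝ), qs k' (g x) t = qs k (g (A.mulVec x)) t

theorem Rel.symm {n : ℕ} {k k' : Fin 8} (h : Rel n k k') : Rel n k' k := by
  obtain ⟨A, B, h1, h2, h3⟩ := h
  refine ⟨B, A, h2, h1, fun x t => ?_⟩
  rw [h3, Matrix.mulVec_mulVec, h1, Matrix.one_mulVec]

/-- nonnegative -/
def I1 (n : ℕ) (k : Fin 8) : Prop := ∀ (x : Fin n → ℝ) (t : ℝ), 0 ≤ qs k (g x) t

/-- real zeros -/
def I2 (n : ℕ) (k : Fin 8) : Prop := ∀ x : Fin n → ℝ, ∃ t : ℝ, qs k (g x) t ≤ 0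

/-- a translation -/
def I3 (n : ℕ) (k : Fin 8) : Prop := ∃ v : Fin n → ℝ, ∀ (x : Fin n → ℝ) (t : ℝ),
  qs k (g (x + v)) (t + 1) = qs k (g x) t

theorem Rel.i1 {n : ℕ} {k k' : Fin 8} (h : Rel n k k') (hk : I1 n k) : I1 n k' := by
  obtain ⟨A, B, h1, h2, h3⟩ := h
  intro x t
  rw [h3]
  exact hk _ _

theorem Rel.i2 {n : ℕ} {k k' : Fin 8} (h : Rel n k k') (hk : I2 n k) : I2 n k' := by
  obtain ⟨A, B, h1, h2, h3⟩ := h
  intro x
  obtain ⟨t, ht⟩ := hk (A.mulVec x)
  exact ⟨t, by rw [h3]; exact ht⟩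

theorem Rel.i3 {n : ℕ} {k k' : Fin 8} (h : Rel n k k') (hk : I3 n k) : I3 n k' := by
  obtain ⟨A, B, h1, h2, h3⟩ := h
  obtain ⟨v, hv⟩ := hk
  refine ⟨B.mulVec v, fun x t => ?_⟩
  rw [h3, h3, Matrix.mulVec_add, Matrix.mulVec_mulVec, h1, Matrix.one_mulVec]
  exact hv _ _

/-- the coordinates of the core -/
def Rd {n d : ℕ} (h : d ≤ n) : (Fin n → ℝ) →ₗ[ℝ] (Fin d → ℝ) :=
  LinearMap.funLeft ℝ ℝ (Fin.castLE h)

theorem Rd_surj {n d : ℕ} (h : d ≤ n) : Function.Surjective (Rd h) :=
  LinearMap.funLeft_surjective_of_injective ℝ ℝ _ (Fin.castLE_injective h)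

theorem Rd_ker {n d : ℕ} (h : d ≤ n) (v : Fin n → ℝ) :
    v ∈ LinearMap.ker (Rd h) ↔ ∀ i < d, g v i = 0 := by
  rw [LinearMap.mem_ker]
  constructor
  · intro e i hi
    have := congrFun e ⟨i, hi⟩
    unfold g
    rw [dif_pos (by omega)]
    exact this
  · intro e
    funext i
    have := e i.val i.isLt
    unfold g at this
    rw [dif_pos (by omega)] at this
    exact this

/-- the translations which do not change the quadratic factor -/
theorem trans_iff {n : ℕ} (k : Fin 8) (hk : dm k ≤ n) (h0 : k ≠ 0) (v : Fin n → ℝ) :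
    (∀ (x : Fin n → ℝ) (t : ℝ), qs k (g (x + v)) t = qs k (g x) t) ↔ ∀ i < dm k, g v i = 0 := by
  rcases all8 k with rfl | rfl | rfl | rfl | rfl | rfl | rfl | rfl
  · exact absurd rfl h0
  · have hd : dm 1 = 2 := rfl
    have h2 : 2 ≤ n := hk
    rw [hd]
    constructor
    · intro h
      simp only [qs, g_add] at h
      have e1 := h 0 0
      simp only [g_zero] at e1
      have e2 : g v 0 = 0 := by nlinarith [sq_nonneg (g v 0), sq_nonneg (g v 1)]
      have e3 : g v 1 = 0 := by nlinarith [sq_nonneg (g v 0), sq_nonneg (g v 1)]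
      intro i hi
      interval_cases i
      · exact e2
      · exact e3
    · intro h x t
      simp only [qs, g_add, h 0 (by omega), h 1 (by omega), add_zero]
  · have hd : dm 2 = 2 := rfl
    have h2 : 2 ≤ n := hk
    rw [hd]
    constructor
    · intro h
      simp only [qs, g_add] at h
      have e1 := h 0 0
      have e4 := h 0 1
      simp only [g_zero] at e1 e4
      have e3 : g v 1 = 0 := by nlinarith [sq_nonneg (g v 1)]
      have e2 : g v 0 = 0 := by
        rw [e3] at e4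
        linarith
      intro i hi
      interval_cases i
      · exact e2
      · exact e3
    · intro h x t
      simp only [qs, g_add, h 0 (by omega), h 1 (by omega), add_zero]
  · have hd : dm 3 = 2 := rfl
    have h2 : 2 ≤ n := hk
    rw [hd]
    constructor
    · intro h
      simp only [qs, g_add] at h
      have e1 := h 0 0
      have e4 := h 0 1
      simp only [g_zero] at e1 e4
      have e3 : g v 1 = 0 := by nlinarith [sq_nonneg (g v 1)]
      have e2 : g v 0 = 0 := by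
        rw [e3] at e4
        linarith
      intro i hi
      interval_cases i
      · exact e2
      · exact e3
    · intro h x t
      simp only [qs, g_add, h 0 (by omega), h 1 (by omega), add_zero]
  · have hd : dm 4 = 3 := rfl
    have h2 : 3 ≤ n := hk
    rw [hd]
    constructor
    · intro h
      simp only [qs, g_add] at h
      have e1 := h 0 0
      have e2 := h 0 1
      have e3 := h (pt 1 0 0 0) 0
      simp only [g_zero] at e1 e2
      simp only [g0 (show 0 < n by omega), g1 (show 1 < n by omega),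
        g2 (show 2 < n by omega)] at e3
      have f1 : g v 1 = 0 := by linarith
      rw [f1] at e1 e3
      have f0 : g v 0 = 0 := by nlinarith
      rw [f0] at e1
      have f2 : g v 2 = 0 := by nlinarith [sq_nonneg (g v 2)]
      intro i hi
      interval_cases i
      · exact f0
      · exact f1
      · exact f2
    · intro h x t
      simp only [qs, g_add, h 0 (by omega), h 1 (by omega), h 2 (by omega), add_zero]
  · have hd : dm 5 = 3 := rfl
    have h2 : 3 ≤ n := hk
    rw [hd]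
    constructor
    · intro h
      simp only [qs, g_add] at h
      have e1 := h 0 0
      have e2 := h 0 1
      have e3 := h (pt 1 0 0 0) 0
      simp only [g_zero] at e1 e2
      simp only [g0 (show 0 < n by omega), g1 (show 1 < n by omega),
        g2 (show 2 < n by omega)] at e3
      have f1 : g v 1 = 0 := by linarith
      rw [f1] at e1 e3
      have f0 : g v 0 = 0 := by nlinarith
      rw [f0] at e1
      have f2 : g v 2 = 0 := by nlinarith [sq_nonneg (g v 2)]
      intro i hi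
      interval_cases i
      · exact f0
      · exact f1
      · exact f2
    · intro h x t
      simp only [qs, g_add, h 0 (by omega), h 1 (by omega), h 2 (by omega), add_zero]
  · have hd : dm 6 = 3 := rfl
    have h2 : 3 ≤ n := hk
    rw [hd]
    constructor
    · intro h
      simp only [qs, g_add] at h
      have e1 := h 0 0
      have e2 := h 0 1
      have e3 := h (pt 1 0 0 0) 0
      have e4 := h (pt 0 0 1 0) 0
      simp only [g_zero] at e1 e2
      simp only [g0 (show 0 < n by omega), g1 (show 1 < n by omega),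
        g2 (show 2 < n by omega)] at e3 e4
      have f1 : g v 1 = 0 := by linarith
      have f2 : g v 2 = 0 := by nlinarith
      have f0 : g v 0 = 0 := by nlinarith
      intro i hi
      interval_cases i
      · exact f0
      · exact f1
      · exact f2
    · intro h x t
      simp only [qs, g_add, h 0 (by omega), h 1 (by omega), h 2 (by omega), add_zero]
  · have hd : dm 7 = 4 := rfl
    have h2 : 4 ≤ n := hk
    rw [hd]
    constructor
    · intro h
      simp only [qs, g_add] at h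
      have e1 := h 0 0
      have e2 := h 0 1
      have e3 := h (pt 1 0 0 0) 0
      have e4 := h (pt 0 0 1 0) 0
      have e5 := h (pt 0 0 0 1) 0
      simp only [g_zero] at e1 e2
      simp only [g0 (show 0 < n by omega), g1 (show 1 < n by omega),
        g2 (show 2 < n by omega), g3 (show 3 < n by omega)] at e3 e4 e5
      have f2 : g v 2 = 0 := by linear_combination e3 - e1
      have f0 : g v 0 = 0 := by linear_combination e4 - e1
      have f1 : g v 1 = 0 := by linear_combination e1 - e5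
      have f3 : g v 3 = 0 := by
        rw [f0, f1, f2] at e2
        linarith
      intro i hi
      interval_cases i
      · exact f0
      · exact f1
      · exact f2
      · exact f3
    · intro h x t
      simp only [qs, g_add, h 0 (by omega), h 1 (by omega), h 2 (by omega), h 3 (by omega),
        add_zero]

theorem Rel.dm {n : ℕ} {k k' : Fin 8} (h : Rel n k k') (hk : dm k ≤ n) (hk' : LFS.dm k' ≤ n)
    (h0 : k ≠ 0) (h0' : k' ≠ 0) : LFS.dm k = LFS.dm k' := by
  obtain ⟨A, B, h1, h2, h3⟩ := h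
  have hker : LinearMap.ker (Rd hk') = LinearMap.ker (Rd hk ∘ₗ A.mulVecLin) := by
    ext v
    rw [Rd_ker, ← trans_iff k' hk' h0' v]
    have e : (v ∈ LinearMap.ker (Rd hk ∘ₗ A.mulVecLin)) ↔ A.mulVec v ∈ LinearMap.ker (Rd hk) := by
      rw [LinearMap.mem_ker, LinearMap.mem_ker]; rfl
    rw [e, Rd_ker, ← trans_iff k hk h0 (A.mulVec v)]
    constructor
    · intro h x t
      have h4 := h (B.mulVec x) t
      rw [h3, h3, Matrix.mulVec_add, Matrix.mulVec_mulVec, h1, Matrix.one_mulVec] at h4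
      exact h4
    · intro h x t
      rw [h3, h3, Matrix.mulVec_add]
      exact h _ _
  have hs : Function.Surjective (Rd hk ∘ₗ A.mulVecLin) := by
    intro y
    obtain ⟨x, hx⟩ := Rd_surj hk y
    refine ⟨B.mulVec x, ?_⟩
    rw [LinearMap.comp_apply, Matrix.mulVecLin_apply, Matrix.mulVec_mulVec, h1,
      Matrix.one_mulVec, hx]
  have r1 := LinearMap.finrank_range_add_finrank_ker (Rd hk')
  have r2 := LinearMap.finrank_range_add_finrank_ker (Rd hk ∘ₗ A.mulVecLin)
  rw [LinearMap.range_eq_top.2 (Rd_surj hk'), finrank_top, Module.finrank_fin_fun] at r1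
  rw [LinearMap.range_eq_top.2 hs, finrank_top, Module.finrank_fin_fun, ← hker] at r2
  omega

theorem i1_1 (n : ℕ) : I1 n 1 := by
  intro x t
  simp only [qs]
  positivity

theorem n1_2 {n : ℕ} (h : 2 ≤ n) : ¬ I1 n 2 := by
  intro hI
  have := hI (pt 3 0 0 0) (-1)
  simp only [qs, g0 (show 0 < n by omega), g1 (show 1 < n by omega)] at this
  norm_num at this

theorem n1_3 {n : ℕ} (h : 2 ≤ n) : ¬ I1 n 3 := by
  intro hI
  have := hI (pt 0 1 0 0) 0
  simp only [qs, g0 (show 0 < n by omega), g1 (show 1 < n by omega)] at this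
  norm_num at this

theorem i2_3 (n : ℕ) : I2 n 3 := by
  intro x
  refine ⟨0, ?_⟩
  simp only [qs]
  nlinarith [sq_nonneg (g x 1)]

theorem i2_5 (n : ℕ) : I2 n 5 := by
  intro x
  refine ⟨-g x 0, ?_⟩
  simp only [qs]
  nlinarith [sq_nonneg (g x 2)]

theorem n2_2 {n : ℕ} (h : 2 ≤ n) : ¬ I2 n 2 := by
  intro hI
  obtain ⟨t, ht⟩ := hI (pt 0 1 0 0)
  simp only [qs, g0 (show 0 < n by omega), g1 (show 1 < n by omega)] at ht
  nlinarith [sq_nonneg t]

theorem n2_4 {n : ℕ} (h : 3 ≤ n) : ¬ I2 n 4 := by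
  intro hI
  obtain ⟨t, ht⟩ := hI (pt 0 0 1 0)
  simp only [qs, g0 (show 0 < n by omega), g1 (show 1 < n by omega),
    g2 (show 2 < n by omega)] at ht
  nlinarith [sq_nonneg t]

theorem n2_6 {n : ℕ} (h : 3 ≤ n) : ¬ I2 n 6 := by
  intro hI
  obtain ⟨t, ht⟩ := hI (pt 1 0 1 0)
  simp only [qs, g0 (show 0 < n by omega), g1 (show 1 < n by omega),
    g2 (show 2 < n by omega)] at ht
  nlinarith [sq_nonneg t]

theorem i3_4 {n : ℕ} (h : 3 ≤ n) : I3 n 4 := by
  refine ⟨pt (-1) (-2) 0 0, fun x t => ?_⟩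
  simp only [qs, g_add, g0 (show 0 < n by omega), g1 (show 1 < n by omega),
    g2 (show 2 < n by omega)]
  ring

theorem n3_6 {n : ℕ} (h : 3 ≤ n) : ¬ I3 n 6 := by
  rintro ⟨v, hv⟩
  have e1 := hv 0 0
  have e2 := hv (pt 0 1 0 0) 0
  simp only [qs, g_add, g_zero] at e1
  simp only [qs, g_add, g0 (show 0 < n by omega), g1 (show 1 < n by omega),
    g2 (show 2 < n by omega)] at e2
  linarith

theorem fin8 {n : ℕ} {k k' : Fin 8} (h : Rel n k k') (hk : dm k ≤ n) (hk' : dm k' ≤ n)
    (h0 : k ≠ 0) (h0' : k' ≠ 0) : k = k' := by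
  have hd := h.dm hk hk' h0 h0'
  rcases all8 k with rfl | rfl | rfl | rfl | rfl | rfl | rfl | rfl <;>
    rcases all8 k' with rfl | rfl | rfl | rfl | rfl | rfl | rfl | rfl <;>
    first
    | rfl
    | exact absurd rfl h0
    | exact absurd rfl h0'
    | exact absurd hd (by decide)
    | exact absurd (h.i1 (i1_1 n)) (n1_2 hk')
    | exact absurd (h.i1 (i1_1 n)) (n1_3 hk')
    | exact absurd (h.symm.i1 (i1_1 n)) (n1_2 hk)
    | exact absurd (h.symm.i1 (i1_1 n)) (n1_3 hk)
    | exact absurd (h.i2 (i2_3 n)) (n2_2 hk')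
    | exact absurd (h.symm.i2 (i2_3 n)) (n2_2 hk)
    | exact absurd (h.i2 (i2_5 n)) (n2_4 hk')
    | exact absurd (h.symm.i2 (i2_5 n)) (n2_4 hk)
    | exact absurd (h.i2 (i2_5 n)) (n2_6 hk')
    | exact absurd (h.symm.i2 (i2_5 n)) (n2_6 hk)
    | exact absurd (h.i3 (i3_4 hk)) (n3_6 hk')
    | exact absurd (h.symm.i3 (i3_4 hk')) (n3_6 hk)

/-! ### The substitution -/

theorem blk_mulVec {n : ℕ} (A : Matrix (Fin n) (Fin n) ℝ) (x : Fin n → ℝ) (t : ℝ) :
    (blk A).mulVec (fun o : Option (Fin n) => o.elim t x) =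
      fun o : Option (Fin n) => o.elim t (A.mulVec x) := by
  funext o
  rcases o with _ | i
  · simp only [Matrix.mulVec, dotProduct, Fintype.sum_option, blk_nn, blk_ns, Option.elim]
    simp
  · simp only [Matrix.mulVec, dotProduct, Fintype.sum_option, blk_sn, blk_ss, Option.elim]
    simp

theorem ev_sub {n : ℕ} (A : Matrix (Fin n) (Fin n) ℝ) (F : MvPolynomial (Option (Fin n)) ℝ)
    (x : Fin n → ℝ) (t : ℝ) : ev (sub (blk A) F) x t = ev F (A.mulVec x) t := by
  unfold ev
  rw [Pool.Agent.LFD.Semx.eval_subst, blk_mulVec]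

theorem sub_lf {n : ℕ} (A : Matrix (Fin n) (Fin n) ℝ) (l : Fin n → ℝ) :
    sub (blk A) (lf l) = lf (Matrix.vecMul l A) := by
  have h1 : sub (blk A) (lf l) = sub (blk A) (X none) +
      ∑ i, C (l i) * sub (blk A) (X (some i)) := by
    unfold sub lf
    rw [map_add, map_sum]
    congr 1
    refine Finset.sum_congr rfl fun i _ => ?_
    rw [map_mul, algHom_C]
    rfl
  have h2 : ∀ i, sub (blk A) (X (some i)) = ∑ j, C (A i j) * X (some j) := by
    intro i
    unfold sub
    rw [aeval_X, fld_some]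
    unfold fld
    rw [map_sum]
    refine Finset.sum_congr rfl fun j _ => ?_
    rw [map_mul, rename_C, rename_X]
  rw [h1, sub_none]
  unfold lf
  congr 1
  simp only [h2, Finset.mul_sum]
  rw [Finset.sum_comm]
  refine Finset.sum_congr rfl fun j _ => ?_
  have h3 : Matrix.vecMul l A j = ∑ i, l i * A i j := rfl
  rw [h3, map_sum, Finset.sum_mul]
  refine Finset.sum_congr rfl fun i _ => ?_
  rw [C_mul]
  ring

theorem ev_mul {n : ℕ} (F G : MvPolynomial (Option (Fin n)) ℝ) (x : Fin n → ℝ) (t : ℝ) :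
    ev (F * G) x t = ev F x t * ev G x t := by
  unfold ev
  rw [map_mul]

theorem ndvd {n : ℕ} (k : Fin 8) (hk : dm k ≤ n) (l : Fin n → ℝ) : ¬ lf l ∣ Qp n k := by
  rintro ⟨c, hc⟩
  obtain ⟨x, hx⟩ := nd k hk l
  apply hx
  rw [← ev_Qp, hc, ev_mul, ev_lf]
  ring

theorem ndvd' {n : ℕ} (k : Fin 8) (hk : dm k ≤ n) (A B : Matrix (Fin n) (Fin n) ℝ)
    (hAB : A * B = 1) (l : Fin n → ℝ) : ¬ lf l ∣ sub (blk A) (Qp n k) := by
  rintro ⟨c, hc⟩
  obtain ⟨y, hy⟩ := nd k hk (Matrix.vecMul l B)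
  apply hy
  have h1 := ev_sub A (Qp n k) (B.mulVec y) (-∑ i, Matrix.vecMul l B i * y i)
  rw [Matrix.mulVec_mulVec, hAB, Matrix.one_mulVec, ev_Qp, hc, ev_mul, ev_lf] at h1
  have h2 : ∑ i, Matrix.vecMul l B i * y i = ∑ i, l i * B.mulVec y i :=
    (Matrix.dotProduct_mulVec l B y).symm
  rw [← h1, h2]
  ring

end Unqx

open Unqx Pool.Agent.LFD.Injx in
theorem thm_Unq : St_Unq := by
  intro n k k' τ τ' hk hk' e e' hL
  obtain ⟨A, hA, hAτ⟩ := hL
  have hAB : A * A⁻¹ = 1 := Matrix.mul_nonsing_inv A hA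
  have hBA : A⁻¹ * A = 1 := Matrix.nonsing_inv_mul A hA
  have hsub : PP τ' = sub (blk A) (PP τ) := by
    rw [sub_PP]
    congr 1
    funext i
    exact (hAτ i).symm
  obtain ⟨s, hs, hF⟩ := dat k hk
  obtain ⟨s', hs', hF'⟩ := dat k' hk'
  obtain ⟨φ, hφ⟩ : ∃ φ : MvPolynomial (Option (Fin n)) ℝ →ₐ[ℝ] MvPolynomial (Option (Fin n)) ℝ,
      ∀ f, φ f = sub (blk A) f := ⟨aeval (fun i => fld (blk A) i), fun _ => rfl⟩
  have e1 : Qp n k' * s'.prod = φ (Qp n k) * (s.map φ).prod := by
    rw [← hF', ← e', hsub, e, hF, ← hφ, map_mul, map_multiset_prod]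
  have hass : Associated (φ (Qp n k)) (Qp n k') := by
    apply key2 (s.map φ) s' _ _ _ _ e1
    · intro p hp
      obtain ⟨r, hr, rfl⟩ := Multiset.mem_map.1 hp
      obtain ⟨l, rfl⟩ := hs r hr
      rw [hφ, sub_lf]
      exact ⟨lf_prime _, ndvd k' hk' _⟩
    · intro p hp
      obtain ⟨l, rfl⟩ := hs' p hp
      rw [hφ]
      exact ⟨lf_prime _, ndvd' k hk A A⁻¹ hAB l⟩
  obtain ⟨w, hw⟩ := hass
  obtain ⟨c, -, hc⟩ := isUnit_iff_eq_C_of_isReduced.1 w.isUnit
  rw [hc, hφ] at hw
  have hev : ∀ (x : Fin n → ℝ) (t : ℝ), qs k' (g x) t = qs k (g (A.mulVec x)) t * c := by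
    intro x t
    rw [← ev_Qp, ← hw, ev_mul, ev_sub, ev_Qp]
    congr 1
    unfold ev
    rw [eval_C]
  have hz : ∀ j : Fin 8, j ≠ 0 → ∀ t : ℝ, qs j (g (0 : Fin n → ℝ)) t = t ^ 2 := by
    intro j hj t
    rcases all8 j with rfl | rfl | rfl | rfl | rfl | rfl | rfl | rfl
    · exact absurd rfl hj
    all_goals
      simp only [qs, g_zero]
      ring
  have h1 := hev 0 0
  have h2 := hev 0 1
  have h3 := hev 0 2
  rw [Matrix.mulVec_zero] at h1 h2 h3
  by_cases h0 : k = 0
  · by_cases h0' : k' = 0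
    · rw [h0, h0']
    · exfalso
      rw [hz k' h0', h0] at h1 h2
      simp only [qs] at h1 h2
      linarith
  · by_cases h0' : k' = 0
    · exfalso
      rw [hz k h0, h0'] at h1
      simp only [qs] at h1
      linarith
    · rw [hz k' h0', hz k h0] at h2
      have hc1 : c = 1 := by linarith
      refine fin8 ⟨A, A⁻¹, hAB, hBA, fun x t => ?_⟩ hk hk' h0 h0'
      rw [hev, hc1, mul_one]

end Pool.Agent.LFS
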