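import Pool.Agent.LFS.St

/-!
# Module Zer: a derivation with imaginary eigenvalues has no real eigenvalue but `0` (helper30)
-/

set_option autoImplicit false

noncomputable section

namespace Pool.Agent.LFS

open scoped Polynomial
open MvPolynomial Pool.Agent.Helper28.Nij Pool.Agent.LFD

namespace Zerx

/-- Products of generalised eigenvectors of a derivation. -/
theorem pow_mul {A : Type} [CommRing A] [Algebra ℂ A] (D : Derivation ℂ A A) (κ l : ℂ) :
    ∀ (n a b : ℕ), a + b = n → ∀ f g : A,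
      (((D : A →ₗ[ℂ] A) - κ • (1 : Module.End ℂ A) : Module.End ℂ A) ^ a) f = 0 →
      (((D : A →ₗ[ℂ] A) - l • (1 : Module.End ℂ A) : Module.End ℂ A) ^ b) g = 0 →
      (((D : A →ₗ[ℂ] A) - (κ + l) • (1 : Module.End ℂ A) : Module.End ℂ A) ^ n) (f * g) = 0 := by
  intro n
  induction n with
  | zero =>
    intro a b hab f g hf hg
    have ha : a = 0 := by omega
    rw [ha, pow_zero, Module.End.one_apply] at hf
    rw [hf, zero_mul, map_zero]
  | succ n ih =>
    intro a b hab f g hf hg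
    rcases a with _ | a
    · rw [pow_zero, Module.End.one_apply] at hf
      rw [hf, zero_mul, map_zero]
    rcases b with _ | b
    · rw [pow_zero, Module.End.one_apply] at hg
      rw [hg, mul_zero, map_zero]
    have key : ((D : A →ₗ[ℂ] A) - (κ + l) • (1 : Module.End ℂ A) : Module.End ℂ A) (f * g) =
        ((D : A →ₗ[ℂ] A) - κ • (1 : Module.End ℂ A) : Module.End ℂ A) f * g +
          f * ((D : A →ₗ[ℂ] A) - l • (1 : Module.End ℂ A) : Module.End ℂ A) g := by
      simp only [LinearMap.sub_apply, LinearMap.smul_apply, Module.End.one_apply,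
        Derivation.coeFn_coe, Derivation.leibniz, smul_eq_mul]
      rw [add_smul]
      simp only [sub_mul, mul_sub, smul_mul_assoc, mul_smul_comm]
      ring
    rw [pow_succ, Module.End.mul_apply, key, map_add,
      ih a (b + 1) (by omega) _ _ (by rw [← Module.End.mul_apply, ← pow_succ]; exact hf) hg,
      ih (a + 1) b (by omega) _ _ hf (by rw [← Module.End.mul_apply, ← pow_succ]; exact hg),
      add_zero]

theorem mem_mul {A : Type} [CommRing A] [Algebra ℂ A] (D : Derivation ℂ A A) {κ l : ℂ} {f g : A}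
    (hf : f ∈ Module.End.maxGenEigenspace (D : A →ₗ[ℂ] A) κ)
    (hg : g ∈ Module.End.maxGenEigenspace (D : A →ₗ[ℂ] A) l) :
    f * g ∈ Module.End.maxGenEigenspace (D : A →ₗ[ℂ] A) (κ + l) := by
  rw [Module.End.mem_maxGenEigenspace] at hf hg ⊢
  obtain ⟨a, ha⟩ := hf
  obtain ⟨b, hb⟩ := hg
  exact ⟨a + b, pow_mul D κ l (a + b) a b rfl f g ha hb⟩

/-- The sum of the generalised eigenspaces with imaginary eigenvalues. -/
def G {A : Type} [CommRing A] [Algebra ℂ A] (D : Derivation ℂ A A) : Submodule ℂ A :=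
  ⨆ κ : {z : ℂ // z.re = 0}, Module.End.maxGenEigenspace (D : A →ₗ[ℂ] A) κ.1

theorem G_mul {A : Type} [CommRing A] [Algebra ℂ A] (D : Derivation ℂ A A) {f g : A}
    (hf : f ∈ G D) (hg : g ∈ G D) : f * g ∈ G D := by
  refine Submodule.iSup_induction _ (motive := fun x => x * g ∈ G D) hf ?_ ?_ ?_
  · intro κ x hx
    refine Submodule.iSup_induction _ (motive := fun y => x * y ∈ G D) hg ?_ ?_ ?_
    · intro l y hy
      have hre : (κ.1 + l.1).re = 0 := by
        rw [Complex.add_re, κ.2, l.2, add_zero]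
      exact Submodule.mem_iSup_of_mem (⟨κ.1 + l.1, hre⟩ : {z : ℂ // z.re = 0}) (mem_mul D hx hy)
    · rw [mul_zero]
      exact (G D).zero_mem
    · intro y z hy hz
      rw [mul_add]
      exact (G D).add_mem hy hz
  · rw [zero_mul]
    exact (G D).zero_mem
  · intro x y hx hy
    rw [add_mul]
    exact (G D).add_mem hx hy

theorem one_mem {A : Type} [CommRing A] [Algebra ℂ A] (D : Derivation ℂ A A) :
    (1 : A) ∈ G D := by
  refine Submodule.mem_iSup_of_mem (⟨0, Complex.zero_re⟩ : {z : ℂ // z.re = 0}) ?_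
  rw [Module.End.mem_maxGenEigenspace]
  refine ⟨1, ?_⟩
  rw [pow_one, LinearMap.sub_apply, Derivation.coeFn_coe, Derivation.map_one_eq_zero, zero_smul,
    LinearMap.zero_apply, sub_zero]

variable {ι : Type} [Fintype ι] [DecidableEq ι]

/-- The complex derivation of a real matrix. -/
def Dc (N : Matrix ι ι ℝ) : Derivation ℂ (MvPolynomial ι ℂ) (MvPolynomial ι ℂ) :=
  mkDerivation ℂ fun i => ∑ j, C (algebraMap ℝ ℂ (N i j)) * X j

omit [DecidableEq ι] in
theorem Dc_map (N : Matrix ι ι ℝ) (f : MvPolynomial ι ℝ) :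
    Dc N (map (algebraMap ℝ ℂ) f) = map (algebraMap ℝ ℂ) (der N f) := by
  rw [← Comx.D_apply]
  induction f using MvPolynomial.induction_on with
  | C a =>
    rw [map_C, ← algebraMap_eq, ← algebraMap_eq, Derivation.map_algebraMap,
      Derivation.map_algebraMap, map_zero]
  | add p q hp hq => rw [map_add, map_add, map_add, map_add, hp, hq]
  | mul_X p i hp =>
    rw [map_mul, map_X, Derivation.leibniz, Derivation.leibniz, map_add, hp, Comx.D_X]
    simp only [smul_eq_mul, map_mul, map_X]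
    congr 2
    rw [Dc, mkDerivation_X, fld, map_sum]
    refine Finset.sum_congr rfl fun j _ => ?_
    rw [map_mul, map_C, map_X]

/-- Linear forms. -/
def phi (ι : Type) [Fintype ι] : (ι → ℂ) →ₗ[ℂ] MvPolynomial ι ℂ where
  toFun v := ∑ i, v i • X i
  map_add' v w := by
    rw [← Finset.sum_add_distrib]
    refine Finset.sum_congr rfl fun i _ => ?_
    rw [Pi.add_apply, add_smul]
  map_smul' c v := by
    rw [RingHom.id_apply, Finset.smul_sum]
    refine Finset.sum_congr rfl fun i _ => ?_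
    rw [Pi.smul_apply, smul_assoc]

omit [DecidableEq ι] in
theorem Dc_phi (N : Matrix ι ι ℝ) (v : ι → ℂ) :
    Dc N (phi ι v) = phi ι ((N.map (algebraMap ℝ ℂ)).vecMulLinear v) := by
  show Dc N (∑ i, v i • X i) =
    ∑ j, (Matrix.vecMul v (N.map (algebraMap ℝ ℂ))) j • (X j : MvPolynomial ι ℂ)
  rw [map_sum]
  have h1 : ∀ i, Dc N (v i • (X i : MvPolynomial ι ℂ)) =
      ∑ j, (v i * algebraMap ℝ ℂ (N i j)) • (X j : MvPolynomial ι ℂ) := by
    intro i
    rw [Derivation.map_smul, Dc, mkDerivation_X, Finset.smul_sum]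
    refine Finset.sum_congr rfl fun j _ => ?_
    rw [C_mul', smul_smul]
  rw [Finset.sum_congr rfl fun i _ => h1 i, Finset.sum_comm]
  refine Finset.sum_congr rfl fun j _ => ?_
  rw [← Finset.sum_smul]
  rfl

theorem pow_phi (N : Matrix ι ι ℝ) (κ : ℂ) (k : ℕ) (v : ι → ℂ) :
    (((Dc N : MvPolynomial ι ℂ →ₗ[ℂ] MvPolynomial ι ℂ) - κ • (1 : Module.End ℂ _) :
      Module.End ℂ (MvPolynomial ι ℂ)) ^ k) (phi ι v) =
    phi ι ((((N.map (algebraMap ℝ ℂ)).vecMulLinear - κ • (1 : Module.End ℂ _) :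
      Module.End ℂ (ι → ℂ)) ^ k) v) := by
  induction k generalizing v with
  | zero => rw [pow_zero, pow_zero, Module.End.one_apply, Module.End.one_apply]
  | succ k ih =>
    rw [pow_succ, pow_succ, Module.End.mul_apply, Module.End.mul_apply, ← ih]
    congr 1
    rw [LinearMap.sub_apply, LinearMap.sub_apply, map_sub, LinearMap.smul_apply,
      LinearMap.smul_apply, Module.End.one_apply, Module.End.one_apply, map_smul,
      Derivation.coeFn_coe, Dc_phi]

theorem inj (N : Matrix ι ι ℝ) (hN : Ig N) (κ : ℂ) (hκ : κ.re ≠ 0) (v : ι → ℂ)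
    (hv : ((N.map (algebraMap ℝ ℂ)).vecMulLinear - κ • (1 : Module.End ℂ _) :
      Module.End ℂ (ι → ℂ)) v = 0) : v = 0 := by
  by_contra hne
  have h1 : Matrix.vecMul v (N.map (algebraMap ℝ ℂ) - κ • (1 : Matrix ι ι ℂ)) = 0 := by
    rw [Matrix.vecMul_sub, Matrix.vecMul_smul, Matrix.vecMul_one]
    rw [LinearMap.sub_apply, LinearMap.smul_apply, Module.End.one_apply] at hv
    exact hv
  have h2 := (Matrix.exists_vecMul_eq_zero_iff).1 ⟨v, hne, h1⟩
  obtain ⟨w, hw, hw2⟩ := (Matrix.exists_mulVec_eq_zero_iff).2 h2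
  rw [Matrix.sub_mulVec, Matrix.smul_mulVec, Matrix.one_mulVec] at hw2
  exact hκ (hN κ w hw (sub_eq_zero.1 hw2))

theorem inj_pow (N : Matrix ι ι ℝ) (hN : Ig N) (κ : ℂ) (hκ : κ.re ≠ 0) (k : ℕ) (v : ι → ℂ)
    (hv : (((N.map (algebraMap ℝ ℂ)).vecMulLinear - κ • (1 : Module.End ℂ _) :
      Module.End ℂ (ι → ℂ)) ^ k) v = 0) : v = 0 := by
  induction k generalizing v with
  | zero => rwa [pow_zero, Module.End.one_apply] at hv
  | succ k ih =>
    rw [pow_succ, Module.End.mul_apply] at hv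
    exact inj N hN κ hκ v (ih _ hv)

theorem phi_mem (N : Matrix ι ι ℝ) (hN : Ig N) (v : ι → ℂ) : phi ι v ∈ G (Dc N) := by
  have htop : v ∈ (⨆ κ : ℂ, Module.End.maxGenEigenspace
      ((N.map (algebraMap ℝ ℂ)).vecMulLinear : Module.End ℂ (ι → ℂ)) κ) := by
    rw [Module.End.iSup_maxGenEigenspace_eq_top]
    exact Submodule.mem_top
  refine Submodule.iSup_induction _ (motive := fun x => phi ι x ∈ G (Dc N)) htop ?_ ?_ ?_
  · intro κ x hx
    rw [Module.End.mem_maxGenEigenspace] at hx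
    obtain ⟨k, hk⟩ := hx
    by_cases hre : κ.re = 0
    · refine Submodule.mem_iSup_of_mem (⟨κ, hre⟩ : {z : ℂ // z.re = 0}) ?_
      rw [Module.End.mem_maxGenEigenspace]
      refine ⟨k, ?_⟩
      rw [pow_phi, hk, map_zero]
    · rw [inj_pow N hN κ hre k x hk, map_zero]
      exact (G (Dc N)).zero_mem
  · rw [map_zero]
    exact (G (Dc N)).zero_mem
  · intro x y hx hy
    rw [map_add]
    exact (G (Dc N)).add_mem hx hy

theorem all_mem (N : Matrix ι ι ℝ) (hN : Ig N) (f : MvPolynomial ι ℂ) : f ∈ G (Dc N) := by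
  induction f using MvPolynomial.induction_on with
  | C a =>
    have h1 : (C a : MvPolynomial ι ℂ) = a • 1 := by
      rw [smul_eq_C_mul, mul_one]
    rw [h1]
    exact (G (Dc N)).smul_mem a (one_mem _)
  | add p q hp hq => exact (G (Dc N)).add_mem hp hq
  | mul_X p i hp =>
    refine G_mul _ hp ?_
    have h1 : (X i : MvPolynomial ι ℂ) = phi ι (Pi.single i 1) := by
      show X i = ∑ j, (Pi.single i (1 : ℂ) : ι → ℂ) j • (X j : MvPolynomial ι ℂ)
      rw [Finset.sum_eq_single i]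
      · rw [Pi.single_eq_same, one_smul]
      · intro j _ hj
        rw [Pi.single_eq_of_ne hj, zero_smul]
      · intro h
        exact absurd (Finset.mem_univ i) h
    rw [h1]
    exact phi_mem N hN _

end Zerx

open Zerx in
theorem thm_Zer : St_Zer := by
  intro ι _ _ N hN f μ hf hD
  by_contra hμ
  set F := map (algebraMap ℝ ℂ) f with hF
  have hF0 : F ≠ 0 := by
    intro h0
    apply hf
    apply map_injective (algebraMap ℝ ℂ) (algebraMap ℝ ℂ).injective
    rw [map_zero]
    exact h0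
  have hDF : Dc N F = (μ : ℂ) • F := by
    rw [hF, Dc_map, hD, map_mul, map_C, smul_eq_C_mul]
    rfl
  have h1 : F ∈ Module.End.maxGenEigenspace
      ((Dc N : MvPolynomial ι ℂ →ₗ[ℂ] MvPolynomial ι ℂ) : Module.End ℂ _) (μ : ℂ) := by
    rw [Module.End.mem_maxGenEigenspace]
    refine ⟨1, ?_⟩
    rw [pow_one, LinearMap.sub_apply, LinearMap.smul_apply, Module.End.one_apply,
      Derivation.coeFn_coe, hDF, sub_self]
  have h2 : G (Dc N) ≤ ⨆ (κ : ℂ) (_ : κ ≠ (μ : ℂ)), Module.End.maxGenEigenspace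
      ((Dc N : MvPolynomial ι ℂ →ₗ[ℂ] MvPolynomial ι ℂ) : Module.End ℂ _) κ := by
    refine iSup_le fun κ => ?_
    have hne : κ.1 ≠ (μ : ℂ) := by
      intro h
      have h3 := κ.2
      rw [h, Complex.ofReal_re] at h3
      exact hμ h3
    exact le_iSup₂_of_le κ.1 hne le_rfl
  have h3 := Module.End.independent_maxGenEigenspace
    ((Dc N : MvPolynomial ι ℂ →ₗ[ℂ] MvPolynomial ι ℂ) : Module.End ℂ _) (μ : ℂ)
  exact hF0 (Submodule.disjoint_def.1 h3 F h1 (h2 (all_mem N hN F)))

end Pool.Agent.LFS
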