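import Pool.Agent.LFS.Cut
import Pool.Agent.LFS.Zer
import Pool.Agent.LFS.Hyp
import Pool.Agent.LFS.Trs
import Pool.Agent.LFS.Chr
import Pool.Agent.LFS.Bas
import Pool.Agent.LFS.Rel
import Pool.Agent.LFS.Cnt
import Pool.Agent.LFS.Rk1
import Pool.Agent.LFS.NoX
import Pool.Agent.LFS.Spl
import Pool.Agent.LFS.Ren
import Pool.Agent.LFS.Lft
import Pool.Agent.LFS.Dir
import Pool.Agent.LFS.Two
import Pool.Agent.LFS.P1
import Pool.Agent.LFS.One
import Pool.Agent.LFS.Frs
import Pool.Agent.LFS.Nrm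
import Pool.Agent.LFS.Nfa
import Pool.Agent.LFS.Unq
import Pool.Agent.LFS.P2
import Pool.Agent.LFS.Shp

/-!
# Many factors: assembly (helper9)
-/

set_option autoImplicit false

namespace Pool.Agent.LFS

theorem all_Hyp : St_Hyp := thm_Hyp thm_Cut thm_Zer

theorem all_Chr : St_Chr := thm_Chr all_Hyp

theorem all_Bas : St_Bas := thm_Bas all_Hyp

theorem all_NoX : St_NoX := thm_NoX thm_Rk1

theorem all_Spl : St_Spl := thm_Spl thm_Rel all_NoX

theorem all_Dir : St_Dir := thm_Dir thm_Lft thm_Ren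

theorem all_Two : St_Two := thm_Two thm_Trs all_Chr all_Bas thm_Rel thm_Cnt all_Spl all_Dir

theorem all_P1 : St_P1 := thm_P1 all_Two

theorem all_One : St_One := thm_One thm_Rel thm_Rk1

theorem all_Nfa : St_Nfa := thm_Nfa thm_Frs

theorem all_P2 : St_P2 :=
  thm_P2 thm_Trs all_Chr all_Bas all_One thm_Lft thm_Nrm all_Nfa thm_Unq

end Pool.Agent.LFS
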