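import Pool.Agent.LFS.St

set_option autoImplicit false

noncomputable section

open scoped Polynomial

namespace Pool.Agent.LFS

namespace Cutx

section

variable {V : Type} [AddCommGroup V] [Module ℝ V]

/-- the span of the eigenvectors -/
def Eg (T : Module.End ℝ V) : Submodule ℝ V := Submodule.span ℝ {w | ∃ a : ℝ, T w = a • w}

lemma ker_le (T : Module.End ℝ V) (S : Finset ℝ) :
    LinearMap.ker (Polynomial.aeval T (∏ a ∈ S, (Polynomial.X - Polynomial.C a))) ≤ Eg T := by
  classical
  induction S using Finset.induction_on with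
  | empty =>
    rw [Finset.prod_empty, map_one]
    intro x hx
    have : x = 0 := hx
    rw [this]
    exact Submodule.zero_mem _
  | insert a S ha ih =>
    rw [Finset.prod_insert ha]
    have hco : IsCoprime (Polynomial.X - Polynomial.C a)
        (∏ b ∈ S, (Polynomial.X - Polynomial.C b)) := by
      refine IsCoprime.prod_right fun b hb => ?_
      refine Polynomial.isCoprime_X_sub_C_of_isUnit_sub ?_
      rw [isUnit_iff_ne_zero, sub_ne_zero]
      rintro rfl
      exact ha hb
    rw [← Polynomial.sup_ker_aeval_eq_ker_aeval_mul_of_coprime T hco]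
    refine sup_le ?_ ih
    intro x hx
    refine Submodule.subset_span ⟨a, ?_⟩
    have h1 : (Polynomial.aeval T (Polynomial.X - Polynomial.C a)) x = 0 := hx
    rw [map_sub, Polynomial.aeval_X, Polynomial.aeval_C, LinearMap.sub_apply,
      Module.algebraMap_end_apply, sub_eq_zero] at h1
    exact h1

end

section

variable {ι : Type} [Fintype ι] [DecidableEq ι]

lemma dz_of (A : Matrix ι ι ℝ) (S : Finset ℝ)
    (h : Polynomial.aeval A (∏ a ∈ S, (Polynomial.X - Polynomial.C a)) = 0) : Dz A := by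
  classical
  let T : Module.End ℝ (ι → ℝ) := Matrix.toLinAlgEquiv' A
  have hT : ∀ v, T v = A.mulVec v := fun v => Matrix.toLinAlgEquiv'_apply A v
  have h1 : Polynomial.aeval T (∏ a ∈ S, (Polynomial.X - Polynomial.C a)) = 0 := by
    show Polynomial.aeval ((Matrix.toLinAlgEquiv' : Matrix ι ι ℝ ≃ₐ[ℝ] _) A) _ = 0
    rw [Polynomial.aeval_algEquiv, AlgHom.comp_apply, h]
    exact map_zero _
  have h2 : Submodule.span ℝ {w : ι → ℝ | ∃ a : ℝ, T w = a • w} = ⊤ := by
    rw [eq_top_iff]
    intro x _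
    refine ker_le T S ?_
    rw [h1]
    rfl
  obtain ⟨b, hb, hsp, hli⟩ := exists_linearIndependent ℝ {w : ι → ℝ | ∃ a : ℝ, T w = a • w}
  rw [h2] at hsp
  let bs : Module.Basis b ℝ (ι → ℝ) := Module.Basis.mk hli (by
    rw [Subtype.range_coe, hsp])
  have : Fintype b := FiniteDimensional.fintypeBasisIndex bs
  have hcard : Fintype.card ι = Fintype.card b := by
    rw [← Module.finrank_eq_card_basis bs]
    simp
  let e : ι ≃ b := Fintype.equivOfCardEq hcard
  have hd : ∀ j : ι, ∃ a : ℝ, A.mulVec (e j : ι → ℝ) = a • (e j : ι → ℝ) := by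
    intro j
    obtain ⟨a, ha⟩ := hb (e j).2
    exact ⟨a, by rw [← hT]; exact ha⟩
  choose d hd using hd
  let B : Matrix ι ι ℝ := Matrix.of fun i j => (e j : ι → ℝ) i
  have hB : IsUnit B := by
    rw [← Matrix.linearIndependent_cols_iff_isUnit]
    exact hli.comp e e.injective
  refine ⟨B, d, (Matrix.isUnit_iff_isUnit_det B).1 hB, ?_⟩
  ext i j
  rw [Matrix.mul_diagonal]
  have h3 := congrFun (hd j) i
  have h4 : (A * B) i j = A.mulVec (e j : ι → ℝ) i := rfl
  rw [h4, h3, Pi.smul_apply, smul_eq_mul, mul_comm]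
  rfl

/-- the real quadratic polynomial with the roots `z` and its conjugate -/
def qd (z : ℂ) : ℝ[X] :=
  Polynomial.X ^ 2 - Polynomial.C (2 * z.re) * Polynomial.X + Polynomial.C (z.re ^ 2 + z.im ^ 2)

lemma qd_map (z : ℂ) : (qd z).map (algebraMap ℝ ℂ) =
    (Polynomial.X - Polynomial.C z) * (Polynomial.X - Polynomial.C (starRingEnd ℂ z)) := by
  have h1 : (Polynomial.C ((algebraMap ℝ ℂ) (2 * z.re)) : ℂ[X]) =
      Polynomial.C z + Polynomial.C (starRingEnd ℂ z) := by
    rw [← Polynomial.C_add, Complex.add_conj]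
    rfl
  have h2 : (Polynomial.C ((algebraMap ℝ ℂ) (z.re ^ 2 + z.im ^ 2)) : ℂ[X]) =
      Polynomial.C z * Polynomial.C (starRingEnd ℂ z) := by
    rw [← Polynomial.C_mul, Complex.mul_conj, Complex.normSq_apply]
    congr 1
    show ((z.re ^ 2 + z.im ^ 2 : ℝ) : ℂ) = _
    congr 1
    ring
  unfold qd
  rw [Polynomial.map_add, Polynomial.map_sub, Polynomial.map_mul, Polynomial.map_pow,
    Polynomial.map_X, Polynomial.map_C, Polynomial.map_C, h1, h2]
  ring

lemma qd_coprime {z w : ℂ} (h : z.re ≠ w.re) : IsCoprime (qd z) (qd w) := by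
  rw [← Polynomial.isCoprime_map (algebraMap ℝ ℂ), qd_map, qd_map]
  have key : ∀ a b : ℂ, a.re ≠ b.re →
      IsCoprime (Polynomial.X - Polynomial.C a) (Polynomial.X - Polynomial.C b) := by
    intro a b hab
    refine Polynomial.isCoprime_X_sub_C_of_isUnit_sub ?_
    rw [isUnit_iff_ne_zero, sub_ne_zero]
    rintro rfl
    exact hab rfl
  refine IsCoprime.mul_left (IsCoprime.mul_right (key _ _ h) (key _ _ ?_))
    (IsCoprime.mul_right (key _ _ ?_) (key _ _ ?_))
  · simpa using h
  · simpa using h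
  · simpa using h

lemma mulVec_aeval (A : Matrix ι ι ℂ) (w : ι → ℂ) (z : ℂ) (h : A.mulVec w = z • w) (p : ℝ[X]) :
    (Polynomial.aeval A p).mulVec w = (Polynomial.aeval z p) • w := by
  induction p using Polynomial.induction_on' with
  | add p q hp hq => rw [map_add, map_add, Matrix.add_mulVec, hp, hq, add_smul]
  | monomial n a =>
    rw [Polynomial.aeval_monomial, Polynomial.aeval_monomial]
    have h1 : ∀ m : ℕ, (A ^ m).mulVec w = z ^ m • w := by
      intro m
      induction m with
      | zero => simp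
      | succ m ih => rw [pow_succ, ← Matrix.mulVec_mulVec, h, Matrix.mulVec_smul, ih, smul_smul,
          pow_succ, mul_comm]
    rw [← Matrix.mulVec_mulVec, h1, Matrix.mulVec_smul, Algebra.algebraMap_eq_smul_one,
      Algebra.algebraMap_eq_smul_one, Matrix.smul_mulVec, Matrix.one_mulVec]
    ext i
    simp only [Pi.smul_apply, smul_eq_mul, Complex.real_smul]
    ring

/-- the real parts of the eigenvalues -/
def Sre (A : Matrix ι ι ℝ) : Finset ℝ :=
  ((A.charpoly.map (algebraMap ℝ ℂ)).roots.toFinset).image Complex.re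

def Gp (A : Matrix ι ι ℝ) (a : ℝ) : ℝ[X] :=
  ∏ z ∈ ((A.charpoly.map (algebraMap ℝ ℂ)).roots.toFinset).filter (fun z => z.re = a), qd z

lemma charpoly_dvd (A : Matrix ι ι ℝ) :
    A.charpoly ∣ ∏ a ∈ Sre A, (Gp A a) ^ (Fintype.card ι) := by
  classical
  rw [← Polynomial.map_dvd_map' (algebraMap ℝ ℂ), Polynomial.map_prod]
  have h1 : (A.charpoly.map (algebraMap ℝ ℂ)) =
      ∏ z ∈ (A.charpoly.map (algebraMap ℝ ℂ)).roots.toFinset,
        (Polynomial.X - Polynomial.C z) ^ ((A.charpoly.map (algebraMap ℝ ℂ)).roots.count z) := by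
    have h2 := (IsAlgClosed.splits (A.charpoly.map (algebraMap ℝ ℂ))).eq_prod_roots_of_monic
      ((Matrix.charpoly_monic A).map _)
    rw [Finset.prod_multiset_map_count] at h2
    exact h2
  have h3 : ∏ a ∈ Sre A, ((Gp A a) ^ (Fintype.card ι)).map (algebraMap ℝ ℂ) =
      ∏ z ∈ (A.charpoly.map (algebraMap ℝ ℂ)).roots.toFinset,
        ((qd z).map (algebraMap ℝ ℂ)) ^ (Fintype.card ι) := by
    have h4 := Finset.prod_fiberwise_of_maps_to
      (s := (A.charpoly.map (algebraMap ℝ ℂ)).roots.toFinset) (t := Sre A) (g := Complex.re)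
      (fun z hz => Finset.mem_image_of_mem _ hz)
      (fun z => ((qd z).map (algebraMap ℝ ℂ)) ^ (Fintype.card ι))
    rw [← h4]
    refine Finset.prod_congr rfl fun a _ => ?_
    rw [Polynomial.map_pow, Gp, Polynomial.map_prod, Finset.prod_pow]
  rw [h3]
  conv_lhs => rw [h1]
  refine Finset.prod_dvd_prod_of_dvd _ _ fun z _ => ?_
  rw [qd_map, mul_pow]
  refine Dvd.dvd.mul_right (pow_dvd_pow _ ?_) _
  refine (Multiset.count_le_card _ _).trans ?_
  refine (Polynomial.card_roots' _).trans ?_
  rw [(Matrix.charpoly_monic A).natDegree_map, Matrix.charpoly_natDegree_eq_dim]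

end

end Cutx

open Cutx in
theorem thm_Cut : St_Cut := by
  classical
  intro ι _ _ A
  have hco : Pairwise fun a b : {a // a ∈ Sre A} =>
      IsCoprime (Ideal.span {(Gp A a) ^ (Fintype.card ι)})
        (Ideal.span {(Gp A b) ^ (Fintype.card ι)}) := by
    intro a b hab
    rw [Ideal.isCoprime_span_singleton_iff]
    refine IsCoprime.pow (IsCoprime.prod_left fun z hz => IsCoprime.prod_right fun w hw => ?_)
    refine qd_coprime ?_
    rw [(Finset.mem_filter.1 hz).2, (Finset.mem_filter.1 hw).2]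
    exact fun h => hab (Subtype.ext h)
  obtain ⟨p, hp⟩ := Ideal.exists_forall_sub_mem_ideal hco
    (fun a : {a // a ∈ Sre A} => (Polynomial.C (a : ℝ) : ℝ[X]))
  have hp' : ∀ a ∈ Sre A, (Gp A a) ^ (Fintype.card ι) ∣ p - Polynomial.C a := by
    intro a ha
    exact Ideal.mem_span_singleton.1 (hp ⟨a, ha⟩)
  refine ⟨p, ?_, ?_⟩
  · refine dz_of _ (Sre A) ?_
    have h1 : Polynomial.aeval (Polynomial.aeval A p)
        (∏ a ∈ Sre A, (Polynomial.X - Polynomial.C a)) =
        Polynomial.aeval A (∏ a ∈ Sre A, (p - Polynomial.C a)) := by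
      rw [← Polynomial.aeval_comp, Polynomial.prod_comp]
      congr 1
      refine Finset.prod_congr rfl fun a _ => ?_
      rw [Polynomial.sub_comp, Polynomial.X_comp, Polynomial.C_comp]
    rw [h1]
    obtain ⟨g, hg⟩ := (charpoly_dvd A).trans (Finset.prod_dvd_prod_of_dvd _ _ hp')
    rw [hg, map_mul, Matrix.aeval_self_charpoly, zero_mul]
  · intro z v hv hvz
    set AC : Matrix ι ι ℂ := A.map (algebraMap ℝ ℂ) with hAC
    set PC : Matrix ι ι ℂ := Polynomial.aeval AC p with hPC
    have h1 : (Polynomial.aeval A p).map (algebraMap ℝ ℂ) = PC := by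
      have h2 := Polynomial.aeval_algHom_apply ((Algebra.ofId ℝ ℂ).mapMatrix (m := ι)) A p
      exact h2.symm
    have h3 : (AC - PC).mulVec v = z • v := by
      rw [← hvz, ← h1, hAC]
      congr 1
      ext i j
      simp
    have hcomm : AC * PC = PC * AC := by
      have h4 : Polynomial.aeval AC (Polynomial.X * p) = Polynomial.aeval AC (p * Polynomial.X) := by
        rw [mul_comm]
      rwa [map_mul, map_mul, Polynomial.aeval_X] at h4
    let T : Module.End ℂ (ι → ℂ) := Matrix.mulVecLin AC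
    let W : Submodule ℂ (ι → ℂ) := LinearMap.ker (Matrix.mulVecLin (AC - PC) - z • LinearMap.id)
    have hW : ∀ x, x ∈ W ↔ (AC - PC).mulVec x = z • x := by
      intro x
      rw [LinearMap.mem_ker, LinearMap.sub_apply, LinearMap.smul_apply, LinearMap.id_apply,
        sub_eq_zero]
      rfl
    have hTW : ∀ x ∈ W, T x ∈ W := by
      intro x hx
      rw [hW] at hx ⊢
      show (AC - PC).mulVec (AC.mulVec x) = z • AC.mulVec x
      rw [Matrix.mulVec_mulVec, ← Matrix.mulVec_smul, ← hx, Matrix.mulVec_mulVec, sub_mul, mul_sub,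
        hcomm]
    have : Nontrivial W := ⟨⟨⟨v, (hW v).2 h3⟩, 0, fun h => hv (congrArg Subtype.val h)⟩⟩
    obtain ⟨w, hw⟩ := Module.End.exists_eigenvalue (T.restrict hTW)
    obtain ⟨x, hx⟩ := hw.exists_hasEigenvector
    have hx0 : (x : ι → ℂ) ≠ 0 := fun h => hx.2 (Subtype.ext h)
    have hx1 : AC.mulVec (x : ι → ℂ) = w • (x : ι → ℂ) := by
      have h5 := hx.apply_eq_smul
      exact congrArg Subtype.val h5
    have hx2 : (AC - PC).mulVec (x : ι → ℂ) = z • (x : ι → ℂ) := (hW _).1 x.2
    have hx3 : PC.mulVec (x : ι → ℂ) = (Polynomial.aeval w p) • (x : ι → ℂ) :=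
      mulVec_aeval AC _ w hx1 p
    have hz : z = w - Polynomial.aeval w p := by
      rw [Matrix.sub_mulVec, hx1, hx3, ← sub_smul] at hx2
      exact (smul_left_injective ℂ hx0 hx2).symm
    -- w is a root of the characteristic polynomial
    have hroot : w ∈ (A.charpoly.map (algebraMap ℝ ℂ)).roots.toFinset := by
      rw [Multiset.mem_toFinset, Polynomial.mem_roots ((Matrix.charpoly_monic A).map _).ne_zero,
        ← Matrix.charpoly_map]
      show Polynomial.eval w AC.charpoly = 0
      rw [Matrix.eval_charpoly, ← Matrix.exists_mulVec_eq_zero_iff]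
      refine ⟨x, hx0, ?_⟩
      rw [Matrix.sub_mulVec, hx1, sub_eq_zero]
      ext i
      simp [Matrix.scalar_apply, Matrix.mulVec_diagonal]
    have hS : w.re ∈ Sre A := Finset.mem_image_of_mem _ hroot
    have hN : Fintype.card ι ≠ 0 := by
      intro h0
      have : IsEmpty ι := Fintype.card_eq_zero_iff.1 h0
      exact hv (Subsingleton.elim _ _)
    have hd : qd w ∣ p - Polynomial.C w.re := by
      refine Dvd.dvd.trans ?_ (hp' _ hS)
      refine Dvd.dvd.trans ?_ (dvd_pow_self _ hN)
      exact Finset.dvd_prod_of_mem _ (Finset.mem_filter.2 ⟨hroot, rfl⟩)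
    have hval : Polynomial.aeval w p = (w.re : ℂ) := by
      obtain ⟨g, hg⟩ := hd
      have h6 := congrArg (Polynomial.aeval w) hg
      have h7 : Polynomial.aeval w (qd w) = 0 := by
        rw [← Polynomial.eval_map_algebraMap, qd_map]
        simp
      rw [map_mul, h7, zero_mul, map_sub, Polynomial.aeval_C, sub_eq_zero] at h6
      exact h6
    rw [hz, hval]
    simp

end Pool.Agent.LFS
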