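import Pool.Agent.LFD.Defs

/-!
# Admissible collections with many irreducible factors (MP_835236_al): definitions (helper9)

`P = PP σ = t^n + σ_1 t^(n-1) + … + σ_n`, a polynomial in `x_i = X (some i)` and `t = X none`.
-/

open MvPolynomial

namespace Pool.Agent.LFS

open Pool.Agent.Helper28.Nij Pool.Agent.LFD

/-- The number of irreducible factors of `P = t^n + σ_1 t^(n-1) + … + σ_n` (with multiplicities). -/
noncomputable def nf {n : ℕ} (σ : Fin n → MvPolynomial (Fin n) ℝ) : ℕ :=
  Multiset.card (UniqueFactorizationMonoid.factors (PP σ))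

/-- `σ` is the direct sum of the collections `α j`: the variables can be divided into disjoint groups
(`e`: the variables are numbered by the pairs `(j, i)`) such that, after an invertible linear change of
the variables, `P_σ` is the product of the polynomials `P_(α j)` in the variables of the group `j` (and `t`). -/
def IsSum {n : ℕ} {J : Type} [Fintype J] (σ : Fin n → MvPolynomial (Fin n) ℝ) (s : J → ℕ)
    (α : ∀ j, Fin (s j) → MvPolynomial (Fin (s j)) ℝ) : Prop :=
  ∃ (e : (Σ j, Fin (s j)) ≃ Fin n) (τ : Fin n → MvPolynomial (Fin n) ℝ), LinEquiv σ τ ∧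
    PP τ = ∏ j, rename (Option.map fun i => e ⟨j, i⟩) (PP (α j))

/-- The variable `x_(i+1)` (`0` if `n ≤ i`). -/
noncomputable def vx (n i : ℕ) : MvPolynomial (Option (Fin n)) ℝ :=
  if h : i < n then X (some ⟨i, h⟩) else 0

/-- The number of variables of the cores. -/
def dm : Fin 8 → ℕ := ![0, 2, 2, 2, 3, 3, 3, 4]

/-- The cores, `x_0, x_1, … = vx n 0, vx n 1, …`, `t = X none`. -/
noncomputable def core (n : ℕ) : Fin 8 → MvPolynomial (Option (Fin n)) ℝ :=
  ![1,
    (X none + vx n 0) ^ 2 + vx n 1 ^ 2,
    X none ^ 2 + vx n 0 * X none + vx n 1 ^ 2,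
    X none ^ 2 + vx n 0 * X none - vx n 1 ^ 2,
    (X none + vx n 0) * (X none ^ 2 + vx n 1 * X none + vx n 0 * (vx n 1 - vx n 0) + vx n 2 ^ 2),
    (X none + vx n 0) * (X none ^ 2 + vx n 1 * X none + vx n 0 * (vx n 1 - vx n 0) - vx n 2 ^ 2),
    (X none + vx n 0) * (X none ^ 2 + vx n 1 * X none + vx n 0 * vx n 2),
    (X none + vx n 0) * (X none + vx n 1) *
      ((X none + vx n 0) * (X none + vx n 2) - (X none + vx n 1) * vx n 3)]

/-- The normal forms: the core times the factors `t + x_i` for the other variables. -/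
noncomputable def NF (n : ℕ) (k : Fin 8) : MvPolynomial (Option (Fin n)) ℝ :=
  core n k * ∏ i ∈ Finset.Ico (dm k) n, (X none + vx n i)

end Pool.Agent.LFS
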