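import Pool.Agent.LFS.St

/-!
# `Nrm`: the normal forms of the types with a linear factor and a base point (MP_835236_al, helper66)
-/

set_option autoImplicit false

noncomputable section

namespace Pool.Agent.LFS

open scoped Polynomial
open MvPolynomial Pool.Agent.Helper28.Nij Pool.Agent.LFD

namespace Nrmx

/-- A permutation which moves given different elements to the beginning. -/
theorem exists_perm {d m : ℕ} (a : Fin d → Fin (d + m)) (ha : Function.Injective a) :
    ∃ π : Equiv.Perm (Fin (d + m)), ∀ r, π (a r) = Fin.castAdd m r := by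
  classical
  obtain ⟨e, he⟩ : ∃ e : {p // p ∈ Set.range a} ≃
      {p // p ∈ Set.range (Fin.castAdd m : Fin d → Fin (d + m))},
      ∀ r, ((e ⟨a r, r, rfl⟩ : {p // p ∈ Set.range (Fin.castAdd m : Fin d → Fin (d + m))}) :
        Fin (d + m)) = Fin.castAdd m r := by
    refine ⟨(Equiv.ofInjective a ha).symm.trans
      (Equiv.ofInjective _ (Fin.castAdd_injective d m)), fun r => ?_⟩
    have h1 : (Equiv.ofInjective a ha).symm ⟨a r, r, rfl⟩ = r :=
      Equiv.ofInjective_symm_apply ha r
    rw [Equiv.trans_apply, h1]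
    rfl
  refine ⟨e.extendSubtype, fun r => ?_⟩
  rw [Equiv.extendSubtype_apply_of_mem e (a r) ⟨r, rfl⟩]
  exact he r

/-- The block in the last variables. -/
def Nm {d m : ℕ} (q : Option (Fin (d + m)) → ℝ) (π : Equiv.Perm (Fin (d + m)))
    (M : Fin d → Fin d → ℝ) (u j : Fin (d + m)) : ℝ :=
  Fin.addCases (motive := fun _ => ℝ)
    (fun r => Fin.addCases (motive := fun _ => ℝ) (fun s => M r s) (fun _ => 0) j)
    (fun r => if j = Fin.natAdd d r then q (some (π.symm (Fin.natAdd d r))) else 0) u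

/-- The substitution. -/
def Ph {d m : ℕ} (q : Option (Fin (d + m)) → ℝ) (π : Equiv.Perm (Fin (d + m)))
    (M : Fin d → Fin d → ℝ) : Matrix (Option (Fin (d + m))) (Option (Fin (d + m))) ℝ :=
  fun i j => Option.elim j (q i) fun j => Option.elim i 0 fun p => Nm q π M (π p) j

theorem sum_left {d m : ℕ} {R : Type} [CommRing R] (q : Option (Fin (d + m)) → ℝ)
    (π : Equiv.Perm (Fin (d + m))) (M : Fin d → Fin d → ℝ) (φ : ℝ →+* R)
    (v : Fin (d + m) → R) (r : Fin d) :
    ∑ j, φ (Nm q π M (Fin.castAdd m r) j) * v j = ∑ s, φ (M r s) * v (Fin.castAdd m s) := by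
  rw [Fin.sum_univ_add]
  simp [Nm]

theorem sum_right {d m : ℕ} {R : Type} [CommRing R] (q : Option (Fin (d + m)) → ℝ)
    (π : Equiv.Perm (Fin (d + m))) (M : Fin d → Fin d → ℝ) (φ : ℝ →+* R)
    (v : Fin (d + m) → R) (r : Fin m) :
    ∑ j, φ (Nm q π M (Fin.natAdd d r) j) * v j =
      φ (q (some (π.symm (Fin.natAdd d r)))) * v (Fin.natAdd d r) := by
  rw [Finset.sum_eq_single (Fin.natAdd d r)]
  · simp [Nm]
  · intro j _ hj
    simp [Nm, hj]
  · intro h
    exact absurd (Finset.mem_univ _) h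

theorem core_sub {d m : ℕ} (q : Option (Fin (d + m)) → ℝ) (a : Fin d → Fin (d + m))
    (ha : Function.Injective a) (M : Fin d → Fin d → ℝ)
    (hM : ∀ v : Fin d → ℝ, (∀ r, ∑ s, M r s * v s = 0) → ∀ s, v s = 0)
    (hq0 : q none ≠ 0) (hq : ∀ p, (∀ r, p ≠ a r) → q (some p) ≠ 0) :
    ∃ Φ : Matrix (Option (Fin (d + m))) (Option (Fin (d + m))) ℝ, IsUnit Φ.det ∧
      (∀ i, Φ i none = q i) ∧ sub Φ (X none) = C (q none) * X none ∧
      (∀ r, sub Φ (X (some (a r))) = C (q (some (a r))) * X none +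
        ∑ s : Fin d, C (M r s) * X (some (Fin.castAdd m s))) ∧
      ∃ c : ℝ, ∏ p : Fin (d + m), (if ∃ r, p = a r then 1 else sub Φ (X (some p))) =
        C c * ∏ r : Fin m, (X none + X (some (Fin.natAdd d r))) := by
  classical
  obtain ⟨π, hπ⟩ := exists_perm a ha
  have hsub : ∀ i, sub (Ph q π M) (X i) = C (q i) * X none +
      ∑ j, C (Ph q π M i (some j)) * X (some j) := by
    intro i
    simp only [sub, aeval_X, fld]
    rw [Fintype.sum_option]
    rfl
  have hleft : ∀ r, sub (Ph q π M) (X (some (a r))) = C (q (some (a r))) * X none +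
        ∑ s : Fin d, C (M r s) * X (some (Fin.castAdd m s)) := by
    intro r
    rw [hsub]
    congr 1
    have := sum_left q π M (C : ℝ →+* MvPolynomial (Option (Fin (d + m))) ℝ)
      (fun j => X (some j)) r
    rw [← this]
    refine Finset.sum_congr rfl fun j _ => ?_
    simp [Ph, hπ]
  have hright : ∀ r : Fin m, sub (Ph q π M) (X (some (π.symm (Fin.natAdd d r)))) =
      C (q (some (π.symm (Fin.natAdd d r)))) * (X none + X (some (Fin.natAdd d r))) := by
    intro r
    rw [hsub, mul_add]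
    congr 1
    have := sum_right q π M (C : ℝ →+* MvPolynomial (Option (Fin (d + m))) ℝ)
      (fun j => X (some j)) r
    rw [← this]
    refine Finset.sum_congr rfl fun j _ => ?_
    simp [Ph]
  have hnot : ∀ (r : Fin m) (s : Fin d), π.symm (Fin.natAdd d r) ≠ a s := by
    intro r s h
    have h1 := hπ s
    rw [← h, Equiv.apply_symm_apply] at h1
    have h2 := congrArg Fin.val h1
    simp only [Fin.val_natAdd, Fin.val_castAdd] at h2
    have := s.isLt
    omega
  refine ⟨Ph q π M, ?_, fun i => rfl, ?_, hleft, ?_⟩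
  · rw [isUnit_iff_ne_zero]
    intro hdet
    obtain ⟨v, hv, h0⟩ := Matrix.exists_mulVec_eq_zero_iff.2 hdet
    apply hv
    have hrow : ∀ i, q i * v none + ∑ j, Ph q π M i (some j) * v (some j) = 0 := by
      intro i
      have h1 := congrFun h0 i
      simp only [Matrix.mulVec, dotProduct, Fintype.sum_option, Pi.zero_apply] at h1
      exact h1
    have hn : v none = 0 := by
      have h1 := hrow none
      simp only [Ph, Option.elim, zero_mul, Finset.sum_const_zero, add_zero] at h1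
      exact (mul_eq_zero.1 h1).resolve_left hq0
    have hr : ∀ r : Fin m, v (some (Fin.natAdd d r)) = 0 := by
      intro r
      have h1 := hrow (some (π.symm (Fin.natAdd d r)))
      rw [hn, mul_zero, zero_add] at h1
      have h2 := sum_right q π M (RingHom.id ℝ) (fun j => v (some j)) r
      simp only [RingHom.id_apply] at h2
      have h3 : ∑ j, Ph q π M (some (π.symm (Fin.natAdd d r))) (some j) * v (some j) =
          ∑ j, Nm q π M (Fin.natAdd d r) j * v (some j) := by
        refine Finset.sum_congr rfl fun j _ => ?_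
        simp [Ph]
      rw [h3, h2] at h1
      exact (mul_eq_zero.1 h1).resolve_left (hq _ (hnot r))
    have hl : ∀ s : Fin d, v (some (Fin.castAdd m s)) = 0 := by
      refine hM _ fun r => ?_
      have h1 := hrow (some (a r))
      rw [hn, mul_zero, zero_add] at h1
      have h2 := sum_left q π M (RingHom.id ℝ) (fun j => v (some j)) r
      simp only [RingHom.id_apply] at h2
      have h3 : ∑ j, Ph q π M (some (a r)) (some j) * v (some j) =
          ∑ j, Nm q π M (Fin.castAdd m r) j * v (some j) := by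
        refine Finset.sum_congr rfl fun j _ => ?_
        simp [Ph, hπ]
      rw [h3, h2] at h1
      exact h1
    funext i
    rcases i with _ | i
    · exact hn
    · refine Fin.addCases (motive := fun i => v (some i) = 0) hl hr i
  · rw [hsub]
    simp [Ph]
  · refine ⟨∏ r : Fin m, q (some (π.symm (Fin.natAdd d r))), ?_⟩
    rw [← Equiv.prod_comp π.symm, Fin.prod_univ_add]
    have h1 : ∏ r : Fin d, (if ∃ s, π.symm (Fin.castAdd m r) = a s then 1 else
        sub (Ph q π M) (X (some (π.symm (Fin.castAdd m r))))) = 1 := by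
      refine Finset.prod_eq_one fun r _ => ?_
      rw [if_pos]
      exact ⟨r, by rw [← hπ r, Equiv.symm_apply_apply]⟩
    rw [h1, one_mul, map_prod, ← Finset.prod_mul_distrib]
    refine Finset.prod_congr rfl fun r _ => ?_
    rw [if_neg, hright]
    rintro ⟨s, hs⟩
    exact hnot r s hs

theorem vx_left (d m : ℕ) (s : Fin d) :
    vx (d + m) s = X (some (Fin.castAdd m s)) := by
  have h : (s : ℕ) < d + m := by omega
  unfold vx
  rw [dif_pos h]
  rfl

theorem vx_right (d m : ℕ) (r : Fin m) :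
    vx (d + m) (d + r) = X (some (Fin.natAdd d r)) := by
  have h : d + (r : ℕ) < d + m := by omega
  unfold vx
  rw [dif_pos h]
  rfl

/-- The conclusion for a given `k`. -/
def Goal (n : ℕ) (H : MvPolynomial (Option (Fin n)) ℝ) (q : Option (Fin n) → ℝ) : Prop :=
  ∃ (k : Fin 8) (Φ : Matrix (Option (Fin n)) (Option (Fin n)) ℝ), dm k ≤ n ∧ IsUnit Φ.det ∧
      (∀ i, Φ i none = q i) ∧ (∃ c : ℝ, sub Φ (X none) = C c * X none) ∧
      ∃ c : ℝ, sub Φ H = C c * (X none * NF n k)

theorem finish {n : ℕ} (k : Fin 8) (d : ℕ) (hd : dm k = d)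
    (H W : MvPolynomial (Option (Fin n)) ℝ) (q : Option (Fin n) → ℝ)
    (T : Finset (Option (Fin n))) (a : Fin d → Fin n)
    (ha : Function.Injective a) (M : Fin d → Fin d → ℝ)
    (hM : ∀ v : Fin d → ℝ, (∀ r, ∑ s, M r s * v s = 0) → ∀ s, v s = 0)
    (hT : ∀ p, some p ∈ T ↔ ∃ r, p = a r)
    (hx : X none ∣ H) (he : MvPolynomial.eval q H ≠ 0)
    (hH : H = W * ∏ k ∈ Finset.univ \ T, X k)
    (hW : ∀ φ : MvPolynomial (Option (Fin n)) ℝ →ₐ[ℝ] MvPolynomial (Option (Fin n)) ℝ,
      φ (X none) = C (q none) * X none →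
      (∀ r, φ (X (some (a r))) = C (q (some (a r))) * X none + ∑ s : Fin d, C (M r s) * vx n s) →
      (∀ r, φ (C r) = C r) →
      ∃ c : ℝ, φ W = C c * ((if none ∈ T then X none else 1) * core n k)) :
    Goal n H q := by
  classical
  have hdn : d ≤ n := by simpa using Fintype.card_le_of_injective a ha
  obtain ⟨m, rfl⟩ := Nat.exists_eq_add_of_le hdn
  have hq0 : q none ≠ 0 := by
    obtain ⟨g, hg⟩ := hx
    intro h
    apply he
    rw [hg, map_mul, eval_X, h, zero_mul]
  have hq : ∀ p, p ∉ T → q p ≠ 0 := by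
    intro p hp h
    apply he
    rw [hH, map_mul, map_prod, Finset.prod_eq_zero (i := p), mul_zero]
    · simp [hp]
    · simp [h]
  obtain ⟨Φ, h1, h2, h3, h4, c, h5⟩ := core_sub q a ha M hM hq0 (fun p hp => hq _ fun h => by
    obtain ⟨r, hr⟩ := (hT p).1 h
    exact hp r hr)
  refine ⟨k, Φ, hd ▸ hdn, h1, h2, ⟨_, h3⟩, ?_⟩
  obtain ⟨c', h6⟩ := hW (aeval fun i => fld Φ i) h3 (fun r => by
    have := h4 r
    simp only [vx_left]
    exact this) (fun r => by
    rw [← algebraMap_eq]
    exact AlgHom.commutes _ r)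
  have h7 : ∏ i ∈ Finset.Ico d (d + m), (X none + vx (d + m) i) =
      ∏ r : Fin m, (X none + X (some (Fin.natAdd d r))) := by
    rw [Finset.prod_Ico_eq_prod_range, Nat.add_sub_cancel_left, Finset.prod_range]
    refine Finset.prod_congr rfl fun r _ => ?_
    rw [vx_right]
  have h8 : sub Φ (∏ k ∈ Finset.univ \ T, X k) =
      (if none ∈ T then 1 else C (q none) * X none) *
        (C c * ∏ r : Fin m, (X none + X (some (Fin.natAdd d r)))) := by
    rw [Finset.sdiff_eq_filter, Finset.prod_filter, Fintype.prod_option, ← h5]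
    simp only [sub, map_mul, map_prod]
    congr 1
    · by_cases h : none ∈ T
      · simp [h]
      · rw [if_neg h, if_pos h]
        exact h3
    · refine Finset.prod_congr rfl fun p _ => ?_
      by_cases h : some p ∈ T
      · rw [if_pos ((hT p).1 h), if_neg (by simpa using h), map_one]
      · rw [if_neg (fun h' => h ((hT p).2 h')), if_pos h]
  have h9 : sub Φ H = sub Φ W * sub Φ (∏ k ∈ Finset.univ \ T, X k) := by
    rw [hH]
    exact map_mul (aeval fun i => fld Φ i) _ _
  have h10 : sub Φ W = C c' * ((if none ∈ T then X none else 1) * core (d + m) k) := h6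
  rw [h9, h8, h10]
  by_cases h : none ∈ T
  · refine ⟨c' * c, ?_⟩
    rw [if_pos h, if_pos h, NF, hd, h7, C_mul]
    ring
  · refine ⟨c' * q none * c, ?_⟩
    rw [if_neg h, if_neg h, NF, hd, h7, C_mul, C_mul]
    ring

/-- The test point. -/
def v0 (n : ℕ) : Option (Fin n) → ℝ := fun k => Option.elim k 0 fun _ => 1

theorem ev1 {n : ℕ} (T : Finset (Option (Fin n))) (hT : none ∈ T) :
    MvPolynomial.eval (v0 n) (∏ k ∈ Finset.univ \ T, X k) = 1 := by
  rw [map_prod]
  refine Finset.prod_eq_one fun k hk => ?_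
  rw [eval_X]
  rcases k with _ | k
  · exact absurd hT (Finset.mem_sdiff.1 hk).2
  · rfl

theorem ev0 {n : ℕ} (H : MvPolynomial (Option (Fin n)) ℝ) (hx : X none ∣ H) :
    MvPolynomial.eval (v0 n) H = 0 := by
  obtain ⟨g, rfl⟩ := hx
  rw [map_mul, eval_X]
  exact zero_mul _

theorem ex_s (a Q : ℝ) (ha : a ≠ 0) (hQ : Q ≠ 0) :
    ∃ s : ℝ, s ≠ 0 ∧ (a * s ^ 2 = -Q ∨ a * s ^ 2 = Q) := by
  have hp : 0 < |Q / a| := abs_pos.2 (div_ne_zero hQ ha)
  refine ⟨√|Q / a|, (Real.sqrt_pos.2 hp).ne', ?_⟩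
  rw [Real.sq_sqrt hp.le]
  rcases abs_choice (Q / a) with h | h
  · right
    rw [h]
    field_simp
  · left
    rw [h]
    field_simp

/-! ### Identities -/

section Ids

variable {R : Type} [CommRing R]

theorem id2 (a b d p1 p2 v1 v2 Q t x0 x1 : R)
    (h1 : a * p1 ^ 2 + b * p1 * p2 + d * p2 ^ 2 = Q)
    (h2 : 2 * a * p1 * v1 + b * (p1 * v2 + p2 * v1) + 2 * d * p2 * v2 = 0)
    (h3 : a * v1 ^ 2 + b * v1 * v2 + d * v2 ^ 2 = Q) :
    a * (p1 * t + (p1 * x0 + v1 * x1)) ^ 2 +
      b * (p1 * t + (p1 * x0 + v1 * x1)) * (p2 * t + (p2 * x0 + v2 * x1)) +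
      d * (p2 * t + (p2 * x0 + v2 * x1)) ^ 2 = Q * ((t + x0) ^ 2 + x1 ^ 2) := by
  linear_combination (t + x0) ^ 2 * h1 + (t + x0) * x1 * h2 + x1 ^ 2 * h3

theorem id3 (a qi qj ql β γ s Q t x0 x1 e : R)
    (h1 : qi * ql - a * qj ^ 2 = Q) (h2 : β * ql = Q) (h3 : γ * ql = 2 * a * qj * s)
    (h4 : a * s ^ 2 = -(e * Q)) :
    (qi * t + (β * x0 + γ * x1)) * (ql * t) - a * (qj * t + (0 * x0 + s * x1)) ^ 2 =
      Q * (t ^ 2 + x0 * t + e * x1 ^ 2) := by
  linear_combination t ^ 2 * h1 + t * x0 * h2 + t * x1 * h3 - x1 ^ 2 * h4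

theorem id4 (a qi qj ql β γ s Q t x0 x1 x2 e : R)
    (h1 : qi * ql - a * qj ^ 2 = Q) (h2 : β * ql = Q) (h3 : γ * ql = 2 * a * qj * s)
    (h4 : a * s ^ 2 = -(e * Q)) :
    (qi * t + ((qi - 2 * β) * x0 + β * x1 + γ * x2)) * (ql * t + (ql * x0 + 0 * x1 + 0 * x2)) -
        a * (qj * t + (qj * x0 + 0 * x1 + s * x2)) ^ 2 =
      Q * (t ^ 2 + x1 * t + x0 * (x1 - x0) + e * x2 ^ 2) := by
  linear_combination (t + x0) ^ 2 * h1 + (t + x0) * (x1 - 2 * x0) * h2 + (t + x0) * x2 * h3 -
    x2 ^ 2 * h4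

theorem id6 (a qi qj qk ql β γ δ Q t x0 x1 x2 : R)
    (h1 : qi * ql - a * qj * qk = Q) (h2 : β * ql = Q) (h3 : γ * ql = a * qj * qk)
    (h4 : a * qj * δ = Q) :
    (qi * t + (γ * x0 + β * x1 + (-β) * x2)) * (ql * t) -
        a * (qj * t + (qj * x0 + 0 * x1 + 0 * x2)) * (qk * t + (0 * x0 + 0 * x1 + (-δ) * x2)) =
      Q * (t ^ 2 + x1 * t + x0 * x2) := by
  linear_combination t ^ 2 * h1 + t * (x1 - x2) * h2 + t * x0 * h3 + (t + x0) * x2 * h4

theorem id7 (a qi qj qk ql β γ δ Q t x0 x1 x2 x3 : R)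
    (h1 : qi * ql - a * qj * qk = Q) (h2 : β * ql = Q) (h3 : γ * ql = a * qj * qk)
    (h4 : a * qj * δ = Q) :
    (qi * t + (0 * x0 + γ * x1 + β * x2 + 0 * x3)) *
        (ql * t + (ql * x0 + 0 * x1 + 0 * x2 + 0 * x3)) -
        a * (qj * t + (0 * x0 + qj * x1 + 0 * x2 + 0 * x3)) *
          (qk * t + (qk * x0 + 0 * x1 + 0 * x2 + δ * x3)) =
      Q * ((t + x0) * (t + x2) - (t + x1) * x3) := by
  linear_combination t * (t + x0) * h1 + (t + x0) * x2 * h2 + (t + x0) * x1 * h3 -
    (t + x1) * x3 * h4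

end Ids

/-! ### Different elements -/

theorem inj2 {n : ℕ} (i j : Fin n) (h : i ≠ j) : Function.Injective ![i, j] := by
  intro r s e
  fin_cases r <;> fin_cases s <;> simp_all

theorem inj3 {n : ℕ} (i j k : Fin n) (h : i ≠ j) (h' : i ≠ k) (h'' : j ≠ k) :
    Function.Injective ![i, j, k] := by
  intro r s e
  fin_cases r <;> fin_cases s <;> simp_all

theorem inj4 {n : ℕ} (i j k l : Fin n) (h1 : i ≠ j) (h2 : i ≠ k) (h3 : i ≠ l) (h4 : j ≠ k)
    (h5 : j ≠ l) (h6 : k ≠ l) : Function.Injective ![i, j, k, l] := by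
  intro r s e
  fin_cases r <;> fin_cases s <;> simp_all

/-- Relations between constants. -/
theorem cC {σ : Type} {x y : ℝ} (h : x = y) : (C x : MvPolynomial σ ℝ) = C y := by rw [h]

/-! ### The cases -/

theorem case1 {n : ℕ} (H : MvPolynomial (Option (Fin n)) ℝ) (q : Option (Fin n) → ℝ) (c : ℝ)
    (hH : H = C c * ∏ i, X i) (hx : X none ∣ H) (he : MvPolynomial.eval q H ≠ 0) :
    Goal n H q := by
  refine finish 0 0 rfl H (C c) q ∅ Fin.elim0 (fun i => i.elim0) (fun i => i.elim0)
    (fun v h s => s.elim0) ?_ hx he (by rw [hH, Finset.sdiff_empty]) ?_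
  · intro p
    constructor
    · intro h
      exact absurd h (Finset.notMem_empty _)
    · rintro ⟨r, _⟩
      exact r.elim0
  · intro φ _ _ h3
    refine ⟨c, ?_⟩
    rw [h3]
    simp [core]

theorem case2 {n : ℕ} (H : MvPolynomial (Option (Fin n)) ℝ) (q : Option (Fin n) → ℝ)
    (c a b d : ℝ) (i j : Fin n) (hij : i ≠ j) (hd : b ^ 2 < 4 * a * d)
    (hH : H = C c * (C a * X (some i) ^ 2 + C b * X (some i) * X (some j) +
      C d * X (some j) ^ 2) * ∏ k ∈ Finset.univ \ {some i, some j}, X k)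
    (hx : X none ∣ H) (he : MvPolynomial.eval q H ≠ 0) : Goal n H q := by
  obtain ⟨p1, hp1⟩ : ∃ v, v = q (some i) := ⟨_, rfl⟩
  obtain ⟨p2, hp2⟩ : ∃ v, v = q (some j) := ⟨_, rfl⟩
  obtain ⟨Q, hQ⟩ : ∃ v, a * p1 ^ 2 + b * p1 * p2 + d * p2 ^ 2 = v := ⟨_, rfl⟩
  have hQ0 : Q ≠ 0 := by
    intro h
    apply he
    rw [hH]
    simp only [map_mul, map_add, map_pow, eval_C, eval_X, ← hp1, ← hp2]
    rw [hQ, h, mul_zero, zero_mul]
  obtain ⟨μ, hμ0, hμ⟩ : ∃ μ : ℝ, μ ≠ 0 ∧ μ ^ 2 * (4 * a * d - b ^ 2) = 1 := by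
    have h0 : 0 < (4 * a * d - b ^ 2)⁻¹ := inv_pos.2 (by linarith)
    refine ⟨√(4 * a * d - b ^ 2)⁻¹, (Real.sqrt_pos.2 h0).ne', ?_⟩
    rw [Real.sq_sqrt h0.le, inv_mul_cancel₀]
    linarith
  obtain ⟨v1, hv1⟩ : ∃ v, v = -μ * (b * p1 + 2 * d * p2) := ⟨_, rfl⟩
  obtain ⟨v2, hv2⟩ : ∃ v, v = μ * (2 * a * p1 + b * p2) := ⟨_, rfl⟩
  have r2 : 2 * a * p1 * v1 + b * (p1 * v2 + p2 * v1) + 2 * d * p2 * v2 = 0 := by
    rw [hv1, hv2]
    ring
  have r3 : a * v1 ^ 2 + b * v1 * v2 + d * v2 ^ 2 = Q := by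
    rw [hv1, hv2]
    linear_combination Q * hμ + μ ^ 2 * (4 * a * d - b ^ 2) * hQ
  have r4 : p1 * v2 - p2 * v1 ≠ 0 := by
    have : p1 * v2 - p2 * v1 = 2 * μ * Q := by
      rw [hv1, hv2, ← hQ]
      ring
    rw [this]
    exact mul_ne_zero (mul_ne_zero two_ne_zero hμ0) hQ0
  refine finish 1 2 rfl H _ q {some i, some j} ![i, j] (inj2 i j hij)
    ![![p1, v1], ![p2, v2]] ?_ ?_ hx he hH ?_
  · intro v h
    have h0 := h 0
    have h1 := h 1
    simp only [Fin.sum_univ_two, Matrix.cons_val_zero, Matrix.cons_val_one] at h0 h1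
    have e0 : (p1 * v2 - p2 * v1) * v 0 = 0 := by linear_combination v2 * h0 - v1 * h1
    have e1 : (p1 * v2 - p2 * v1) * v 1 = 0 := by linear_combination p1 * h1 - p2 * h0
    exact Fin.forall_fin_two.2 ⟨(mul_eq_zero.1 e0).resolve_left r4,
      (mul_eq_zero.1 e1).resolve_left r4⟩
  · intro p
    constructor
    · intro h
      simp only [Finset.mem_insert, Finset.mem_singleton, Option.some.injEq] at h
      rcases h with rfl | rfl
      · exact ⟨0, rfl⟩
      · exact ⟨1, rfl⟩
    · rintro ⟨r, rfl⟩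
      fin_cases r <;> simp
  · intro φ _ h2 h3
    have hi := h2 0
    have hj := h2 1
    simp only [Fin.sum_univ_two, Matrix.cons_val_zero, Matrix.cons_val_one, Fin.val_zero,
      Fin.val_one, ← hp1, ← hp2] at hi hj
    refine ⟨c * Q, ?_⟩
    rw [if_neg (by simp)]
    simp only [map_mul, map_add, map_pow, h3]
    rw [hi, hj]
    have e1 := cC (σ := Option (Fin n)) hQ
    have e2 := cC (σ := Option (Fin n)) r2
    have e3 := cC (σ := Option (Fin n)) r3
    simp only [map_mul, map_add, map_pow, map_zero, map_ofNat] at e1 e2 e3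
    have := id2 (C a) (C b) (C d) (C p1) (C p2) (C v1) (C v2) (C Q) (X none) (vx n 0) (vx n 1)
      e1 e2 e3
    have hc : core n 1 = (X none + vx n 0) ^ 2 + vx n 1 ^ 2 := rfl
    rw [hc]
    linear_combination C c * this

theorem case3 {n : ℕ} (H : MvPolynomial (Option (Fin n)) ℝ) (q : Option (Fin n) → ℝ)
    (c a : ℝ) (i j : Fin n) (hij : i ≠ j) (ha : a ≠ 0)
    (hH : H = C c * X none * (X (some i) * X none - C a * X (some j) ^ 2) *
      ∏ k ∈ Finset.univ \ {some i, some j, none}, X k)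
    (hx : X none ∣ H) (he : MvPolynomial.eval q H ≠ 0) : Goal n H q := by
  obtain ⟨qi, hqi⟩ : ∃ v, v = q (some i) := ⟨_, rfl⟩
  obtain ⟨qj, hqj⟩ : ∃ v, v = q (some j) := ⟨_, rfl⟩
  obtain ⟨ql, hql⟩ : ∃ v, v = q none := ⟨_, rfl⟩
  obtain ⟨Q, hQ⟩ : ∃ v, qi * ql - a * qj ^ 2 = v := ⟨_, rfl⟩
  have hQ0 : Q ≠ 0 := by
    intro h
    apply he
    rw [hH]
    simp only [map_mul, map_sub, map_pow, eval_C, eval_X, ← hqi, ← hqj, ← hql]
    rw [hQ, h, mul_zero, zero_mul]
  have hl0 : ql ≠ 0 := by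
    intro h
    apply he
    rw [hH]
    simp only [map_mul, map_sub, map_pow, eval_C, eval_X, ← hqi, ← hqj, ← hql]
    rw [h, mul_zero, zero_mul, zero_mul]
  obtain ⟨s, hs0, hs⟩ := ex_s a Q ha hQ0
  obtain ⟨β, hβ⟩ : ∃ v, v * ql = Q := ⟨Q / ql, div_mul_cancel₀ _ hl0⟩
  obtain ⟨γ, hγ⟩ : ∃ v, v * ql = 2 * a * qj * s := ⟨2 * a * qj * s / ql, div_mul_cancel₀ _ hl0⟩
  have hβ0 : β ≠ 0 := by
    rintro rfl
    rw [zero_mul] at hβ
    exact hQ0 hβ.symm
  have key : ∀ (k : Fin 8) (e : ℝ), dm k = 2 →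
      core n k = X none ^ 2 + vx n 0 * X none + C e * vx n 1 ^ 2 → a * s ^ 2 = -(e * Q) →
      Goal n H q := by
    intro k e hk hc he'
    refine finish k 2 hk H _ q {some i, some j, none} ![i, j] (inj2 i j hij)
      ![![β, γ], ![0, s]] ?_ ?_ hx he hH ?_
    · intro v h
      have h0 := h 0
      have h1 := h 1
      simp only [Fin.sum_univ_two, Matrix.cons_val_zero, Matrix.cons_val_one] at h0 h1
      have e1 : s * v 1 = 0 := by linear_combination h1
      have e1' := (mul_eq_zero.1 e1).resolve_left hs0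
      have e0 : β * v 0 = 0 := by linear_combination h0 - γ * e1'
      exact Fin.forall_fin_two.2 ⟨(mul_eq_zero.1 e0).resolve_left hβ0, e1'⟩
    · intro p
      constructor
      · intro h
        simp only [Finset.mem_insert, Finset.mem_singleton, Option.some.injEq, reduceCtorEq,
          or_false] at h
        rcases h with rfl | rfl
        · exact ⟨0, rfl⟩
        · exact ⟨1, rfl⟩
      · rintro ⟨r, rfl⟩
        fin_cases r <;> simp
    · intro φ h1 h2 h3
      have hi := h2 0
      have hj := h2 1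
      simp only [Fin.sum_univ_two, Matrix.cons_val_zero, Matrix.cons_val_one, Fin.val_zero,
        Fin.val_one, ← hqi, ← hqj] at hi hj
      rw [← hql] at h1
      refine ⟨c * ql * Q, ?_⟩
      rw [if_pos (by simp)]
      simp only [map_mul, map_sub, map_pow, h3]
      rw [hi, hj, h1, hc]
      have e1 := cC (σ := Option (Fin n)) hQ
      have e2 := cC (σ := Option (Fin n)) hβ
      have e3 := cC (σ := Option (Fin n)) hγ
      have e4 := cC (σ := Option (Fin n)) he'
      simp only [map_mul, map_pow, map_ofNat, map_sub, map_neg] at e1 e2 e3 e4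
      have := id3 (C a) (C qi) (C qj) (C ql) (C β) (C γ) (C s) (C Q) (X none) (vx n 0) (vx n 1)
        (C e) e1 e2 e3 e4
      rw [map_zero]
      linear_combination C c * C ql * X none * this
  rcases hs with hs | hs
  · refine key 2 1 rfl ?_ (by rw [one_mul]; exact hs)
    change X none ^ 2 + vx n 0 * X none + vx n 1 ^ 2 = _
    rw [C_1, one_mul]
  · refine key 3 (-1) rfl ?_ (by rw [hs]; ring)
    change X none ^ 2 + vx n 0 * X none - vx n 1 ^ 2 = _
    rw [C_neg, C_1]
    ring

theorem case4 {n : ℕ} (H : MvPolynomial (Option (Fin n)) ℝ) (q : Option (Fin n) → ℝ)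
    (c a : ℝ) (i j l : Fin n) (hij : i ≠ j) (hil : i ≠ l) (hjl : j ≠ l) (ha : a ≠ 0)
    (hH : H = C c * X (some l) * (X (some i) * X (some l) - C a * X (some j) ^ 2) *
      ∏ k ∈ Finset.univ \ {some i, some j, some l}, X k)
    (hx : X none ∣ H) (he : MvPolynomial.eval q H ≠ 0) : Goal n H q := by
  obtain ⟨qi, hqi⟩ : ∃ v, v = q (some i) := ⟨_, rfl⟩
  obtain ⟨qj, hqj⟩ : ∃ v, v = q (some j) := ⟨_, rfl⟩
  obtain ⟨ql, hql⟩ : ∃ v, v = q (some l) := ⟨_, rfl⟩
  obtain ⟨Q, hQ⟩ : ∃ v, qi * ql - a * qj ^ 2 = v := ⟨_, rfl⟩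
  have hQ0 : Q ≠ 0 := by
    intro h
    apply he
    rw [hH]
    simp only [map_mul, map_sub, map_pow, eval_C, eval_X, ← hqi, ← hqj, ← hql]
    rw [hQ, h, mul_zero, zero_mul]
  have hl0 : ql ≠ 0 := by
    intro h
    apply he
    rw [hH]
    simp only [map_mul, map_sub, map_pow, eval_C, eval_X, ← hqi, ← hqj, ← hql]
    rw [h, mul_zero, zero_mul, zero_mul]
  obtain ⟨s, hs0, hs⟩ := ex_s a Q ha hQ0
  obtain ⟨β, hβ⟩ : ∃ v, v * ql = Q := ⟨Q / ql, div_mul_cancel₀ _ hl0⟩
  obtain ⟨γ, hγ⟩ : ∃ v, v * ql = 2 * a * qj * s := ⟨2 * a * qj * s / ql, div_mul_cancel₀ _ hl0⟩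
  have hβ0 : β ≠ 0 := by
    rintro rfl
    rw [zero_mul] at hβ
    exact hQ0 hβ.symm
  have key : ∀ (k : Fin 8) (e : ℝ), dm k = 3 →
      core n k = (X none + vx n 0) * (X none ^ 2 + vx n 1 * X none + vx n 0 * (vx n 1 - vx n 0) +
        C e * vx n 2 ^ 2) → a * s ^ 2 = -(e * Q) → Goal n H q := by
    intro k e hk hc he'
    refine finish k 3 hk H _ q {some i, some j, some l} ![i, j, l] (inj3 i j l hij hil hjl)
      ![![qi - 2 * β, β, γ], ![qj, 0, s], ![ql, 0, 0]] ?_ ?_ hx he hH ?_
    · intro v h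
      have h0 := h 0
      have h1 := h 1
      have h2 := h 2
      simp only [Fin.sum_univ_three, Matrix.cons_val_zero, Matrix.cons_val_one,
        Matrix.cons_val] at h0 h1 h2
      have e0 : ql * v 0 = 0 := by linear_combination h2
      have e0' := (mul_eq_zero.1 e0).resolve_left hl0
      have e2 : s * v 2 = 0 := by linear_combination h1 - qj * e0'
      have e2' := (mul_eq_zero.1 e2).resolve_left hs0
      have e1 : β * v 1 = 0 := by linear_combination h0 - (qi - 2 * β) * e0' - γ * e2'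
      have e1' := (mul_eq_zero.1 e1).resolve_left hβ0
      intro r
      fin_cases r
      · exact e0'
      · exact e1'
      · exact e2'
    · intro p
      constructor
      · intro h
        simp only [Finset.mem_insert, Finset.mem_singleton, Option.some.injEq] at h
        rcases h with rfl | rfl | rfl
        · exact ⟨0, rfl⟩
        · exact ⟨1, rfl⟩
        · exact ⟨2, rfl⟩
      · rintro ⟨r, rfl⟩
        fin_cases r <;> simp
    · intro φ _ h2 h3
      have hi := h2 0
      have hj := h2 1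
      have hl := h2 2
      simp only [Fin.sum_univ_three, Matrix.cons_val_zero, Matrix.cons_val_one, Matrix.cons_val,
        Fin.val_zero, Fin.val_one, Fin.val_two, ← hqi, ← hqj, ← hql] at hi hj hl
      refine ⟨c * ql * Q, ?_⟩
      rw [if_neg (by simp)]
      simp only [map_mul, map_sub, map_pow, h3]
      rw [hi, hj, hl, hc]
      have e1 := cC (σ := Option (Fin n)) hQ
      have e2 := cC (σ := Option (Fin n)) hβ
      have e3 := cC (σ := Option (Fin n)) hγ
      have e4 := cC (σ := Option (Fin n)) he'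
      simp only [map_mul, map_pow, map_ofNat, map_sub, map_neg] at e1 e2 e3 e4
      have := id4 (C a) (C qi) (C qj) (C ql) (C β) (C γ) (C s) (C Q) (X none) (vx n 0) (vx n 1)
        (vx n 2) (C e) e1 e2 e3 e4
      simp only [map_mul, map_zero, map_ofNat, map_sub]
      linear_combination C c * C ql * (X none + vx n 0) * this
  rcases hs with hs | hs
  · refine key 4 1 rfl ?_ (by rw [one_mul]; exact hs)
    change (X none + vx n 0) * (X none ^ 2 + vx n 1 * X none + vx n 0 * (vx n 1 - vx n 0) +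
      vx n 2 ^ 2) = _
    rw [C_1, one_mul]
  · refine key 5 (-1) rfl ?_ (by rw [hs]; ring)
    change (X none + vx n 0) * (X none ^ 2 + vx n 1 * X none + vx n 0 * (vx n 1 - vx n 0) -
      vx n 2 ^ 2) = _
    rw [C_neg, C_1]
    ring

theorem case6 {n : ℕ} (H : MvPolynomial (Option (Fin n)) ℝ) (q : Option (Fin n) → ℝ)
    (c a : ℝ) (i j k : Fin n) (hij : i ≠ j) (hik : i ≠ k) (hjk : j ≠ k) (ha : a ≠ 0)
    (hH : H = C c * X (some j) * X none * (X (some i) * X none - C a * X (some j) * X (some k)) *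
      ∏ p ∈ Finset.univ \ {some i, some j, some k, none}, X p)
    (hx : X none ∣ H) (he : MvPolynomial.eval q H ≠ 0) : Goal n H q := by
  obtain ⟨qi, hqi⟩ : ∃ v, v = q (some i) := ⟨_, rfl⟩
  obtain ⟨qj, hqj⟩ : ∃ v, v = q (some j) := ⟨_, rfl⟩
  obtain ⟨qk, hqk⟩ : ∃ v, v = q (some k) := ⟨_, rfl⟩
  obtain ⟨ql, hql⟩ : ∃ v, v = q none := ⟨_, rfl⟩
  obtain ⟨Q, hQ⟩ : ∃ v, qi * ql - a * qj * qk = v := ⟨_, rfl⟩
  have hev : MvPolynomial.eval q H = c * qj * ql * Q *
      MvPolynomial.eval q (∏ p ∈ Finset.univ \ {some i, some j, some k, none}, X p) := by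
    rw [hH, ← hQ]
    simp only [map_mul, map_sub, eval_C, eval_X, ← hqi, ← hqj, ← hql, ← hqk]
  have hQ0 : Q ≠ 0 := by
    intro h
    apply he
    rw [hev, h]
    ring
  have hl0 : ql ≠ 0 := by
    intro h
    apply he
    rw [hev, h]
    ring
  have hj0 : qj ≠ 0 := by
    intro h
    apply he
    rw [hev, h]
    ring
  obtain ⟨β, hβ⟩ : ∃ v, v * ql = Q := ⟨Q / ql, div_mul_cancel₀ _ hl0⟩
  obtain ⟨γ, hγ⟩ : ∃ v, v * ql = a * qj * qk := ⟨a * qj * qk / ql, div_mul_cancel₀ _ hl0⟩
  obtain ⟨δ, hδ⟩ : ∃ v, a * qj * v = Q := ⟨Q / (a * qj), mul_div_cancel₀ _ (mul_ne_zero ha hj0)⟩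
  have hβ0 : β ≠ 0 := by
    rintro rfl
    rw [zero_mul] at hβ
    exact hQ0 hβ.symm
  have hδ0 : δ ≠ 0 := by
    rintro rfl
    rw [mul_zero] at hδ
    exact hQ0 hδ.symm
  refine finish 6 3 rfl H _ q {some i, some j, some k, none} ![i, j, k] (inj3 i j k hij hik hjk)
      ![![γ, β, -β], ![qj, 0, 0], ![0, 0, -δ]] ?_ ?_ hx he hH ?_
  · intro v h
    have h0 := h 0
    have h1 := h 1
    have h2 := h 2
    simp only [Fin.sum_univ_three, Matrix.cons_val_zero, Matrix.cons_val_one,
      Matrix.cons_val] at h0 h1 h2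
    have e0 : qj * v 0 = 0 := by linear_combination h1
    have e0' := (mul_eq_zero.1 e0).resolve_left hj0
    have e2 : δ * v 2 = 0 := by linear_combination -h2
    have e2' := (mul_eq_zero.1 e2).resolve_left hδ0
    have e1 : β * v 1 = 0 := by linear_combination h0 - γ * e0' + β * e2'
    have e1' := (mul_eq_zero.1 e1).resolve_left hβ0
    intro r
    fin_cases r
    · exact e0'
    · exact e1'
    · exact e2'
  · intro p
    constructor
    · intro h
      simp only [Finset.mem_insert, Finset.mem_singleton, Option.some.injEq, reduceCtorEq,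
        or_false] at h
      rcases h with rfl | rfl | rfl
      · exact ⟨0, rfl⟩
      · exact ⟨1, rfl⟩
      · exact ⟨2, rfl⟩
    · rintro ⟨r, rfl⟩
      fin_cases r <;> simp
  · intro φ h1 h2 h3
    have hi := h2 0
    have hj := h2 1
    have hk := h2 2
    simp only [Fin.sum_univ_three, Matrix.cons_val_zero, Matrix.cons_val_one, Matrix.cons_val,
      Fin.val_zero, Fin.val_one, Fin.val_two, ← hqi, ← hqj, ← hqk] at hi hj hk
    rw [← hql] at h1
    refine ⟨c * qj * ql * Q, ?_⟩
    rw [if_pos (by simp)]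
    simp only [map_mul, map_sub, h3]
    rw [hi, hj, hk, h1]
    have e1 := cC (σ := Option (Fin n)) hQ
    have e2 := cC (σ := Option (Fin n)) hβ
    have e3 := cC (σ := Option (Fin n)) hγ
    have e4 := cC (σ := Option (Fin n)) hδ
    simp only [map_mul, map_sub] at e1 e2 e3 e4
    have := id6 (C a) (C qi) (C qj) (C qk) (C ql) (C β) (C γ) (C δ) (C Q) (X none) (vx n 0)
      (vx n 1) (vx n 2) e1 e2 e3 e4
    have hc : core n 6 = (X none + vx n 0) * (X none ^ 2 + vx n 1 * X none + vx n 0 * vx n 2) :=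
      rfl
    rw [hc]
    simp only [map_zero, map_neg]
    linear_combination C c * C qj * C ql * X none * (X none + vx n 0) * this

theorem case7 {n : ℕ} (H : MvPolynomial (Option (Fin n)) ℝ) (q : Option (Fin n) → ℝ)
    (c a : ℝ) (i j k l : Fin n) (hij : i ≠ j) (hik : i ≠ k) (hil : i ≠ l) (hjk : j ≠ k)
    (hjl : j ≠ l) (hkl : k ≠ l) (ha : a ≠ 0)
    (hH : H = C c * X (some j) * X (some l) *
      (X (some i) * X (some l) - C a * X (some j) * X (some k)) *
      ∏ p ∈ Finset.univ \ {some i, some j, some k, some l}, X p)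
    (hx : X none ∣ H) (he : MvPolynomial.eval q H ≠ 0) : Goal n H q := by
  obtain ⟨qi, hqi⟩ : ∃ v, v = q (some i) := ⟨_, rfl⟩
  obtain ⟨qj, hqj⟩ : ∃ v, v = q (some j) := ⟨_, rfl⟩
  obtain ⟨qk, hqk⟩ : ∃ v, v = q (some k) := ⟨_, rfl⟩
  obtain ⟨ql, hql⟩ : ∃ v, v = q (some l) := ⟨_, rfl⟩
  obtain ⟨Q, hQ⟩ : ∃ v, qi * ql - a * qj * qk = v := ⟨_, rfl⟩
  have hev : MvPolynomial.eval q H = c * qj * ql * Q *
      MvPolynomial.eval q (∏ p ∈ Finset.univ \ {some i, some j, some k, some l}, X p) := by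
    rw [hH, ← hQ]
    simp only [map_mul, map_sub, eval_C, eval_X, ← hqi, ← hqj, ← hql, ← hqk]
  have hQ0 : Q ≠ 0 := by
    intro h
    apply he
    rw [hev, h]
    ring
  have hl0 : ql ≠ 0 := by
    intro h
    apply he
    rw [hev, h]
    ring
  have hj0 : qj ≠ 0 := by
    intro h
    apply he
    rw [hev, h]
    ring
  obtain ⟨β, hβ⟩ : ∃ v, v * ql = Q := ⟨Q / ql, div_mul_cancel₀ _ hl0⟩
  obtain ⟨γ, hγ⟩ : ∃ v, v * ql = a * qj * qk := ⟨a * qj * qk / ql, div_mul_cancel₀ _ hl0⟩
  obtain ⟨δ, hδ⟩ : ∃ v, a * qj * v = Q := ⟨Q / (a * qj), mul_div_cancel₀ _ (mul_ne_zero ha hj0)⟩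
  have hβ0 : β ≠ 0 := by
    rintro rfl
    rw [zero_mul] at hβ
    exact hQ0 hβ.symm
  have hδ0 : δ ≠ 0 := by
    rintro rfl
    rw [mul_zero] at hδ
    exact hQ0 hδ.symm
  refine finish 7 4 rfl H _ q {some i, some j, some k, some l} ![i, j, k, l]
      (inj4 i j k l hij hik hil hjk hjl hkl)
      ![![0, γ, β, 0], ![0, qj, 0, 0], ![qk, 0, 0, δ], ![ql, 0, 0, 0]] ?_ ?_ hx he hH ?_
  · intro v h
    have h0 := h 0
    have h1 := h 1
    have h2 := h 2
    have h3 := h 3
    simp only [Fin.sum_univ_four, Matrix.cons_val_zero, Matrix.cons_val_one,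
      Matrix.cons_val] at h0 h1 h2 h3
    have e0 : ql * v 0 = 0 := by linear_combination h3
    have e0' := (mul_eq_zero.1 e0).resolve_left hl0
    have e1 : qj * v 1 = 0 := by linear_combination h1
    have e1' := (mul_eq_zero.1 e1).resolve_left hj0
    have e2 : β * v 2 = 0 := by linear_combination h0 - γ * e1'
    have e2' := (mul_eq_zero.1 e2).resolve_left hβ0
    have e3 : δ * v 3 = 0 := by linear_combination h2 - qk * e0'
    have e3' := (mul_eq_zero.1 e3).resolve_left hδ0
    intro r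
    fin_cases r
    · exact e0'
    · exact e1'
    · exact e2'
    · exact e3'
  · intro p
    constructor
    · intro h
      simp only [Finset.mem_insert, Finset.mem_singleton, Option.some.injEq] at h
      rcases h with rfl | rfl | rfl | rfl
      · exact ⟨0, rfl⟩
      · exact ⟨1, rfl⟩
      · exact ⟨2, rfl⟩
      · exact ⟨3, rfl⟩
    · rintro ⟨r, rfl⟩
      fin_cases r <;> simp
  · intro φ _ h2 h3
    have hi := h2 0
    have hj := h2 1
    have hk := h2 2
    have hl := h2 3
    have h33 : ((3 : Fin 4) : ℕ) = 3 := rfl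
    simp only [Fin.sum_univ_four, Matrix.cons_val_zero, Matrix.cons_val_one, Matrix.cons_val,
      Fin.val_zero, Fin.val_one, Fin.val_two, h33, ← hqi, ← hqj, ← hqk, ← hql] at hi hj hk hl
    refine ⟨c * qj * ql * Q, ?_⟩
    rw [if_neg (by simp)]
    simp only [map_mul, map_sub, h3]
    rw [hi, hj, hk, hl]
    have e1 := cC (σ := Option (Fin n)) hQ
    have e2 := cC (σ := Option (Fin n)) hβ
    have e3 := cC (σ := Option (Fin n)) hγ
    have e4 := cC (σ := Option (Fin n)) hδ
    simp only [map_mul, map_sub] at e1 e2 e3 e4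
    have := id7 (C a) (C qi) (C qj) (C qk) (C ql) (C β) (C γ) (C δ) (C Q) (X none) (vx n 0)
      (vx n 1) (vx n 2) (vx n 3) e1 e2 e3 e4
    have hc : core n 7 = (X none + vx n 0) * (X none + vx n 1) *
      ((X none + vx n 0) * (X none + vx n 2) - (X none + vx n 1) * vx n 3) := rfl
    rw [hc]
    simp only [map_zero]
    linear_combination C c * C qj * C ql * (X none + vx n 0) * (X none + vx n 1) * this

end Nrmx

open Nrmx in
theorem thm_Nrm : St_Nrm := by
  intro n H q hT hx he
  change Goal n H q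
  have h00 := ev0 H hx
  obtain ⟨c, hc, h1 | ⟨i, j, a, b, d, hij, hd, h2⟩ | ⟨i, j, l, a, hij, hil, hjl, ha, h3⟩ |
    ⟨i, j, k, l, a, hij, hik, hil, hjk, hjl, hkl, ha, h4⟩⟩ := hT
  · exact case1 H q c h1 hx he
  · rcases i with _ | i
    · exfalso
      rcases j with _ | j
      · exact hij rfl
      · rw [h2, map_mul, ev1 _ (by simp)] at h00
        simp only [map_mul, map_add, map_pow, eval_C, eval_X, v0, Option.elim] at h00
        have : d = 0 := by
          have h5 : c * d = 0 := by linear_combination h00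
          exact (mul_eq_zero.1 h5).resolve_left hc
        rw [this] at hd
        nlinarith [sq_nonneg b]
    · rcases j with _ | j
      · exfalso
        rw [h2, map_mul, ev1 _ (by simp)] at h00
        simp only [map_mul, map_add, map_pow, eval_C, eval_X, v0, Option.elim] at h00
        have : a = 0 := by
          have h5 : c * a = 0 := by linear_combination h00
          exact (mul_eq_zero.1 h5).resolve_left hc
        rw [this] at hd
        nlinarith [sq_nonneg b]
      · exact case2 H q c a b d i j (by simpa using hij) hd h2 hx he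
  · rcases i with _ | i
    · exfalso
      rcases j with _ | j
      · exact hij rfl
      rcases l with _ | l
      · exact hil rfl
      rw [h3, map_mul, ev1 _ (by simp)] at h00
      simp only [map_mul, map_sub, map_pow, eval_C, eval_X, v0, Option.elim] at h00
      have h5 : c * a = 0 := by linear_combination -h00
      exact (mul_ne_zero hc ha) h5
    rcases j with _ | j
    · exfalso
      rcases l with _ | l
      · exact hjl rfl
      rw [h3, map_mul, ev1 _ (by simp)] at h00
      simp only [map_mul, map_sub, map_pow, eval_C, eval_X, v0, Option.elim] at h00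
      exact hc (by linear_combination h00)
    rcases l with _ | l
    · exact case3 H q c a i j (by simpa using hij) ha h3 hx he
    · exact case4 H q c a i j l (by simpa using hij) (by simpa using hil) (by simpa using hjl)
        ha h3 hx he
  · rcases i with _ | i
    · exfalso
      rcases j with _ | j
      · exact hij rfl
      rcases k with _ | k
      · exact hik rfl
      rcases l with _ | l
      · exact hil rfl
      rw [h4, map_mul, ev1 _ (by simp)] at h00
      simp only [map_mul, map_sub, eval_C, eval_X, v0, Option.elim] at h00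
      have h5 : c * a = 0 := by linear_combination -h00
      exact (mul_ne_zero hc ha) h5
    rcases k with _ | k
    · exfalso
      rcases j with _ | j
      · exact hjk rfl
      rcases l with _ | l
      · exact hkl rfl
      rw [h4, map_mul, ev1 _ (by simp)] at h00
      simp only [map_mul, map_sub, eval_C, eval_X, v0, Option.elim] at h00
      exact hc (by linear_combination h00)
    rcases l with _ | l
    · rcases j with _ | j
      · exact absurd rfl hjl
      · exact case6 H q c a i j k (by simpa using hij) (by simpa using hik)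
          (by simpa using hjk) ha h4 hx he
    · rcases j with _ | j
      · refine case6 H q (-(a * c)) a⁻¹ k l i (by simpa using hkl)
          (by simpa using hik.symm) (by simpa using hil.symm) (inv_ne_zero ha) ?_ hx he
        have hs : ({some k, some l, some i, none} : Finset (Option (Fin n))) =
            {some i, none, some k, some l} := by
          ext p
          simp only [Finset.mem_insert, Finset.mem_singleton]
          tauto
        rw [hs, h4]
        congr 1
        have e1 := cC (σ := Option (Fin n)) (mul_inv_cancel₀ ha)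
        rw [C_mul, C_1] at e1
        rw [C_neg, C_mul]
        linear_combination (-(C c * X none * X (some l) * X (some i) * X (some l))) * e1
      · exact case7 H q c a i j k l (by simpa using hij) (by simpa using hik)
          (by simpa using hil) (by simpa using hjk) (by simpa using hjl) (by simpa using hkl)
          ha h4 hx he

end Pool.Agent.LFS
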