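import Pool.Agent.LFD.All
import Pool.Agent.LFS.Defs

/-!
# Admissible collections with many irreducible factors (MP_835236_al): statements (helper9)

`h = 0` a linear free divisor in `ℝ^N` (`LinFree h`), `Tan h` = the matrices `A` with `h ∣ der A h`: a Lie algebra of
dimension `N` (`LFD.all_Com`). THEOREM (1): a collection of dimension `n` whose polynomial `P` has `m` irreducible factors is a
direct sum of at least `3m - 2n` admissible collections, at least `4m - 3n` of which have dimension one. (2): the list of all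
collections with `m ≥ n - 1` (8 classes for every `n ≥ 4`).

IDEA. Choose coordinates in which a maximal space of commuting `ℝ`-diagonalisable tangent fields is diagonal (`Tor h`); its
dimension is at least the number of irreducible factors of `h` (`Chr`). A diagonal field is tangent if and only if it
multiplies the members of a homogeneous basis `Y` of `Tan h` by constants (the determinant of `Y` is `h`), so the linear
relations between the coordinates of `Tor h` are generated by the vectors `rel i j i' j'` with `(i,j)`, `(i',j')` in the support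
of one `Y_k` (`Rel`). Such vectors have at most four nonzero coordinates, so few of them leave many connected components
(`Cnt`), and no `Y_k` connects different components (`NoX`), so `h` is a product (`Spl`).

Module `X` proves `theorem thm_X (h.. : St_..) : St_X` in `Pool/Agent/LFS/X.lean`, namespace `Pool.Agent.LFS`; the hypotheses may be
the statements listed after `needs`, in the order listed. Everything of `Pool/Agent/LFD` is proved and may be used
(`LFD.all_Com : St_Com`, `LFD.thm_Sai`, `LFD.thm_Lin`, `LFD.thm_Frm`, `LFD.all_MainA`, `LFD.all_MainB`, `LFD.all_Tri`, `LFD.thm_Inj`, `LFD.thm_Prd`; the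
derivation `D A` with `D_apply`, `D_fld`, `comm` in `LFD/Com.lean`; `fld_sub`, `sub_sub`, `der_sub`, `lf_sub` in `LFD/Lin.lean`; `quot`,
`eval_subst` in `LFD/Sem.lean`; `sub_PP`, `PP_inj`, `eq_blk` in `LFD/Inj.lean`; look up their namespaces). Auxiliary lemmas in the
sub-namespace `Xx`.
-/

set_option autoImplicit false

noncomputable section

namespace Pool.Agent.LFS

open scoped Polynomial
open MvPolynomial Pool.Agent.Helper28.Nij Pool.Agent.LFD

/-! ### Definitions -/

section

variable {ι : Type} [Fintype ι] [DecidableEq ι]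

/-- Diagonalisable over `ℝ`. -/
def Dz (A : Matrix ι ι ℝ) : Prop :=
  ∃ (B : Matrix ι ι ℝ) (d : ι → ℝ), IsUnit B.det ∧ A * B = B * Matrix.diagonal d

/-- All complex eigenvalues are purely imaginary (or `0`). -/
def Ig (A : Matrix ι ι ℝ) : Prop :=
  ∀ (z : ℂ) (v : ι → ℂ), v ≠ 0 → (A.map (algebraMap ℝ ℂ)).mulVec v = z • v → z.re = 0

theorem der_add (A B : Matrix ι ι ℝ) (f : MvPolynomial ι ℝ) :
    der (A + B) f = der A f + der B f := by
  simp only [der, fld, Matrix.add_apply, C_add, add_mul, Finset.sum_add_distrib]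

theorem der_smul (c : ℝ) (A : Matrix ι ι ℝ) (f : MvPolynomial ι ℝ) :
    der (c • A) f = C c * der A f := by
  simp only [der, fld, Matrix.smul_apply, smul_eq_mul, C_mul, Finset.mul_sum, Finset.sum_mul, mul_assoc]

/-- The diagonal tangent fields. -/
def Tor (h : MvPolynomial ι ℝ) : Submodule ℝ (ι → ℝ) where
  carrier := {d | h ∣ der (Matrix.diagonal d) h}
  add_mem' := by
    intro a b ha hb
    have : der (Matrix.diagonal (a + b)) h = der (Matrix.diagonal a) h + der (Matrix.diagonal b) h := by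
      rw [← der_add, Matrix.diagonal_add]
      rfl
    change h ∣ der (Matrix.diagonal (a + b)) h
    rw [this]
    exact dvd_add ha hb
  zero_mem' := by
    change h ∣ der (Matrix.diagonal (0 : ι → ℝ)) h
    have : der (Matrix.diagonal (0 : ι → ℝ)) h = 0 := by
      simp [der, fld]
    rw [this]
    exact dvd_zero _
  smul_mem' := by
    intro c a ha
    change h ∣ der (Matrix.diagonal (c • a)) h
    rw [Matrix.diagonal_smul, der_smul]
    exact dvd_mul_of_dvd_right ha _

/-- `Tor h` is maximal: a tangent field which is diagonalisable over `ℝ` and commutes with the diagonal tangent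
fields is diagonal. -/
def Mx (h : MvPolynomial ι ℝ) : Prop :=
  ∀ A : Matrix ι ι ℝ, h ∣ der A h → Dz A →
    (∀ d ∈ Tor h, A * Matrix.diagonal d = Matrix.diagonal d * A) → ∃ d, A = Matrix.diagonal d

/-- A homogeneous basis of the tangent fields (for the diagonal ones); each member is diagonal or `Ig`. -/
def Good (h : MvPolynomial ι ℝ) (Y : ι → Matrix ι ι ℝ) : Prop :=
  (∀ k, h ∣ der (Y k) h) ∧
  (∃ c : ℝ, c ≠ 0 ∧ (Matrix.of fun k i => fld (Y k) i).det = C c * h) ∧
  (∀ k, ∀ d ∈ Tor h, ∃ c : ℝ, Matrix.diagonal d * Y k - Y k * Matrix.diagonal d = c • Y k) ∧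
  ∀ k, (∃ d, Y k = Matrix.diagonal d) ∨ Ig (Y k)

/-- `e_i - e_j - (e_i' - e_j')`. -/
def rel (i j i' j' : ι) : ι → ℝ :=
  Pi.single i 1 - Pi.single j 1 - (Pi.single i' 1 - Pi.single j' 1)

/-- No relation connects `S` with its complement. -/
def Cl (Y : ι → Matrix ι ι ℝ) (S : Finset ι) : Prop :=
  ∀ k i j i' j', Y k i j ≠ 0 → Y k i' j' ≠ 0 →
    (∀ l ∈ S, rel i j i' j' l = 0) ∨ ∀ l, l ∉ S → rel i j i' j' l = 0

/-- The four types of linear free divisors with at least `N - 1` factors. -/
def Typ (h : MvPolynomial ι ℝ) : Prop :=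
  ∃ c : ℝ, c ≠ 0 ∧
    ((h = C c * ∏ i, X i) ∨
    (∃ (i j : ι) (a b d : ℝ), i ≠ j ∧ b ^ 2 < 4 * a * d ∧
      h = C c * (C a * X i ^ 2 + C b * X i * X j + C d * X j ^ 2) * ∏ k ∈ Finset.univ \ {i, j}, X k) ∨
    (∃ (i j l : ι) (a : ℝ), i ≠ j ∧ i ≠ l ∧ j ≠ l ∧ a ≠ 0 ∧
      h = C c * X l * (X i * X l - C a * X j ^ 2) * ∏ k ∈ Finset.univ \ {i, j, l}, X k) ∨
    (∃ (i j k l : ι) (a : ℝ), i ≠ j ∧ i ≠ k ∧ i ≠ l ∧ j ≠ k ∧ j ≠ l ∧ k ≠ l ∧ a ≠ 0 ∧
      h = C c * X j * X l * (X i * X l - C a * X j * X k) * ∏ p ∈ Finset.univ \ {i, j, k, l}, X p))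

end

/-- `σ` is the direct sum of two admissible collections of positive dimensions. -/
def Sp2 {n : ℕ} (σ : Fin n → MvPolynomial (Fin n) ℝ) : Prop :=
  ∃ (a b : ℕ) (e : Fin a ⊕ Fin b ≃ Fin n) (τ : Fin n → MvPolynomial (Fin n) ℝ)
    (α : Fin a → MvPolynomial (Fin a) ℝ) (β : Fin b → MvPolynomial (Fin b) ℝ),
    0 < a ∧ 0 < b ∧ Admissible α ∧ Admissible β ∧ LinEquiv σ τ ∧
      PP τ = rename (Option.map fun i => e (Sum.inl i)) (PP α) *
        rename (Option.map fun i => e (Sum.inr i)) (PP β)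

/-! ### A. The hyperbolic part -/

/-- **Cut.** Every real matrix has a polynomial in it which is diagonalisable over `ℝ` and carries the real parts of
the eigenvalues.

Proof. Let `f` be the characteristic polynomial of `A`. For real `a` let `f_a` be the product of the irreducible factors
of `f` (with multiplicities) whose complex roots have the real part `a` (`X - a`, `(X - a)² + b²`). `f = ∏ f_a` (finitely many
`a`), the `f_a` are pairwise coprime. Chinese remainder theorem: `p ≡ a` modulo `f_a` for all `a`. Then `f ∣ ∏_a (p - a)`, so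
`A' = p(A)` satisfies `∏_a (A' - a) = 0` with different `a`: diagonalisable. If `(A - A') v = z v`, `v ≠ 0` over `ℂ`: the
eigenspace of `A - A'` for `z` is invariant under `A`, take an eigenvector `w` of `A` in it: `A w = λ w`, `λ` is a root of some
`f_a`, so `Re λ = a`, `p(λ) = a`, `A' w = a w`, `z = λ - Re λ`. needs: nothing -/
def St_Cut : Prop := ∀ (ι : Type) [Fintype ι] [DecidableEq ι] (A : Matrix ι ι ℝ),
  ∃ p : ℝ[X], Dz (Polynomial.aeval A p) ∧ Ig (A - Polynomial.aeval A p)

/-- **Zer.** If all eigenvalues of `N` are imaginary, then `0` is the only real eigenvalue of the derivation `der N`.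

Proof. Over `ℂ`: `D` = the derivation of `MvPolynomial ι ℂ` with `D X_i = Σ_j N_ij X_j`, `G_κ` = its maximal generalised
eigenspaces (`Module.End.maxGenEigenspace`), `G = ⨆_(Re κ = 0) G_κ`. By the Leibniz rule
`(D - (κ + λ))^m (f g) = Σ binom (D - κ)^k f (D - λ)^(m-k) g` `G_κ G_λ ⊆ G_(κ+λ)`, so `G` is closed under products; `1 ∈ G_0`; the
span of the `X_i` is `D`-invariant, finite dimensional, with the eigenvalues of `N` (of the transpose), so it lies in `G`.
Hence `G = ⊤`. If `D f = μ f`, `f ≠ 0`, `μ` real and `μ ≠ 0`, then `f ∈ G_μ`, and the `G_κ` are independent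
(`Module.End.independent_maxGenEigenspace`): contradiction. Use it for the image of `f` over `ℂ`. needs: nothing -/
def St_Zer : Prop := ∀ (ι : Type) [Fintype ι] [DecidableEq ι] (N : Matrix ι ι ℝ), Ig N →
  ∀ (f : MvPolynomial ι ℝ) (μ : ℝ), f ≠ 0 → der N f = C μ * f → μ = 0

/-- **Hyp.** The real part has the same real eigenvectors in the polynomial ring.

Proof. `p` from `Cut`, `A' = p(A)`, `D = der A`, `D' = der A'`. `A'` is diagonalisable, so after `sub B` (`der_sub`) all monomials are
eigenvectors of `D'`: every `f` is a finite sum of eigenvectors `f_b` of `D'` (`D' f_b = b f_b`, `b ∈ ℝ`). `D` and `D'` commute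
(`comm`), so `D f = μ f` implies `D f_b = μ f_b` (independence of eigenspaces), so `der (A - A') f_b = (μ - b) f_b`, and `Zer`
gives `f_b = 0` or `b = μ`. So `f = f_μ`. needs: Cut, Zer -/
def St_Hyp : Prop := ∀ (ι : Type) [Fintype ι] [DecidableEq ι] (A : Matrix ι ι ℝ),
  ∃ p : ℝ[X], Dz (Polynomial.aeval A p) ∧ Ig (A - Polynomial.aeval A p) ∧
    ∀ (f : MvPolynomial ι ℝ) (μ : ℝ), der A f = C μ * f →
      der (Polynomial.aeval A p) f = C μ * f

/-! ### B. The torus and a homogeneous basis -/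

/-- **Trs.** Coordinates in which a maximal split torus is diagonal; the linear factor `X i₀` stays a coordinate.

Proof. (1) `X i₀` is prime, `h = X i₀ g`, `X i₀ ∤ g` (squarefree). For `A ∈ Tan h` the product rule gives `X i₀ ∣ der A (X i₀) = fld A i₀`, so
`A i₀ j = 0` for `j ≠ i₀`: the hyperplane `H : v_(i₀) = 0` is invariant. (2) Let `𝒯 ⊆ Tan h` be a subspace of pairwise commuting `Dz`
matrices of maximal dimension (`Tan h` is a subspace). The members of `𝒯` have a common basis of eigenvectors, and so have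
their restrictions to `H`; so there is a common basis of eigenvectors of which all but one (number `i₀`) lie in `H`: the
columns of `B`. Then `B i₀ j = 0` for `j ≠ i₀`, `sub B (X i₀) = C (B i₀ i₀) * X i₀`, and `B⁻¹ A B` is diagonal for `A ∈ 𝒯`, and it is
tangent to `sub B h` (`der_sub`), i.e. in `Tor (sub B h)`. (3) Let `A'` be tangent to `sub B h`, `Dz`, commuting with the diagonal
tangent fields. `A = B A' B⁻¹ ∈ Tan h` is `Dz` and commutes with `𝒯`; `𝒯 + ℝ A` consists of pairwise commuting `Dz` matrices (sums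
of commuting `Dz` matrices are `Dz`), so `A ∈ 𝒯` by maximality and `A'` is diagonal. needs: nothing -/
def St_Trs : Prop := ∀ (ι : Type) [Fintype ι] [DecidableEq ι] (h : MvPolynomial ι ℝ), LinFree h →
  ∀ i₀ : ι, X i₀ ∣ h → ∃ B : Matrix ι ι ℝ, IsUnit B.det ∧
    (∃ c : ℝ, c ≠ 0 ∧ sub B (X i₀) = C c * X i₀) ∧ Mx (sub B h)

/-- **Chr.** There are at least as many independent diagonal tangent fields as factors.

Proof. (1) For `A ∈ Tan h`: `h = f_i g`, `f_i ∤ g` (squarefree), `f_i` prime, product rule: `f_i ∣ der A f_i`, so `der A f_i = C (λ_i A) * f_i`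
(`quot` in `LFD/Sem.lean`), `λ_i` linear on the subspace `Tan h`, and `λ_i (B A - A B) = 0` (`comm`). (2) The `λ_i` are linearly
independent on `Tan h`: let `Σ c_i λ_i = 0`, `w_j = Σ_i c_i (∂_j f_i) ∏_(k ≠ i) f_k`. For `A = A_k` (the matrices of `LinFree`) `Σ_j fld A_k j * w_j =
(Σ c_i λ_i(A_k)) ∏ f_i = 0`, and `det ≠ 0`, so `w = 0`, `f_i ∣ c_i (∂_j f_i) ∏_(k ≠ i) f_k`, and `f_i ∤ f_k` (`h` squarefree), so `f_i ∣ c_i ∂_j f_i`
for all `j`, so `c_i = 0` (`Sai.exists_not_dvd` or `totalDegree_pderiv_lt`, `eq_C` in `LFD/Sai.lean`). (3) The `λ_i` are linearly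
independent on `Tor h`: let `λ = Σ c_i λ_i` vanish on `Tor h` (i.e. on the `diagonal d`, `d ∈ Tor h`). Choose `d⁰ ∈ Tor h` such that
`d⁰_i = d⁰_j` only if `d_i = d_j` for all `d ∈ Tor h` (a subspace is not a finite union of proper subspaces). Let `A ∈ Tan h` and
`ad A = diagonal d⁰ * A - A * diagonal d⁰ ∈ Tan h` (`Com` (2)), `(ad A)_ij = (d⁰_i - d⁰_j) A_ij`. Let `q` be a real polynomial with
`q(0) = 1`, `q(d⁰_i - d⁰_j) = 0` for all nonzero differences, `q = 1 + X q₁`: `A₀ = q(ad) A = A + ad (q₁(ad) A)` is in `Tan h`, has the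
entries `A_ij` for `d⁰_i = d⁰_j` and `0` otherwise, commutes with all `diagonal d`, `d ∈ Tor h`, and `λ(A₀) = λ(A)`. Take `p` from
`Hyp` for `A₀`: `A₁ = p(A₀)` is tangent (`Hyp` for `f = h`), `Dz`, commutes with all `diagonal d`: `A₁ = diagonal d'`, `d' ∈ Tor h` (`Mx`), and
`λ_i(A₁) = λ_i(A₀)` (`Hyp` for `f_i`), so `λ(A) = λ(A₁) = 0`. So `λ = 0` on `Tan h`, `c = 0` by (2). (4) `m` independent functionals
on `Tor h`: `m ≤ finrank`. needs: Hyp -/
def St_Chr : Prop := ∀ (ι : Type) [Fintype ι] [DecidableEq ι] (h : MvPolynomial ι ℝ), LinFree h →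
  Mx h → ∀ (m : ℕ) (f : Fin m → MvPolynomial ι ℝ), (∀ i, Irreducible (f i)) → (∏ i, f i) ∣ h →
    m ≤ Module.finrank ℝ (Tor h)

/-- **Bas.** A homogeneous basis.

Proof. `Tan h` is the span of the `A_k` (`Com` (1)), of dimension `N` (they are independent because `det ≠ 0`), and it is invariant
under `ad_d A = diagonal d * A - A * diagonal d`, `d ∈ Tor h` (`Com` (2)). The `ad_d` are commuting diagonalisable endomorphisms of
`Tan h` (restrictions of `A_ij ↦ (d_i - d_j) A_ij`), so `Tan h` is spanned by common eigenvectors `A` (for `d ↦ α(d)`). If some `α(d) ≠ 0`: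
`A` is nilpotent (`A` maps the eigenspace of `diagonal d` for `c` to the one for `c + α(d)`), so `Ig A`. If `α = 0`: `A` commutes with
all `diagonal d`; `p` from `Hyp`: `A = p(A) + (A - p(A))`, `p(A) ∈ Tan h` (`Hyp` for `f = h`) is `Dz` and commutes with the `diagonal d`, so it is
diagonal (`Mx`); `A - p(A) ∈ Tan h` is `Ig` and commutes with the `diagonal d`. So `Tan h` is spanned by matrices with (3), (4) of
`Good`; choose `N` independent ones. `det (fld (Y_k) i) = det(g) C c h` for the base change matrix `g`. needs: Hyp -/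
def St_Bas : Prop := ∀ (ι : Type) [Fintype ι] [DecidableEq ι] (h : MvPolynomial ι ℝ), LinFree h →
  Mx h → ∃ Y : ι → Matrix ι ι ℝ, Good h Y

/-- **Rel.** The diagonal tangent fields in terms of the supports of the `Y_k`.

Proof. `(diagonal d * Y - Y * diagonal d)_ij = (d_i - d_j) Y_ij`. (⟹) is clear from (3) of `Good`. (⟸) Let `c_k` be the common value of
`d_i - d_j` on the support of `Y_k` (`0` if it is empty). `Y_k * diagonal d = diagonal d * Y_k - c_k • Y_k`, so (`D_fld`) the derivation
`D = D (diagonal d)` satisfies `D (fld (Y_k) i) = (d_i - c_k) fld (Y_k) i`. Every product `∏_k fld (Y_k) (s k)`, `s` a permutation, is an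
eigenvector of `D` for `Σ d_i - Σ c_k`, and so is the determinant, which is `C c * h`. needs: nothing -/
def St_Rel : Prop := ∀ (ι : Type) [Fintype ι] [DecidableEq ι] (h : MvPolynomial ι ℝ)
  (Y : ι → Matrix ι ι ℝ), Good h Y → ∀ d : ι → ℝ, d ∈ Tor h ↔
    ∀ k i j i' j', Y k i j ≠ 0 → Y k i' j' ≠ 0 → d i - d j = d i' - d j'

/-! ### C. Components -/

/-- **Cnt.** Few relations with at most four coordinates leave at least three components.

Proof. `N = card ι`, `r = finrank (span R) = N - finrank T` (`T` is the orthogonal complement of `R`), so `3 r + 2 < N`. We build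
partitions of `ι` into clusters `K` together with finitely many chosen elements of `R`, each of them supported in one
cluster; `R_K` = the span of the chosen ones supported in `K` (they have coordinate sum `0`). Invariant: `|K| ≤ 3 dim R_K + 1`,
and `|K| ≤ 3 dim R_K` if `e_a - e_b ∈ R_K` for some `a ≠ b`. Start with singletons, nothing chosen. Step: let `g ∈ R` not be supported in
one cluster, `K_1, …, K_s`, `2 ≤ s ≤ 4`, the clusters which it meets; merge them to `K` and choose `g`. (a) If `g ∈ ⊕ R_(K_i)` then each part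
`g|K_i ≠ 0` is in `R_(K_i)`, so it has coordinate sum `0`; the absolute values of the coordinates of `g` add up to at most `4`, so
`s = 2` and both parts have the form `e_a - e_b`, so `|K_i| ≤ 3 dim R_(K_i)`, `|K| ≤ 3 dim R_K`. (b) Otherwise `dim R_K = Σ dim R_(K_i) + 1`
and `|K| ≤ 3 (dim R_K - 1) + s`. If `s ≤ 3` this is `≤ 3 dim R_K`. If `s = 4` it is `≤ 3 dim R_K + 1`, and `g` has exactly one coordinate
`± 1` in each `K_i`; if `e_a - e_b = Σ r_i + c g`, `r_i ∈ R_(K_i)`, then the coordinate sum over `K_i` is `± c` for all four `i`, but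
`e_a - e_b` has at most two nonzero coordinates, so `c = 0`, `a` and `b` are in the same `K_i` and `e_a - e_b ∈ R_(K_i)`, so
`|K_i| ≤ 3 dim R_(K_i)` and `|K| ≤ 3 dim R_K`. (Induction on the number of clusters.) End: all `g ∈ R` are supported in clusters,
`N = Σ |K| ≤ 3 Σ dim R_K + #clusters ≤ 3 r + #clusters`: at least three clusters. `S` = a cluster without `t`; a third one gives `j`.
needs: nothing -/
def St_Cnt : Prop := ∀ (ι : Type) [Fintype ι] [DecidableEq ι] (R : Set (ι → ℝ))
  (T : Submodule ℝ (ι → ℝ)), (∀ g ∈ R, ∃ i j i' j', g = rel i j i' j') →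
    (∀ d, d ∈ T ↔ ∀ g ∈ R, ∑ l, d l * g l = 0) →
    2 * Fintype.card ι + 2 < 3 * Module.finrank ℝ T → ∀ t : ι, ∃ S : Finset ι, t ∉ S ∧
      S.Nonempty ∧ (∃ j, j ≠ t ∧ j ∉ S) ∧
      ∀ g ∈ R, (∀ l ∈ S, g l = 0) ∨ ∀ l, l ∉ S → g l = 0

/-- **Rk1.** No tangent fields `l ∂_u` with `∂_u l = 0`.

Proof. `Y = vecMulVec u v`: `der Y f = l ∂_u f`, `l = Σ v_j X_j`, `∂_u = Σ u_i ∂_i`, `∂_u l = 0`, so `(der Y)^m f = l^m ∂_u^m f = 0` for large `m`; as
`der Y h = C μ * h` (`quot`) and `h ≠ 0`, `μ = 0`, `l ∂_u h = 0`, `∂_u h = 0`. So `vecMulVec u w` is tangent for every `w`. Choose `q` with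
`h(q) ≠ 0`. By `Com` (1) every tangent matrix is `Σ g_k A_k`, and `(Σ g_k A_k) q = 0` only for `g = 0` (the matrix with the rows
`A_k q` has the determinant `c h(q) ≠ 0`). `u`, `v ≠ 0` and `u · v = 0` give `N ≥ 2`, so there is `w ≠ 0` with `w · q = 0`: `vecMulVec u w ≠ 0`
maps `q` to `0`. needs: nothing -/
def St_Rk1 : Prop := ∀ (ι : Type) [Fintype ι] [DecidableEq ι] (h : MvPolynomial ι ℝ), LinFree h →
  ∀ u v : ι → ℝ, u ≠ 0 → v ≠ 0 → ∑ i, u i * v i = 0 → ¬ h ∣ der (Matrix.vecMulVec u v) h

/-- **NoX.** The `Y_k` do not connect different components.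

Proof. Call `(i, j)` an arrow if `Y_ij ≠ 0`, `Y = Y_k` not diagonal, so `Ig Y`. (1) No arrow crosses: let `(i, j)` be an arrow with exactly
one of `i`, `j` in `S`. For every other arrow `(i', j')` `g = rel i j i' j'` satisfies `g_i = 0` or `g_j = 0` (`Cl`). `g_i = 0` means `i' = i`,
`j' ≠ i`; `g_j = 0` means `j' = j`, `i' ≠ j`. If both kinds occur, `(i, j')` with `j' ≠ i, j` and `(i', j)` with `i' ≠ i, j`, then
`rel i j' i' j` is `1` at `i` and at `j`: contradiction to `Cl`. So `Y = vecMulVec (e_i) v` with `v_i = 0` or `Y = vecMulVec u (e_j)` with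
`u_j = 0`: contradiction to `Rk1`. (2) `Y` is not diagonal: let `(i, j)`, `i ≠ j`, be an arrow, say `i, j ∈ S` (the other case is the
same with the complement). An arrow `(i', j')` with `i', j' ∉ S`, `i' ≠ j'`: `rel i j i' j'` is `1` at `i ∈ S` and `-1` at `i' ∉ S`: impossible. An
arrow `(l, l)`, `l ∉ S`: by (1) and the last remark the column `l` has no other arrow, so `e_l` is an eigenvector with the real
eigenvalue `Y_ll ≠ 0`: contradiction to `Ig`. needs: Rk1 -/
def St_NoX : Prop := ∀ (ι : Type) [Fintype ι] [DecidableEq ι] (h : MvPolynomial ι ℝ)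
  (Y : ι → Matrix ι ι ℝ) (S : Finset ι), LinFree h → Good h Y → Cl Y S → ∀ k,
    (∃ d, Y k = Matrix.diagonal d) ∨ (∀ i j, Y k i j ≠ 0 → i ∈ S ∧ j ∈ S) ∨
      ∀ i j, Y k i j ≠ 0 → i ∉ S ∧ j ∉ S

/-- **Spl.** A linear free divisor with a closed set of coordinates is a product.

Proof. `Tan h` is spanned by the `Y_k` (`Com` (1)). `V₁ = {A ∈ Tan h | A_ij ≠ 0 → i, j ∈ S}`, `V₂` the same for the complement.
`Tan h = V₁ + V₂`: if `Y_k` is not diagonal use `NoX`; if `Y_k = diagonal d`, `d ∈ Tor h`, then `d 1_S ∈ Tor h` by `Rel`: for `g = rel i j i' j'` of two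
arrows of some `Y_l` `Σ (d 1_S) g` is `0` or `Σ d g = 0`, by `Cl`. Choose `q` with `h(q) ≠ 0`; `A ↦ A q` is injective on `Tan h` (as in `Rk1`), so
`dim V₁ ≤ |S|`, `dim V₂ ≤ N - |S|`, and both are equalities. With bases `A_k` (`k ∈ S`) of `V₁`, (`k ∉ S`) of `V₂`: `det (fld (A_k) i) = C c' * h`,
`c' ≠ 0` (base change), and it is `det₁ det₂` (blocks), polynomials in the variables of `S`, of the complement (as `rename`s):
`h₁ = det₁`, `h₂ = C c'⁻¹ det₂`. Squarefree: divisors of `h` (`rename` is injective and multiplicative). Tangent: for `A ∈ V₁`, `A₁` its block: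
`der A h = C μ * h` and `der A (rename h₁ * rename h₂) = rename (der A₁ h₁) * rename h₂`, cancel `rename h₂`. needs: Rel, NoX -/
def St_Spl : Prop := ∀ (ι : Type) [Fintype ι] [DecidableEq ι] (h : MvPolynomial ι ℝ)
  (Y : ι → Matrix ι ι ℝ) (S : Finset ι), LinFree h → Good h Y → Cl Y S →
    ∃ (h₁ : MvPolynomial {i // i ∈ S} ℝ) (h₂ : MvPolynomial {i // i ∉ S} ℝ),
      LinFree h₁ ∧ LinFree h₂ ∧ h = rename Subtype.val h₁ * rename Subtype.val h₂

/-- **Ren.** Renaming the variables.

Proof. `rename e` is an isomorphism of rings which maps `der A f` to `der (A.reindex e e) (rename e f)` and `fld A i` to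
`fld (A.reindex e e) (e i)`; reindex the rows and the columns of the determinant (`Matrix.det_reindex_self` or
`Matrix.det_submatrix_equiv_self`, `RingHom.map_det`). needs: nothing -/
def St_Ren : Prop := ∀ (ι κ : Type) [Fintype ι] [DecidableEq ι] [Fintype κ] [DecidableEq κ] (e : ι ≃ κ)
  (h : MvPolynomial ι ℝ), LinFree h → LinFree (rename e h)

/-! ### D. Collections -/

/-- **Lft.** From divisors back to collections.

Proof. `e` = the point `x = 0`, `t = 1` = the column `none` of `E`. `sub E (X none) = C c * X none` gives the row `none` of `E`: `E none (some j) = 0`.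
So `E` is block diagonal `(A, 1)` (`eq_blk`), `det A` is a unit, `sub E (X none) = X none`, `sub E (PP σ) = PP τ` with `τ_k = σ_k(A x)` (`sub_PP`),
`LinEquiv σ τ`, `X none * PP τ = C c' * (X none * F)`, `PP τ = C c' * F`, and at `e`: `1 = c'` (`eval e (PP τ) = 1` by homogeneity is not
available for arbitrary `σ`, but `eval e (PP σ) = 1` is assumed, and `eval e (sub E u) = eval (E e) u = eval e u`). needs: nothing -/
def St_Lft : Prop := ∀ (n : ℕ) (σ : Fin n → MvPolynomial (Fin n) ℝ)
  (E : Matrix (Option (Fin n)) (Option (Fin n)) ℝ) (F : MvPolynomial (Option (Fin n)) ℝ),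
  IsUnit E.det → (∀ i : Fin n, E (some i) none = 0) → E none none = 1 →
    (∃ c : ℝ, sub E (X none) = C c * X none) →
    (∃ c : ℝ, sub E (X none * PP σ) = C c * (X none * F)) →
    MvPolynomial.eval (fun i => Option.elim i 1 fun _ => 0) (PP σ) = 1 →
    MvPolynomial.eval (fun i => Option.elim i 1 fun _ => 0) F = 1 →
      ∃ τ : Fin n → MvPolynomial (Fin n) ℝ, LinEquiv σ τ ∧ PP τ = F

/-- **Dir.** A product decomposition of the divisor gives a direct sum.

Proof. `e` = the point `x = 0`, `t = 1`; `q' = B⁻¹ e`, `H = sub B (X none * PP σ)`, `H(q') = (t P)(e) = 1` (`σ_k(0) = 0`, `Admissible.homog`).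
`c q'_none = (B q')_none = 1`. `X none` is prime, divides `H` and not `rename h₁` (`none ∉ S`), so `X none ∣ h₂` (its coordinate in `{i // i ∉ S}`).
`p₁`, `p₂` = the two parts of `q'`, `h₁(p₁) h₂(p₂) = 1`. `a = |S|`, `S ≃ Fin a`; `MainB` for `h₁` (transported to `Fin a`) and `p₁`:
`h₁(x + t p₁) = h₁(p₁) PP α`, `Admissible α`. `{i // i ∉ S} ≃ Option (Fin b)` with `none ↦ none`; `Tri` for `h₂`, the linear form `X none` and `p₂`:
`B₂` with the column `none` equal to `p₂`, `sub B₂ (X none) = C (p₂ none) * X none`, `sub B₂ h₂ = C (h₂(p₂)) * (X none * PP β)`, `Admissible β`. Let `Φ` be the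
matrix of `(x, y, t) ↦ (x + t p₁, B₂ (y, t))` (`Option (Fin n) ≃ S ⊔ Sᶜ`; number the variables `x_i`, `y_j` by `Fin a ⊕ Fin b ≃ Fin n`). It is invertible,
`sub Φ H = X none * (PP α) * (PP β)` (renamed), `Φ e = q'`, `sub Φ (X none) = C (q'_none) * X none`. `Lft` for `E = B Φ` (`sub_sub`). `a > 0`: `S` is not
empty, `b > 0`: `some i ∉ S`. needs: Lft, Ren -/
def St_Dir : Prop := ∀ (n : ℕ) (σ : Fin n → MvPolynomial (Fin n) ℝ)
  (B : Matrix (Option (Fin n)) (Option (Fin n)) ℝ) (c : ℝ) (S : Finset (Option (Fin n)))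
  (h₁ : MvPolynomial {i // i ∈ S} ℝ) (h₂ : MvPolynomial {i // i ∉ S} ℝ),
  Admissible σ → IsUnit B.det → c ≠ 0 → sub B (X none) = C c * X none → none ∉ S → S.Nonempty →
    (∃ i : Fin n, some i ∉ S) → LinFree h₁ → LinFree h₂ →
    sub B (X none * PP σ) = rename Subtype.val h₁ * rename Subtype.val h₂ → Sp2 σ

/-- **Two.** Assembly. `LinFree (X none * PP σ)` (`MainA`); `Trs` with `i₀ = none`: `h' = sub B (X none * PP σ)` is `LinFree` (`Lin`), `Mx`. The
irreducible factors of `PP σ` and `X none` (`nf σ + 1` polynomials) are mapped by the automorphism `sub B` to irreducible ones whose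
product divides `h'` (up to a unit): `nf σ + 1 ≤ finrank (Tor h')` (`Chr`). `Bas`: `Y`. `Cnt` with `R` = the set of the `rel i j i' j'` of two
arrows of one `Y_k`, `T = Tor h'` (`Rel`), `t = none`: `2 (n + 1) + 2 < 3 (nf σ + 1)`. `Spl`, `Dir`.
needs: Trs, Chr, Bas, Rel, Cnt, Spl, Dir -/
def St_Two : Prop := ∀ (n : ℕ) (σ : Fin n → MvPolynomial (Fin n) ℝ), Admissible σ →
  2 * n + 1 < 3 * nf σ → Sp2 σ

/-- **P1** (first part of the theorem).

Proof. Strong induction on `n`. `nf σ ≤ n` (`PP σ` is squarefree of total degree `n`; or: the factors are not constant and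
`PP σ` is homogeneous of degree `n`). If `3 nf σ ≤ 2 n + 1` and `n ≥ 1`: one group, `J = Unit`, `s = n`, `α = σ`: `3 nf σ ≤ 2 n + 1`, and
`4 nf σ ≤ 3 n + [n = 1]` follows (`n = 1`: `nf σ ≤ 1`; `n = 2, 3`: by hand; `n ≥ 4`: `4 (2 n + 1) ≤ 9 n`). `n = 0`: `J = Empty`, `PP σ = 1`. Otherwise
`Two`: `σ ~ τ`, `PP τ = PP α * PP β` (renamed), `a, b < n`. `nf σ = nf α + nf β` (`sub` with an invertible matrix and injective `rename`s
preserve irreducible = prime elements: `MvPolynomial.prime_rename_iff`; the cardinality of `factors` is additive). Induction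
for `α` and `β`, `J = J₁ ⊕ J₂`; the linear changes of `α` and `β` give a block diagonal linear change. needs: Two -/
def St_P1 : Prop := ∀ (n : ℕ) (σ : Fin n → MvPolynomial (Fin n) ℝ), Admissible σ →
  ∃ (J : Type) (_ : Fintype J) (s : J → ℕ) (α : ∀ j, Fin (s j) → MvPolynomial (Fin (s j)) ℝ),
    (∀ j, 0 < s j ∧ Admissible (α j)) ∧ IsSum σ s α ∧ 3 * nf σ ≤ 2 * n + Fintype.card J ∧
      4 * nf σ ≤ 3 * n + Nat.card {j // s j = 1}

/-! ### E. At least `n - 1` factors -/

/-- **One.** The linear free divisors with `N - 1` independent diagonal tangent fields.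

Proof. `N = card ι`. Every tangent matrix is a combination of the `Y_k` (`Com` (1)), and if `N` tangent matrices `A_k` have a
nonzero determinant `det (fld (A_k) i)` then it is `C c' * h`, `c' ≠ 0` (base change) (*). (0) `Tor h = ⊤`: the `diagonal e_l` are tangent, (*): `∏ X_i = C c' * h`.
(1) `finrank (Tor h) = N - 1`. Not all `Y_k` are diagonal; let `Y = Y_k` not be diagonal, so `Ig Y`, with an arrow `(i, j)`, `i ≠ j` (arrow:
`Y_ij ≠ 0`). The orthogonal complement of `Tor h` is a line `ℝ ρ`, it contains all `rel` of two arrows (`Rel`). If `(i, j)` is the only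
arrow, `Rk1` is violated. So there is an arrow `(i', j')` with `ρ := e_i - e_j - (e_i' - e_j') ≠ 0` and every arrow `(a, b)` has
`e_a - e_b = (1 - s)(e_i - e_j) + s (e_i' - e_j')` for some real `s`. (1a) `e_i' - e_j' ∈ {0, -(e_i - e_j)}`: all arrows are in the
block `{i, j}` or diagonal; a diagonal entry outside the block is a real eigenvalue, so `0` (`Ig`). The block `(p q; r s)` is not
diagonal, has imaginary eigenvalues: `p + s = 0`, `ps - qr ≥ 0`; if `ps - qr = 0` then `Y` is `vecMulVec u v` with `u · v = p + s = 0`: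
contradiction (`Rk1`). `Tor h` contains `e_l` (`l ≠ i, j`) and `e_i + e_j`. (*) with these and `Y`: `h` is a constant times
`r X_i² + (s - p) X_i X_j - q X_j²` times the other variables; `(s - p)² + 4 q r = -4 (ps - qr) < 0`. (1b) Otherwise `e_i' - e_j'` is a
root vector different from `± (e_i - e_j)`, and comparing coefficients only `s = 0, 1` are possible: `(i, j)`, `(i', j')` are the
only arrows, and they are off-diagonal. If `i = i'` or `j = j'`: `Rk1` is violated. Chain: after exchanging the two,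
`i' = j`, `l := j' ≠ i, j`, `Y_ij = a`, `Y_jl = b`: `Tor h ∋ e_k` (`k ≠ i, j, l`), `e_i + e_j + e_l`, `e_i - e_l`, and (*):
`det (x_i x_j x_l; x_i 0 -x_l; a x_j b x_l 0) = x_l (2 b x_i x_l - a x_j²)`. Otherwise `i, j, i', j'` are distinct, `k := i'`, `l := j'`, `Y_ij = a`,
`Y_kl = b`: `Tor h ∋ e_p` (`p ≠ i, j, k, l`), `e_i + e_j`, `e_k + e_l`, `e_i + e_k`, and (*): `± x_j x_l (b x_i x_l - a x_j x_k)`. needs: Rel, Rk1 -/
def St_One : Prop := ∀ (ι : Type) [Fintype ι] [DecidableEq ι] (h : MvPolynomial ι ℝ)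
  (Y : ι → Matrix ι ι ℝ), LinFree h → Good h Y →
    Fintype.card ι ≤ Module.finrank ℝ (Tor h) + 1 → Typ h

/-- **Frs.** The four types are linear free divisors.

Proof. Squarefree: a product of pairwise non associated primes (the variables, and the quadratic forms: a positive definite
form in two variables, `X i * X l - C a * X j ^ 2`, `X i * X l - C a * X j * X k`; the last two have degree one in `X i` with coprime
coefficients). The fields and determinants are those in the proof of `One` (with `Y` = `(r x_i + …)`: for the second type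
`Y = (p q; r s)`, `r = a`, `s = b / 2 = -p`, `q = -d`; third type: `Y_ij = 2 a`, `Y_jl = 1`; fourth type: `Y_ij = a`, `Y_kl = 1`). needs: nothing -/
def St_Frs : Prop := ∀ (ι : Type) [Fintype ι] [DecidableEq ι] (h : MvPolynomial ι ℝ),
  Typ h → LinFree h

/-- **Nrm.** The normal forms of the types with a linear factor and a base point.

Proof. `e` = the point `x = 0`, `t = 1`. Write `y_i = X i` for the variables of `H`, `t = X none`. We look for linear forms
`y_i = Φ_i(x, t)` (the rows of an invertible `Φ`) with `Φ_i(e) = q_i`, `Φ_none = q_none t`, such that `H(Φ) = const * t * NF`. `X none ∣ H` and all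
linear factors of `H` in the list do not vanish at `q`. The variables which are not named below are `y_i = q_i (t + x_(..))` (numbering
of the new variables by a bijection). Type 1: `k = 0`. Type 2 (`none ≠ i, j`): `k = 1`; `Q = a y_i² + b y_i y_j + d y_j²`, `p = (q_i, q_j) ≠ 0`, `p'` with
`Q(p') = Q(p)` and orthogonal to `p` for `Q`: `(y_i, y_j) = (t + x_0) p + x_1 p'`. Type 3: `Q = y_i y_l - a y_j²`, `Q₀ = Q(q) ≠ 0`. If `none = l`: `y_l = q_l t`,
`y_j = q_j t + s x_1`, `y_i = q_i t + (Q₀ / q_l) x_0 + (2 a q_j s / q_l) x_1`, `s = √|Q₀ / a|`: `Q = Q₀ (t² + x_0 t ± x_1²)`, `k = 2, 3`. (`none ≠ i, j`, because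
`X none ∣ H`.) Otherwise `none ≠ i, j, l`: `y_l = q_l (t + x_0)`, `y_j = q_j (t + x_0) + s x_2`,
`y_i = q_i (t + x_0) + (Q₀ / q_l) (x_1 - 2 x_0) + (2 a q_j s / q_l) x_2`: `Q = Q₀ ((t + x_0)(t + x_1 - x_0) ± x_2²)`, `k = 4, 5`. Type 4: `Q = y_i y_l - a y_j y_k`,
`Q₀ = Q(q) ≠ 0`. If `none = l`: `y_l = q_l t`, `y_j = q_j (t + x_0)`, `y_k = q_k t + β`, `y_i = q_i t + α` with `β = - Q₀ x_2 / (a q_j)`,
`α = (Q₀ x_1 + a q_j β + a q_j q_k x_0) / q_l`: `Q = Q₀ (t² + x_1 t + x_0 x_2)`, `k = 6`. `none = j` is the same after exchanging `(i, l)` and `(k, j)`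
(`Q = -a (y_j y_k - a⁻¹ y_i y_l)`). Otherwise `none ≠ i, j, k, l`: `y_l = q_l (t + x_0)`, `y_j = q_j (t + x_1)`, `y_k = q_k (t + x_0) + (Q₀ / (a q_j)) x_3`,
`y_i = (a q_j q_k / q_l) (t + x_1) + (Q₀ / q_l) (t + x_2)`: `Q = Q₀ ((t + x_0)(t + x_2) - (t + x_1) x_3)`, `k = 7`. needs: nothing -/
def St_Nrm : Prop := ∀ (n : ℕ) (H : MvPolynomial (Option (Fin n)) ℝ) (q : Option (Fin n) → ℝ),
  Typ H → X none ∣ H → MvPolynomial.eval q H ≠ 0 → ∃ (k : Fin 8)
    (Φ : Matrix (Option (Fin n)) (Option (Fin n)) ℝ), dm k ≤ n ∧ IsUnit Φ.det ∧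
      (∀ i, Φ i none = q i) ∧ (∃ c : ℝ, sub Φ (X none) = C c * X none) ∧
      ∃ c : ℝ, sub Φ H = C c * (X none * NF n k)

/-- **Nfa.** The normal forms are admissible and have at least `n - 1` factors.

Proof. Put `H` = the product `t Q ∏ (other variables)` of the type of `k` with all constants `1` (type 3: `a = 1` or `a = -1`), `q` as below; the
substitution `Φ` of `Nrm` shows `sub Φ H = C c * (X none * NF n k)`, `c ≠ 0`, with an invertible `Φ` (direct computation: `k = 0`: `y_i = t + x_i`;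
`k = 1`: `y_0 = t + x_0`, `y_1 = x_1`; `k = 2, 3`: `Q = y_0 t - a y_1²`, `y_0 = t + x_0`, `y_1 = x_1`; `k = 4, 5`: `Q = y_1 y_0 - a y_2²`, `y_0 = t + x_0`,
`y_1 = t + x_1 - x_0`, `y_2 = x_2`; `k = 6`: `Q = t y_1 - y_0 y_2`, `y_0 = t + x_0`, `y_1 = t + x_1 - x_2`, `y_2 = -x_2`:
`t (t + x_1 - x_2) + (t + x_0) x_2`; `k = 7`: `Q = y_0 y_2 - y_1 y_3`, `y_0 = t + x_0`, `y_1 = t + x_1`, `y_2 = t + x_2`, `y_3 = x_3`). `Frs`, `Lin`: `X none * NF n k` is
`LinFree`. `NF n k` is homogeneous of degree `n` with the value `1` at `e`: `Frm` gives `τ`, `MainA` gives `Admissible τ`. `NF n k` is a product of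
at least `n - 1` polynomials which are not units (they have positive degree), so `factors` has at least `n - 1` members. needs: Frs -/
def St_Nfa : Prop := ∀ (n : ℕ) (k : Fin 8), dm k ≤ n →
  ∃ τ : Fin n → MvPolynomial (Fin n) ℝ, Admissible τ ∧ PP τ = NF n k ∧ n ≤ nf τ + 1

/-- **Unq.** The normal forms are pairwise inequivalent.

Proof. `LinEquiv τ τ'`: `NF n k' = sub (blk A) (NF n k)`, `A` invertible: an automorphism fixing `t` and mapping linear forms in `x` to linear
forms in `x`. For `k ≥ 1` `NF n k = Q_k ∏ (t + l)` with `n - 2` linear forms `l` in `x` (`t + l` prime) and an irreducible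
`Q_k = t² + …`: `Q_1 = (t + x_0)² + x_1²`, `Q_2, Q_3 = t² + x_0 t ± x_1²`, `Q_4, Q_5 = (t + x_0)(t + x_1 - x_0) ± x_2²`,
`Q_6 = t² + x_1 t + x_0 x_2`, `Q_7 = (t + x_0)(t + x_2) - (t + x_1) x_3` (irreducible: `Q_k` has no factor `t + m`, `m` a linear form, since the
discriminant in `t` is not the square of a linear form); `k = 0`: only linear factors. By unique factorisation `k = 0` iff
`k' = 0`, and for `k, k' ≥ 1` `Q_k'` = the image of `Q_k`, the linear factors correspond. Discriminants (quadratic forms in `x`):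
`-4 x_1²`; `x_0² - 4 x_1²`; `x_0² + 4 x_1²`; `(x_1 - 2 x_0)² - 4 x_2²`; `(x_1 - 2 x_0)² + 4 x_2²`; `x_1² - 4 x_0 x_2`;
`(x_0 - x_2)² + x_3 (x_3 - 2 x_0 - 2 x_2 + 4 x_1)`. `k = 1`: the only one which is `≤ 0` everywhere. `k = 3, 5`: `≥ 0` everywhere and not `0`;
`k = 5`: there is a linear factor `t + l` with `Q(x, -l(x)) ≤ 0` for all `x` (`l = x_0`: `- x_2²`), `k = 3`: `x_i² - x_0 x_i - x_1²` takes positive
values. `k = 2, 4` against `6, 7`: the discriminant is a product of two linear forms for `2, 4` and not for `6, 7` (rank three: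
e.g. it vanishes on no hyperplane). `4`: `Q(x, -x_0) = x_2² ≥ 0` for all `x`; `2`: `x_i² - x_0 x_i + x_1²` takes negative values. `6`:
there is a linear factor `t + l`, `l ≠ 0`, such that `l(x) = 0` implies `Q(x, 0) = 0` (`l = x_0`: `Q(x, 0) = x_0 x_2`); `7`: `x_0 x_2 - x_1 x_3` vanishes
on no hyperplane. needs: nothing -/
def St_Unq : Prop := ∀ (n : ℕ) (k k' : Fin 8) (τ τ' : Fin n → MvPolynomial (Fin n) ℝ),
  dm k ≤ n → dm k' ≤ n → PP τ = NF n k → PP τ' = NF n k' → LinEquiv τ τ' → k = k'

/-- **P2** (second part of the theorem).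

Proof. (⟹) existence as in `Two`: `LinFree (X none * PP σ)`, `Trs` with `i₀ = none`, `h' = sub B (X none * PP σ)`, `nf σ + 1 ≤ finrank (Tor h')` (`Chr`), so
`card = n + 1 ≤ finrank + 1`; `Bas`, `One`: `Typ h'`. `q = B⁻¹ e`, `h'(q) = 1`. `Nrm`: `k`, `Φ`; `Lft` with `E = B Φ`, `F = NF n k` (its value at `e` is `1`).
Uniqueness: `Unq` (`LinEquiv` is an equivalence relation). (⟸) `Nfa` (`LinEquiv` preserves `Admissible` and `nf`; for `PP τ = PP τ'` use
`PP_inj`). needs: Trs, Chr, Bas, One, Lft, Nrm, Nfa, Unq -/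
def St_P2 : Prop := ∀ (n : ℕ) (σ : Fin n → MvPolynomial (Fin n) ℝ),
  (Admissible σ ∧ n ≤ nf σ + 1) ↔
    ∃! k : Fin 8, dm k ≤ n ∧ ∃ τ : Fin n → MvPolynomial (Fin n) ℝ, LinEquiv σ τ ∧ PP τ = NF n k

/-! ### F. The bound is attained -/

/-- **Shp.** For every `d ≥ 1` an indecomposable collection with `n = 3 d + 1` and `2 d + 1` irreducible factors.

Proof. Variables `x_0`, `a_j`, `b_j`, `c_j` (`j < d`), `F = (t + x_0) ∏_j (t + a_j) ((t + x_0)(t + b_j) - (t + a_j) c_j)`. (1) `t F` is `LinFree`: `F` is obtained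
by `y ↦ y + t p` from `f = y_0 ∏_j a_j (y_0 b_j - a_j c_j)` in `3 d + 1` variables (`p`: `1` at `y_0`, `a_j`, `b_j`, `0` at `c_j`; `MainB` for `f`, `f(p) = 1`). `f`
is `LinFree`: fields `E = y_0 ∂_(y_0) - Σ b_j ∂_(b_j)`, and for every `j` `a_j ∂_(a_j) - c_j ∂_(c_j)`, `b_j ∂_(b_j) + c_j ∂_(c_j)`, `a_j ∂_(b_j) + y_0 ∂_(c_j)`:
`(a_j ∂_(b_j) + y_0 ∂_(c_j)) (y_0 b_j - a_j c_j) = 0`; the determinant is block triangular: `y_0 ∏_j a_j det(b_j c_j; a_j y_0)`. Squarefree: different primes.
(2) `nf σ = 2 d + 1`: `t + x_0`, `t + a_j` are prime, and the quadratic factors are irreducible (degree one in `b_j`, coprime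
coefficients `t + x_0` and `(t + x_0) t - (t + a_j) c_j`). (3) Let `IsSum σ s α`, all `s j > 0`. Every `PP (α j)` is not constant and contains an irreducible factor
of `PP τ`; after the linear change `A` (fixing `t`) the factors of `F` are divided into groups with disjoint groups of variables `x`.
Call the group of a factor `G` the `j` with `G ∣ rename (PP (α j))`; `G` is then a polynomial in `t` and the variables of the group `j`
(a divisor of such a polynomial), and so is every derivative `∂_v G`. For `G = t + l` the linear form `l` is in the span `L_j` of the variables of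
the group; the `L_j` are independent subspaces. For the quadratic factor `Q_i` in the group `j` the derivative along `∂_(b_i)` is `t + x_0`
(a constant vector field; it is a combination of the `∂` of the new variables, those outside the group kill `Q_i`), so `x_0 ∈ L_j`; in the same way
the derivative along `∂_(c_i)` is `-(t + a_i)`: `a_i ∈ L_j`. As `x_0 ≠ 0` is in only one `L_j`, and `a_i ≠ 0` too, all factors are in
the group of `t + x_0`, so there is only one `j`. needs: nothing -/
def St_Shp : Prop := ∀ d : ℕ, 1 ≤ d → ∃ σ : Fin (3 * d + 1) → MvPolynomial (Fin (3 * d + 1)) ℝ,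
  Admissible σ ∧ nf σ = 2 * d + 1 ∧
    ∀ (J : Type) [Fintype J] (s : J → ℕ) (α : ∀ j, Fin (s j) → MvPolynomial (Fin (s j)) ℝ),
      (∀ j, 0 < s j) → IsSum σ s α → Fintype.card J = 1

end Pool.Agent.LFS
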